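import Mathlib

/-!
The number of the unit cells enclosed by a simple lattice loop (a discrete Jordan curve theorem),
and the shoelace formula.
-/

set_option autoImplicit false

namespace Pool.Agent.U262.AR

open Finset

/-- the edge from `f k` to `f (k+1)` is horizontal, joins the columns `x = a` and `x = a + 1`, and
has height larger than `b` -/
def Above (m : ℕ) (f : ZMod m → ℤ × ℤ) (a b : ℤ) (k : ZMod m) : Prop :=
  (((f k).1 = a ∧ (f (k + 1)).1 = a + 1) ∨ ((f k).1 = a + 1 ∧ (f (k + 1)).1 = a)) ∧ b < (f k).2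

/-- the unit cell `[a, a+1] × [b, b+1]` is enclosed by the loop -/
def Encl (m : ℕ) (f : ZMod m → ℤ × ℤ) (c : ℤ × ℤ) : Prop :=
  Odd (Nat.card {k : ZMod m // Above m f c.1 c.2 k})

/-- the number of unit cells enclosed by the loop -/
noncomputable def area (m : ℕ) (f : ZMod m → ℤ × ℤ) : ℕ := Nat.card {c : ℤ × ℤ // Encl m f c}

/-- signed edge above a cell -/
def Hs (p q : ℤ × ℤ) (a b : ℤ) : ℤ :=
  (if p.1 = a ∧ q.1 = a + 1 ∧ b < p.2 then 1 else 0) -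
    (if p.1 = a + 1 ∧ q.1 = a ∧ b < p.2 then 1 else 0)

/-- the signed number of the edges above a cell -/
def Nn {m : ℕ} [NeZero m] (f : ZMod m → ℤ × ℤ) (a b : ℤ) : ℤ := ∑ k, Hs (f k) (f (k + 1)) a b

/-- the signed use of an edge -/
def Us {m : ℕ} [NeZero m] (f : ZMod m → ℤ × ℤ) (v w : ℤ × ℤ) : ℤ :=
  ∑ k, ((if f k = v ∧ f (k + 1) = w then 1 else 0) - (if f k = w ∧ f (k + 1) = v then 1 else 0))

section

variable {m : ℕ} [NeZero m] {f : ZMod m → ℤ × ℤ}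

theorem Nn_vert (hs : ∀ i : ZMod m, |(f (i + 1)).1 - (f i).1| + |(f (i + 1)).2 - (f i).2| = 1)
    (a b : ℤ) : Nn f a (b - 1) - Nn f a b = Us f (a, b) (a + 1, b) := by
  unfold Nn Us
  rw [← Finset.sum_sub_distrib]
  apply Finset.sum_congr rfl
  intro k _
  have h := hs k
  generalize f k = p at h ⊢
  generalize f (k + 1) = q at h ⊢
  obtain ⟨p1, p2⟩ := p
  obtain ⟨q1, q2⟩ := q
  unfold Hs
  simp only [Prod.mk.injEq] at h ⊢
  rcases abs_cases (q1 - p1) with ⟨h1, _⟩ | ⟨h1, _⟩ <;>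
    rcases abs_cases (q2 - p2) with ⟨h2, _⟩ | ⟨h2, _⟩ <;> rw [h1, h2] at h <;>
    split_ifs <;> omega

theorem Nn_hor (hs : ∀ i : ZMod m, |(f (i + 1)).1 - (f i).1| + |(f (i + 1)).2 - (f i).2| = 1)
    (a b : ℤ) : Nn f a b - Nn f (a - 1) b = Us f (a, b) (a, b + 1) := by
  obtain ⟨φ, hφ⟩ : ∃ φ : ℤ × ℤ → ℤ, φ = fun p => if p.1 = a ∧ b < p.2 then 1 else 0 := ⟨_, rfl⟩
  have h0 : ∑ k : ZMod m, (φ (f (k + 1)) - φ (f k)) = 0 := by
    rw [Finset.sum_sub_distrib, sub_eq_zero]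
    exact Equiv.sum_comp (Equiv.addRight (1 : ZMod m)) fun k => φ (f k)
  have h1 : Nn f a b - Nn f (a - 1) b = Us f (a, b) (a, b + 1) -
      ∑ k : ZMod m, (φ (f (k + 1)) - φ (f k)) := by
    unfold Nn Us
    rw [← Finset.sum_sub_distrib, ← Finset.sum_sub_distrib]
    apply Finset.sum_congr rfl
    intro k _
    have h := hs k
    rw [hφ]
    generalize f k = p at h ⊢
    generalize f (k + 1) = q at h ⊢
    obtain ⟨p1, p2⟩ := p
    obtain ⟨q1, q2⟩ := q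
    unfold Hs
    simp only [Prod.mk.injEq] at h ⊢
    rcases abs_cases (q1 - p1) with ⟨h1, _⟩ | ⟨h1, _⟩ <;>
      rcases abs_cases (q2 - p2) with ⟨h2, _⟩ | ⟨h2, _⟩ <;> rw [h1, h2] at h <;>
      split_ifs <;> omega
  rw [h1, h0, sub_zero]

/-- an edge which is not used -/
theorem Us_zero (hi : Function.Injective f) (j : ZMod m) {w : ℤ × ℤ}
    (h1 : w ≠ f (j + 1)) (h2 : w ≠ f (j - 1)) : Us f (f j) w = 0 := by
  unfold Us
  apply Finset.sum_eq_zero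
  intro k _
  rw [if_neg, if_neg, sub_zero]
  · rintro ⟨h3, h4⟩
    have h5 := hi h4
    apply h2
    rw [← h3, ← h5, add_sub_cancel_right]
  · rintro ⟨h3, h4⟩
    have h5 := hi h3
    apply h1
    rw [← h4, h5]

theorem Us_anti (v w : ℤ × ℤ) : Us f v w = -Us f w v := by
  unfold Us
  rw [← Finset.sum_neg_distrib]
  apply Finset.sum_congr rfl
  intro k _
  ring

/-- an edge of the loop is used once -/
theorem Us_one (hi : Function.Injective f) (j : ZMod m) (h : f (j + 1 + 1) ≠ f j) :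
    Us f (f j) (f (j + 1)) = 1 := by
  unfold Us
  rw [Finset.sum_sub_distrib]
  have h1 : ∑ k : ZMod m, (if f k = f j ∧ f (k + 1) = f (j + 1) then (1 : ℤ) else 0) = 1 := by
    rw [Finset.sum_eq_single j]
    · simp
    · intro k _ hk
      rw [if_neg]
      rintro ⟨h3, -⟩
      exact hk (hi h3)
    · intro h; exact absurd (Finset.mem_univ _) h
  have h2 : ∑ k : ZMod m, (if f k = f (j + 1) ∧ f (k + 1) = f j then (1 : ℤ) else 0) = 0 := by
    apply Finset.sum_eq_zero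
    intro k _
    rw [if_neg]
    rintro ⟨h3, h4⟩
    have h5 := hi h3
    rw [h5] at h4
    exact h h4
  rw [h1, h2, sub_zero]

/-- the cell to the left of an edge -/
def lf (p q : ℤ × ℤ) : ℤ × ℤ :=
  (p.1 + (q.1 - p.1 - (q.2 - p.2) - 1) / 2, p.2 + (q.1 - p.1 + (q.2 - p.2) - 1) / 2)

/-- the value to the left -/
def NL (f : ZMod m → ℤ × ℤ) (k : ZMod m) : ℤ :=
  Nn f (lf (f k) (f (k + 1))).1 (lf (f k) (f (k + 1))).2

theorem NL_succ (hs : ∀ i : ZMod m, |(f (i + 1)).1 - (f i).1| + |(f (i + 1)).2 - (f i).2| = 1)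
    (hi : Function.Injective f) (k : ZMod m) (hne : f (k + 1 + 1) ≠ f k) :
    NL f (k + 1) = NL f k := by
  obtain ⟨a, b, hv⟩ : ∃ a b, f (k + 1) = (a, b) := ⟨_, _, rfl⟩
  obtain ⟨u1, u2, hu⟩ : ∃ u1 u2, f k = (u1, u2) := ⟨_, _, rfl⟩
  obtain ⟨w1, w2, hw⟩ : ∃ w1 w2, f (k + 1 + 1) = (w1, w2) := ⟨_, _, rfl⟩
  have h1 := hs k
  have h2 := hs (k + 1)
  rw [hv, hu] at h1
  rw [hv, hw] at h2
  simp only at h1 h2
  have hu' : f (k + 1 - 1) = (u1, u2) := by rw [add_sub_cancel_right, hu]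
  have z := @Us_zero m _ f hi (k + 1)
  rw [hw, hu', hv] at z
  -- the four edges at the vertex
  have gE := Nn_vert hs a b
  have gN := Nn_hor hs a b
  have gW := Nn_vert hs (a - 1) b
  have gS := Nn_hor hs a (b - 1)
  rw [sub_add_cancel, Us_anti] at gW
  rw [sub_add_cancel, Us_anti] at gS
  have zE : ((a + 1 = w1 ∧ b = w2) ∨ (a + 1 = u1 ∧ b = u2)) ∨ Us f (a, b) (a + 1, b) = 0 := by
    by_cases h : (a + 1 = w1 ∧ b = w2) ∨ (a + 1 = u1 ∧ b = u2)
    · exact Or.inl h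
    · push Not at h
      refine Or.inr (z ?_ ?_)
      · intro e; rw [Prod.mk.injEq] at e; exact h.1 e.1 e.2
      · intro e; rw [Prod.mk.injEq] at e; exact h.2 e.1 e.2
  have zN : ((a = w1 ∧ b + 1 = w2) ∨ (a = u1 ∧ b + 1 = u2)) ∨ Us f (a, b) (a, b + 1) = 0 := by
    by_cases h : (a = w1 ∧ b + 1 = w2) ∨ (a = u1 ∧ b + 1 = u2)
    · exact Or.inl h
    · push Not at h
      refine Or.inr (z ?_ ?_)
      · intro e; rw [Prod.mk.injEq] at e; exact h.1 e.1 e.2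
      · intro e; rw [Prod.mk.injEq] at e; exact h.2 e.1 e.2
  have zW : ((a - 1 = w1 ∧ b = w2) ∨ (a - 1 = u1 ∧ b = u2)) ∨ Us f (a, b) (a - 1, b) = 0 := by
    by_cases h : (a - 1 = w1 ∧ b = w2) ∨ (a - 1 = u1 ∧ b = u2)
    · exact Or.inl h
    · push Not at h
      refine Or.inr (z ?_ ?_)
      · intro e; rw [Prod.mk.injEq] at e; exact h.1 e.1 e.2
      · intro e; rw [Prod.mk.injEq] at e; exact h.2 e.1 e.2
  have zS : ((a = w1 ∧ b - 1 = w2) ∨ (a = u1 ∧ b - 1 = u2)) ∨ Us f (a, b) (a, b - 1) = 0 := by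
    by_cases h : (a = w1 ∧ b - 1 = w2) ∨ (a = u1 ∧ b - 1 = u2)
    · exact Or.inl h
    · push Not at h
      refine Or.inr (z ?_ ?_)
      · intro e; rw [Prod.mk.injEq] at e; exact h.1 e.1 e.2
      · intro e; rw [Prod.mk.injEq] at e; exact h.2 e.1 e.2
  -- the left cells
  have hL : (u1 = a - 1 ∧ u2 = b ∧ NL f k = Nn f (a - 1) b) ∨
      (u1 = a ∧ u2 = b - 1 ∧ NL f k = Nn f (a - 1) (b - 1)) ∨
      (u1 = a + 1 ∧ u2 = b ∧ NL f k = Nn f a (b - 1)) ∨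
      (u1 = a ∧ u2 = b + 1 ∧ NL f k = Nn f a b) := by
    have e : NL f k = Nn f (u1 + (a - u1 - (b - u2) - 1) / 2) (u2 + (a - u1 + (b - u2) - 1) / 2) := by
      unfold NL lf
      rw [hu, hv]
    rw [e]
    rcases abs_cases (a - u1) with ⟨h3, _⟩ | ⟨h3, _⟩ <;>
      rcases abs_cases (b - u2) with ⟨h4, _⟩ | ⟨h4, _⟩ <;> rw [h3, h4] at h1
    all_goals
      first
      | (have c1 : (u1 = a - 1 ∧ u2 = b) ∨ (u1 = a ∧ u2 = b - 1) ∨ (u1 = a + 1 ∧ u2 = b) ∨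
          (u1 = a ∧ u2 = b + 1) := by omega
         rcases c1 with ⟨c1, c2⟩ | ⟨c1, c2⟩ | ⟨c1, c2⟩ | ⟨c1, c2⟩
         · refine Or.inl ⟨c1, c2, ?_⟩
           congr 1 <;> omega
         · refine Or.inr (Or.inl ⟨c1, c2, ?_⟩)
           congr 1 <;> omega
         · refine Or.inr (Or.inr (Or.inl ⟨c1, c2, ?_⟩))
           congr 1 <;> omega
         · refine Or.inr (Or.inr (Or.inr ⟨c1, c2, ?_⟩))
           congr 1 <;> omega)
  have hL' : (w1 = a + 1 ∧ w2 = b ∧ NL f (k + 1) = Nn f a b) ∨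
      (w1 = a ∧ w2 = b + 1 ∧ NL f (k + 1) = Nn f (a - 1) b) ∨
      (w1 = a - 1 ∧ w2 = b ∧ NL f (k + 1) = Nn f (a - 1) (b - 1)) ∨
      (w1 = a ∧ w2 = b - 1 ∧ NL f (k + 1) = Nn f a (b - 1)) := by
    have e : NL f (k + 1) = Nn f (a + (w1 - a - (w2 - b) - 1) / 2)
        (b + (w1 - a + (w2 - b) - 1) / 2) := by
      unfold NL lf
      rw [hw, hv]
    rw [e]
    rcases abs_cases (w1 - a) with ⟨h3, _⟩ | ⟨h3, _⟩ <;>
      rcases abs_cases (w2 - b) with ⟨h4, _⟩ | ⟨h4, _⟩ <;> rw [h3, h4] at h2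
    all_goals
      first
      | (have c1 : (w1 = a + 1 ∧ w2 = b) ∨ (w1 = a ∧ w2 = b + 1) ∨ (w1 = a - 1 ∧ w2 = b) ∨
          (w1 = a ∧ w2 = b - 1) := by omega
         rcases c1 with ⟨c1, c2⟩ | ⟨c1, c2⟩ | ⟨c1, c2⟩ | ⟨c1, c2⟩
         · refine Or.inl ⟨c1, c2, ?_⟩
           congr 1 <;> omega
         · refine Or.inr (Or.inl ⟨c1, c2, ?_⟩)
           congr 1 <;> omega
         · refine Or.inr (Or.inr (Or.inl ⟨c1, c2, ?_⟩))
           congr 1 <;> omega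
         · refine Or.inr (Or.inr (Or.inr ⟨c1, c2, ?_⟩))
           congr 1 <;> omega)
  have hne' : ¬ (w1 = u1 ∧ w2 = u2) := by
    rintro ⟨e1, e2⟩
    exact hne (by rw [hw, hu, e1, e2])
  generalize Us f (a, b) (a + 1, b) = x1 at *
  generalize Us f (a, b) (a, b + 1) = x2 at *
  generalize Us f (a, b) (a - 1, b) = x3 at *
  generalize Us f (a, b) (a, b - 1) = x4 at *
  generalize Nn f a b = q1 at *
  generalize Nn f (a - 1) b = q2 at *
  generalize Nn f (a - 1) (b - 1) = q3 at *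
  generalize Nn f a (b - 1) = q4 at *
  generalize NL f (k + 1) = y1 at *
  generalize NL f k = y2 at *
  omega

end

end Pool.Agent.U262.AR
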