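import Pool.Agent.U262.AR.G1

/-!
The number of the enclosed cells is the shoelace sum.
-/

set_option autoImplicit false

namespace Pool.Agent.U262.AR

open Finset

section

variable {m : ℕ} [NeZero m] {f : ZMod m → ℤ × ℤ}

theorem ne_two (hm : 3 ≤ m) (hi : Function.Injective f) (k : ZMod m) : f (k + 1 + 1) ≠ f k := by
  intro h
  have h1 := hi h
  have h2 : ((2 : ℕ) : ZMod m) = 0 := by
    have h3 : k + 1 + 1 - k = 0 := by rw [h1, sub_self]
    have h4 : k + 1 + 1 - k = 1 + 1 := by ring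
    rw [h4] at h3
    push_cast
    rw [← h3]
    norm_num
  rw [ZMod.natCast_eq_zero_iff] at h2
  have := Nat.le_of_dvd (by norm_num) h2
  omega

theorem NL_const (hs : ∀ i : ZMod m, |(f (i + 1)).1 - (f i).1| + |(f (i + 1)).2 - (f i).2| = 1)
    (hi : Function.Injective f) (hm : 3 ≤ m) (k : ZMod m) : NL f k = NL f 0 := by
  have h : ∀ j : ℕ, NL f (j : ZMod m) = NL f 0 := by
    intro j
    induction j with
    | zero => rw [Nat.cast_zero]
    | succ j ih =>
      rw [Nat.cast_succ, NL_succ hs hi _ (ne_two hm hi _), ih]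
  have h1 := h k.val
  rwa [ZMod.natCast_zmod_val] at h1

/-- the values next to a horizontal edge -/
theorem next_E (hs : ∀ i : ZMod m, |(f (i + 1)).1 - (f i).1| + |(f (i + 1)).2 - (f i).2| = 1)
    (hi : Function.Injective f) (hm : 3 ≤ m) {k : ZMod m} {a b : ℤ} (h1 : f k = (a, b))
    (h2 : f (k + 1) = (a + 1, b)) : Nn f a b = NL f 0 ∧ Nn f a (b - 1) = NL f 0 + 1 := by
  have h3 : Nn f a b = NL f k := by
    unfold NL lf
    rw [h1, h2]
    congr 1
    · simp only; omega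
    · simp only; omega
  have h4 := Us_one hi k (ne_two hm hi k)
  rw [h1, h2] at h4
  have h5 := Nn_vert hs a b
  rw [NL_const hs hi hm] at h3
  constructor
  · exact h3
  · omega

theorem next_W (hs : ∀ i : ZMod m, |(f (i + 1)).1 - (f i).1| + |(f (i + 1)).2 - (f i).2| = 1)
    (hi : Function.Injective f) (hm : 3 ≤ m) {k : ZMod m} {a b : ℤ} (h1 : f k = (a + 1, b))
    (h2 : f (k + 1) = (a, b)) : Nn f a b = NL f 0 + 1 ∧ Nn f a (b - 1) = NL f 0 := by
  have h3 : Nn f a (b - 1) = NL f k := by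
    unfold NL lf
    rw [h1, h2]
    congr 1
    · simp only; omega
    · simp only; omega
  have h4 := Us_one hi k (ne_two hm hi k)
  rw [h1, h2, Us_anti] at h4
  have h5 := Nn_vert hs a b
  rw [NL_const hs hi hm] at h3
  constructor
  · omega
  · exact h3

theorem Us_cases {v w : ℤ × ℤ} (h : Us f v w ≠ 0) :
    (∃ k, f k = v ∧ f (k + 1) = w) ∨ (∃ k, f k = w ∧ f (k + 1) = v) := by
  by_contra hcon
  push Not at hcon
  apply h
  unfold Us
  apply Finset.sum_eq_zero
  intro k _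
  rw [if_neg (fun e => hcon.1 k e.1 e.2), if_neg (fun e => hcon.2 k e.1 e.2), sub_zero]

theorem Nn_high {a b : ℤ} (h : ∀ k, (f k).2 ≤ b) : Nn f a b = 0 := by
  unfold Nn
  apply Finset.sum_eq_zero
  intro k _
  have := h k
  unfold Hs
  rw [if_neg (by omega), if_neg (by omega), sub_zero]

theorem Nn_vals (hs : ∀ i : ZMod m, |(f (i + 1)).1 - (f i).1| + |(f (i + 1)).2 - (f i).2| = 1)
    (hi : Function.Injective f) (hm : 3 ≤ m) (a b : ℤ) :
    Nn f a b = 0 ∨ Nn f a b = NL f 0 ∨ Nn f a b = NL f 0 + 1 := by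
  obtain ⟨k0, hk0⟩ := Finite.exists_max (fun i : ZMod m => (f i).2)
  rcases le_or_gt (f k0).2 b with h | h
  · exact Or.inl (Nn_high fun k => (hk0 k).trans h)
  · have key : ∀ j : ℕ, Nn f a ((f k0).2 - j) = 0 ∨ Nn f a ((f k0).2 - j) = NL f 0 ∨
        Nn f a ((f k0).2 - j) = NL f 0 + 1 := by
      intro j
      induction j with
      | zero =>
        rw [Nat.cast_zero, sub_zero]
        exact Or.inl (Nn_high fun k => hk0 k)
      | succ j ih =>
        have e : (f k0).2 - ((j + 1 : ℕ) : ℤ) = (f k0).2 - j - 1 := by push_cast; ring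
        rw [e]
        have h1 := Nn_vert hs a ((f k0).2 - j)
        by_cases hU : Us f (a, (f k0).2 - j) (a + 1, (f k0).2 - j) = 0
        · rw [hU, sub_eq_zero] at h1
          rw [h1]
          exact ih
        · rcases Us_cases hU with ⟨k, h2, h3⟩ | ⟨k, h2, h3⟩
          · exact Or.inr (Or.inr (next_E hs hi hm h2 h3).2)
          · exact Or.inr (Or.inl (next_W hs hi hm h2 h3).2)
    have := key ((f k0).2 - b).toNat
    rw [Int.toNat_of_nonneg (by omega), sub_sub_cancel] at this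
    exact this

theorem NL_vals (hs : ∀ i : ZMod m, |(f (i + 1)).1 - (f i).1| + |(f (i + 1)).2 - (f i).2| = 1)
    (hi : Function.Injective f) (hm : 3 ≤ m) : NL f 0 = 0 ∨ NL f 0 = -1 := by
  obtain ⟨k0, hk0⟩ := Finite.exists_max (fun i : ZMod m => (f i).2)
  have key : ∀ k : ZMod m, (f (k + 1)).2 = (f k).2 → (f k).2 = (f k0).2 →
      NL f 0 = 0 ∨ NL f 0 = -1 := by
    intro k h1 h2
    have h3 := hs k
    rw [h1, sub_self, abs_zero, add_zero] at h3
    rcases abs_eq (by norm_num : (0 : ℤ) ≤ 1) |>.1 h3 with h4 | h4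
    · have h5 := (next_E hs hi hm (a := (f k).1) (b := (f k).2) rfl
        (Prod.ext (by simp only; omega) h1)).1
      rw [Nn_high fun j => h2 ▸ hk0 j] at h5
      exact Or.inl h5.symm
    · have h5 := (next_W hs hi hm (k := k) (a := (f (k + 1)).1) (b := (f k).2)
        (Prod.ext (by simp only; omega) rfl) (Prod.ext rfl h1)).1
      rw [Nn_high fun j => h2 ▸ hk0 j] at h5
      right
      omega
  have hw := hk0 (k0 + 1)
  have hu := hk0 (k0 - 1)
  have s1 := hs k0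
  have s2 := hs (k0 - 1)
  rw [sub_add_cancel] at s2
  rcases eq_or_ne (f (k0 + 1)).2 (f k0).2 with h | h
  · exact key k0 h rfl
  rcases eq_or_ne (f (k0 - 1)).2 (f k0).2 with h' | h'
  · refine key (k0 - 1) ?_ h'
    rw [sub_add_cancel]
    exact h'.symm
  exfalso
  have hne := ne_two hm hi (k0 - 1)
  rw [sub_add_cancel] at hne
  apply hne
  rcases abs_cases ((f (k0 + 1)).1 - (f k0).1) with ⟨e1, _⟩ | ⟨e1, _⟩ <;>
    rcases abs_cases ((f (k0 + 1)).2 - (f k0).2) with ⟨e2, _⟩ | ⟨e2, _⟩ <;>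
    rcases abs_cases ((f k0).1 - (f (k0 - 1)).1) with ⟨e3, _⟩ | ⟨e3, _⟩ <;>
    rcases abs_cases ((f k0).2 - (f (k0 - 1)).2) with ⟨e4, _⟩ | ⟨e4, _⟩ <;>
    rw [e1, e2] at s1 <;> rw [e3, e4] at s2 <;>
    exact Prod.ext (by omega) (by omega)

/-- the parity of the number of the edges above a cell -/
theorem encl_iff (hs : ∀ i : ZMod m, |(f (i + 1)).1 - (f i).1| + |(f (i + 1)).2 - (f i).2| = 1)
    (hi : Function.Injective f) (hm : 3 ≤ m) (c : ℤ × ℤ) :
    Encl m f c ↔ Nn f c.1 c.2 = 2 * NL f 0 + 1 := by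
  classical
  have h1 : (((Nat.card {k : ZMod m // Above m f c.1 c.2 k} : ℕ) : ℤ) : ZMod 2) =
      ((Nn f c.1 c.2 : ℤ) : ZMod 2) := by
    rw [Nat.card_eq_fintype_card, Fintype.card_subtype, Finset.card_filter]
    unfold Nn
    push_cast
    apply Finset.sum_congr rfl
    intro k _
    unfold Above Hs
    have h2 : (-1 : ZMod 2) = 1 := by decide
    by_cases e1 : ((f k).1 = c.1 ∧ (f (k + 1)).1 = c.1 + 1) ∧ c.2 < (f k).2
    · rw [if_pos ⟨Or.inl e1.1, e1.2⟩, if_pos ⟨e1.1.1, e1.1.2, e1.2⟩, if_neg (by omega)]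
      norm_num
    · by_cases e2 : ((f k).1 = c.1 + 1 ∧ (f (k + 1)).1 = c.1) ∧ c.2 < (f k).2
      · rw [if_pos ⟨Or.inr e2.1, e2.2⟩, if_neg (by omega), if_pos ⟨e2.1.1, e2.1.2, e2.2⟩]
        simp only [Int.cast_sub, Int.cast_zero, Int.cast_one, Nat.cast_one, zero_sub]
        exact h2.symm
      · rw [if_neg (by
          rintro ⟨e3 | e3, e4⟩
          · exact e1 ⟨e3, e4⟩
          · exact e2 ⟨e3, e4⟩), if_neg (fun e => e1 ⟨⟨e.1, e.2.1⟩, e.2.2⟩),
          if_neg (fun e => e2 ⟨⟨e.1, e.2.1⟩, e.2.2⟩)]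
        norm_num
  have h2 : Encl m f c ↔ Odd (Nn f c.1 c.2) := by
    unfold Encl
    rw [← Int.odd_coe_nat, Int.odd_iff, Int.odd_iff]
    have h3 := (ZMod.intCast_eq_intCast_iff_dvd_sub _ _ 2).1 h1
    omega
  rw [h2, Int.odd_iff]
  have h3 := Nn_vals hs hi hm c.1 c.2
  have h4 := NL_vals hs hi hm
  omega

theorem Nn_low (hs : ∀ i : ZMod m, |(f (i + 1)).1 - (f i).1| + |(f (i + 1)).2 - (f i).2| = 1)
    {a b : ℤ} (h : ∀ k, b < (f k).2) : Nn f a b = 0 := by
  obtain ⟨φ, hφ⟩ : ∃ φ : ℤ × ℤ → ℤ, φ = fun p => if a < p.1 then 1 else 0 := ⟨_, rfl⟩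
  have h0 : ∑ k : ZMod m, (φ (f (k + 1)) - φ (f k)) = 0 := by
    rw [Finset.sum_sub_distrib, sub_eq_zero]
    exact Equiv.sum_comp (Equiv.addRight (1 : ZMod m)) fun k => φ (f k)
  rw [← h0]
  unfold Nn
  apply Finset.sum_congr rfl
  intro k _
  have h1 := hs k
  have h2 := h k
  rw [hφ]
  generalize f k = p at h1 h2 ⊢
  generalize f (k + 1) = q at h1 ⊢
  obtain ⟨p1, p2⟩ := p
  obtain ⟨q1, q2⟩ := q
  unfold Hs
  simp only at h1 h2 ⊢
  rcases abs_cases (q1 - p1) with ⟨h3, _⟩ | ⟨h3, _⟩ <;>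
    rcases abs_cases (q2 - p2) with ⟨h4, _⟩ | ⟨h4, _⟩ <;> rw [h3, h4] at h1 <;>
    split_ifs <;> omega

/-- one edge -/
theorem sum_Hs {M : ℤ} {p q : ℤ × ℤ} (h : |q.1 - p.1| ≤ 1) (hp : |p.1| ≤ M)
    (hp2 : |p.2| ≤ M) (hq : |q.1| ≤ M) :
    ∑ a ∈ Icc (-M) M, ∑ b ∈ Icc (-M) M, Hs p q a b = (q.1 - p.1) * (p.2 + M) := by
  rw [abs_le] at h hp hp2 hq
  have hin : ∀ (A : Prop) [Decidable A], ∑ b ∈ Icc (-M) M, (if A ∧ b < p.2 then (1 : ℤ) else 0) =
      if A then p.2 + M else 0 := by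
    intro A _
    by_cases hA : A
    · simp only [hA, true_and, if_true]
      rw [← Finset.sum_filter, Finset.sum_const, nsmul_eq_mul, mul_one]
      have e : (Icc (-M) M).filter (fun b => b < p.2) = Ico (-M) p.2 := by
        ext b
        rw [Finset.mem_filter, Finset.mem_Icc, Finset.mem_Ico]
        omega
      rw [e, Int.card_Ico]
      rw [Int.toNat_of_nonneg (by omega)]
      ring
    · simp [hA]
  have e1 : ∀ a, ∑ b ∈ Icc (-M) M, Hs p q a b =
      (if p.1 = a ∧ q.1 = a + 1 then p.2 + M else 0) -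
        (if p.1 = a + 1 ∧ q.1 = a then p.2 + M else 0) := by
    intro a
    unfold Hs
    rw [Finset.sum_sub_distrib, ← hin (p.1 = a ∧ q.1 = a + 1), ← hin (p.1 = a + 1 ∧ q.1 = a)]
    simp only [and_assoc]
  rw [Finset.sum_congr rfl fun a _ => e1 a, Finset.sum_sub_distrib]
  have e2 : ∑ a ∈ Icc (-M) M, (if p.1 = a ∧ q.1 = a + 1 then p.2 + M else 0) =
      if q.1 = p.1 + 1 then p.2 + M else 0 := by
    rw [Finset.sum_eq_single p.1]
    · simp
    · intro a _ ha
      rw [if_neg (fun e => ha e.1.symm)]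
    · intro hn
      exact absurd (Finset.mem_Icc.2 ⟨by omega, by omega⟩) hn
  have e3 : ∑ a ∈ Icc (-M) M, (if p.1 = a + 1 ∧ q.1 = a then p.2 + M else 0) =
      if p.1 = q.1 + 1 then p.2 + M else 0 := by
    rw [Finset.sum_eq_single q.1]
    · simp
    · intro a _ ha
      rw [if_neg (fun e => ha e.2.symm)]
    · intro hn
      exact absurd (Finset.mem_Icc.2 ⟨by omega, by omega⟩) hn
  rw [e2, e3]
  rcases (by omega : q.1 = p.1 + 1 ∨ q.1 = p.1 ∨ p.1 = q.1 + 1) with e | e | e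
  · rw [if_pos e, if_neg (by omega), e]; ring
  · rw [if_neg (by omega), if_neg (by omega), e]; ring
  · rw [if_neg (by omega), if_pos e, e]; ring

/-- **The area is the shoelace sum.** -/
theorem area_eq (hs : ∀ i : ZMod m, |(f (i + 1)).1 - (f i).1| + |(f (i + 1)).2 - (f i).2| = 1)
    (hi : Function.Injective f) (hm : 3 ≤ m) :
    (area m f : ℤ) = |∑ k : ZMod m, (f k).1 * ((f (k + 1)).2 - (f k).2)| := by
  classical
  -- the box
  obtain ⟨M, hM⟩ : ∃ M : ℤ, ∀ k, |(f k).1| ≤ M ∧ |(f k).2| ≤ M := by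
    obtain ⟨k1, hk1⟩ := Finite.exists_max (fun i : ZMod m => |(f i).1| + |(f i).2|)
    refine ⟨|(f k1).1| + |(f k1).2|, fun k => ?_⟩
    have h1 := hk1 k
    have h2 := abs_nonneg (f k).1
    have h3 := abs_nonneg (f k).2
    constructor <;> omega
  have hM0 : 0 ≤ M := (abs_nonneg _).trans (hM 0).1
  have hstep : ∀ k, |(f (k + 1)).1 - (f k).1| ≤ 1 := by
    intro k
    have h1 := hs k
    have h2 := abs_nonneg ((f (k + 1)).2 - (f k).2)
    omega
  have h2 := NL_vals hs hi hm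
  -- the enclosed cells are in the box
  have hbox : ∀ c : ℤ × ℤ, Encl m f c → c ∈ Icc (-M) M ×ˢ Icc (-M) M := by
    intro c hc
    rw [encl_iff hs hi hm] at hc
    have hne : Nn f c.1 c.2 ≠ 0 := by omega
    rw [Finset.mem_product, Finset.mem_Icc, Finset.mem_Icc]
    have b1 : c.2 < M := by
      by_contra hcon
      push Not at hcon
      exact hne (Nn_high fun k => ((abs_le.1 (hM k).2).2).trans hcon)
    have b2 : -M ≤ c.2 := by
      by_contra hcon
      push Not at hcon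
      exact hne (Nn_low hs fun k => lt_of_lt_of_le hcon (abs_le.1 (hM k).2).1)
    have b3 : ∃ k, Hs (f k) (f (k + 1)) c.1 c.2 ≠ 0 := by
      by_contra hcon
      push Not at hcon
      exact hne (Finset.sum_eq_zero fun k _ => hcon k)
    obtain ⟨k, hk⟩ := b3
    have b4 : (f k).1 = c.1 ∨ (f (k + 1)).1 = c.1 := by
      by_contra hcon
      push Not at hcon
      apply hk
      unfold Hs
      rw [if_neg (fun e => hcon.1 e.1), if_neg (fun e => hcon.2 e.2.1), sub_zero]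
    have b5 := abs_le.1 (hM k).1
    have b6 := abs_le.1 (hM (k + 1)).1
    omega
  have h3 : area m f = ((Icc (-M) M ×ˢ Icc (-M) M).filter (fun c => Encl m f c)).card := by
    unfold area
    have e1 : {c : ℤ × ℤ | Encl m f c} =
        (((Icc (-M) M ×ˢ Icc (-M) M).filter (fun c => Encl m f c) : Finset (ℤ × ℤ)) :
          Set (ℤ × ℤ)) := by
      ext c
      rw [Finset.coe_filter, Set.mem_setOf_eq, Set.mem_setOf_eq]
      exact ⟨fun h => ⟨hbox c h, h⟩, fun h => h.2⟩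
    have e2 : Nat.card {c : ℤ × ℤ // Encl m f c} = {c : ℤ × ℤ | Encl m f c}.ncard :=
      Nat.card_coe_set_eq _
    rw [e2, e1, Set.ncard_coe_finset]
  have h4 : ∑ c ∈ Icc (-M) M ×ˢ Icc (-M) M, Nn f c.1 c.2 = (2 * NL f 0 + 1) * area m f := by
    rw [h3, Finset.card_filter]
    push_cast
    rw [Finset.mul_sum]
    apply Finset.sum_congr rfl
    intro c _
    have e1 := encl_iff hs hi hm c
    have e2 := Nn_vals hs hi hm c.1 c.2
    by_cases h : Encl m f c
    · rw [if_pos h, mul_one]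
      exact e1.1 h
    · rw [if_neg h, mul_zero]
      have e3 : ¬ Nn f c.1 c.2 = 2 * NL f 0 + 1 := fun e => h (e1.2 e)
      omega
  have h5 : ∑ c ∈ Icc (-M) M ×ˢ Icc (-M) M, Nn f c.1 c.2 =
      ∑ k : ZMod m, ((f (k + 1)).1 - (f k).1) * ((f k).2 + M) := by
    rw [Finset.sum_product]
    unfold Nn
    have e1 : ∀ a, ∑ b ∈ Icc (-M) M, ∑ k : ZMod m, Hs (f k) (f (k + 1)) a b =
        ∑ k : ZMod m, ∑ b ∈ Icc (-M) M, Hs (f k) (f (k + 1)) a b := fun a => Finset.sum_comm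
    simp only [e1]
    rw [Finset.sum_comm]
    apply Finset.sum_congr rfl
    intro k _
    exact sum_Hs (hstep k) (hM k).1 (hM k).2 (hM (k + 1)).1
  have h6 : ∑ k : ZMod m, ((f (k + 1)).1 - (f k).1) = 0 := by
    rw [Finset.sum_sub_distrib, sub_eq_zero]
    exact Equiv.sum_comp (Equiv.addRight (1 : ZMod m)) fun k => (f k).1
  have h7 : ∑ k : ZMod m, ((f (k + 1)).1 * (f (k + 1)).2 - (f k).1 * (f k).2) = 0 := by
    rw [Finset.sum_sub_distrib, sub_eq_zero]
    exact Equiv.sum_comp (Equiv.addRight (1 : ZMod m)) fun k => (f k).1 * (f k).2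
  have h8 : ∑ k : ZMod m, ((f (k + 1)).1 - (f k).1) * ((f k).2 + M) =
      -∑ k : ZMod m, (f k).1 * ((f (k + 1)).2 - (f k).2) := by
    have e1 : ∀ k : ZMod m, ((f (k + 1)).1 - (f k).1) * ((f k).2 + M) =
        ((f (k + 1)).1 * (f (k + 1)).2 - (f k).1 * (f k).2) +
        M * ((f (k + 1)).1 - (f k).1) - (f k).1 * ((f (k + 1)).2 - (f k).2) := by
      intro k
      have e2 : ((f (k + 1)).1 - (f k).1) * ((f (k + 1)).2 - (f k).2) = 0 := by
        have e3 := hs k
        rcases abs_cases ((f (k + 1)).1 - (f k).1) with ⟨e4, _⟩ | ⟨e4, _⟩ <;>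
          rcases abs_cases ((f (k + 1)).2 - (f k).2) with ⟨e5, _⟩ | ⟨e5, _⟩ <;>
          rw [e4, e5] at e3 <;>
          rw [mul_eq_zero] <;> omega
      linear_combination -e2
    rw [Finset.sum_congr rfl fun k _ => e1 k, Finset.sum_sub_distrib, Finset.sum_add_distrib, h7,
      ← Finset.mul_sum, h6, mul_zero, add_zero, zero_sub]
  rw [h5, h8] at h4
  have h9 : (0 : ℤ) ≤ area m f := Int.natCast_nonneg _
  rcases h2 with h | h
  · rw [h] at h4
    rw [← abs_neg, h4, abs_of_nonneg (by linarith)]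
    ring
  · rw [h] at h4
    rw [abs_of_nonneg (by linarith)]
    linarith

end

end Pool.Agent.U262.AR
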