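import Mathlib

/-!
An isoperimetric inequality for closed polygons, by the method of E. Schmidt.
-/

set_option autoImplicit false

namespace Pool.Agent.U262.AR

open Finset MeasureTheory intervalIntegral

section body

variable (k : ℕ) (X Y : ℕ → ℝ) (lam : ℝ)

/-- the break points -/
noncomputable def cc (j : ℕ) : ℝ := lam * ∑ l ∈ Ico j k, X l

noncomputable def mn (j : ℕ) (s : ℝ) : ℝ := min |s| (cc k X lam j)

noncomputable def ta (j : ℕ) (s : ℝ) : ℝ :=
  1 - (mn k X lam j s - mn k X lam (j + 1) s) / (lam * X j)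

/-- the upper boundary of the convex body -/
noncomputable def ps (s : ℝ) : ℝ := lam * ∑ j ∈ range k, Y j * ta k X lam j s

variable {k X Y lam}

theorem cc_succ {j : ℕ} (hj : j < k) : cc k X lam j = cc k X lam (j + 1) + lam * X j := by
  unfold cc
  rw [Finset.sum_eq_sum_Ico_succ_bot hj]
  ring

theorem cc_end : cc k X lam k = 0 := by
  unfold cc
  simp

theorem cc_nonneg (hl : 0 < lam) (hX : ∀ j, 0 < X j) (j : ℕ) : 0 ≤ cc k X lam j := by
  unfold cc
  exact mul_nonneg hl.le (Finset.sum_nonneg fun l _ => (hX l).le)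

theorem cc_le (hl : 0 < lam) (hX : ∀ j, 0 < X j) (j : ℕ) : cc k X lam j ≤ cc k X lam 0 := by
  unfold cc
  apply mul_le_mul_of_nonneg_left _ hl.le
  apply Finset.sum_le_sum_of_subset_of_nonneg
  · intro x hx
    rw [Finset.mem_Ico] at hx ⊢
    omega
  · intro x _ _
    exact (hX x).le

theorem mn_diff (hl : 0 < lam) (hX : ∀ j, 0 < X j) {j : ℕ} (hj : j < k) (s : ℝ) :
    0 ≤ mn k X lam j s - mn k X lam (j + 1) s ∧
      mn k X lam j s - mn k X lam (j + 1) s ≤ lam * X j := by
  have h1 := cc_succ (X := X) (lam := lam) hj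
  have h2 : 0 < lam * X j := mul_pos hl (hX j)
  unfold mn
  rw [h1]
  rcases le_total |s| (cc k X lam (j + 1)) with h | h
  · rw [min_eq_left h, min_eq_left (by linarith)]
    constructor <;> linarith
  · rw [min_eq_right h]
    rcases le_total |s| (cc k X lam (j + 1) + lam * X j) with h' | h'
    · rw [min_eq_left h']
      constructor <;> linarith
    · rw [min_eq_right h']
      constructor <;> linarith

theorem ta_mem (hl : 0 < lam) (hX : ∀ j, 0 < X j) {j : ℕ} (hj : j < k) (s : ℝ) :
    0 ≤ ta k X lam j s ∧ ta k X lam j s ≤ 1 := by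
  obtain ⟨h1, h2⟩ := mn_diff hl hX hj s
  have h3 : 0 < lam * X j := mul_pos hl (hX j)
  unfold ta
  have h4 : (mn k X lam j s - mn k X lam (j + 1) s) / (lam * X j) ≤ 1 := by
    rw [div_le_one h3]; exact h2
  have h5 : 0 ≤ (mn k X lam j s - mn k X lam (j + 1) s) / (lam * X j) := div_nonneg h1 h3.le
  constructor <;> linarith

theorem sum_ta (hl : 0 < lam) (hX : ∀ j, 0 < X j) {s : ℝ} (hs : |s| ≤ cc k X lam 0) :
    ∑ j ∈ range k, lam * X j * (1 - ta k X lam j s) = |s| := by
  have h1 : ∀ j ∈ range k, lam * X j * (1 - ta k X lam j s) =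
      -(mn k X lam (j + 1) s - mn k X lam j s) := by
    intro j _
    have h3 : lam * X j ≠ 0 := (mul_pos hl (hX j)).ne'
    unfold ta
    obtain ⟨A, hA⟩ : ∃ A, A = lam * X j := ⟨_, rfl⟩
    rw [← hA] at h3 ⊢
    field_simp
    ring
  rw [Finset.sum_congr rfl h1, Finset.sum_neg_distrib,
    Finset.sum_range_sub (fun j => mn k X lam j s)]
  unfold mn
  rw [cc_end, min_eq_right (abs_nonneg s), min_eq_left hs]
  ring

/-- the pointwise bound -/
theorem ps_bound (hl : 0 < lam) (hX : ∀ j, 0 < X j) {s α β : ℝ} (hs : |s| ≤ cc k X lam 0) :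
    |s| * α + ps k X Y lam s * β ≤ lam * ∑ j ∈ range k, max (X j * α) (Y j * β) := by
  rw [← sum_ta hl hX hs]
  unfold ps
  rw [Finset.sum_mul, Finset.mul_sum, Finset.sum_mul, ← Finset.sum_add_distrib, Finset.mul_sum]
  apply Finset.sum_le_sum
  intro j hj
  rw [Finset.mem_range] at hj
  obtain ⟨h1, h2⟩ := ta_mem hl hX hj s
  have h3 : (1 - ta k X lam j s) * (X j * α) + ta k X lam j s * (Y j * β) ≤
      max (X j * α) (Y j * β) := by
    have g1 := mul_le_mul_of_nonneg_left (le_max_left (X j * α) (Y j * β))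
      (by linarith : 0 ≤ 1 - ta k X lam j s)
    have g2 := mul_le_mul_of_nonneg_left (le_max_right (X j * α) (Y j * β)) h1
    linarith
  calc lam * X j * (1 - ta k X lam j s) * α + lam * (Y j * ta k X lam j s) * β
      = lam * ((1 - ta k X lam j s) * (X j * α) + ta k X lam j s * (Y j * β)) := by ring
    _ ≤ _ := mul_le_mul_of_nonneg_left h3 hl.le

theorem cont_mn (j : ℕ) : Continuous (mn k X lam j) := by
  unfold mn
  exact continuous_abs.min continuous_const

theorem cont_ta (j : ℕ) : Continuous (ta k X lam j) := by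
  unfold ta
  exact continuous_const.sub (((cont_mn j).sub (cont_mn (j + 1))).div_const _)

theorem cont_ps : Continuous (ps k X Y lam) := by
  unfold ps
  exact continuous_const.mul (continuous_finsetSum _ fun j _ => continuous_const.mul (cont_ta j))

theorem int_abs {c : ℝ} (hc : 0 ≤ c) : ∫ s in (-c)..c, |s| = c ^ 2 := by
  have h1 : ∫ s in (-c)..0, |s| = ∫ s in (-c)..0, -s := by
    apply integral_congr
    intro s hs
    rw [Set.uIcc_of_le (by linarith)] at hs
    exact abs_of_nonpos hs.2
  have h2 : ∫ s in (0 : ℝ)..c, |s| = ∫ s in (0 : ℝ)..c, s := by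
    apply integral_congr
    intro s hs
    rw [Set.uIcc_of_le hc] at hs
    exact abs_of_nonneg hs.1
  rw [← integral_add_adjacent_intervals (b := 0) (continuous_abs.intervalIntegrable _ _)
    (continuous_abs.intervalIntegrable _ _), h1, h2, intervalIntegral.integral_neg, integral_id,
    integral_id]
  ring

theorem int_min {b c : ℝ} (hc : 0 ≤ c) (hcb : c ≤ b) : ∫ s in (-b)..b, min |s| c = 2 * b * c - c ^ 2 := by
  have hcont : Continuous fun s : ℝ => min |s| c := continuous_abs.min continuous_const
  have h1 : ∫ s in (-b)..(-c), min |s| c = ∫ s in (-b)..(-c), c := by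
    apply integral_congr
    intro s hs
    rw [Set.uIcc_of_le (by linarith)] at hs
    apply min_eq_right
    rw [abs_of_nonpos (by linarith [hs.2])]
    linarith [hs.2]
  have h2 : ∫ s in (-c)..c, min |s| c = ∫ s in (-c)..c, |s| := by
    apply integral_congr
    intro s hs
    rw [Set.uIcc_of_le (by linarith)] at hs
    exact min_eq_left (abs_le.2 hs)
  have h3 : ∫ s in c..b, min |s| c = ∫ s in c..b, c := by
    apply integral_congr
    intro s hs
    rw [Set.uIcc_of_le hcb] at hs
    apply min_eq_right
    exact hs.1.trans (le_abs_self _)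
  rw [← integral_add_adjacent_intervals (b := -c) (hcont.intervalIntegrable _ _)
    (hcont.intervalIntegrable _ _), ← integral_add_adjacent_intervals (a := -c) (b := c)
    (hcont.intervalIntegrable _ _) (hcont.intervalIntegrable _ _), h1, h2, h3, int_abs hc,
    intervalIntegral.integral_const, intervalIntegral.integral_const]
  simp only [smul_eq_mul]
  ring

theorem int_ta (hl : 0 < lam) (hX : ∀ j, 0 < X j) {j : ℕ} (hj : j < k) :
    ∫ s in (-cc k X lam 0)..cc k X lam 0, ta k X lam j s = cc k X lam j + cc k X lam (j + 1) := by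
  have h3 : lam * X j ≠ 0 := (mul_pos hl (hX j)).ne'
  have e1 : ∫ s in (-cc k X lam 0)..cc k X lam 0, ta k X lam j s =
      (∫ s in (-cc k X lam 0)..cc k X lam 0, (1 : ℝ)) -
        ((∫ s in (-cc k X lam 0)..cc k X lam 0, mn k X lam j s) -
          ∫ s in (-cc k X lam 0)..cc k X lam 0, mn k X lam (j + 1) s) / (lam * X j) := by
    unfold ta
    rw [intervalIntegral.integral_sub (f := fun _ => (1 : ℝ))
      (g := fun s => (mn k X lam j s - mn k X lam (j + 1) s) / (lam * X j))
      (continuous_const.intervalIntegrable _ _)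
      ((((cont_mn j).sub (cont_mn (j + 1))).div_const _).intervalIntegrable _ _),
      intervalIntegral.integral_div, intervalIntegral.integral_sub
      (f := fun s => mn k X lam j s) (g := fun s => mn k X lam (j + 1) s)
      ((cont_mn j).intervalIntegrable _ _) ((cont_mn (j + 1)).intervalIntegrable _ _)]
  rw [e1]
  unfold mn
  rw [int_min (cc_nonneg hl hX j) (cc_le hl hX j), int_min (cc_nonneg hl hX (j + 1))
    (cc_le hl hX (j + 1)), intervalIntegral.integral_const]
  have h4 := cc_succ (X := X) (lam := lam) hj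
  have h5 : lam * X j = cc k X lam j - cc k X lam (j + 1) := by linarith
  rw [h5] at h3 ⊢
  simp only [smul_eq_mul]
  field_simp
  ring

theorem int_ps (hl : 0 < lam) (hX : ∀ j, 0 < X j) :
    ∫ s in (-cc k X lam 0)..cc k X lam 0, ps k X Y lam s =
      lam * ∑ j ∈ range k, Y j * (cc k X lam j + cc k X lam (j + 1)) := by
  unfold ps
  rw [intervalIntegral.integral_const_mul, intervalIntegral.integral_finset_sum]
  · congr 1
    apply Finset.sum_congr rfl
    intro j hj
    rw [Finset.mem_range] at hj
    rw [intervalIntegral.integral_const_mul, int_ta hl hX hj]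
  · intro j _
    exact (continuous_const.mul (cont_ta j)).intervalIntegrable _ _

/-- the double sum over pairs -/
theorem double_sum (k : ℕ) (g : ℕ → ℕ → ℝ) (hg : ∀ i j, g i j = g j i) :
    ∑ i ∈ range k, ∑ j ∈ range k, g i j =
      ∑ j ∈ range k, (2 * ∑ l ∈ Ico (j + 1) k, g j l + g j j) := by
  induction k with
  | zero => simp
  | succ k ih =>
    have h1 : ∑ i ∈ range (k + 1), ∑ j ∈ range (k + 1), g i j =
        (∑ i ∈ range k, ∑ j ∈ range k, g i j) + 2 * ∑ i ∈ range k, g i k + g k k := by
      rw [Finset.sum_range_succ]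
      have h2 : ∑ i ∈ range k, ∑ j ∈ range (k + 1), g i j =
          ∑ i ∈ range k, ∑ j ∈ range k, g i j + ∑ i ∈ range k, g i k := by
        rw [← Finset.sum_add_distrib]
        exact Finset.sum_congr rfl fun i _ => Finset.sum_range_succ _ _
      have h3 : ∑ j ∈ range (k + 1), g k j = ∑ i ∈ range k, g i k + g k k := by
        rw [Finset.sum_range_succ]
        congr 1
        exact Finset.sum_congr rfl fun i _ => hg k i
      rw [h2, h3]
      ring
    rw [h1, ih, Finset.sum_range_succ]
    have h4 : ∀ j ∈ range k, (2 * ∑ l ∈ Ico (j + 1) (k + 1), g j l + g j j) =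
        (2 * ∑ l ∈ Ico (j + 1) k, g j l + g j j) + 2 * g j k := by
      intro j hj
      rw [Finset.mem_range] at hj
      rw [Finset.sum_Ico_succ_top (by omega)]
      ring
    rw [Finset.sum_congr rfl h4]
    simp only [Finset.sum_add_distrib, Finset.mul_sum, Finset.Ico_self, Finset.sum_empty]
    ring

/-- the area of the sorted body -/
theorem int_sorted (hl : 0 < lam) (hX : ∀ j, 0 < X j)
    (hsort : ∀ i j, i < j → j < k → X i * Y j ≤ X j * Y i) :
    ∫ s in (-cc k X lam 0)..cc k X lam 0, ps k X Y lam s =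
      lam ^ 2 * ∑ i ∈ range k, ∑ j ∈ range k, max (X i * Y j) (X j * Y i) := by
  rw [int_ps hl hX, double_sum k (fun i j => max (X i * Y j) (X j * Y i))
    (fun i j => max_comm _ _), Finset.mul_sum, Finset.mul_sum]
  apply Finset.sum_congr rfl
  intro j hj
  rw [Finset.mem_range] at hj
  have h1 : ∑ l ∈ Ico (j + 1) k, max (X j * Y l) (X l * Y j) = Y j * ∑ l ∈ Ico (j + 1) k, X l := by
    rw [Finset.mul_sum]
    apply Finset.sum_congr rfl
    intro l hl
    rw [Finset.mem_Ico] at hl
    rw [max_eq_right (hsort j l (by omega) hl.2)]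
    ring
  rw [h1, max_self, cc_succ hj]
  unfold cc
  ring

/-- the inequality for one step -/
theorem step_ineq (hl : 0 < lam) (hX : ∀ j, 0 < X j) (hY : ∀ j, 0 < Y j) {x x' η : ℝ}
    (hx : |x| ≤ cc k X lam 0) (hx' : |x'| ≤ cc k X lam 0) :
    |(x + x') / 2 * η| + |∫ s in x..x', ps k X Y lam s| ≤
      lam * ∑ j ∈ range k, max (X j * |η|) (Y j * |x' - x|) := by
  wlog hxx : x ≤ x' generalizing x x' with H
  · have := H hx' hx (le_of_not_ge hxx)
    rw [add_comm x x', integral_symm, abs_neg, abs_sub_comm x' x]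
    exact this
  have hps0 : ∀ s, 0 ≤ ps k X Y lam s := by
    intro s
    unfold ps
    apply mul_nonneg hl.le
    apply Finset.sum_nonneg
    intro j hj
    rw [Finset.mem_range] at hj
    exact mul_nonneg (hY j).le (ta_mem hl hX hj s).1
  rcases eq_or_lt_of_le hxx with h | h
  · subst h
    rw [integral_same, abs_zero, add_zero, sub_self, abs_zero, add_self_div_two, abs_mul]
    have h1 : ∑ j ∈ range k, max (X j * |η|) (Y j * 0) = (∑ j ∈ range k, X j) * |η| := by
      rw [Finset.sum_mul]
      apply Finset.sum_congr rfl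
      intro j _
      rw [mul_zero, max_eq_left (mul_nonneg (hX j).le (abs_nonneg _))]
    rw [h1, ← mul_assoc]
    apply mul_le_mul_of_nonneg_right _ (abs_nonneg _)
    unfold cc at hx
    rwa [Finset.range_eq_Ico]
  · obtain ⟨Hs, hHs⟩ : ∃ Hs, Hs = lam * ∑ j ∈ range k, max (X j * |η|) (Y j * |x' - x|) := ⟨_, rfl⟩
    rw [← hHs]
    have hd : 0 < x' - x := by linarith
    have hcabs : Continuous fun s : ℝ => |s| * |η| + ps k X Y lam s * |x' - x| :=
      (continuous_abs.mul continuous_const).add (cont_ps.mul continuous_const)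
    have h1 : ∫ s in x..x', (|s| * |η| + ps k X Y lam s * |x' - x|) ≤ ∫ s in x..x', Hs := by
      apply integral_mono_on h.le (hcabs.intervalIntegrable _ _)
        (continuous_const.intervalIntegrable _ _)
      intro s hs
      rw [hHs]
      apply ps_bound hl hX
      rw [abs_le] at hx hx' ⊢
      constructor
      · linarith [hs.1]
      · linarith [hs.2]
    rw [intervalIntegral.integral_const, smul_eq_mul, intervalIntegral.integral_add
      (f := fun s => |s| * |η|) (g := fun s => ps k X Y lam s * |x' - x|)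
      ((continuous_abs.mul continuous_const).intervalIntegrable _ _)
      ((cont_ps.mul continuous_const).intervalIntegrable _ _),
      intervalIntegral.integral_mul_const, intervalIntegral.integral_mul_const, abs_of_pos hd] at h1
    have h2 : |(x + x') / 2| * (x' - x) ≤ ∫ s in x..x', |s| := by
      have g1 := abs_integral_le_integral_abs (f := fun s : ℝ => s) (μ := volume) h.le
      rw [integral_id] at g1
      refine le_trans (le_of_eq ?_) g1
      rw [show (x' ^ 2 - x ^ 2) / 2 = (x + x') / 2 * (x' - x) by ring, abs_mul, abs_of_pos hd]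
    have h3 : 0 ≤ ∫ s in x..x', ps k X Y lam s := integral_nonneg h.le fun s _ => hps0 s
    rw [abs_of_nonneg h3, abs_mul]
    have h4 := mul_le_mul_of_nonneg_right h2 (abs_nonneg η)
    have h5 : (|(x + x') / 2| * |η| + ∫ s in x..x', ps k X Y lam s) * (x' - x) ≤ Hs * (x' - x) := by
      nlinarith
    exact le_of_mul_le_mul_right h5 hd

end body

end Pool.Agent.U262.AR
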