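import Pool.Agent.U262.AR.I1

/-!
The isoperimetric inequality for closed polygons.
-/

set_option autoImplicit false

namespace Pool.Agent.U262.AR

open Finset MeasureTheory intervalIntegral Filter Topology

/-- the inequality of E. Schmidt -/
theorem schmidt {k q a : ℕ} {X Y : ℕ → ℝ} {lam : ℝ} (hl : 0 < lam) (hX : ∀ j, 0 < X j)
    (hY : ∀ j, 0 < Y j) (hsort : ∀ i j, i < j → j < k → X i * Y j ≤ X j * Y i) {px py : ℕ → ℝ}
    (haq : a ≤ q) (h0 : px 0 = cc k X lam 0) (hq : px q = cc k X lam 0)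
    (ha : px a = -cc k X lam 0) (hb : ∀ i ≤ q, |px i| ≤ cc k X lam 0) :
    ∑ i ∈ range q, (px i + px (i + 1)) / 2 * (py (i + 1) - py i) +
      2 * (lam ^ 2 * ∑ i ∈ range k, ∑ j ∈ range k, max (X i * Y j) (X j * Y i)) ≤
    lam * ∑ i ∈ range q, ∑ j ∈ range k,
      max (X j * |py (i + 1) - py i|) (Y j * |px (i + 1) - px i|) := by
  rw [← int_sorted hl hX hsort]
  obtain ⟨w, hw⟩ : ∃ w, w = cc k X lam 0 := ⟨_, rfl⟩
  obtain ⟨F, hF⟩ : ∃ F : ℝ → ℝ, F = ps k X Y lam := ⟨_, rfl⟩
  have hFc : Continuous F := by rw [hF]; exact cont_ps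
  have hint : ∀ u v : ℝ, IntervalIntegrable F volume u v := fun u v => hFc.intervalIntegrable u v
  have hstep : ∀ i < q, (px i + px (i + 1)) / 2 * (py (i + 1) - py i) +
      |∫ s in px i..px (i + 1), F s| ≤
      lam * ∑ j ∈ range k, max (X j * |py (i + 1) - py i|) (Y j * |px (i + 1) - px i|) := by
    intro i hi
    have h1 := step_ineq (η := py (i + 1) - py i) hl hX hY (hb i hi.le) (hb (i + 1) hi)
    have h2 := le_abs_self ((px i + px (i + 1)) / 2 * (py (i + 1) - py i))
    rw [hF]
    linarith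
  have hs1 : ∑ i ∈ range a, ∫ s in px i..px (i + 1), F s = ∫ s in px 0..px a, F s :=
    sum_integral_adjacent_intervals fun i _ => hint _ _
  have hs2 : ∑ i ∈ Ico a q, ∫ s in px i..px (i + 1), F s = ∫ s in px a..px q, F s :=
    sum_integral_adjacent_intervals_Ico haq fun i _ => hint _ _
  rw [← hw] at h0 hq ha ⊢
  rw [← hF]
  rw [h0, ha, integral_symm] at hs1
  rw [ha, hq] at hs2
  have hsplit : ∀ g : ℕ → ℝ, ∑ i ∈ range q, g i = ∑ i ∈ range a, g i + ∑ i ∈ Ico a q, g i := by
    intro g
    rw [Finset.range_eq_Ico, Finset.range_eq_Ico, Finset.sum_Ico_consecutive _ (Nat.zero_le a) haq]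
  rw [Finset.mul_sum, hsplit, hsplit (fun i => lam * ∑ j ∈ range k,
    max (X j * |py (i + 1) - py i|) (Y j * |px (i + 1) - px i|))]
  have g1 : ∑ i ∈ range a, (px i + px (i + 1)) / 2 * (py (i + 1) - py i) -
      ∑ i ∈ range a, ∫ s in px i..px (i + 1), F s ≤ ∑ i ∈ range a, lam * ∑ j ∈ range k,
      max (X j * |py (i + 1) - py i|) (Y j * |px (i + 1) - px i|) := by
    rw [← Finset.sum_sub_distrib]
    apply Finset.sum_le_sum
    intro i hi
    rw [Finset.mem_range] at hi
    have g2 := hstep i (by omega)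
    have g3 := neg_abs_le (∫ s in px i..px (i + 1), F s)
    linarith
  have g2 : ∑ i ∈ Ico a q, (px i + px (i + 1)) / 2 * (py (i + 1) - py i) +
      ∑ i ∈ Ico a q, ∫ s in px i..px (i + 1), F s ≤ ∑ i ∈ Ico a q, lam * ∑ j ∈ range k,
      max (X j * |py (i + 1) - py i|) (Y j * |px (i + 1) - px i|) := by
    rw [← Finset.sum_add_distrib]
    apply Finset.sum_le_sum
    intro i hi
    rw [Finset.mem_Ico] at hi
    have g2 := hstep i hi.2
    have g3 := le_abs_self (∫ s in px i..px (i + 1), F s)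
    linarith
  rw [hs1] at g1
  rw [hs2] at g2
  linarith

/-- sorting by the slopes -/
theorem exists_sort (q : ℕ) (X0 Y0 : ℕ → ℝ) (hX : ∀ j, 0 < X0 j) (hY : ∀ j, 0 < Y0 j) :
    ∃ X Y : ℕ → ℝ, (∀ j, 0 < X j) ∧ (∀ j, 0 < Y j) ∧
      (∀ i j, i < j → j < q → X i * Y j ≤ X j * Y i) ∧
      ∀ G : ℝ → ℝ → ℝ, ∑ j ∈ range q, G (X j) (Y j) = ∑ j ∈ range q, G (X0 j) (Y0 j) := by
  obtain ⟨f, hf⟩ : ∃ f : Fin q → ℝ, f = fun j : Fin q => -(Y0 (j : ℕ) / X0 (j : ℕ)) := ⟨_, rfl⟩
  have hmono := Tuple.monotone_sort f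
  obtain ⟨σ, hσ⟩ : ∃ σ, σ = Tuple.sort f := ⟨_, rfl⟩
  rw [← hσ] at hmono
  refine ⟨fun j => if h : j < q then X0 (σ ⟨j, h⟩) else 1,
    fun j => if h : j < q then Y0 (σ ⟨j, h⟩) else 1, ?_, ?_, ?_, ?_⟩
  · intro j
    simp only
    split_ifs
    · exact hX _
    · exact one_pos
  · intro j
    simp only
    split_ifs
    · exact hY _
    · exact one_pos
  · intro i j hij hj
    have hi : i < q := by omega
    simp only [hi, hj, dif_pos]
    have h1 := hmono (show (⟨i, hi⟩ : Fin q) ≤ ⟨j, hj⟩ from hij.le)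
    simp only [Function.comp, hf] at h1
    have h2 : Y0 (σ ⟨j, hj⟩) / X0 (σ ⟨j, hj⟩) ≤ Y0 (σ ⟨i, hi⟩) / X0 (σ ⟨i, hi⟩) := by linarith
    rw [div_le_div_iff₀ (hX _) (hX _)] at h2
    linarith
  · intro G
    rw [Finset.sum_range, Finset.sum_range]
    have h1 : ∀ j : Fin q, G (if h : (j : ℕ) < q then X0 (σ ⟨j, h⟩) else 1)
        (if h : (j : ℕ) < q then Y0 (σ ⟨j, h⟩) else 1) = G (X0 (σ j)) (Y0 (σ j)) := by
      intro j
      simp only [j.2, dif_pos]
    rw [Finset.sum_congr rfl fun j _ => h1 j]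
    exact Equiv.sum_comp σ (fun j : Fin q => G (X0 j) (Y0 j))

/-- **The isoperimetric inequality.** -/
theorem iso {q : ℕ} {px py : ℕ → ℝ} (hxq : px q = px 0) (hyq : py q = py 0)
    (hmax : ∀ i ≤ q, px i ≤ px 0) :
    ∑ i ∈ range q, (px i + px (i + 1)) / 2 * (py (i + 1) - py i) ≤
      1 / 8 * ∑ i ∈ range q, ∑ j ∈ range q,
        max (|px (i + 1) - px i| * |py (j + 1) - py j|)
          (|px (j + 1) - px j| * |py (i + 1) - py i|) := by
  obtain ⟨A, hA⟩ : ∃ A, A = ∑ i ∈ range q, (px i + px (i + 1)) / 2 * (py (i + 1) - py i) := ⟨_, rfl⟩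
  rw [← hA]
  obtain ⟨xi, hxi⟩ : ∃ xi : ℕ → ℝ, ∀ i, xi i = |px (i + 1) - px i| := ⟨_, fun _ => rfl⟩
  obtain ⟨et, het⟩ : ∃ et : ℕ → ℝ, ∀ i, et i = |py (i + 1) - py i| := ⟨_, fun _ => rfl⟩
  have hxi0 : ∀ i, 0 ≤ xi i := fun i => by rw [hxi]; exact abs_nonneg _
  have het0 : ∀ i, 0 ≤ et i := fun i => by rw [het]; exact abs_nonneg _
  simp only [← hxi, ← het]
  have hclosed : ∀ c : ℝ, A = ∑ i ∈ range q, ((px i - c) + (px (i + 1) - c)) / 2 *
      (py (i + 1) - py i) := by
    intro c
    have h1 : ∑ i ∈ range q, (py (i + 1) - py i) = 0 := by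
      rw [Finset.sum_range_sub, hyq, sub_self]
    have h2 : ∑ i ∈ range q, ((px i - c) + (px (i + 1) - c)) / 2 * (py (i + 1) - py i) =
        ∑ i ∈ range q, (px i + px (i + 1)) / 2 * (py (i + 1) - py i) -
          c * ∑ i ∈ range q, (py (i + 1) - py i) := by
      rw [Finset.mul_sum, ← Finset.sum_sub_distrib]
      apply Finset.sum_congr rfl
      intro i _
      ring
    rw [h2, h1, hA]
    ring
  -- the minimum
  obtain ⟨a, ha, hmin⟩ := Finset.exists_min_image (range (q + 1)) px ⟨0, by simp⟩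
  rw [Finset.mem_range] at ha
  have hmin' : ∀ i ≤ q, px a ≤ px i := fun i hi => hmin i (by rw [Finset.mem_range]; omega)
  -- perturbation
  have key : ∀ t : ℝ, 0 < t → A ≤ 1 / 8 * ∑ i ∈ range q, ∑ j ∈ range q,
      max ((xi i + t) * (et j + t)) ((xi j + t) * (et i + t)) := by
    intro t ht
    obtain ⟨D, hD⟩ : ∃ D, D = ∑ i ∈ range q, ∑ j ∈ range q,
      max ((xi i + t) * (et j + t)) ((xi j + t) * (et i + t)) := ⟨_, rfl⟩
    rw [← hD]
    have hD0 : 0 ≤ D := by
      rw [hD]
      apply Finset.sum_nonneg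
      intro i _
      apply Finset.sum_nonneg
      intro j _
      apply le_max_of_le_left
      exact mul_nonneg (by linarith [hxi0 i]) (by linarith [het0 j])
    rcases eq_or_lt_of_le (hmin' 0 (Nat.zero_le _)) with hw | hw
    · -- degenerate case
      have h1 : ∀ i ≤ q, px i = px 0 := fun i hi =>
        le_antisymm (hmax i hi) (hw ▸ hmin' i hi)
      have h2 := hclosed (px 0)
      have h3 : ∑ i ∈ range q, ((px i - px 0) + (px (i + 1) - px 0)) / 2 *
          (py (i + 1) - py i) = 0 := by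
        apply Finset.sum_eq_zero
        intro i hi
        rw [Finset.mem_range] at hi
        rw [h1 i hi.le, h1 (i + 1) hi]
        ring
      rw [h2, h3]
      positivity
    · have hq0 : 0 < q := by
        rcases Nat.eq_zero_or_pos q with h | h
        · subst h
          have : a = 0 := by omega
          subst this
          exact absurd hw (lt_irrefl _)
        · exact h
      obtain ⟨X, Y, hX, hY, hsort, hG⟩ := exists_sort q (fun j => xi j + t) (fun j => et j + t)
        (fun j => by have := hxi0 j; linarith) (fun j => by have := het0 j; linarith)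
      obtain ⟨w, hwd⟩ : ∃ w, w = (px 0 - px a) / 2 := ⟨_, rfl⟩
      have hw0 : 0 < w := by rw [hwd]; linarith
      obtain ⟨SX, hSX⟩ : ∃ SX, SX = ∑ l ∈ Ico 0 q, X l := ⟨_, rfl⟩
      have hSX0 : 0 < SX := by
        rw [hSX]
        exact Finset.sum_pos (fun l _ => hX l) ⟨0, by rw [Finset.mem_Ico]; omega⟩
      obtain ⟨lam, hlam⟩ : ∃ lam, lam = w / SX := ⟨_, rfl⟩
      have hl : 0 < lam := by rw [hlam]; positivity
      have hcc : cc q X lam 0 = w := by
        unfold cc
        rw [← hSX, hlam]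
        field_simp
      have hs := schmidt (k := q) (q := q) (a := a) (px := fun i => px i - (px 0 + px a) / 2)
        (py := py) hl hX hY hsort (by omega) (by rw [hcc, hwd]; ring)
        (by rw [hcc, hwd, hxq]; ring) (by rw [hcc, hwd]; ring)
        (by
          intro i hi
          rw [hcc, hwd, abs_le]
          have g1 := hmin' i hi
          have g2 := hmax i hi
          constructor <;> linarith)
      rw [← hclosed] at hs
      simp only [sub_sub_sub_cancel_right] at hs
      -- the sums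
      have e1 : ∑ i ∈ range q, ∑ j ∈ range q, max (X i * Y j) (X j * Y i) = D := by
        have g1 : ∀ i, ∑ j ∈ range q, max (X i * Y j) (X j * Y i) =
            ∑ j ∈ range q, max (X i * (et j + t)) ((xi j + t) * Y i) := fun i =>
          hG (fun u v => max (X i * v) (u * Y i))
        simp only [g1]
        rw [hG (fun u v => ∑ j ∈ range q, max (u * (et j + t)) ((xi j + t) * v)), hD]
      have e2 : ∑ i ∈ range q, ∑ j ∈ range q,
          max (X j * |py (i + 1) - py i|) (Y j * |px (i + 1) - px i|) ≤ D := by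
        simp only [← hxi, ← het]
        have g1 : ∀ i, ∑ j ∈ range q, max (X j * et i) (Y j * xi i) =
            ∑ j ∈ range q, max ((xi j + t) * et i) ((et j + t) * xi i) := fun i =>
          hG (fun u v => max (u * et i) (v * xi i))
        simp only [g1]
        rw [hD]
        apply Finset.sum_le_sum
        intro i _
        apply Finset.sum_le_sum
        intro j _
        have b1 := hxi0 j
        have b2 := het0 j
        have b3 := hxi0 i
        have b4 := het0 i
        rw [max_comm]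
        apply max_le_max
        · nlinarith
        · nlinarith
      rw [e1] at hs
      have h5 := mul_le_mul_of_nonneg_left e2 hl.le
      nlinarith [mul_nonneg hD0 (sq_nonneg (4 * lam - 1))]
  -- the limit
  have hcont : Continuous fun t : ℝ => 1 / 8 * ∑ i ∈ range q, ∑ j ∈ range q,
      max ((xi i + t) * (et j + t)) ((xi j + t) * (et i + t)) := by
    apply continuous_const.mul
    apply continuous_finsetSum
    intro i _
    apply continuous_finsetSum
    intro j _
    exact ((continuous_const.add continuous_id).mul (continuous_const.add continuous_id)).max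
      ((continuous_const.add continuous_id).mul (continuous_const.add continuous_id))
  have hlim := (hcont.tendsto 0).mono_left (nhdsWithin_le_nhds (s := Set.Ioi (0 : ℝ)))
  have h6 := ge_of_tendsto hlim (by
    filter_upwards [self_mem_nhdsWithin] with t ht
    exact key t ht)
  simpa using h6

end Pool.Agent.U262.AR
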