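import Pool.Agent.U262.AR.U6

/-!
The Minkowski inequality for the area functional; the convexity of `J(s ^ 2)`.
-/

set_option autoImplicit false

namespace Pool.Agent.U262.AR

open Pool.Agent.TH795.EP Pool.Agent.TH795.EP2 Pool.Agent.TH795.SE2 Pool.Agent.TH262.SawL H981 Finset
open Pool.Agent.Y981.L2 Pool.Agent.U262.SW
open Filter Topology

/-- the kernel `min` is positive semidefinite -/
theorem psd_min {ι : Type*} [DecidableEq ι] (v : ι → ℝ) : ∀ (N : ℕ) (s : Finset ι) (r : ι → ℝ),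
    s.card = N → (∀ i ∈ s, 0 ≤ r i) → 0 ≤ ∑ i ∈ s, ∑ j ∈ s, v i * v j * min (r i) (r j) := by
  intro N
  induction N with
  | zero =>
    intro s r hs _
    rw [Finset.card_eq_zero.1 hs]
    simp
  | succ N ih =>
    intro s r hs hr
    have hne : s.Nonempty := Finset.card_pos.1 (by omega)
    obtain ⟨i0, hi0, hmin⟩ := Finset.exists_min_image s r hne
    have h1 := ih (s.erase i0) (fun i => r i - r i0) (by rw [Finset.card_erase_of_mem hi0]; omega)
      (fun i hi => by have := hmin i (Finset.mem_of_mem_erase hi); linarith)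
    have h2 : ∑ i ∈ s, ∑ j ∈ s, v i * v j * min (r i) (r j) =
        r i0 * (∑ i ∈ s, v i) ^ 2 +
          ∑ i ∈ s, ∑ j ∈ s, v i * v j * min (r i - r i0) (r j - r i0) := by
      rw [sq, Finset.sum_mul_sum, Finset.mul_sum, ← Finset.sum_add_distrib]
      apply Finset.sum_congr rfl
      intro i _
      rw [Finset.mul_sum, ← Finset.sum_add_distrib]
      apply Finset.sum_congr rfl
      intro j _
      rw [min_sub_sub_right]
      ring
    have h3 : ∑ i ∈ s, ∑ j ∈ s, v i * v j * min (r i - r i0) (r j - r i0) =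
        ∑ i ∈ s.erase i0, ∑ j ∈ s.erase i0, v i * v j * min (r i - r i0) (r j - r i0) := by
      rw [← Finset.sum_erase s (a := i0)]
      · apply Finset.sum_congr rfl
        intro i hi
        rw [← Finset.sum_erase s (a := i0)]
        have := hmin i (Finset.mem_of_mem_erase hi)
        rw [sub_self, min_eq_right (by linarith), mul_zero]
      · apply Finset.sum_eq_zero
        intro j hj
        have := hmin j hj
        rw [sub_self, min_eq_left (by linarith), mul_zero]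
    rw [h2, h3]
    have h4 : 0 ≤ r i0 * (∑ i ∈ s, v i) ^ 2 := mul_nonneg (hr i0 hi0) (sq_nonneg _)
    linarith

theorem psd_cross {ι : Type*} [Fintype ι] (u x y : ι → ℝ) (hx : ∀ i, 0 ≤ x i) (hy : ∀ i, 0 ≤ y i) :
    0 ≤ ∑ i, ∑ j, u i * (u j * min (x i * y j) (x j * y i)) := by
  classical
  have h := psd_min (fun i => u i * y i) _ Finset.univ (fun i => x i / y i) rfl
    (fun i _ => div_nonneg (hx i) (hy i))
  refine h.trans (le_of_eq ?_)
  apply Finset.sum_congr rfl
  intro i _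
  apply Finset.sum_congr rfl
  intro j _
  rcases (hy i).eq_or_lt with h1 | h1
  · rw [← h1, mul_zero, mul_zero, zero_mul, zero_mul, min_eq_right (mul_nonneg (hx i) (hy j)),
      mul_zero, mul_zero]
  rcases (hy j).eq_or_lt with h2 | h2
  · rw [← h2, mul_zero, mul_zero, mul_zero, zero_mul, min_eq_left (mul_nonneg (hx j) (hy i)),
      mul_zero, mul_zero]
  have e : u i * y i * (u j * y j) * min (x i / y i) (x j / y j) =
      u i * (u j * (y i * y j * min (x i / y i) (x j / y j))) := by ring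
  rw [e, mul_min_of_nonneg _ _ (mul_pos h1 h2).le]
  congr 3
  · field_simp
  · field_simp

/-- the mixed area -/
noncomputable def mx {ι κ : Type*} [Fintype ι] [Fintype κ] (p x y : ι → ℝ) (q z w : κ → ℝ) : ℝ :=
  1 / 2 * ∑ i, ∑ j, p i * (q j * max (x i * w j) (z j * y i))

/-- the mixed minimum -/
noncomputable def mn2 {ι κ : Type*} [Fintype ι] [Fintype κ] (p x y : ι → ℝ) (q z w : κ → ℝ) : ℝ :=
  ∑ i, ∑ j, p i * (q j * min (x i * w j) (z j * y i))

theorem mx_eq {ι κ : Type*} [Fintype ι] [Fintype κ] (p x y : ι → ℝ) (q z w : κ → ℝ) :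
    mx p x y q z w = 1 / 2 * ((∑ i, p i * x i) * (∑ j, q j * w j) +
      (∑ i, p i * y i) * (∑ j, q j * z j)) - 1 / 2 * mn2 p x y q z w := by
  unfold mx mn2
  rw [Finset.sum_mul_sum, Finset.sum_mul_sum, ← mul_sub, ← Finset.sum_add_distrib,
    ← Finset.sum_sub_distrib]
  congr 1
  apply Finset.sum_congr rfl
  intro i _
  rw [← Finset.sum_add_distrib, ← Finset.sum_sub_distrib]
  apply Finset.sum_congr rfl
  intro j _
  have h := max_add_min (x i * w j) (z j * y i)
  have h2 : max (x i * w j) (z j * y i) =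
      x i * w j + z j * y i - min (x i * w j) (z j * y i) := by linarith
  rw [h2]
  ring

theorem mn2_quad {ι κ : Type*} [Fintype ι] [Fintype κ] (p x y : ι → ℝ) (q z w : κ → ℝ)
    (hx : ∀ i, 0 ≤ x i) (hy : ∀ i, 0 ≤ y i) (hz : ∀ j, 0 ≤ z j) (hw : ∀ j, 0 ≤ w j) (α β : ℝ) :
    0 ≤ α ^ 2 * mn2 p x y p x y - 2 * α * β * mn2 p x y q z w + β ^ 2 * mn2 q z w q z w := by
  have h := psd_cross (ι := ι ⊕ κ) (Sum.elim (fun i => α * p i) (fun j => -β * q j))
    (Sum.elim x z) (Sum.elim y w)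
    (by rintro (i | j); exacts [hx i, hz j]) (by rintro (i | j); exacts [hy i, hw j])
  simp only [Fintype.sum_sum_type, Sum.elim_inl, Sum.elim_inr] at h
  have e1 : ∑ i, (∑ j, α * p i * (α * p j * min (x i * y j) (x j * y i)) +
      ∑ j, α * p i * (-β * q j * min (x i * w j) (z j * y i))) =
      α ^ 2 * mn2 p x y p x y - α * β * mn2 p x y q z w := by
    unfold mn2
    rw [Finset.sum_add_distrib, Finset.mul_sum, Finset.mul_sum, sub_eq_add_neg,
      ← Finset.sum_neg_distrib]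
    congr 1
    · apply Finset.sum_congr rfl
      intro i _
      rw [Finset.mul_sum]
      apply Finset.sum_congr rfl
      intro j _
      ring
    · apply Finset.sum_congr rfl
      intro i _
      rw [Finset.mul_sum, ← Finset.sum_neg_distrib]
      apply Finset.sum_congr rfl
      intro j _
      ring
  have e2 : ∑ i, (∑ j, -β * q i * (α * p j * min (z i * y j) (x j * w i)) +
      ∑ j, -β * q i * (-β * q j * min (z i * w j) (z j * w i))) =
      β ^ 2 * mn2 q z w q z w - α * β * mn2 p x y q z w := by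
    unfold mn2
    rw [Finset.sum_add_distrib]
    have e3 : ∑ i, ∑ j, -β * q i * (α * p j * min (z i * y j) (x j * w i)) =
        -(α * β * ∑ i, ∑ j, p i * (q j * min (x i * w j) (z j * y i))) := by
      rw [Finset.sum_comm, Finset.mul_sum, ← Finset.sum_neg_distrib]
      apply Finset.sum_congr rfl
      intro i _
      rw [Finset.mul_sum, ← Finset.sum_neg_distrib]
      apply Finset.sum_congr rfl
      intro j _
      rw [min_comm]
      ring
    have e4 : ∑ i, ∑ j, -β * q i * (-β * q j * min (z i * w j) (z j * w i)) =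
        β ^ 2 * ∑ i, ∑ j, q i * (q j * min (z i * w j) (z j * w i)) := by
      rw [Finset.mul_sum]
      apply Finset.sum_congr rfl
      intro i _
      rw [Finset.mul_sum]
      apply Finset.sum_congr rfl
      intro j _
      ring
    rw [e3, e4]
    ring
  rw [e1, e2] at h
  linarith

theorem mn2_nonneg {ι κ : Type*} [Fintype ι] [Fintype κ] (p x y : ι → ℝ) (q z w : κ → ℝ)
    (hp : ∀ i, 0 ≤ p i) (hx : ∀ i, 0 ≤ x i) (hy : ∀ i, 0 ≤ y i) (hq : ∀ j, 0 ≤ q j)
    (hz : ∀ j, 0 ≤ z j) (hw : ∀ j, 0 ≤ w j) : 0 ≤ mn2 p x y q z w := by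
  unfold mn2
  apply Finset.sum_nonneg
  intro i _
  apply Finset.sum_nonneg
  intro j _
  apply mul_nonneg (hp i)
  apply mul_nonneg (hq j)
  exact le_min (mul_nonneg (hx i) (hw j)) (mul_nonneg (hz j) (hy i))

/-- **The Minkowski inequality** -/
theorem minkowski {ι κ : Type*} [Fintype ι] [Fintype κ] (p x y : ι → ℝ) (q z w : κ → ℝ)
    (hp : ∀ i, 0 ≤ p i) (hx : ∀ i, 0 ≤ x i) (hy : ∀ i, 0 ≤ y i)
    (hq : ∀ j, 0 ≤ q j) (hz : ∀ j, 0 ≤ z j) (hw : ∀ j, 0 ≤ w j)
    {s t : ℝ} (hs : 0 ≤ s) (ht : 0 ≤ t) (h1 : s ^ 2 ≤ mx p x y p x y)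
    (h2 : t ^ 2 ≤ mx q z w q z w) : s * t ≤ mx p x y q z w := by
  obtain ⟨X, hX⟩ : ∃ X, X = ∑ i, p i * x i := ⟨_, rfl⟩
  obtain ⟨Y, hY⟩ : ∃ Y, Y = ∑ i, p i * y i := ⟨_, rfl⟩
  obtain ⟨Z, hZ⟩ : ∃ Z, Z = ∑ j, q j * z j := ⟨_, rfl⟩
  obtain ⟨W, hW⟩ : ∃ W, W = ∑ j, q j * w j := ⟨_, rfl⟩
  have hX0 : 0 ≤ X := by rw [hX]; exact Finset.sum_nonneg fun i _ => mul_nonneg (hp i) (hx i)
  have hZ0 : 0 ≤ Z := by rw [hZ]; exact Finset.sum_nonneg fun i _ => mul_nonneg (hq i) (hz i)
  have a1 := mx_eq p x y p x y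
  have a2 := mx_eq q z w q z w
  have a3 := mx_eq p x y q z w
  rw [← hX, ← hY] at a1
  rw [← hZ, ← hW] at a2
  rw [← hX, ← hY, ← hZ, ← hW] at a3
  have hB : 0 ≤ mx p x y q z w := by
    unfold mx
    apply mul_nonneg (by norm_num)
    apply Finset.sum_nonneg
    intro i _
    apply Finset.sum_nonneg
    intro j _
    apply mul_nonneg (hp i)
    apply mul_nonneg (hq j)
    exact (mul_nonneg (hx i) (hw j)).trans (le_max_left _ _)
  have n1 := mn2_nonneg p x y p x y hp hx hy hp hx hy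
  have n2 := mn2_nonneg q z w q z w hq hz hw hq hz hw
  rcases hX0.eq_or_lt with h | h
  · have : s ^ 2 ≤ 0 := by rw [← h] at a1; nlinarith
    have hs0 : s = 0 := by nlinarith
    rw [hs0, zero_mul]
    exact hB
  rcases hZ0.eq_or_lt with h' | h'
  · have : t ^ 2 ≤ 0 := by rw [← h'] at a2; nlinarith
    have ht0 : t = 0 := by nlinarith
    rw [ht0, mul_zero]
    exact hB
  have key := mn2_quad p x y q z w hx hy hz hw Z X
  have k2 : Z ^ 2 * mx p x y p x y + X ^ 2 * mx q z w q z w ≤ 2 * X * Z * mx p x y q z w := by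
    rw [a1, a2, a3]
    nlinarith
  have k3 : Z ^ 2 * s ^ 2 + X ^ 2 * t ^ 2 ≤ 2 * X * Z * mx p x y q z w := by
    have e1 := mul_le_mul_of_nonneg_left h1 (sq_nonneg Z)
    have e2 := mul_le_mul_of_nonneg_left h2 (sq_nonneg X)
    linarith
  have k4 : 2 * X * Z * (s * t) ≤ 2 * X * Z * mx p x y q z w := by
    nlinarith [sq_nonneg (Z * s - X * t)]
  have hXZ : 0 < 2 * X * Z := by positivity
  exact le_of_mul_le_mul_left k4 hXZ

/-- mixing of two laws -/
theorem cs_mix2 {s t θ : ℝ} (hs : 0 ≤ s) (ht : 0 ≤ t) (hθ : 0 ≤ θ) (hθ1 : θ ≤ 1) {C C' : ℝ}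
    (hC : C ∈ CS s) (hC' : C' ∈ CS t) :
    (1 - θ) * C + θ * C' ∈ CS (((1 - θ) * √s + θ * √t) ^ 2) := by
  obtain ⟨k, p, x, y, hp, h1, hx, hy, hxy, ha, rfl⟩ := hC
  obtain ⟨l, q, z, w, hq, h2, hz, hw, hzw, hb, rfl⟩ := hC'
  have h1θ : 0 ≤ 1 - θ := by linarith
  obtain ⟨P, hP⟩ : ∃ P : Fin k ⊕ Fin l → ℝ, P = Sum.elim (fun i => (1 - θ) * p i)
    (fun j => θ * q j) := ⟨_, rfl⟩
  obtain ⟨X, hX⟩ : ∃ X : Fin k ⊕ Fin l → ℝ, X = Sum.elim x z := ⟨_, rfl⟩
  obtain ⟨Y, hY⟩ : ∃ Y : Fin k ⊕ Fin l → ℝ, Y = Sum.elim y w := ⟨_, rfl⟩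
  obtain ⟨e, he⟩ : ∃ e : Fin (k + l) ≃ Fin k ⊕ Fin l, e = finSumFinEquiv.symm := ⟨_, rfl⟩
  have hsum : ∀ F : Fin k ⊕ Fin l → ℝ, ∑ i : Fin (k + l), F (e i) = ∑ i, F i :=
    fun F => Equiv.sum_comp e F
  refine ⟨k + l, P ∘ e, X ∘ e, Y ∘ e, ?_, ?_, ?_, ?_, ?_, ?_, ?_⟩
  · intro i
    simp only [Function.comp]
    rw [hP]
    rcases e i with j | j
    · exact mul_nonneg h1θ (hp j)
    · exact mul_nonneg hθ (hq j)
  · simp only [Function.comp]
    rw [hsum P, hP, Fintype.sum_sum_type]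
    simp only [Sum.elim_inl, Sum.elim_inr]
    rw [← Finset.mul_sum, ← Finset.mul_sum, h1, h2]
    ring
  · intro i
    simp only [Function.comp]
    rw [hX]
    rcases e i with j | j
    exacts [hx j, hz j]
  · intro i
    simp only [Function.comp]
    rw [hY]
    rcases e i with j | j
    exacts [hy j, hw j]
  · intro i
    simp only [Function.comp]
    rw [hX, hY]
    rcases e i with j | j
    exacts [hxy j, hzw j]
  · have e1 : ar2 (P ∘ e) (X ∘ e) (Y ∘ e) =
        1 / 2 * ∑ i, ∑ j, P i * (P j * max (X i * Y j) (X j * Y i)) := by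
      unfold ar2
      simp only [Function.comp]
      rw [← hsum (fun i => ∑ j, P i * (P j * max (X i * Y j) (X j * Y i)))]
      congr 1
      apply Finset.sum_congr rfl
      intro i _
      exact hsum (fun j => P (e i) * (P j * max (X (e i) * Y j) (X j * Y (e i))))
    have e2 : 1 / 2 * ∑ i, ∑ j, P i * (P j * max (X i * Y j) (X j * Y i)) =
        (1 - θ) ^ 2 * mx p x y p x y + 2 * θ * (1 - θ) * mx p x y q z w +
          θ ^ 2 * mx q z w q z w := by
      rw [hP, hX, hY]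
      simp only [Fintype.sum_sum_type, Sum.elim_inl, Sum.elim_inr]
      unfold mx
      rw [Finset.sum_add_distrib, Finset.sum_add_distrib]
      have f1 : ∑ i, ∑ j, (1 - θ) * p i * ((1 - θ) * p j * max (x i * y j) (x j * y i)) =
          (1 - θ) ^ 2 * ∑ i, ∑ j, p i * (p j * max (x i * y j) (x j * y i)) := by
        rw [Finset.mul_sum]
        apply Finset.sum_congr rfl
        intro i _
        rw [Finset.mul_sum]
        apply Finset.sum_congr rfl
        intro j _
        ring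
      have f2 : ∑ i, ∑ j, (1 - θ) * p i * (θ * q j * max (x i * w j) (z j * y i)) =
          θ * (1 - θ) * ∑ i, ∑ j, p i * (q j * max (x i * w j) (z j * y i)) := by
        rw [Finset.mul_sum]
        apply Finset.sum_congr rfl
        intro i _
        rw [Finset.mul_sum]
        apply Finset.sum_congr rfl
        intro j _
        ring
      have f3 : ∑ i, ∑ j, θ * q i * ((1 - θ) * p j * max (z i * y j) (x j * w i)) =
          θ * (1 - θ) * ∑ i, ∑ j, p i * (q j * max (x i * w j) (z j * y i)) := by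
        rw [Finset.sum_comm, Finset.mul_sum]
        apply Finset.sum_congr rfl
        intro i _
        rw [Finset.mul_sum]
        apply Finset.sum_congr rfl
        intro j _
        rw [max_comm]
        ring
      have f4 : ∑ i, ∑ j, θ * q i * (θ * q j * max (z i * w j) (z j * w i)) =
          θ ^ 2 * ∑ i, ∑ j, q i * (q j * max (z i * w j) (z j * w i)) := by
        rw [Finset.mul_sum]
        apply Finset.sum_congr rfl
        intro i _
        rw [Finset.mul_sum]
        apply Finset.sum_congr rfl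
        intro j _
        ring
      rw [f1, f2, f3, f4]
      ring
    rw [e1, e2]
    have g1 : √s ^ 2 ≤ mx p x y p x y := by rw [Real.sq_sqrt hs]; exact ha
    have g2 : √t ^ 2 ≤ mx q z w q z w := by rw [Real.sq_sqrt ht]; exact hb
    have g3 := minkowski p x y q z w hp hx hy hq hz hw (Real.sqrt_nonneg s) (Real.sqrt_nonneg t)
      g1 g2
    have g4 := mul_le_mul_of_nonneg_left g1 (sq_nonneg (1 - θ))
    have g5 := mul_le_mul_of_nonneg_left g2 (sq_nonneg θ)
    have g6 := mul_le_mul_of_nonneg_left g3 (show 0 ≤ 2 * θ * (1 - θ) by positivity)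
    nlinarith
  · simp only [Function.comp]
    rw [hsum (fun i => P i * Rate (X i, Y i)), hP, hX, hY, Fintype.sum_sum_type]
    simp only [Sum.elim_inl, Sum.elim_inr]
    rw [Finset.mul_sum, Finset.mul_sum]
    congr 1
    · apply Finset.sum_congr rfl
      intro i _
      ring
    · apply Finset.sum_congr rfl
      intro i _
      ring

theorem jj_mix2 {s t θ : ℝ} (hs : 0 ≤ s) (hs4 : s ≤ 1 / 4) (ht : 0 ≤ t) (ht4 : t ≤ 1 / 4)
    (hθ : 0 ≤ θ) (hθ1 : θ ≤ 1) :
    JJ (((1 - θ) * √s + θ * √t) ^ 2) ≤ (1 - θ) * JJ s + θ * JJ t := by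
  apply le_of_forall_pos_le_add
  intro ε hε
  obtain ⟨C, hC, hC1⟩ := exists_near hs4 hε
  obtain ⟨C', hC', hC2⟩ := exists_near ht4 hε
  have h1 := csInf_le (cs_bdd _) (cs_mix2 hs ht hθ hθ1 hC hC')
  refine h1.trans ?_
  have h2 := mul_le_mul_of_nonneg_left hC1.le (by linarith : 0 ≤ 1 - θ)
  have h3 := mul_le_mul_of_nonneg_left hC2.le hθ
  linarith

/-- **Convexity.** -/
theorem jj_convex : ConvexOn ℝ (Set.Icc 0 (1 / 2)) fun u => JJ (u ^ 2) := by
  refine ⟨convex_Icc _ _, ?_⟩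
  intro u hu v hv α β hα hβ hαβ
  have h1 := jj_mix2 (s := u ^ 2) (t := v ^ 2) (θ := β) (sq_nonneg u)
    (by have := hu.1; have := hu.2; nlinarith) (sq_nonneg v)
    (by have := hv.1; have := hv.2; nlinarith) hβ (by linarith)
  rw [Real.sqrt_sq hu.1, Real.sqrt_sq hv.1] at h1
  have h2 : 1 - β = α := by linarith
  rw [h2] at h1
  simpa only [smul_eq_mul] using h1

/-- an upper bound by squares -/
theorem jj_le_axis {s : ℝ} (hs : 0 ≤ s) (hs4 : s ≤ 1 / 4) : JJ s ≤ Rate (2 * √s, 0) := by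
  have h1 : √s ≤ 1 / 2 := by
    rw [Real.sqrt_le_left (by norm_num)]
    norm_num; linarith
  have h0 : 0 ≤ √s := Real.sqrt_nonneg s
  have hd := dia_quad (show 0 ≤ 2 * √s by positivity) le_rfl (by linarith : 2 * √s + 0 ≤ 1)
  apply csInf_le (cs_bdd s)
  refine ⟨2, ![1 / 2, 1 / 2], ![2 * √s, 0], ![0, 2 * √s], ?_, ?_, ?_, ?_, ?_, ?_, ?_⟩
  · intro i; fin_cases i <;> norm_num
  · norm_num [Fin.sum_univ_two]
  · intro i; fin_cases i
    · show 0 ≤ 2 * √s
      positivity
    · exact le_rfl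
  · intro i; fin_cases i
    · exact le_rfl
    · show 0 ≤ 2 * √s
      positivity
  · intro i; fin_cases i
    · show 2 * √s + 0 ≤ 1
      linarith
    · show 0 + 2 * √s ≤ 1
      linarith
  · unfold ar2
    simp only [Fin.sum_univ_two, Matrix.cons_val_zero, Matrix.cons_val_one, zero_mul, mul_zero]
    have e1 : max (2 * √s * (2 * √s)) 0 = 4 * s := by
      rw [max_eq_left (by positivity)]
      nlinarith [Real.sq_sqrt hs]
    have e2 : max 0 (2 * √s * (2 * √s)) = 4 * s := by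
      rw [max_comm, e1]
    rw [e1, e2, max_self]
    linarith
  · simp only [Fin.sum_univ_two, Matrix.cons_val_zero, Matrix.cons_val_one]
    rw [rate_swap hd]
    ring

end Pool.Agent.U262.AR
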