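import Pool.Agent.U262.AR.U6
import Pool.Agent.U262.AR.U7

/-!
The area of a lattice polygon is at most the square of a quarter of its perimeter.
-/

set_option autoImplicit false

namespace Pool.Agent.U262.AR

open Pool.Agent.TH795.EP Pool.Agent.TH795.EP2 Pool.Agent.TH795.SE2 Pool.Agent.TH262.SawL H981 Finset
open Pool.Agent.Y981.L2 Pool.Agent.U262.SW
open Filter Topology

theorem sum_cyc {m : ℕ} [NeZero m] (g : ZMod m → ℤ) (a : ZMod m) :
    ∑ k ∈ range m, g (a + (k : ZMod m)) = ∑ i : ZMod m, g i := by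
  rw [sum_zmod (fun k => g (a + k))]
  exact Fintype.sum_equiv (Equiv.addLeft a) _ _ fun k => rfl

theorem tv {m : ℕ} [NeZero m] (g : ZMod m → ℤ) (a b : ZMod m) :
    2 * (g b - g a) ≤ ∑ i : ZMod m, |g (i + 1) - g i| := by
  rw [← sum_cyc (fun i => |g (i + 1) - g i|) a]
  obtain ⟨h, hh⟩ : ∃ h : ℕ → ℤ, h = fun k : ℕ => g (a + (k : ZMod m)) := ⟨_, rfl⟩
  have e1 : ∀ k : ℕ, |g (a + (k : ZMod m) + 1) - g (a + (k : ZMod m))| = |h (k + 1) - h k| := by
    intro k
    rw [hh]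
    simp only
    rw [Nat.cast_succ, add_assoc]
  simp only [e1]
  have hj : (b - a).val < m := ZMod.val_lt _
  have h1 : h (b - a).val = g b := by
    rw [hh]; simp only
    rw [ZMod.natCast_zmod_val, add_sub_cancel]
  have h2 : h 0 = g a := by
    rw [hh]; simp
  have h3 : h m = g a := by
    rw [hh]; simp
  rw [Finset.range_eq_Ico, ← Finset.sum_Ico_consecutive _ (Nat.zero_le (b - a).val) hj.le]
  have h4 : h (b - a).val - h 0 ≤ ∑ i ∈ Ico 0 (b - a).val, |h (i + 1) - h i| := by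
    rw [← Finset.sum_Ico_sub h (Nat.zero_le _)]
    exact Finset.sum_le_sum fun i _ => le_abs_self _
  have h5 : h (b - a).val - h m ≤ ∑ i ∈ Ico (b - a).val m, |h (i + 1) - h i| := by
    have : h (b - a).val - h m = ∑ i ∈ Ico (b - a).val m, -(h (i + 1) - h i) := by
      rw [Finset.sum_neg_distrib, Finset.sum_Ico_sub h hj.le]
      ring
    rw [this]
    exact Finset.sum_le_sum fun i _ => neg_le_abs _
  rw [h1, h2] at h4
  rw [h1, h3] at h5
  linarith

theorem area_le {m : ℕ} (hm : 3 ≤ m) {f : ZMod m → ℤ × ℤ} (hf : IsLoop m f) :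
    16 * (AR.area m f : ℤ) ≤ (m : ℤ) ^ 2 := by
  have : NeZero m := ⟨by omega⟩
  rw [area_eq hf.2.2 hf.2.1 hm]
  obtain ⟨a, ha⟩ := Finite.exists_min (fun i : ZMod m => (f i).1)
  obtain ⟨b, hb⟩ := Finite.exists_max (fun i : ZMod m => (f i).1)
  have h1 := tv (fun i => (f i).1) a b
  have h2 : ∑ i : ZMod m, (|(f (i + 1)).1 - (f i).1| + |(f (i + 1)).2 - (f i).2|) = m := by
    rw [Finset.sum_congr rfl fun i _ => hf.2.2 i]
    simp [ZMod.card]
  rw [Finset.sum_add_distrib] at h2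
  have h3 : ∑ k : ZMod m, ((f (k + 1)).2 - (f k).2) = 0 := by
    rw [Finset.sum_sub_distrib, sub_eq_zero]
    exact Fintype.sum_equiv (Equiv.addRight (1 : ZMod m)) _ _ fun k => rfl
  have h4 : 2 * ∑ k : ZMod m, (f k).1 * ((f (k + 1)).2 - (f k).2) =
      ∑ k : ZMod m, (2 * (f k).1 - (f a).1 - (f b).1) * ((f (k + 1)).2 - (f k).2) := by
    have : ∑ k : ZMod m, (2 * (f k).1 - (f a).1 - (f b).1) * ((f (k + 1)).2 - (f k).2) =
        2 * ∑ k : ZMod m, (f k).1 * ((f (k + 1)).2 - (f k).2) -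
          ((f a).1 + (f b).1) * ∑ k : ZMod m, ((f (k + 1)).2 - (f k).2) := by
      rw [Finset.mul_sum, Finset.mul_sum, ← Finset.sum_sub_distrib]
      apply Finset.sum_congr rfl
      intro k _
      ring
    rw [this, h3]
    ring
  have h5 : |2 * ∑ k : ZMod m, (f k).1 * ((f (k + 1)).2 - (f k).2)| ≤
      ((f b).1 - (f a).1) * ∑ k : ZMod m, |(f (k + 1)).2 - (f k).2| := by
    rw [h4, Finset.mul_sum]
    refine (Finset.abs_sum_le_sum_abs _ _).trans ?_
    apply Finset.sum_le_sum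
    intro k _
    rw [abs_mul]
    apply mul_le_mul_of_nonneg_right _ (abs_nonneg _)
    rw [abs_le]
    have g1 := ha k
    have g2 := hb k
    constructor <;> linarith
  rw [abs_mul, abs_two] at h5
  obtain ⟨w, hw⟩ : ∃ w, w = (f b).1 - (f a).1 := ⟨_, rfl⟩
  obtain ⟨V, hV⟩ : ∃ V, V = ∑ k : ZMod m, |(f (k + 1)).2 - (f k).2| := ⟨_, rfl⟩
  rw [← hw] at h1 h5
  rw [← hV] at h2 h5
  have hw0 : 0 ≤ w := by
    have := ha b
    linarith
  have h6 : V ≤ m - 2 * w := by linarith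
  have h7 : w * V ≤ w * (m - 2 * w) := mul_le_mul_of_nonneg_left h6 hw0
  nlinarith [sq_nonneg ((m : ℤ) - 4 * w)]

end Pool.Agent.U262.AR
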