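import Mathlib

/-!
A lemma of Varadhan type for bounded variables, in the form needed for the area.
-/

set_option autoImplicit false

namespace Pool.Agent.U262.AR

open Filter Topology Finset

section

variable {α : ℕ → Type*} (S : ∀ n, Finset (α n)) (X : ∀ n, α n → ℝ)

open Classical in
/-- tail -/
noncomputable def PS (n : ℕ) (s : ℝ) : ℝ := (((S n).filter (fun f => s ≤ X n f)).card : ℝ) / (S n).card

/-- Laplace transform -/
noncomputable def ZS (n : ℕ) (l : ℝ) : ℝ := (∑ f ∈ S n, Real.exp (l * (n * X n f))) / (S n).card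

/-- tilted mean -/
noncomputable def ES (n : ℕ) (l : ℝ) : ℝ :=
  (∑ f ∈ S n, X n f * Real.exp (l * (n * X n f))) / ∑ f ∈ S n, Real.exp (l * (n * X n f))

end

/-- the set of the values -/
def VS (J : ℝ → ℝ) (l : ℝ) : Set ℝ := {r | ∃ s : ℝ, 0 ≤ s ∧ s < 1 / 4 ∧ r = l * s - 2 * J s}

/-- the free energy -/
noncomputable def FS (J : ℝ → ℝ) (l : ℝ) : ℝ := sSup (VS J l)

section

variable {J : ℝ → ℝ}

theorem vs_bdd (hJ : ∀ s, 0 ≤ s → s < 1 / 4 → 0 ≤ J s) (l : ℝ) : BddAbove (VS J l) := by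
  refine ⟨|l| / 4, ?_⟩
  rintro r ⟨s, hs, hs4, rfl⟩
  have h1 := hJ s hs hs4
  have h2 : l * s ≤ |l| * (1 / 4) :=
    (mul_le_mul_of_nonneg_right (le_abs_self l) hs).trans
      (mul_le_mul_of_nonneg_left hs4.le (abs_nonneg l))
  linarith

theorem fs_ge (hJ : ∀ s, 0 ≤ s → s < 1 / 4 → 0 ≤ J s) (l : ℝ) {s : ℝ} (hs : 0 ≤ s)
    (hs4 : s < 1 / 4) : l * s - 2 * J s ≤ FS J l :=
  le_csSup (vs_bdd hJ l) ⟨s, hs, hs4, rfl⟩

theorem vs_ne (l : ℝ) : (VS J l).Nonempty := ⟨_, 0, le_rfl, by norm_num, rfl⟩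

theorem fs_nonneg (hJ : ∀ s, 0 ≤ s → s < 1 / 4 → 0 ≤ J s) (hJ0 : J 0 = 0) (l : ℝ) :
    0 ≤ FS J l := by
  have := fs_ge hJ l le_rfl (by norm_num)
  rw [hJ0] at this
  linarith

theorem fs_neg (hJ : ∀ s, 0 ≤ s → s < 1 / 4 → 0 ≤ J s) (hJ0 : J 0 = 0) {l : ℝ} (hl : l ≤ 0) :
    FS J l = 0 := by
  apply le_antisymm _ (fs_nonneg hJ hJ0 l)
  apply csSup_le (vs_ne l)
  rintro r ⟨s, hs, hs4, rfl⟩
  have h1 := hJ s hs hs4
  have h2 := mul_nonpos_of_nonpos_of_nonneg hl hs
  linarith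

theorem fs_convex (hJ : ∀ s, 0 ≤ s → s < 1 / 4 → 0 ≤ J s) : ConvexOn ℝ Set.univ (FS J) := by
  refine ⟨convex_univ, ?_⟩
  intro x _ y _ a b ha hb hab
  simp only [smul_eq_mul]
  apply csSup_le (vs_ne _)
  rintro r ⟨s, hs, hs4, rfl⟩
  have h1 := mul_le_mul_of_nonneg_left (fs_ge hJ x hs hs4) ha
  have h2 := mul_le_mul_of_nonneg_left (fs_ge hJ y hs hs4) hb
  have h3 : a * J s + b * J s = J s := by rw [← add_mul, hab, one_mul]
  nlinarith

theorem fs_mono (hJ : ∀ s, 0 ≤ s → s < 1 / 4 → 0 ≤ J s) : Monotone (FS J) := by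
  intro x y hxy
  apply csSup_le (vs_ne _)
  rintro r ⟨s, hs, hs4, rfl⟩
  have h1 := fs_ge hJ y hs hs4
  have h2 := mul_le_mul_of_nonneg_right hxy hs
  linarith

end

section

variable {α : ℕ → Type*} {S : ∀ n, Finset (α n)} {X : ∀ n, α n → ℝ} {J : ℝ → ℝ}

theorem zs_pos {n : ℕ} (h : (S n).Nonempty) (l : ℝ) : 0 < ZS S X n l := by
  have hc : (0 : ℝ) < (S n).card := by exact_mod_cast h.card_pos
  exact div_pos (Finset.sum_pos (fun f _ => Real.exp_pos _) h) hc

theorem zs_upper (hS : ∀ᶠ n in atTop, (S n).Nonempty)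
    (hX : ∀ᶠ n in atTop, ∀ f ∈ S n, 0 ≤ X n f ∧ X n f ≤ 1 / 4)
    (hpos : ∀ s, 0 ≤ s → s < 1 / 4 → ∀ᶠ n in atTop, 0 < PS S X n s)
    (hP : ∀ s, 0 ≤ s → s < 1 / 4 →
      Tendsto (fun n : ℕ => Real.log (PS S X n s) / (2 * n)) atTop (𝓝 (-J s)))
    (hJ : ∀ s, 0 ≤ s → s < 1 / 4 → 0 ≤ J s) {l : ℝ} (hl : 0 ≤ l) {ε : ℝ} (hε : 0 < ε) :
    ∀ᶠ n : ℕ in atTop, Real.log (ZS S X n l) / n ≤ FS J l + ε := by
  classical
  obtain ⟨N, hN⟩ := exists_nat_gt (max 1 (l * 3 / ε))
  have hN1 : (1 : ℝ) < N := lt_of_le_of_lt (le_max_left _ _) hN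
  have hN0 : (0 : ℝ) < N := by linarith
  have hNn : 0 < N := by exact_mod_cast hN0
  have hN2 : l / (4 * N) ≤ ε / 3 := by
    have h1 : l * 3 / ε < N := lt_of_le_of_lt (le_max_right _ _) hN
    rw [div_lt_iff₀ hε] at h1
    rw [div_le_iff₀ (by positivity)]
    nlinarith
  obtain ⟨σ, hσ⟩ : ∃ σ : ℕ → ℝ, σ = fun j : ℕ => (j : ℝ) / (4 * N) := ⟨_, rfl⟩
  have hσ0 : ∀ j, 0 ≤ σ j := fun j => by rw [hσ]; positivity
  have hσ4 : ∀ j < N, σ j < 1 / 4 := fun j hj => by
    rw [hσ]; simp only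
    rw [div_lt_iff₀ (by positivity)]
    have : (j : ℝ) < N := by exact_mod_cast hj
    linarith
  have hev : ∀ᶠ n in atTop, ∀ j ∈ range N, 0 < PS S X n (σ j) ∧
      Real.log (PS S X n (σ j)) / (2 * n) < -J (σ j) + ε / 6 := by
    rw [Filter.eventually_all_finset]
    intro j hj
    rw [Finset.mem_range] at hj
    exact (hpos _ (hσ0 j) (hσ4 j hj)).and
      ((hP _ (hσ0 j) (hσ4 j hj)).eventually_lt_const (by linarith))
  have hlog : ∀ᶠ n : ℕ in atTop, Real.log N / (ε / 3) ≤ n :=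
    tendsto_natCast_atTop_atTop.eventually_ge_atTop _
  filter_upwards [hS, hX, hev, hlog, eventually_ge_atTop 1] with n h1 h2 h3 h4 h5
  have hn0 : (0 : ℝ) < n := by exact_mod_cast (by omega : 0 < n)
  have hc : (0 : ℝ) < (S n).card := by exact_mod_cast h1.card_pos
  have hz := zs_pos (X := X) h1 l
  rw [div_le_iff₀ hn0]
  have key : ZS S X n l ≤ Real.exp ((FS J l + ε) * n) := by
    have e1 : ∑ f ∈ S n, Real.exp (l * (n * X n f)) ≤
        ∑ f ∈ S n, ∑ j ∈ range N, (if σ j ≤ X n f then Real.exp (l * n * (σ j + 1 / (4 * N))) else 0) := by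
      apply Finset.sum_le_sum
      intro f hf
      obtain ⟨g1, g2⟩ := h2 f hf
      obtain ⟨j, hj, hj1, hj2⟩ : ∃ j < N, σ j ≤ X n f ∧ X n f ≤ σ j + 1 / (4 * N) := by
        by_cases hx : ⌊4 * N * X n f⌋₊ < N
        · refine ⟨_, hx, ?_, ?_⟩
          · rw [hσ]; simp only
            rw [div_le_iff₀ (by positivity)]
            have := Nat.floor_le (show 0 ≤ 4 * N * X n f by positivity)
            linarith
          · rw [hσ]; simp only
            rw [← add_div, le_div_iff₀ (by positivity)]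
            have := Nat.lt_floor_add_one (4 * N * X n f)
            linarith
        · push Not at hx
          refine ⟨N - 1, by omega, ?_, ?_⟩
          · rw [hσ]; simp only
            rw [div_le_iff₀ (by positivity)]
            have h6 : ((N : ℕ) : ℝ) ≤ 4 * N * X n f :=
              (Nat.cast_le.2 hx).trans (Nat.floor_le (show 0 ≤ 4 * N * X n f by positivity))
            have h7 : ((N - 1 : ℕ) : ℝ) = N - 1 := by
              rw [Nat.cast_sub (by omega), Nat.cast_one]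
            rw [h7]
            linarith
          · rw [hσ]; simp only
            rw [← add_div, le_div_iff₀ (by positivity)]
            have h7 : ((N - 1 : ℕ) : ℝ) = N - 1 := by
              rw [Nat.cast_sub (by omega), Nat.cast_one]
            rw [h7]
            nlinarith
      have e2 : Real.exp (l * (n * X n f)) ≤
          (if σ j ≤ X n f then Real.exp (l * n * (σ j + 1 / (4 * N))) else 0) := by
        rw [if_pos hj1]
        apply Real.exp_le_exp.2
        rw [← mul_assoc]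
        exact mul_le_mul_of_nonneg_left hj2 (by positivity)
      refine e2.trans (Finset.single_le_sum (f := fun j => if σ j ≤ X n f then
        Real.exp (l * n * (σ j + 1 / (4 * N))) else 0) ?_ (Finset.mem_range.2 hj))
      intro i _
      split_ifs
      · exact (Real.exp_pos _).le
      · exact le_rfl
    rw [Finset.sum_comm] at e1
    have e3 : ∀ j, ∑ f ∈ S n, (if σ j ≤ X n f then Real.exp (l * n * (σ j + 1 / (4 * N))) else 0) =
        PS S X n (σ j) * (S n).card * Real.exp (l * n * (σ j + 1 / (4 * N))) := by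
      intro j
      unfold PS
      rw [← Finset.sum_filter, Finset.sum_const, nsmul_eq_mul, div_mul_cancel₀ _ hc.ne']
    simp only [e3] at e1
    unfold ZS
    rw [div_le_iff₀ hc]
    refine e1.trans ?_
    have e4 : ∀ j ∈ range N, PS S X n (σ j) * (S n).card * Real.exp (l * n * (σ j + 1 / (4 * N))) ≤
        Real.exp ((FS J l + 2 * ε / 3) * n) * (S n).card := by
      intro j hj
      obtain ⟨g1, g2⟩ := h3 j hj
      rw [Finset.mem_range] at hj
      rw [div_lt_iff₀ (by positivity)] at g2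
      have g3 : PS S X n (σ j) ≤ Real.exp ((-J (σ j) + ε / 6) * (2 * n)) := by
        rw [← Real.exp_log g1]
        exact Real.exp_le_exp.2 g2.le
      have g4 := fs_ge hJ l (hσ0 j) (hσ4 j hj)
      calc PS S X n (σ j) * (S n).card * Real.exp (l * n * (σ j + 1 / (4 * N)))
          ≤ Real.exp ((-J (σ j) + ε / 6) * (2 * n)) * (S n).card *
            Real.exp (l * n * (σ j + 1 / (4 * N))) := by gcongr
        _ = Real.exp ((-J (σ j) + ε / 6) * (2 * n) + l * n * (σ j + 1 / (4 * N))) *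
            (S n).card := by rw [Real.exp_add]; ring
        _ ≤ _ := by
          apply mul_le_mul_of_nonneg_right _ hc.le
          apply Real.exp_le_exp.2
          have g5 : l * n * (σ j + 1 / (4 * N)) = n * (l * σ j) + n * (l / (4 * N)) := by
            ring
          rw [g5]
          nlinarith
    refine (Finset.sum_le_sum e4).trans ?_
    rw [Finset.sum_const, Finset.card_range, nsmul_eq_mul, ← mul_assoc]
    apply mul_le_mul_of_nonneg_right _ hc.le
    have e5 : (N : ℝ) ≤ Real.exp (ε / 3 * n) := by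
      rw [div_le_iff₀ (by positivity)] at h4
      rw [← Real.exp_log hN0]
      apply Real.exp_le_exp.2
      linarith
    calc (N : ℝ) * Real.exp ((FS J l + 2 * ε / 3) * n)
        ≤ Real.exp (ε / 3 * n) * Real.exp ((FS J l + 2 * ε / 3) * n) := by gcongr
      _ = Real.exp ((FS J l + ε) * n) := by rw [← Real.exp_add]; congr 1; ring
  have := Real.log_le_log hz key
  rwa [Real.log_exp] at this

theorem zs_lower (hS : ∀ᶠ n in atTop, (S n).Nonempty)
    (hpos : ∀ s, 0 ≤ s → s < 1 / 4 → ∀ᶠ n in atTop, 0 < PS S X n s)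
    (hP : ∀ s, 0 ≤ s → s < 1 / 4 →
      Tendsto (fun n : ℕ => Real.log (PS S X n s) / (2 * n)) atTop (𝓝 (-J s)))
    {l : ℝ} (hl : 0 ≤ l) {ε : ℝ} (hε : 0 < ε) :
    ∀ᶠ n : ℕ in atTop, FS J l - ε ≤ Real.log (ZS S X n l) / n := by
  classical
  obtain ⟨r, ⟨s, hs, hs4, rfl⟩, hr⟩ := exists_lt_of_lt_csSup (vs_ne (J := J) l)
    (show FS J l - ε / 2 < sSup (VS J l) by unfold FS; linarith)
  filter_upwards [hS, hpos s hs hs4, (hP s hs hs4).eventually_const_lt
    (show -J s - ε / 4 < -J s by linarith), eventually_ge_atTop 1] with n h1 h2 h3 h4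
  have hn0 : (0 : ℝ) < n := by exact_mod_cast (by omega : 0 < n)
  have hc : (0 : ℝ) < (S n).card := by exact_mod_cast h1.card_pos
  rw [lt_div_iff₀ (by positivity)] at h3
  rw [le_div_iff₀ hn0]
  have key : Real.exp (l * n * s) * PS S X n s ≤ ZS S X n l := by
    unfold PS ZS
    rw [← mul_div_assoc]
    apply div_le_div_of_nonneg_right _ hc.le
    have e1 : Real.exp (l * n * s) * (((S n).filter (fun f => s ≤ X n f)).card : ℝ) =
        ∑ f ∈ (S n).filter (fun f => s ≤ X n f), Real.exp (l * n * s) := by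
      rw [Finset.sum_const, nsmul_eq_mul, mul_comm]
    rw [e1]
    refine le_trans (Finset.sum_le_sum ?_) (Finset.sum_le_sum_of_subset_of_nonneg
      (Finset.filter_subset _ _) fun f _ _ => (Real.exp_pos _).le)
    intro f hf
    rw [Finset.mem_filter] at hf
    apply Real.exp_le_exp.2
    rw [← mul_assoc]
    exact mul_le_mul_of_nonneg_left hf.2 (by positivity)
  have h5 := Real.log_le_log (mul_pos (Real.exp_pos _) h2) key
  rw [Real.log_mul (Real.exp_pos _).ne' h2.ne', Real.log_exp] at h5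
  nlinarith

theorem zs_lower' (hS : ∀ᶠ n in atTop, (S n).Nonempty)
    (hX : ∀ᶠ n in atTop, ∀ f ∈ S n, 0 ≤ X n f ∧ X n f ≤ 1 / 4)
    (hpos : ∀ s, 0 ≤ s → s < 1 / 4 → ∀ᶠ n in atTop, 0 < PS S X n s)
    (hP : ∀ s, 0 ≤ s → s < 1 / 4 →
      Tendsto (fun n : ℕ => Real.log (PS S X n s) / (2 * n)) atTop (𝓝 (-J s)))
    (hJp : ∀ s, 0 < s → s < 1 / 4 → 0 < J s)
    {l : ℝ} (hl : l < 0) {ε : ℝ} (hε : 0 < ε) :
    ∀ᶠ n : ℕ in atTop, - ε ≤ Real.log (ZS S X n l) / n ∧ Real.log (ZS S X n l) / n ≤ 0 := by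
  classical
  obtain ⟨δ, hδ⟩ : ∃ δ, δ = min (ε / (2 * (-l))) (1 / 8) := ⟨_, rfl⟩
  have hl' : 0 < -l := by linarith
  have hδ0 : 0 < δ := by rw [hδ]; exact lt_min (by positivity) (by norm_num)
  have hδ4 : δ < 1 / 4 := lt_of_le_of_lt (hδ ▸ min_le_right _ _) (by norm_num)
  have hδe : (-l) * δ ≤ ε / 2 := by
    have : δ ≤ ε / (2 * (-l)) := hδ ▸ min_le_left _ _
    rw [le_div_iff₀ (by positivity)] at this
    linarith
  have hJd := hJp δ hδ0 hδ4
  have c1 : ∀ᶠ n : ℕ in atTop, Real.log 2 / J δ ≤ n :=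
    tendsto_natCast_atTop_atTop.eventually_ge_atTop _
  have c2 : ∀ᶠ n : ℕ in atTop, Real.log 2 / (ε / 2) ≤ n :=
    tendsto_natCast_atTop_atTop.eventually_ge_atTop _
  filter_upwards [hS, hX, hpos δ hδ0.le hδ4, (hP δ hδ0.le hδ4).eventually_lt_const
    (show -J δ < -(J δ / 2) by linarith), eventually_ge_atTop 1, c1, c2] with n h1 h2 h3 h4 h5 h6 h7
  have hn0 : (0 : ℝ) < n := by exact_mod_cast (by omega : 0 < n)
  have hc : (0 : ℝ) < (S n).card := by exact_mod_cast h1.card_pos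
  have hz := zs_pos (X := X) h1 l
  rw [div_lt_iff₀ (by positivity)] at h4
  rw [div_le_iff₀ hJd] at h6
  rw [div_le_iff₀ (by positivity)] at h7
  have hp : PS S X n δ ≤ 1 / 2 := by
    have h8 : Real.log (PS S X n δ) ≤ -Real.log 2 := by nlinarith
    have h9 := Real.exp_le_exp.2 h8
    rw [Real.exp_log h3, Real.exp_neg, Real.exp_log (show (0 : ℝ) < 2 by norm_num)] at h9
    linarith
  constructor
  · rw [le_div_iff₀ hn0]
    have key : Real.exp (l * n * δ) * (1 / 2) ≤ ZS S X n l := by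
      have e0 : (1 : ℝ) / 2 * (S n).card ≤ ((S n).filter (fun f => ¬ δ ≤ X n f)).card := by
        have e1 := Finset.card_filter_add_card_filter_not (s := S n) (fun f => δ ≤ X n f)
        have e2 : (((S n).filter (fun f => δ ≤ X n f)).card : ℝ) +
          ((S n).filter (fun f => ¬ δ ≤ X n f)).card = (S n).card := by exact_mod_cast e1
        unfold PS at hp
        rw [div_le_iff₀ hc] at hp
        linarith
      unfold ZS
      rw [le_div_iff₀ hc]
      calc Real.exp (l * n * δ) * (1 / 2) * (S n).card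
          = Real.exp (l * n * δ) * (1 / 2 * (S n).card) := by ring
        _ ≤ Real.exp (l * n * δ) * ((S n).filter (fun f => ¬ δ ≤ X n f)).card := by gcongr
        _ = ∑ f ∈ (S n).filter (fun f => ¬ δ ≤ X n f), Real.exp (l * n * δ) := by
          rw [Finset.sum_const, nsmul_eq_mul, mul_comm]
        _ ≤ ∑ f ∈ (S n).filter (fun f => ¬ δ ≤ X n f), Real.exp (l * (n * X n f)) := by
          apply Finset.sum_le_sum
          intro f hf
          rw [Finset.mem_filter] at hf
          apply Real.exp_le_exp.2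
          have hf2 := hf.2
          push Not at hf2
          have g1 : n * X n f ≤ n * δ := mul_le_mul_of_nonneg_left hf2.le hn0.le
          have g2 := mul_le_mul_of_nonpos_left g1 hl.le
          linarith
        _ ≤ _ := Finset.sum_le_sum_of_subset_of_nonneg
          (Finset.filter_subset _ _) fun f _ _ => (Real.exp_pos _).le
    have h8 := Real.log_le_log (by positivity) key
    rw [Real.log_mul (Real.exp_pos _).ne' (by norm_num), Real.log_exp, one_div, Real.log_inv] at h8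
    nlinarith
  · apply div_nonpos_of_nonpos_of_nonneg _ hn0.le
    apply Real.log_nonpos hz.le
    unfold ZS
    rw [div_le_one hc]
    calc ∑ f ∈ S n, Real.exp (l * (n * X n f)) ≤ ∑ f ∈ S n, (1 : ℝ) := by
          apply Finset.sum_le_sum
          intro f hf
          rw [Real.exp_le_one_iff]
          exact mul_nonpos_of_nonpos_of_nonneg hl.le (mul_nonneg hn0.le (h2 f hf).1)
      _ = _ := by simp

theorem zs_lim (hS : ∀ᶠ n in atTop, (S n).Nonempty)
    (hX : ∀ᶠ n in atTop, ∀ f ∈ S n, 0 ≤ X n f ∧ X n f ≤ 1 / 4)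
    (hpos : ∀ s, 0 ≤ s → s < 1 / 4 → ∀ᶠ n in atTop, 0 < PS S X n s)
    (hP : ∀ s, 0 ≤ s → s < 1 / 4 →
      Tendsto (fun n : ℕ => Real.log (PS S X n s) / (2 * n)) atTop (𝓝 (-J s)))
    (hJp : ∀ s, 0 < s → s < 1 / 4 → 0 < J s) (hJ0 : J 0 = 0) (l : ℝ) :
    Tendsto (fun n : ℕ => Real.log (ZS S X n l) / n) atTop (𝓝 (FS J l)) := by
  have hJ : ∀ s, 0 ≤ s → s < 1 / 4 → 0 ≤ J s := by
    intro s hs hs4
    rcases hs.eq_or_lt with h | h
    · rw [← h, hJ0]
    · exact (hJp s h hs4).le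
  rw [Metric.tendsto_nhds]
  intro ε hε
  rcases lt_or_ge l 0 with hl | hl
  · filter_upwards [zs_lower' hS hX hpos hP hJp hl (half_pos hε)] with n hn
    rw [fs_neg hJ hJ0 hl.le, Real.dist_eq, sub_zero, abs_lt]
    constructor <;> linarith [hn.1, hn.2]
  · filter_upwards [zs_lower hS hpos hP hl (half_pos hε),
      zs_upper hS hX hpos hP hJ hl (half_pos hε)] with n h1 h2
    rw [Real.dist_eq, abs_lt]
    constructor <;> linarith

/-- the convexity inequality -/
theorem zs_conv {n : ℕ} (h : (S n).Nonempty) (l b : ℝ) :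
    Real.log (ZS S X n l) + (b - l) * (n * ES S X n l) ≤ Real.log (ZS S X n b) := by
  have hc : (0 : ℝ) < (S n).card := by exact_mod_cast h.card_pos
  obtain ⟨Z, hZ⟩ : ∃ Z, Z = ∑ f ∈ S n, Real.exp (l * (n * X n f)) := ⟨_, rfl⟩
  have hZ0 : 0 < Z := hZ ▸ Finset.sum_pos (fun f _ => Real.exp_pos _) h
  obtain ⟨M, hM⟩ : ∃ M, M = (b - l) * (n * ES S X n l) := ⟨_, rfl⟩
  have hMZ : M * Z = (b - l) * n * ∑ f ∈ S n, X n f * Real.exp (l * (n * X n f)) := by
    rw [hM]
    unfold ES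
    rw [← hZ]
    field_simp
  have key : Z * Real.exp M ≤ ∑ f ∈ S n, Real.exp (b * (n * X n f)) := by
    have e1 : ∀ f ∈ S n, Real.exp (l * (n * X n f)) *
        (Real.exp M * (1 + ((b - l) * (n * X n f) - M))) ≤ Real.exp (b * (n * X n f)) := by
      intro f _
      have g1 := Real.add_one_le_exp ((b - l) * (n * X n f) - M)
      have g2 : Real.exp (b * (n * X n f)) = Real.exp (l * (n * X n f)) *
          (Real.exp M * Real.exp ((b - l) * (n * X n f) - M)) := by
        rw [← Real.exp_add, ← Real.exp_add]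
        congr 1; ring
      rw [g2]
      gcongr
      linarith
    refine le_trans (le_of_eq ?_) (Finset.sum_le_sum e1)
    have e2 : ∑ f ∈ S n, Real.exp (l * (n * X n f)) *
        (Real.exp M * (1 + ((b - l) * (n * X n f) - M))) =
        Real.exp M * (1 - M) * Z + Real.exp M *
          ((b - l) * n * ∑ f ∈ S n, X n f * Real.exp (l * (n * X n f))) := by
      rw [hZ, Finset.mul_sum, Finset.mul_sum, Finset.mul_sum, ← Finset.sum_add_distrib]
      apply Finset.sum_congr rfl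
      intro f _
      ring
    rw [e2, ← hMZ]
    ring
  rw [← hM]
  have h1 : ZS S X n l * Real.exp M ≤ ZS S X n b := by
    unfold ZS
    rw [← hZ, div_mul_eq_mul_div]
    exact div_le_div_of_nonneg_right key hc.le
  have h2 := Real.log_le_log (mul_pos (zs_pos h l) (Real.exp_pos _)) h1
  rwa [Real.log_mul (zs_pos h l).ne' (Real.exp_pos _).ne', Real.log_exp] at h2

theorem es_slope (hS : ∀ᶠ n in atTop, (S n).Nonempty) {F : ℝ → ℝ}
    (hF : ∀ l, Tendsto (fun n : ℕ => Real.log (ZS S X n l) / n) atTop (𝓝 (F l))) {a l b : ℝ}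
    (hal : a < l) (hlb : l < b) {ε : ℝ} (hε : 0 < ε) :
    ∀ᶠ n : ℕ in atTop, (F l - F a) / (l - a) - ε < ES S X n l ∧
      ES S X n l < (F b - F l) / (b - l) + ε := by
  have h1 := (((hF l).sub (hF a)).div_const (l - a)).eventually_const_lt
    (show (F l - F a) / (l - a) - ε < (F l - F a) / (l - a) by linarith)
  have h2 := (((hF b).sub (hF l)).div_const (b - l)).eventually_lt_const
    (show (F b - F l) / (b - l) < (F b - F l) / (b - l) + ε by linarith)
  filter_upwards [hS, h1, h2, eventually_ge_atTop 1] with n g0 g1 g2 g3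
  have hn0 : (0 : ℝ) < n := by exact_mod_cast (by omega : 0 < n)
  have hla : 0 < l - a := by linarith
  have hbl : 0 < b - l := by linarith
  constructor
  · refine g1.trans_le ?_
    rw [div_le_iff₀ hla, ← sub_div, div_le_iff₀ hn0]
    have := zs_conv (X := X) g0 l a
    nlinarith
  · refine lt_of_le_of_lt ?_ g2
    rw [le_div_iff₀ hbl, ← sub_div, le_div_iff₀ hn0]
    have := zs_conv (X := X) g0 l b
    nlinarith

theorem es_deriv (hS : ∀ᶠ n in atTop, (S n).Nonempty) {F : ℝ → ℝ}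
    (hF : ∀ l, Tendsto (fun n : ℕ => Real.log (ZS S X n l) / n) atTop (𝓝 (F l))) {l d : ℝ}
    (hd : HasDerivAt F d l) : Tendsto (fun n : ℕ => ES S X n l) atTop (𝓝 d) := by
  rw [Metric.tendsto_nhds]
  intro ε hε
  have hslope := hasDerivAt_iff_tendsto_slope.1 hd
  have h1 : ∀ᶠ x in 𝓝[≠] l, |slope F l x - d| < ε / 2 := by
    have := (Metric.tendsto_nhds.1 hslope) (ε / 2) (half_pos hε)
    simpa [Real.dist_eq] using this
  have hr : ∀ᶠ x in 𝓝[>] l, |slope F l x - d| < ε / 2 :=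
    h1.filter_mono (nhdsWithin_mono l fun x hx => ne_of_gt hx)
  have hl' : ∀ᶠ x in 𝓝[<] l, |slope F l x - d| < ε / 2 :=
    h1.filter_mono (nhdsWithin_mono l fun x hx => ne_of_lt hx)
  obtain ⟨b, hb1, hb2⟩ := (hr.and self_mem_nhdsWithin).exists
  obtain ⟨a, ha1, ha2⟩ := (hl'.and self_mem_nhdsWithin).exists
  filter_upwards [es_slope hS hF ha2 hb2 (half_pos hε)] with n hn
  rw [slope_def_field] at ha1 hb1
  have e1 : (F a - F l) / (a - l) = (F l - F a) / (l - a) := by
    rw [← neg_sub (F l) (F a), ← neg_sub l a, neg_div_neg_eq]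
  rw [e1] at ha1
  rw [abs_lt] at ha1 hb1
  rw [Real.dist_eq, abs_lt]
  constructor <;> linarith [hn.1, hn.2, ha1.1, hb1.2]

end

end Pool.Agent.U262.AR
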