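import Pool.Agent.U262.AR.V4

/-!
The Wulff formula for the rate function of the area: the supremum.
-/

set_option autoImplicit false

namespace Pool.Agent.U262.AR

open Pool.Agent.TH795.EP Pool.Agent.TH795.EP2 Pool.Agent.TH795.SE2 Pool.Agent.TH262.SawL H981 Finset
open Pool.Agent.Y981.L2 Pool.Agent.U262.SW
open Filter Topology

theorem cs_le {s C : ℝ} (hC : C ∈ CS s) : s ≤ 1 / 4 := by
  obtain ⟨k, p, x, y, hp, h1, hx, hy, hxy, ha, -⟩ := hC
  have h2 := ha.trans (ar2_le hp hx hy)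
  have h3 : (∑ i, p i * x i) + (∑ i, p i * y i) ≤ 1 := by
    rw [← Finset.sum_add_distrib, ← h1]
    apply Finset.sum_le_sum
    intro i _
    have := mul_le_mul_of_nonneg_left (hxy i) (hp i)
    linarith
  have hX0 : 0 ≤ ∑ i, p i * x i := Finset.sum_nonneg fun i _ => mul_nonneg (hp i) (hx i)
  have hY0 : 0 ≤ ∑ i, p i * y i := Finset.sum_nonneg fun i _ => mul_nonneg (hp i) (hy i)
  nlinarith [sq_nonneg ((∑ i, p i * x i) - (∑ i, p i * y i))]

theorem wulff_le {s h : ℝ} (hs : 0 ≤ s) (hs4 : s ≤ 1 / 4) (hh : 0 ≤ h) :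
    √(s * VV h) - h ≤ JJ s := by
  apply le_csInf (cs_ne hs4)
  intro C hC
  have := wulff_lower hs hC hh
  linarith

/-- the values of the Wulff functional -/
def WV (s : ℝ) : Set ℝ := {r | ∃ h : ℝ, 0 ≤ h ∧ r = √(s * VV h) - h}

theorem wulff_lub {s : ℝ} (hs : 0 ≤ s) (hs4 : s < 1 / 4) : IsLUB (WV s) (JJ s) := by
  constructor
  · rintro r ⟨h, hh, rfl⟩
    exact wulff_le hs hs4.le hh
  · intro b hb
    rcases hs.eq_or_lt with h | hpos
    · rw [← h, jj_nonpos le_rfl]
      have := hb ⟨0, le_rfl, rfl⟩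
      rw [← h, zero_mul, Real.sqrt_zero, sub_zero] at this
      exact this
    obtain ⟨F, hF⟩ : ∃ F : ℝ → ℝ, F = fun u => JJ (u ^ 2) := ⟨_, rfl⟩
    have hcv : ConvexOn ℝ (Set.Icc 0 (1 / 2)) F := by rw [hF]; exact jj_convex
    obtain ⟨u0, hu0⟩ : ∃ u0, u0 = √s := ⟨_, rfl⟩
    have hu0p : 0 < u0 := by rw [hu0]; exact Real.sqrt_pos.2 hpos
    have hu02 : u0 < 1 / 2 := by
      rw [hu0, Real.sqrt_lt' (by norm_num)]
      norm_num; linarith
    have hu0s : u0 ^ 2 = s := by rw [hu0]; exact Real.sq_sqrt hs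
    have hF0 : F 0 = 0 := by
      rw [hF]
      simp only
      rw [zero_pow (by norm_num)]
      exact jj_nonpos le_rfl
    have hFu : F u0 = JJ s := by rw [hF]; simp only; rw [hu0s]
    obtain ⟨SL, hSL⟩ : ∃ SL : Set ℝ, SL = {m | ∃ u : ℝ, 0 ≤ u ∧ u < u0 ∧
      m = (F u0 - F u) / (u0 - u)} := ⟨_, rfl⟩
    have hright : ∀ m ∈ SL, ∀ v : ℝ, u0 < v → v ≤ 1 / 2 → m ≤ (F v - F u0) / (v - u0) := by
      intro m hm v hv hv2
      rw [hSL] at hm
      obtain ⟨u, hu, huu, rfl⟩ := hm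
      exact hcv.slope_mono_adjacent ⟨hu, by linarith⟩ ⟨by linarith, hv2⟩ huu hv
    have hbdd : BddAbove SL := ⟨_, fun m hm => hright m hm (1 / 2) hu02 le_rfl⟩
    obtain ⟨κ, hκ⟩ : ∃ κ, κ = sSup SL := ⟨_, rfl⟩
    have hκ0 : 0 ≤ κ := by
      have hm : (F u0 - F 0) / (u0 - 0) ∈ SL := by rw [hSL]; exact ⟨0, le_rfl, hu0p, rfl⟩
      have h1 := le_csSup hbdd hm
      rw [← hκ] at h1
      refine le_trans ?_ h1
      rw [hF0, sub_zero, sub_zero, hFu]
      exact div_nonneg (jj_nonneg s) hu0p.le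
    have hsupp : ∀ v : ℝ, 0 ≤ v → v ≤ 1 / 2 → F u0 + κ * (v - u0) ≤ F v := by
      intro v hv hv2
      rcases lt_trichotomy v u0 with h | h | h
      · have hm : (F u0 - F v) / (u0 - v) ∈ SL := by rw [hSL]; exact ⟨v, hv, h, rfl⟩
        have h1 := le_csSup hbdd hm
        rw [← hκ, div_le_iff₀ (by linarith)] at h1
        linarith
      · rw [h, sub_self, mul_zero, add_zero]
      · have h1 : κ ≤ (F v - F u0) / (v - u0) := by
          rw [hκ]
          apply csSup_le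
          · rw [hSL]; exact ⟨_, 0, le_rfl, hu0p, rfl⟩
          · intro m hm
            exact hright m hm v h hv2
        rw [le_div_iff₀ (by linarith)] at h1
        linarith
    have h00 : 0 ≤ κ * u0 - F u0 := by
      have := hsupp 0 le_rfl (by norm_num)
      rw [hF0] at this
      linarith
    have hH : ∀ s' C : ℝ, 0 ≤ s' → C ∈ CS s' → κ * √s' ≤ C + (κ * u0 - F u0) := by
      intro s' C hs' hC
      have h1 := cs_le hC
      have h2 : √s' ≤ 1 / 2 := by
        rw [Real.sqrt_le_left (by norm_num)]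
        norm_num; linarith
      have h3 := hsupp √s' (Real.sqrt_nonneg _) h2
      have h4 : F √s' = JJ s' := by rw [hF]; simp only; rw [Real.sq_sqrt hs']
      have h5 : JJ s' ≤ C := csInf_le (cs_bdd s') hC
      rw [h4] at h3
      linarith
    apply le_of_forall_pos_le_add
    intro ε hε
    have h1 := wulff_upper hκ0 h00 hH (show κ * u0 - F u0 < κ * u0 - F u0 + ε by linarith)
    have h2 := hb ⟨κ * u0 - F u0 + ε, by linarith, rfl⟩
    have h3 : u0 * κ ≤ √(s * VV (κ * u0 - F u0 + ε)) := by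
      apply Real.le_sqrt_of_sq_le
      rw [mul_pow, hu0s]
      exact mul_le_mul_of_nonneg_left h1 hs
    rw [← hFu]
    linarith

/-- the free energy as a limit -/
theorem lam_lim (l : ℝ × ℝ) : Tendsto (fun n : ℕ => Real.log (Z l n / c n) / n) atTop
    (𝓝 (Lam l)) := by
  have h1 := Lam_tendsto l
  have h2 := Lam_tendsto (0, 0)
  rw [lam_zero, zero_add] at h2
  have h3 : ∀ n, Z (0, 0) n = c n := by
    intro n
    unfold Z c
    simp
  simp only [h3] at h2
  have h4 := h1.sub h2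
  rw [add_sub_cancel_right] at h4
  refine h4.congr fun n => ?_
  rw [Real.log_div (Z_pos l n).ne' (c_pos n).ne', sub_div]

end Pool.Agent.U262.AR
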