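import Pool.Agent.U262.AR.P1
import Pool.Agent.U262.AR.P2
import Pool.Agent.U262.AR.V5

/-!
The free energy of the polygons with an area weight, and the areas of the Wulff shapes.
-/

set_option autoImplicit false

namespace Pool.Agent.U262.AR

open Pool.Agent.TH795.EP Pool.Agent.TH795.EP2 Pool.Agent.TH795.SE2 Pool.Agent.TH262.SawL H981 Finset
open Pool.Agent.Y981.L2 Pool.Agent.U262.SW
open Filter Topology

theorem jj_nn : ∀ s : ℝ, 0 ≤ s → s < 1 / 4 → 0 ≤ JJ s := by
  intro s hs hs4
  rcases hs.eq_or_lt with h | h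
  · rw [← h, jj_nonpos le_rfl]
  · exact (jj_pos h hs4.le).le

theorem vv_nonneg (h : ℝ) : 0 ≤ VV h := ENNReal.toReal_nonneg

theorem vv_mono {h h' : ℝ} (hh : h ≤ h') : VV h ≤ VV h' := by
  unfold VV
  apply ENNReal.toReal_mono (vol_fin h')
  apply MeasureTheory.measure_mono
  intro l hl
  exact le_trans hl hh

/-- the lower bound for the free energy -/
theorem fs_wulff_ge {l h : ℝ} (hl : 0 < l) (hh : 0 ≤ h) : 2 * h - VV h / l ≤ FS JJ l := by
  have hF := fs_nonneg jj_nn (jj_nonpos le_rfl) l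
  obtain ⟨F, hFd⟩ : ∃ F, F = FS JJ l := ⟨_, rfl⟩
  rw [← hFd] at hF ⊢
  have hV := vv_nonneg h
  rcases le_or_gt h (F / 2) with hc | hc
  · have : 0 ≤ VV h / l := by positivity
    linarith
  -- the bound for the laws
  have hC : ∀ s C : ℝ, 0 ≤ s → C ∈ CS s → (l * s - F) / 2 ≤ C := by
    intro s C hs hC
    have hs4 := cs_le hC
    have h1 : JJ s ≤ C := csInf_le (cs_bdd s) hC
    have h2 : ∀ θ : ℝ, 0 < θ → θ < 1 → l * (θ * s) - 2 * JJ s ≤ F := by
      intro θ hθ hθ1
      have h3 : θ * s < 1 / 4 := by nlinarith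
      have h4 := fs_ge jj_nn l (s := θ * s) (by positivity) h3
      have h5 : JJ (θ * s) ≤ JJ s := jj_mono (by nlinarith) hs4
      rw [← hFd] at h4
      linarith
    have h3 : l * s - 2 * JJ s ≤ F := by
      by_contra hcon
      push Not at hcon
      obtain ⟨η, hη⟩ : ∃ η, η = l * s - 2 * JJ s - F := ⟨_, rfl⟩
      have hη0 : 0 < η := by rw [hη]; linarith
      have hls : 0 ≤ l * s := by positivity
      obtain ⟨θ, hθ1, hθ2⟩ : ∃ θ, max 0 (1 - η / (l * s + 1)) < θ ∧ θ < 1 :=
        exists_between (max_lt one_pos (by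
          have : 0 < η / (l * s + 1) := by positivity
          linarith))
      have hθ0 : 0 < θ := lt_of_le_of_lt (le_max_left _ _) hθ1
      have hθ3 : 1 - θ < η / (l * s + 1) := by
        have := lt_of_le_of_lt (le_max_right _ _) hθ1
        linarith
      rw [lt_div_iff₀ (by positivity)] at hθ3
      have h4 := h2 θ hθ0 hθ2
      nlinarith
    linarith
  -- the dual bound
  have key : ∀ κ : ℝ, 0 ≤ κ → κ ^ 2 < l * (2 * h - F) → κ ^ 2 ≤ VV h := by
    intro κ hκ h1
    apply wulff_upper (h0 := κ ^ 2 / (2 * l) + F / 2) hκ (by positivity)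
    · intro s C hs hC'
      have h2 := hC s C hs hC'
      have h3 : κ * √s ≤ κ ^ 2 / (2 * l) + l * s / 2 := by
        have h4 := sq_nonneg (κ - l * √s)
        have h5 := Real.sq_sqrt hs
        have h6 : κ ^ 2 / (2 * l) + l * s / 2 = (κ ^ 2 + l ^ 2 * s) / (2 * l) := by
          field_simp
        rw [h6, le_div_iff₀ (by positivity)]
        have h7 : (κ - l * √s) ^ 2 = κ ^ 2 - 2 * (κ * √s) * l + l ^ 2 * (√s) ^ 2 := by ring
        rw [h7, h5] at h4
        linarith
      linarith
    · have h4 : κ ^ 2 / (2 * l) < (2 * h - F) / 2 := by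
        rw [div_lt_iff₀ (by positivity)]
        linarith
      linarith
  by_contra hcon
  push Not at hcon
  have h1 : VV h < l * (2 * h - F) := by
    have : VV h / l < 2 * h - F := by linarith
    rw [div_lt_iff₀ hl] at this
    linarith
  obtain ⟨m, hm1, hm2⟩ := exists_between h1
  have h2 := key (√m) (Real.sqrt_nonneg m) (by rw [Real.sq_sqrt (by linarith)]; exact hm2)
  rw [Real.sq_sqrt (by linarith)] at h2
  linarith

/-- the upper bound for the free energy -/
theorem fs_wulff_le {l G : ℝ} (hl : 0 < l) (hG0 : 0 ≤ G)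
    (hG : ∀ h : ℝ, 0 ≤ h → 2 * h - VV h / l ≤ G) : FS JJ l ≤ G := by
  apply csSup_le (vs_ne l)
  rintro r ⟨s, hs, hs4, rfl⟩
  by_cases h0 : VV 0 ≤ l ^ 2 * s
  · obtain ⟨A, hA⟩ : ∃ A : Set ℝ, A = {h | 0 ≤ h ∧ VV h ≤ l ^ 2 * s} := ⟨_, rfl⟩
    have hAne : A.Nonempty := ⟨0, by rw [hA]; exact ⟨le_rfl, h0⟩⟩
    have hAb : ∀ h ∈ A, 2 * h ≤ G + l * s := by
      intro h hh
      rw [hA] at hh
      have h1 := hG h hh.1
      have h2 : VV h / l ≤ l * s := by
        rw [div_le_iff₀ hl]
        have := hh.2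
        nlinarith
      linarith
    have hbd : BddAbove A := ⟨(G + l * s) / 2, fun h hh => by have := hAb h hh; linarith⟩
    obtain ⟨H, hH⟩ : ∃ H, H = sSup A := ⟨_, rfl⟩
    have hH1 : H ≤ (G + l * s) / 2 := by
      rw [hH]
      exact csSup_le hAne fun h hh => by have := hAb h hh; linarith
    have hH0 : 0 ≤ H := by
      rw [hH]
      exact le_csSup hbd (by rw [hA]; exact ⟨le_rfl, h0⟩)
    have key : ∀ ε : ℝ, 0 < ε → l * s - (H + ε) ≤ JJ s := by
      intro ε hε
      have h1 : ¬ VV (H + ε) ≤ l ^ 2 * s := by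
        intro hcon
        have : H + ε ≤ H := by
          conv_rhs => rw [hH]
          exact le_csSup hbd (by rw [hA]; exact ⟨by linarith, hcon⟩)
        linarith
      push Not at h1
      have h2 := wulff_le hs hs4.le (h := H + ε) (by linarith)
      have h3 : l * s ≤ √(s * VV (H + ε)) := by
        apply Real.le_sqrt_of_sq_le
        nlinarith
      linarith
    have h3 : l * s - H ≤ JJ s := by
      apply le_of_forall_pos_le_add
      intro ε hε
      have := key ε hε
      linarith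
    linarith
  · push Not at h0
    have h2 := wulff_le hs hs4.le (h := 0) le_rfl
    have h3 : l * s ≤ √(s * VV 0) := by
      apply Real.le_sqrt_of_sq_le
      nlinarith
    have h4 : 0 ≤ l * s := by positivity
    linarith

end Pool.Agent.U262.AR
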