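import Pool.Agent.U262.AR.P3

/-!
The free energy of the walk under a nonzero force is positive; the Wulff shape at the critical point
is a point.
-/

set_option autoImplicit false

namespace Pool.Agent.U262.AR

open Pool.Agent.TH795.EP Pool.Agent.TH795.EP2 Pool.Agent.TH795.SE2 Pool.Agent.TH262.SawL H981 Finset
open Pool.Agent.Y981.L2 Pool.Agent.U262.SW
open Filter Topology

theorem path_ne {W : List St} (hW : Saw W) {i j : ℕ} (hij : i < j) (hj : j ≤ W.length) :
    H981.path W i ≠ H981.path W j := by
  intro h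
  have e : W.take j = W.take i ++ (W.take j).drop i := by
    conv_lhs => rw [← List.take_append_drop i (W.take j)]
    rw [List.take_take, min_eq_left hij.le]
  unfold H981.path at h
  obtain ⟨h1, h2⟩ := Prod.mk.inj h
  have ex : dx (W.take j) = dx (W.take i) + dx ((W.take j).drop i) := by
    rw [← dx_append, ← e]
  have ey : dy (W.take j) = dy (W.take i) + dy ((W.take j).drop i) := by
    rw [← dy_append, ← e]
  have hm := hW ((W.take j).drop i)
    (((List.drop_suffix _ _).isInfix).trans (List.take_prefix _ _).isInfix) (by omega) (by omega)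
  have hl : ((W.take j).drop i).length = j - i := by
    rw [List.length_drop, List.length_take, min_eq_left hj]
  rw [hm, List.length_nil] at hl
  omega

theorem exists_far {n r : ℕ} (hr : 1 ≤ r) (hn : (2 * r) ^ 2 ≤ n) {W : List St} (hW : Saw W)
    (hl : W.length = n) :
    ∃ j ≤ n, (r : ℤ) ≤ |(H981.path W j).1| ∨ (r : ℤ) ≤ |(H981.path W j).2| := by
  by_contra hcon
  push Not at hcon
  have hcard := Finset.card_le_card_of_injOn (s := range (n + 1))
    (t := Ioo (-(r : ℤ)) r ×ˢ Ioo (-(r : ℤ)) r) (fun j => H981.path W j) (by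
      intro j hj
      rw [Finset.mem_coe, Finset.mem_range] at hj
      obtain ⟨h1, h2⟩ := hcon j (by omega)
      rw [Finset.mem_coe, Finset.mem_product, Finset.mem_Ioo, Finset.mem_Ioo]
      exact ⟨abs_lt.1 h1, abs_lt.1 h2⟩) (by
      intro i hi j hj hij
      rw [Finset.mem_coe, Finset.mem_range] at hi hj
      rcases lt_trichotomy i j with h | h | h
      · exact absurd hij (path_ne hW h (by omega))
      · exact h
      · exact absurd hij.symm (path_ne hW h (by omega)))
  rw [Finset.card_range, Finset.card_product, Int.card_Ioo] at hcard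
  have e : ((r : ℤ) - -(r : ℤ) - 1).toNat = 2 * r - 1 := by omega
  rw [e] at hcard
  have h3 : (2 * r - 1) * (2 * r - 1) ≤ (2 * r) ^ 2 := by
    rw [sq]
    exact Nat.mul_le_mul (by omega) (by omega)
  omega

theorem sum_path {n j : ℕ} (hj : j ≤ n) (l : ℝ × ℝ) :
    ∑ w ∈ fs Saw n, Real.exp (l.1 * (H981.path w j).1 + l.2 * (H981.path w j).2) ≤
      Z l j * c (n - j) := by
  classical
  have hc : (c (n - j) : ℝ) = ∑ w ∈ fs Saw (n - j), (1 : ℝ) := by
    unfold c
    simp
  unfold Z
  rw [hc, Finset.sum_mul_sum, ← Finset.sum_product']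
  have hinj : Set.InjOn (fun w : List St => (w.take j, w.drop j)) (fs Saw n) := by
    intro u _ v _ huv
    obtain ⟨h1, h2⟩ := Prod.mk.inj huv
    rw [← List.take_append_drop j u, ← List.take_append_drop j v, h1, h2]
  have e : ∀ w ∈ fs Saw n, Real.exp (l.1 * (H981.path w j).1 + l.2 * (H981.path w j).2) =
      (fun z : List St × List St => Real.exp (l.1 * dx z.1 + l.2 * dy z.1) * (1 : ℝ))
        ((fun w : List St => (w.take j, w.drop j)) w) := by
    intro w _
    simp only [mul_one]
    rfl
  rw [Finset.sum_congr rfl e, ← Finset.sum_image (g := fun w : List St => (w.take j, w.drop j))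
    (f := fun z : List St × List St => Real.exp (l.1 * dx z.1 + l.2 * dy z.1) * (1 : ℝ)) hinj]
  apply Finset.sum_le_sum_of_subset_of_nonneg
  · intro z hz
    rw [Finset.mem_image] at hz
    obtain ⟨w, hw, rfl⟩ := hz
    rw [mem_fs] at hw
    rw [Finset.mem_product, mem_fs, mem_fs]
    refine ⟨⟨hw.1.subw (List.take_prefix _ _).isInfix, ?_⟩,
      ⟨hw.1.subw (List.drop_suffix _ _).isInfix, ?_⟩⟩
    · simp only [List.length_take]; omega
    · simp only [List.length_drop]; omega
  · intro z _ _
    positivity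

theorem lam_pos {t : ℝ} (ht : 0 < t) : 0 < Lam (t, 0) := by
  rcases (Lam_nonneg (t, 0)).lt_or_eq with h | h
  · exact h
  exfalso
  obtain ⟨K, hK, hZ⟩ := Z_le
  obtain ⟨K1, hK1, hc, -⟩ := exists_K
  have hmu := mu_pos
  have hmu1 := one_le_mu
  -- the four forces
  have hL1 : Lam (t, 0) = 0 := h.symm
  have hL2 : Lam (-t, 0) = 0 := by
    have := Lam_sg (t, 0)
    simp only at this
    rw [this, hL1]
  have hL3 : Lam (0, t) = 0 := by
    have := Lam_swap (t, 0)
    simp only at this
    rw [this, hL1]
  have hL4 : Lam (0, -t) = 0 := by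
    have := Lam_ng (0, t)
    simp only at this
    rw [this, hL3]
  -- the size
  obtain ⟨r, h1, hr2⟩ := ((small_log (A := 16 * (K + K1) + 6) (B := 6)
    (show 0 < t / 2 by linarith)).and (eventually_ge_atTop 2)).exists
  have hr0 : (0 : ℝ) < r := by exact_mod_cast (by omega : 0 < r)
  have hr2' : (2 : ℝ) ≤ r := by exact_mod_cast hr2
  obtain ⟨n, hn⟩ : ∃ n, n = (2 * r) ^ 2 := ⟨_, rfl⟩
  have hn2 : 2 ≤ n := by rw [hn]; nlinarith
  have hn0 : (0 : ℝ) < n := by exact_mod_cast (by omega : 0 < n)
  have hZj : ∀ l : ℝ × ℝ, Lam l = 0 → ∀ j ∈ Icc 2 n, Z l j * c (n - j) ≤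
      mu ^ n * q n (K + K1) := by
    intro l hl j hj
    rw [Finset.mem_Icc] at hj
    have g1 := hZ j hj.1 l
    rw [hl, zero_add] at g1
    have g2 : Real.log j ≤ Real.log n :=
      Real.log_le_log (by exact_mod_cast (by omega : 0 < j)) (by exact_mod_cast hj.2)
    have g3 : 0 ≤ Real.log j := Real.log_nonneg (by exact_mod_cast (by omega : 1 ≤ j))
    have g4 : K * Real.log j ^ 2 ≤ K * Real.log n ^ 2 :=
      mul_le_mul_of_nonneg_left (pow_le_pow_left₀ g3 g2 2) hK
    have g5 : Z l j ≤ mu ^ j * q n K := by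
      rw [← Real.exp_log (Z_pos l j)]
      have : mu ^ j * q n K = Real.exp (j * Real.log mu + K * Real.log n ^ 2) := by
        unfold q
        rw [Real.exp_add, mul_comm (j : ℝ), Real.exp_mul (Real.log mu) j, Real.exp_log hmu,
          Real.rpow_natCast]
      rw [this]
      exact Real.exp_le_exp.2 (by linarith)
    have g6 := hc n hn2 (n - j) (Nat.sub_le _ _)
    calc Z l j * c (n - j) ≤ (mu ^ j * q n K) * (mu ^ (n - j) * q n K1) := by
          apply mul_le_mul g5 g6 (Nat.cast_nonneg _)
          exact mul_nonneg (by positivity) (q_pos _ _).le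
      _ = mu ^ (j + (n - j)) * (q n K * q n K1) := by rw [pow_add]; ring
      _ = mu ^ n * q n (K + K1) := by rw [q_mul, Nat.add_sub_cancel' hj.2]
  -- the sum
  have key : (c n : ℝ) ≤ ∑ j ∈ Icc 2 n, Real.exp (-(t * r)) * (4 * (mu ^ n * q n (K + K1))) := by
    have e0 : (c n : ℝ) = ∑ w ∈ fs Saw n, (1 : ℝ) := by
      unfold c
      simp
    rw [e0]
    have e1 : ∀ w ∈ fs Saw n, (1 : ℝ) ≤ ∑ j ∈ Icc 2 n, Real.exp (-(t * r)) *
        (Real.exp (t * (H981.path w j).1 + 0 * (H981.path w j).2) +
          Real.exp (-t * (H981.path w j).1 + 0 * (H981.path w j).2) +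
          Real.exp (0 * (H981.path w j).1 + t * (H981.path w j).2) +
          Real.exp (0 * (H981.path w j).1 + -t * (H981.path w j).2)) := by
      intro w hw
      rw [mem_fs] at hw
      obtain ⟨j, hj, hfar⟩ := exists_far (by omega) hn.symm.le hw.1 hw.2
      have hab : |(H981.path w j).1| + |(H981.path w j).2| ≤ j := by
        have g1 := abs_add_abs_le (w.take j)
        rw [List.length_take, min_eq_left (by omega)] at g1
        exact g1
      have hj2 : 2 ≤ j := by
        have a1 := abs_nonneg (H981.path w j).1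
        have a2 := abs_nonneg (H981.path w j).2
        have a3 : (2 : ℤ) ≤ r := by exact_mod_cast hr2
        have : (2 : ℤ) ≤ j := by
          rcases hfar with h | h <;> linarith
        exact_mod_cast this
      refine le_trans ?_ (Finset.single_le_sum (f := fun j => Real.exp (-(t * r)) *
        (Real.exp (t * (H981.path w j).1 + 0 * (H981.path w j).2) +
          Real.exp (-t * (H981.path w j).1 + 0 * (H981.path w j).2) +
          Real.exp (0 * (H981.path w j).1 + t * (H981.path w j).2) +
          Real.exp (0 * (H981.path w j).1 + -t * (H981.path w j).2)))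
        (fun i _ => by positivity) (Finset.mem_Icc.2 ⟨hj2, hj⟩))
      have hE : 1 ≤ Real.exp (-(t * r)) * Real.exp (t * r) := by
        rw [← Real.exp_add]; simp
      have p1 := Real.exp_pos (t * (H981.path w j).1 + 0 * (H981.path w j).2)
      have p2 := Real.exp_pos (-t * (H981.path w j).1 + 0 * (H981.path w j).2)
      have p3 := Real.exp_pos (0 * (H981.path w j).1 + t * (H981.path w j).2)
      have p4 := Real.exp_pos (0 * (H981.path w j).1 + -t * (H981.path w j).2)
      refine hE.trans (mul_le_mul_of_nonneg_left ?_ (Real.exp_pos _).le)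
      rcases hfar with h | h
      · rcases le_abs.1 h with h | h
        · have hr' : (r : ℝ) ≤ (H981.path w j).1 := by exact_mod_cast h
          have : Real.exp (t * r) ≤ Real.exp (t * (H981.path w j).1 + 0 * (H981.path w j).2) := by
            apply Real.exp_le_exp.2
            nlinarith
          linarith
        · have hr' : (r : ℝ) ≤ -(H981.path w j).1 := by exact_mod_cast h
          have : Real.exp (t * r) ≤ Real.exp (-t * (H981.path w j).1 + 0 * (H981.path w j).2) := by
            apply Real.exp_le_exp.2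
            nlinarith
          linarith
      · rcases le_abs.1 h with h | h
        · have hr' : (r : ℝ) ≤ (H981.path w j).2 := by exact_mod_cast h
          have : Real.exp (t * r) ≤ Real.exp (0 * (H981.path w j).1 + t * (H981.path w j).2) := by
            apply Real.exp_le_exp.2
            nlinarith
          linarith
        · have hr' : (r : ℝ) ≤ -(H981.path w j).2 := by exact_mod_cast h
          have : Real.exp (t * r) ≤ Real.exp (0 * (H981.path w j).1 + -t * (H981.path w j).2) := by
            apply Real.exp_le_exp.2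
            nlinarith
          linarith
    refine (Finset.sum_le_sum e1).trans ?_
    rw [Finset.sum_comm]
    apply Finset.sum_le_sum
    intro j hj
    rw [← Finset.mul_sum, Finset.sum_add_distrib, Finset.sum_add_distrib, Finset.sum_add_distrib]
    apply mul_le_mul_of_nonneg_left _ (Real.exp_pos _).le
    have hjn := (Finset.mem_Icc.1 hj).2
    have s1 := (sum_path hjn (t, 0)).trans (hZj _ hL1 j hj)
    have s2 := (sum_path hjn (-t, 0)).trans (hZj _ hL2 j hj)
    have s3 := (sum_path hjn (0, t)).trans (hZj _ hL3 j hj)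
    have s4 := (sum_path hjn (0, -t)).trans (hZj _ hL4 j hj)
    linarith
  have hlow : mu ^ n ≤ c n := by
    rw [c_eq]
    exact mu_pow_le n
  rw [Finset.sum_const, nsmul_eq_mul, Nat.card_Icc] at key
  have hq := q_pos n (K + K1)
  have hcard : ((n + 1 - 2 : ℕ) : ℝ) ≤ n := by exact_mod_cast (by omega : n + 1 - 2 ≤ n)
  have h2 : mu ^ n * 1 ≤ mu ^ n * (4 * n * (Real.exp (-(t * r)) * q n (K + K1))) := by
    rw [mul_one]
    refine (hlow.trans key).trans ?_
    have : ((n + 1 - 2 : ℕ) : ℝ) * (Real.exp (-(t * r)) * (4 * (mu ^ n * q n (K + K1)))) ≤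
        n * (Real.exp (-(t * r)) * (4 * (mu ^ n * q n (K + K1)))) := by
      apply mul_le_mul_of_nonneg_right hcard
      positivity
    refine this.trans (le_of_eq ?_)
    ring
  have h3 := le_of_mul_le_mul_left h2 (by positivity : (0 : ℝ) < mu ^ n)
  -- the logarithms
  have hlr : 0 < Real.log r := Real.log_pos (by linarith)
  have hn4 : Real.log n ≤ 4 * Real.log r := by
    have e1 : (n : ℝ) ≤ (r : ℝ) ^ 4 := by
      rw [hn]
      push_cast
      have : (4 : ℝ) ≤ r ^ 2 := by nlinarith
      nlinarith [sq_nonneg (r : ℝ)]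
    have := Real.log_le_log hn0 e1
    rw [Real.log_pow] at this
    exact_mod_cast this
  have hn1 : 0 ≤ Real.log n := Real.log_nonneg (by exact_mod_cast (by omega : 1 ≤ n))
  have h4n : (4 * n : ℝ) ≤ Real.exp (6 * Real.log r) := by
    have e1 : Real.exp (6 * Real.log r) = (r : ℝ) ^ 6 := by
      rw [mul_comm, Real.exp_mul, Real.exp_log hr0,
        show (6 : ℝ) = ((6 : ℕ) : ℝ) by norm_num, Real.rpow_natCast]
    rw [e1, hn]
    push_cast
    have : (4 : ℝ) ≤ r ^ 2 := by nlinarith
    have h5 : (16 : ℝ) ≤ r ^ 4 := by nlinarith [sq_nonneg ((r : ℝ) ^ 2)]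
    nlinarith [sq_nonneg (r : ℝ)]
  have h5 : (1 : ℝ) ≤ Real.exp (6 * Real.log r + -(t * r) + (K + K1) * Real.log n ^ 2) := by
    rw [Real.exp_add, Real.exp_add]
    refine h3.trans ?_
    unfold q
    rw [mul_assoc (Real.exp (6 * Real.log r))]
    apply mul_le_mul_of_nonneg_right h4n
    positivity
  rw [Real.one_le_exp_iff] at h5
  have h6 : Real.log n ^ 2 ≤ 16 * Real.log r ^ 2 := by nlinarith
  have h7 : (K + K1) * Real.log n ^ 2 ≤ (K + K1) * (16 * Real.log r ^ 2) :=
    mul_le_mul_of_nonneg_left h6 (by positivity)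
  have h8 : Real.log r ≤ Real.log r ^ 2 + 1 := by nlinarith [sq_nonneg (Real.log r - 1)]
  have h9 : 0 < t * r := by positivity
  nlinarith

theorem lam_zero_iff {l : ℝ × ℝ} : Lam l ≤ 0 ↔ l = (0, 0) := by
  constructor
  · intro h
    obtain ⟨x, y⟩ := l
    by_contra hcon
    have hxy : x ≠ 0 ∨ y ≠ 0 := by
      by_contra hc
      push Not at hc
      exact hcon (Prod.ext hc.1 hc.2)
    rw [← lam_abs] at h
    rcases hxy with hx | hy
    · have h1 := lam_pos (abs_pos.2 hx)
      have h2 := lam_mono (x := |x|) (x' := |x|) (y := 0) (y' := |y|) (abs_nonneg x) le_rfl le_rfl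
        (abs_nonneg y)
      linarith
    · have h1 := lam_pos (abs_pos.2 hy)
      have h2 := lam_mono (x := 0) (x' := |x|) (y := |y|) (y' := |y|) le_rfl (abs_nonneg x)
        (abs_nonneg y) le_rfl
      have h3 := Lam_swap (|y|, 0)
      simp only at h3
      linarith
  · rintro rfl
    rw [lam_zero]

theorem vv_zero : VV 0 = 0 := by
  have h : {l : ℝ × ℝ | Lam l ≤ 0} = {(0, 0)} := by
    ext l
    rw [Set.mem_ofPred_eq, Set.mem_singleton_iff]
    exact lam_zero_iff
  unfold VV
  rw [h, MeasureTheory.measure_singleton]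
  rfl

/-- **The formula.** -/
theorem fs_wulff {l : ℝ} (hl : 0 < l) : IsLUB {r | ∃ h : ℝ, 0 ≤ h ∧ r = 2 * h - VV h / l} (FS JJ l) := by
  constructor
  · rintro r ⟨h, hh, rfl⟩
    exact fs_wulff_ge hl hh
  · intro G hG
    apply fs_wulff_le hl
    · have := hG ⟨0, le_rfl, rfl⟩
      rw [vv_zero] at this
      simpa using this
    · intro h hh
      exact hG ⟨h, hh, rfl⟩

end Pool.Agent.U262.AR
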