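import Pool.Agent.U262.AR.P4

/-!
The polygons with an area weight: the limit of the free energy and of the mean area.
-/

set_option autoImplicit false

namespace Pool.Agent.U262.AR

open Pool.Agent.TH795.EP Pool.Agent.TH795.EP2 Pool.Agent.TH795.SE2 Pool.Agent.TH262.SawL H981 Finset
open Pool.Agent.Y981.L2 Pool.Agent.U262.SW
open Filter Topology

open Classical in
/-- the loops with `2 n` steps -/
noncomputable def lps (n : ℕ) : Finset (ZMod (2 * n) → ℤ × ℤ) :=
  if h : 2 ≤ n then (loops_fin (M := 2 * n) (by omega)).toFinset else ∅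

/-- the normalised area -/
noncomputable def na (n : ℕ) (f : ZMod (2 * n) → ℤ × ℤ) : ℝ := (AR.area (2 * n) f : ℝ) / (n : ℝ) ^ 2

theorem lps_eq {n : ℕ} (hn : 2 ≤ n) : lps n = (loops_fin (M := 2 * n) (by omega)).toFinset := by
  unfold lps
  rw [dif_pos hn]

theorem mem_lps {n : ℕ} (hn : 2 ≤ n) {f : ZMod (2 * n) → ℤ × ℤ} :
    f ∈ lps n ↔ IsLoop (2 * n) f := by
  rw [lps_eq hn, Set.Finite.mem_toFinset]
  exact Iff.rfl

theorem card_lps {n : ℕ} (hn : 2 ≤ n) : (lps n).card = ln n := by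
  unfold ln
  rw [Set.ncard_eq_toFinset_card _ (loops_fin (M := 2 * n) (by omega)), lps_eq hn]

theorem lps_ne : ∀ᶠ n in atTop, (lps n).Nonempty := by
  filter_upwards [eventually_ge_atTop 2] with n hn
  rw [← Finset.card_pos, card_lps hn]
  exact_mod_cast ln_pos hn

theorem na_mem : ∀ᶠ n in atTop, ∀ f ∈ lps n, 0 ≤ na n f ∧ na n f ≤ 1 / 4 := by
  filter_upwards [eventually_ge_atTop 2] with n hn
  intro f hf
  rw [mem_lps hn] at hf
  have hn0 : (0 : ℝ) < n := by exact_mod_cast (by omega : 0 < n)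
  unfold na
  refine ⟨by positivity, ?_⟩
  rw [div_le_iff₀ (by positivity)]
  have h1 := area_le (by omega) hf
  have h2 : (16 : ℝ) * AR.area (2 * n) f ≤ (2 * n) ^ 2 := by
    have : ((16 * (AR.area (2 * n) f : ℤ) : ℤ) : ℝ) ≤ (((2 * n : ℕ) : ℤ) ^ 2 : ℤ) := by
      exact_mod_cast h1
    push_cast at this
    exact this
  linarith

theorem ps_eq {n : ℕ} (hn : 2 ≤ n) (s : ℝ) :
    PS lps na n s = ((LA (2 * n) ⌈s * (n : ℝ) ^ 2⌉).ncard : ℝ) / ln n := by
  classical
  have hn0 : (0 : ℝ) < n := by exact_mod_cast (by omega : 0 < n)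
  unfold PS
  rw [card_lps hn]
  congr 2
  rw [LA_eq hn, ← Set.ncard_coe_finset]
  congr 1
  ext f
  rw [Finset.mem_coe, Finset.mem_filter, mem_lps hn]
  unfold na
  rw [le_div_iff₀ (by positivity)]
  exact Iff.rfl

theorem zs_limit (l : ℝ) :
    Tendsto (fun n : ℕ => Real.log (ZS lps na n l) / n) atTop (𝓝 (FS JJ l)) := by
  apply zs_lim lps_ne na_mem
  · intro s hs hs4
    filter_upwards [LA_pos hs hs4, eventually_ge_atTop 2] with n h1 hn
    rw [ps_eq hn]
    exact div_pos h1 (ln_pos hn)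
  · intro s hs hs4
    refine (area_limit hs hs4).congr' ?_
    filter_upwards [eventually_ge_atTop 2] with n hn
    rw [ps_eq hn]
  · intro s hs hs4
    exact jj_pos hs hs4.le
  · exact jj_nonpos le_rfl

theorem fs_pos_iff {l lc : ℝ} (hlc : IsGLB {r | ∃ h : ℝ, 0 < h ∧ r = VV h / (2 * h)} lc) :
    0 < FS JJ l ↔ lc < l := by
  have hlc0 : 0 ≤ lc := by
    apply hlc.2
    rintro r ⟨h, hh, rfl⟩
    have := vv_nonneg h
    positivity
  constructor
  · intro hF
    have hl : 0 < l := by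
      by_contra hcon
      rw [fs_neg jj_nn (jj_nonpos le_rfl) (not_lt.1 hcon)] at hF
      exact lt_irrefl _ hF
    by_contra hcon
    push Not at hcon
    have h1 : FS JJ l ≤ 0 := by
      apply (fs_wulff hl).2
      rintro r ⟨h, hh, rfl⟩
      rcases hh.eq_or_lt with h0 | h0
      · rw [← h0, vv_zero]; simp
      · have h2 : lc ≤ VV h / (2 * h) := hlc.1 ⟨h, h0, rfl⟩
        have h3 : l ≤ VV h / (2 * h) := hcon.trans h2
        rw [le_div_iff₀ (by positivity)] at h3
        rw [sub_nonpos, le_div_iff₀ hl]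
        linarith
    linarith
  · intro h
    obtain ⟨r, ⟨k, hk, rfl⟩, hr⟩ := hlc.exists_between h
    have hl : 0 < l := lt_of_le_of_lt hlc0 h
    have h2 : 2 * k - VV k / l ≤ FS JJ l := (fs_wulff hl).1 ⟨k, hk.le, rfl⟩
    have h3 : VV k / l < 2 * k := by
      rw [div_lt_iff₀ hl]
      have := hr.2
      rw [div_lt_iff₀ (by positivity)] at this
      linarith
    linarith

theorem deriv_eq {l h d : ℝ} (hl : 0 < l) (hh : 0 ≤ h) (hF : FS JJ l = 2 * h - VV h / l)
    (hd : HasDerivAt (FS JJ) d l) : d = VV h / l ^ 2 := by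
  have h1 : HasDerivAt (fun t : ℝ => 2 * h - VV h * t⁻¹) (VV h / l ^ 2) l := by
    have := ((hasDerivAt_inv hl.ne').const_mul (VV h)).const_sub (2 * h)
    rwa [mul_neg, neg_neg, ← div_eq_mul_inv] at this
  have h2 := hd.sub h1
  have h3 : IsLocalMin (FS JJ - fun t : ℝ => 2 * h - VV h * t⁻¹) l := by
    filter_upwards [eventually_gt_nhds hl] with t ht
    have g1 : 2 * h - VV h / t ≤ FS JJ t := (fs_wulff ht).1 ⟨h, hh, rfl⟩
    simp only [Pi.sub_apply]
    rw [hF, ← div_eq_mul_inv, ← div_eq_mul_inv]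
    linarith
  have h4 := h3.hasDerivAt_eq_zero h2
  linarith

end Pool.Agent.U262.AR
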