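import Pool.Agent.U262.AR.P4

/-!
Mixed areas with a segment: the extents of the laws with nearly optimal cost.
-/

set_option autoImplicit false

namespace Pool.Agent.U262.AR

open Pool.Agent.TH795.EP Pool.Agent.TH795.EP2 Pool.Agent.TH795.SE2 Pool.Agent.TH262.SawL H981 Finset
open Pool.Agent.Y981.L2 Pool.Agent.U262.SW
open Filter Topology

/-- the laws -/
structure Law (k : ℕ) (p x y : Fin k → ℝ) : Prop where
  p0 : ∀ i, 0 ≤ p i
  p1 : ∑ i, p i = 1
  x0 : ∀ i, 0 ≤ x i
  y0 : ∀ i, 0 ≤ y i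
  xy : ∀ i, x i + y i ≤ 1

section

variable {h : ℝ} {N : ℕ}

/-- the mixed area of a law and the Wulff polygon -/
theorem mixed_le (hh : 0 ≤ h) (hN : 1 ≤ N) {k : ℕ} {p x y : Fin k → ℝ} (L : Law k p x y) :
    2 * mx p x y (fun _ : Fin (N + 1) => 1) (fun i => be h N i) (fun i => al h N i) ≤
        (∑ i, p i * Rate (x i, y i)) + h := by
  unfold mx
  have e1 : ∀ i, ∑ j : Fin (N + 1), p i * (1 * max (x i * al h N j) (be h N j * y i)) =
      p i * ∑ j ∈ range (N + 1), max (x i * al h N j) (be h N j * y i) := by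
    intro i
    rw [Finset.mul_sum]
    simp only [one_mul]
    exact Fin.sum_univ_eq_sum_range (fun j => p i * max (x i * al h N j) (be h N j * y i))
      (N + 1)
  simp only [e1]
  have e2 : 2 * (1 / 2 * ∑ i, p i * ∑ j ∈ range (N + 1), max (x i * al h N j)
      (be h N j * y i)) = ∑ i, p i * ∑ j ∈ range (N + 1), max (x i * al h N j)
      (be h N j * y i) := by ring
  rw [e2]
  have e3 : (∑ i, p i * Rate (x i, y i)) + h = ∑ i, p i * (Rate (x i, y i) + h) := by
    have : ∑ i, p i * (Rate (x i, y i) + h) = ∑ i, p i * Rate (x i, y i) + (∑ i, p i) * h := by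
      rw [Finset.sum_mul, ← Finset.sum_add_distrib]
      apply Finset.sum_congr rfl
      intro i _
      ring
    rw [this, L.p1, one_mul]
  rw [e3]
  apply Finset.sum_le_sum
  intro i _
  exact mul_le_mul_of_nonneg_left (support_le hh hN (L.x0 i) (L.y0 i) (L.xy i)) (L.p0 i)

theorem sum_al (hN : 1 ≤ N) : ∑ j : Fin (N + 1), al h N j = LL h := by
  rw [Fin.sum_univ_eq_sum_range (fun j => al h N j) (N + 1), Finset.sum_range_succ]
  have e1 : al h N N = 0 := by unfold al; rw [if_neg (lt_irrefl _)]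
  have e2 : ∑ j ∈ range N, al h N j = ∑ j ∈ range N, dl h N := by
    apply Finset.sum_congr rfl
    intro j hj
    unfold al
    rw [if_pos (Finset.mem_range.1 hj)]
  rw [e1, e2, Finset.sum_const, Finset.card_range, nsmul_eq_mul, N_dl hN, add_zero]

theorem Q_ge (hh : 0 ≤ h) (hN : 1 ≤ N) : VV h ≤ 4 * mx (fun _ : Fin (N + 1) => 1)
    (fun i => be h N i) (fun i => al h N i) (fun _ : Fin (N + 1) => 1) (fun i => be h N i)
    (fun i => al h N i) + 4 * (LL h ^ 2 / N) := by
  have e1 := VV_le (N := N) hh hN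
  have e2 := sum_shift hN hh
  have e3 := arc_ge hh hN
  linarith

theorem Q_nonneg (hh : 0 ≤ h) (hN : 1 ≤ N) : 0 ≤ mx (fun _ : Fin (N + 1) => 1)
    (fun i => be h N i) (fun i => al h N i) (fun _ : Fin (N + 1) => 1) (fun i => be h N i)
    (fun i => al h N i) := by
  refine le_trans ?_ (arc_ge hh hN)
  apply Finset.sum_nonneg
  intro j hj
  rw [Finset.mem_range] at hj
  exact mul_nonneg (dl_nonneg hh) (GG_le hh hN (by omega)).1

end

theorem LL_nonneg {h : ℝ} (hh : 0 ≤ h) : 0 ≤ LL h := (LL_mem hh).1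

/-- a segment added to the law -/
theorem mixed1 {h s δ : ℝ} (hh : 0 ≤ h) (hs : 0 ≤ s) (hδ : 0 ≤ δ) {k : ℕ} {p x y : Fin k → ℝ}
    (L : Law k p x y) (ha : s ≤ ar2 p x y) :
    (s + δ * ∑ i, p i * y i) * VV h ≤ ((∑ i, p i * Rate (x i, y i)) + h + δ * LL h) ^ 2 := by
  obtain ⟨C, hC⟩ : ∃ C, C = ∑ i, p i * Rate (x i, y i) := ⟨_, rfl⟩
  obtain ⟨Y, hY⟩ : ∃ Y, Y = ∑ i, p i * y i := ⟨_, rfl⟩
  rw [← hC, ← hY]
  have hY0 : 0 ≤ Y := by rw [hY]; exact Finset.sum_nonneg fun i _ => mul_nonneg (L.p0 i) (L.y0 i)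
  have hLL := LL_nonneg hh
  have hC0 : 0 ≤ C := by
    rw [hC]
    exact Finset.sum_nonneg fun i _ => mul_nonneg (L.p0 i)
      (rate_nonneg' (dia_quad (L.x0 i) (L.y0 i) (L.xy i)))
  have hsY : 0 ≤ s + δ * Y := by positivity
  have key : ∀ N : ℕ, 1 ≤ N → (s + δ * Y) * VV h ≤
      (C + h + δ * LL h) ^ 2 + 4 * (s + δ * Y) * LL h ^ 2 / N := by
    intro N hN
    obtain ⟨Q, hQ⟩ : ∃ Q, Q = mx (fun _ : Fin (N + 1) => 1) (fun i => be h N i)
      (fun i => al h N i) (fun _ : Fin (N + 1) => 1) (fun i => be h N i)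
      (fun i => al h N i) := ⟨_, rfl⟩
    have hQ0 : 0 ≤ Q := hQ ▸ Q_nonneg hh hN
    have hbn : ∀ i : Fin (N + 1), 0 ≤ be h N i := fun i => be_nonneg hh hN (by omega)
    obtain ⟨p', hp'⟩ : ∃ p' : Option (Fin k) → ℝ, p' = fun o => o.elim δ p := ⟨_, rfl⟩
    obtain ⟨x', hx'⟩ : ∃ x' : Option (Fin k) → ℝ, x' = fun o => o.elim 1 x := ⟨_, rfl⟩
    obtain ⟨y', hy'⟩ : ∃ y' : Option (Fin k) → ℝ, y' = fun o => o.elim 0 y := ⟨_, rfl⟩
    have f1 : mx p' x' y' p' x' y' = ar2 p x y + δ * Y := by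
      unfold mx ar2
      rw [Fintype.sum_option, Fintype.sum_option]
      simp only [Fintype.sum_option, hp', hx', hy', Option.elim_none, Option.elim_some]
      have e1 : ∀ i, max (1 * y i) 0 = y i := fun i => by
        rw [one_mul]; exact max_eq_left (L.y0 i)
      have e2 : ∀ i, max 0 (1 * y i) = y i := fun i => by
        rw [one_mul]; exact max_eq_right (L.y0 i)
      simp only [mul_zero, e1, e2, max_self, zero_add]
      rw [Finset.sum_add_distrib, ← Finset.mul_sum]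
      have e3 : ∑ i, p i * (δ * y i) = δ * Y := by
        rw [hY, Finset.mul_sum]
        apply Finset.sum_congr rfl
        intro i _
        ring
      have e4 : ∑ i, p i * y i = Y := hY.symm
      rw [e3, e4]
      ring
    have f2 : mx p' x' y' (fun _ : Fin (N + 1) => 1) (fun i => be h N i) (fun i => al h N i) =
        mx p x y (fun _ : Fin (N + 1) => 1) (fun i => be h N i) (fun i => al h N i) +
          1 / 2 * (δ * LL h) := by
      unfold mx
      rw [Fintype.sum_option]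
      simp only [hp', hx', hy', Option.elim_none, Option.elim_some, one_mul, mul_zero]
      have e1 : ∀ j : Fin (N + 1), max (al h N j) 0 = al h N j := fun j =>
        max_eq_left (al_nonneg hh j)
      simp only [e1]
      rw [← Finset.mul_sum, sum_al hN]
      ring
    have g1 := minkowski p' x' y' (fun _ : Fin (N + 1) => 1) (fun i => be h N i) (fun i => al h N i)
      (by rw [hp']; rintro (_ | i); exacts [hδ, L.p0 i])
      (by rw [hx']; rintro (_ | i); exacts [zero_le_one, L.x0 i])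
      (by rw [hy']; rintro (_ | i); exacts [le_rfl, L.y0 i])
      (fun _ => zero_le_one) hbn (fun i => al_nonneg hh i) (Real.sqrt_nonneg (s + δ * Y))
      (Real.sqrt_nonneg Q) (by rw [Real.sq_sqrt hsY, f1]; linarith)
      (by rw [Real.sq_sqrt hQ0, hQ])
    have g2 := mixed_le hh hN L
    rw [← hC] at g2
    rw [f2] at g1
    have g3 : 2 * (√(s + δ * Y) * √Q) ≤ C + h + δ * LL h := by linarith
    have g4 : (2 * (√(s + δ * Y) * √Q)) ^ 2 ≤ (C + h + δ * LL h) ^ 2 :=
      pow_le_pow_left₀ (by positivity) g3 2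
    have g5 : (2 * (√(s + δ * Y) * √Q)) ^ 2 = 4 * (s + δ * Y) * Q := by
      rw [mul_pow, mul_pow, Real.sq_sqrt hsY, Real.sq_sqrt hQ0]
      ring
    have g6 := Q_ge hh hN
    rw [← hQ] at g6
    have g7 := mul_le_mul_of_nonneg_left g6 hsY
    have g8 : (s + δ * Y) * (4 * Q + 4 * (LL h ^ 2 / N)) =
        4 * (s + δ * Y) * Q + 4 * (s + δ * Y) * LL h ^ 2 / N := by ring
    rw [g5] at g4
    linarith
  have h2 : Tendsto (fun N : ℕ => (C + h + δ * LL h) ^ 2 + 4 * (s + δ * Y) * LL h ^ 2 / N) atTop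
      (𝓝 ((C + h + δ * LL h) ^ 2 + 0)) :=
    tendsto_const_nhds.add (tendsto_const_div_atTop_nhds_zero_nat (4 * (s + δ * Y) * LL h ^ 2))
  rw [add_zero] at h2
  apply ge_of_tendsto h2
  filter_upwards [eventually_ge_atTop 1] with N hN
  exact key N hN

/-- a segment added to the Wulff shape -/
theorem mixed2 {h s δ : ℝ} (hh : 0 ≤ h) (hs : 0 ≤ s) (hδ : 0 ≤ δ) {k : ℕ} {p x y : Fin k → ℝ}
    (L : Law k p x y) (ha : s ≤ ar2 p x y) :
    s * (VV h + 4 * (δ * LL h)) ≤
      ((∑ i, p i * Rate (x i, y i)) + h + δ * ∑ i, p i * y i) ^ 2 := by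
  obtain ⟨C, hC⟩ : ∃ C, C = ∑ i, p i * Rate (x i, y i) := ⟨_, rfl⟩
  obtain ⟨Y, hY⟩ : ∃ Y, Y = ∑ i, p i * y i := ⟨_, rfl⟩
  rw [← hC, ← hY]
  have hY0 : 0 ≤ Y := by rw [hY]; exact Finset.sum_nonneg fun i _ => mul_nonneg (L.p0 i) (L.y0 i)
  have hLL := LL_nonneg hh
  have hC0 : 0 ≤ C := by
    rw [hC]
    exact Finset.sum_nonneg fun i _ => mul_nonneg (L.p0 i)
      (rate_nonneg' (dia_quad (L.x0 i) (L.y0 i) (L.xy i)))
  have key : ∀ N : ℕ, 1 ≤ N → s * (VV h + 4 * (δ * LL h)) ≤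
      (C + h + δ * Y) ^ 2 + 4 * s * LL h ^ 2 / N := by
    intro N hN
    obtain ⟨Q, hQ⟩ : ∃ Q, Q = mx (fun _ : Fin (N + 1) => 1) (fun i => be h N i)
      (fun i => al h N i) (fun _ : Fin (N + 1) => 1) (fun i => be h N i)
      (fun i => al h N i) := ⟨_, rfl⟩
    have hQ0 : 0 ≤ Q := hQ ▸ Q_nonneg hh hN
    have hQ1 : 0 ≤ Q + δ * LL h := by positivity
    have hbn : ∀ i : Fin (N + 1), 0 ≤ be h N i := fun i => be_nonneg hh hN (by omega)
    obtain ⟨q', hq'⟩ : ∃ q' : Option (Fin (N + 1)) → ℝ, q' = fun o => o.elim δ fun _ => 1 :=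
      ⟨_, rfl⟩
    obtain ⟨z', hz'⟩ : ∃ z' : Option (Fin (N + 1)) → ℝ, z' = fun o => o.elim 1 fun i => be h N i :=
      ⟨_, rfl⟩
    obtain ⟨w', hw'⟩ : ∃ w' : Option (Fin (N + 1)) → ℝ, w' = fun o => o.elim 0 fun i => al h N i :=
      ⟨_, rfl⟩
    have f1 : mx q' z' w' q' z' w' = Q + δ * LL h := by
      rw [hQ]
      unfold mx
      rw [Fintype.sum_option, Fintype.sum_option]
      simp only [Fintype.sum_option, hq', hz', hw', Option.elim_none, Option.elim_some, one_mul,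
        mul_zero, max_self, zero_add, mul_one]
      have e1 : ∀ j : Fin (N + 1), max (al h N j) 0 = al h N j := fun j =>
        max_eq_left (al_nonneg hh j)
      have e2 : ∀ j : Fin (N + 1), max 0 (al h N j) = al h N j := fun j =>
        max_eq_right (al_nonneg hh j)
      simp only [e1, e2]
      rw [Finset.sum_add_distrib, ← Finset.mul_sum, sum_al hN]
      ring
    have f2 : mx p x y q' z' w' =
        mx p x y (fun _ : Fin (N + 1) => 1) (fun i => be h N i) (fun i => al h N i) +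
          1 / 2 * (δ * Y) := by
      unfold mx
      simp only [Fintype.sum_option, hq', hz', hw', Option.elim_none, Option.elim_some, one_mul,
        mul_zero]
      have e1 : ∀ i, max 0 (y i) = y i := fun i => max_eq_right (L.y0 i)
      simp only [e1]
      rw [Finset.sum_add_distrib]
      have e3 : ∑ i, p i * (δ * y i) = δ * Y := by
        rw [hY, Finset.mul_sum]
        apply Finset.sum_congr rfl
        intro i _
        ring
      rw [e3]
      ring
    have g1 := minkowski p x y q' z' w' L.p0 L.x0 L.y0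
      (by rw [hq']; rintro (_ | i); exacts [hδ, zero_le_one])
      (by rw [hz']; rintro (_ | i); exacts [zero_le_one, hbn i])
      (by rw [hw']; rintro (_ | i); exacts [le_rfl, al_nonneg hh _])
      (Real.sqrt_nonneg s)
      (Real.sqrt_nonneg (Q + δ * LL h)) (by rw [Real.sq_sqrt hs]; exact ha)
      (by rw [Real.sq_sqrt hQ1, f1])
    have g2 := mixed_le hh hN L
    rw [← hC] at g2
    rw [f2] at g1
    have g3 : 2 * (√s * √(Q + δ * LL h)) ≤ C + h + δ * Y := by linarith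
    have g4 : (2 * (√s * √(Q + δ * LL h))) ^ 2 ≤ (C + h + δ * Y) ^ 2 :=
      pow_le_pow_left₀ (by positivity) g3 2
    have g5 : (2 * (√s * √(Q + δ * LL h))) ^ 2 = 4 * s * (Q + δ * LL h) := by
      rw [mul_pow, mul_pow, Real.sq_sqrt hs, Real.sq_sqrt hQ1]
      ring
    have g6 := Q_ge hh hN
    rw [← hQ] at g6
    have g7 := mul_le_mul_of_nonneg_left g6 hs
    have g8 : s * (4 * Q + 4 * (LL h ^ 2 / N)) =
        4 * s * Q + 4 * s * LL h ^ 2 / N := by ring
    rw [g5] at g4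
    have g9 : s * (VV h + 4 * (δ * LL h)) = s * VV h + 4 * s * (δ * LL h) := by ring
    have g10 : 4 * s * (Q + δ * LL h) = 4 * s * Q + 4 * s * (δ * LL h) := by ring
    rw [g9]
    linarith
  have h2 : Tendsto (fun N : ℕ => (C + h + δ * Y) ^ 2 + 4 * s * LL h ^ 2 / N) atTop
      (𝓝 ((C + h + δ * Y) ^ 2 + 0)) :=
    tendsto_const_nhds.add (tendsto_const_div_atTop_nhds_zero_nat (4 * s * LL h ^ 2))
  rw [add_zero] at h2
  apply ge_of_tendsto h2
  filter_upwards [eventually_ge_atTop 1] with N hN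
  exact key N hN

end Pool.Agent.U262.AR
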