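import Pool.Agent.U262.AR.Q1

/-!
The optimal level, and the extents of the laws with nearly optimal cost.
-/

set_option autoImplicit false

namespace Pool.Agent.U262.AR

open Pool.Agent.TH795.EP Pool.Agent.TH795.EP2 Pool.Agent.TH795.SE2 Pool.Agent.TH262.SawL H981 Finset
open Pool.Agent.Y981.L2 Pool.Agent.U262.SW
open Filter Topology
open scoped Pointwise

open MeasureTheory in
theorem vv_scale {h h' : ℝ} (hh : 0 < h) (hhh : h ≤ h') : VV h' ≤ (h' / h) ^ 2 * VV h := by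
  have hh' : 0 < h' := by linarith
  have hsub : {l : ℝ × ℝ | Lam l ≤ h'} ⊆ (h' / h) • {l : ℝ × ℝ | Lam l ≤ h} := by
    intro l hl
    have hl' : Lam l ≤ h' := hl
    refine ⟨(h / h' * l.1, h / h' * l.2), ?_, ?_⟩
    · show Lam (h / h' * l.1, h / h' * l.2) ≤ h
      have h1 := lam_convex (l := l) (m := (0, 0)) (α := h / h') (β := 1 - h / h') (by positivity)
        (by rw [sub_nonneg, div_le_one hh']; exact hhh) (by ring)
      simp only [mul_zero, add_zero] at h1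
      rw [lam_zero, mul_zero, add_zero] at h1
      have h2 : h / h' * Lam l ≤ h / h' * h' := mul_le_mul_of_nonneg_left hl' (by positivity)
      rw [div_mul_cancel₀ _ hh'.ne'] at h2
      linarith
    · ext
      · simp only [Prod.smul_fst, smul_eq_mul]; field_simp
      · simp only [Prod.smul_snd, smul_eq_mul]; field_simp
  have h1 := measure_mono (μ := volume) hsub
  rw [Measure.addHaar_smul] at h1
  have h2 : Module.finrank ℝ (ℝ × ℝ) = 2 := by simp
  rw [h2, abs_of_nonneg (by positivity)] at h1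
  unfold VV
  have h3 := ENNReal.toReal_mono (ENNReal.mul_ne_top ENNReal.ofReal_ne_top (vol_fin h)) h1
  rw [ENNReal.toReal_mul, ENNReal.toReal_ofReal (by positivity)] at h3
  exact h3

open MeasureTheory in
theorem vv_box {h r : ℝ} (hr : 0 ≤ r) (hb : ∀ l : ℝ × ℝ, Lam l ≤ h → |l.1| ≤ r ∧ |l.2| ≤ r) :
    VV h ≤ 4 * r ^ 2 := by
  have hsub : {l : ℝ × ℝ | Lam l ≤ h} ⊆ Set.Icc (-r) r ×ˢ Set.Icc (-r) r := by
    intro l hl
    obtain ⟨h1, h2⟩ := hb l hl
    exact ⟨abs_le.1 h1, abs_le.1 h2⟩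
  have h1 := measure_mono (μ := volume) hsub
  rw [Measure.volume_eq_prod, Measure.prod_prod, Real.volume_Icc] at h1
  unfold VV
  rw [Measure.volume_eq_prod]
  have h3 := ENNReal.toReal_mono (ENNReal.mul_ne_top ENNReal.ofReal_ne_top ENNReal.ofReal_ne_top) h1
  rw [ENNReal.toReal_mul, ENNReal.toReal_ofReal (by linarith)] at h3
  refine h3.trans (le_of_eq ?_)
  ring

theorem vv_small {h r : ℝ} (hr : 0 < r) (hh : h < Lam (r, 0)) : VV h ≤ 4 * r ^ 2 := by
  apply vv_box hr.le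
  intro l hl
  rw [← lam_abs] at hl
  constructor
  · by_contra hcon
    push Not at hcon
    have h2 := lam_mono (x := r) (x' := |l.1|) (y := 0) (y' := |l.2|) hr.le hcon.le le_rfl
      (abs_nonneg _)
    linarith
  · by_contra hcon
    push Not at hcon
    have h2 := lam_mono (x := 0) (x' := |l.1|) (y := r) (y' := |l.2|) le_rfl (abs_nonneg _)
      hr.le hcon.le
    have h3 := Lam_swap (r, 0)
    simp only at h3
    linarith

theorem vv_large {h : ℝ} (hh : 0 ≤ h) : VV h ≤ 4 * (h + Real.log mu) ^ 2 := by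
  have hm := logmu
  apply vv_box (by linarith)
  intro l hl
  obtain ⟨h1, h2⟩ := abs_le_Lam l
  constructor <;> linarith

theorem vv_contAt {h : ℝ} (hh : 0 < h) : ContinuousAt VV h := by
  have h1 : Tendsto (fun x : ℝ => min 1 ((x / h) ^ 2) * VV h) (𝓝 h) (𝓝 (VV h)) := by
    have : ContinuousAt (fun x : ℝ => min 1 ((x / h) ^ 2) * VV h) h := by fun_prop
    have h2 := this.tendsto
    simpa [div_self hh.ne'] using h2
  have h2 : Tendsto (fun x : ℝ => max 1 ((x / h) ^ 2) * VV h) (𝓝 h) (𝓝 (VV h)) := by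
    have : ContinuousAt (fun x : ℝ => max 1 ((x / h) ^ 2) * VV h) h := by fun_prop
    have h2 := this.tendsto
    simpa [div_self hh.ne'] using h2
  have hV := vv_nonneg h
  apply tendsto_of_tendsto_of_tendsto_of_le_of_le' h1 h2
  · filter_upwards [eventually_gt_nhds hh] with x hx
    rcases le_total h x with hx2 | hx2
    · have g1 := vv_mono hx2
      have g2 := mul_le_mul_of_nonneg_right (min_le_left 1 ((x / h) ^ 2)) hV
      linarith
    · have g1 := vv_scale hx hx2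
      have g2 := mul_le_mul_of_nonneg_right (min_le_right 1 ((x / h) ^ 2)) hV
      refine g2.trans ?_
      have g3 := mul_le_mul_of_nonneg_left g1 (sq_nonneg (x / h))
      refine g3.trans (le_of_eq ?_)
      field_simp
  · filter_upwards [eventually_gt_nhds hh] with x hx
    rcases le_total h x with hx2 | hx2
    · have g1 := vv_scale hh hx2
      have g2 := mul_le_mul_of_nonneg_right (le_max_right 1 ((x / h) ^ 2)) hV
      linarith
    · have g1 := vv_mono hx2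
      have g2 := mul_le_mul_of_nonneg_right (le_max_left 1 ((x / h) ^ 2)) hV
      linarith

/-- the supremum is attained -/
theorem exists_opt {s : ℝ} (hs : 0 < s) (hs4 : s < 1 / 4) :
    ∃ h : ℝ, 0 ≤ h ∧ √(s * VV h) - h = JJ s := by
  have hJ := jj_pos hs hs4.le
  have hlub := wulff_lub hs.le hs4
  have hm := logmu
  have hq0 : 0 < √s := Real.sqrt_pos.2 hs
  have hq : √s < 1 / 2 := by
    rw [Real.sqrt_lt' (by norm_num)]
    linarith
  obtain ⟨g, hg⟩ : ∃ g : ℝ → ℝ, g = fun h => √(s * VV h) - h := ⟨_, rfl⟩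
  -- small levels
  obtain ⟨r, hr⟩ : ∃ r, r = JJ s / 4 := ⟨_, rfl⟩
  have hr0 : 0 < r := by rw [hr]; positivity
  obtain ⟨a, ha⟩ : ∃ a, a = Lam (r, 0) := ⟨_, rfl⟩
  have ha0 : 0 < a := ha ▸ lam_pos hr0
  have hsmall : ∀ h, 0 ≤ h → h < a → g h ≤ JJ s / 2 := by
    intro h hh hha
    have h1 := vv_small hr0 (ha ▸ hha)
    have h2 : √(s * VV h) ≤ JJ s / 2 := by
      apply Real.sqrt_le_iff.2
      refine ⟨by positivity, ?_⟩
      have h3 := mul_le_mul_of_nonneg_left h1 hs.le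
      rw [hr] at h3
      nlinarith [sq_nonneg (JJ s)]
    rw [hg]
    simp only
    linarith
  -- large levels
  obtain ⟨H, hH⟩ : ∃ H, H = max a (2 * √s * Real.log mu / (1 - 2 * √s)) := ⟨_, rfl⟩
  have hH1 : a ≤ H := hH ▸ le_max_left _ _
  have hlarge : ∀ h, H ≤ h → g h ≤ 0 := by
    intro h hh
    have hh0 : 0 ≤ h := by linarith
    have h1 := vv_large hh0
    have h2 : √(s * VV h) ≤ √s * (2 * (h + Real.log mu)) := by
      apply Real.sqrt_le_iff.2
      refine ⟨by positivity, ?_⟩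
      rw [mul_pow, Real.sq_sqrt hs.le]
      apply mul_le_mul_of_nonneg_left _ hs.le
      linarith
    have h3 : 2 * √s * Real.log mu / (1 - 2 * √s) ≤ h := (hH ▸ le_max_right _ _ : _ ≤ H).trans hh
    rw [div_le_iff₀ (by linarith)] at h3
    rw [hg]
    simp only
    linarith
  have hcont : ContinuousOn g (Set.Icc a H) := by
    intro h hh
    apply ContinuousAt.continuousWithinAt
    rw [hg]
    have h1 := vv_contAt (lt_of_lt_of_le ha0 hh.1)
    exact ((continuousAt_const.mul h1).sqrt).sub continuousAt_id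
  obtain ⟨h, hh, hmax⟩ := isCompact_Icc.exists_isMaxOn ⟨a, le_rfl, hH1⟩ hcont
  have hh0 : 0 ≤ h := by linarith [hh.1]
  refine ⟨h, hh0, ?_⟩
  apply le_antisymm (hlub.1 ⟨h, hh0, rfl⟩)
  have hmax' : ∀ h', 0 ≤ h' → g h' ≤ max (g h) (JJ s / 2) := by
    intro h' hh'
    rcases lt_or_ge h' a with h1 | h1
    · exact (hsmall h' hh' h1).trans (le_max_right _ _)
    · rcases lt_or_ge H h' with h2 | h2
      · exact (hlarge h' h2.le).trans ((by positivity : 0 ≤ JJ s / 2).trans (le_max_right _ _))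
      · exact (hmax ⟨h1, h2⟩).trans (le_max_left _ _)
  have h1 : JJ s ≤ max (g h) (JJ s / 2) := by
    apply hlub.2
    rintro x ⟨h', hh', rfl⟩
    have := hmax' h' hh'
    rw [hg] at this ⊢
    exact this
  rcases le_max_iff.1 h1 with h2 | h2
  · rw [hg] at h2
    exact h2
  · linarith

theorem Law.swap {k : ℕ} {p x y : Fin k → ℝ} (L : Law k p x y) : Law k p y x :=
  ⟨L.p0, L.p1, L.y0, L.x0, fun i => by have := L.xy i; linarith⟩

theorem ar2_swap {k : ℕ} (p x y : Fin k → ℝ) : ar2 p y x = ar2 p x y := by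
  unfold ar2
  congr 1
  apply Finset.sum_congr rfl
  intro i _
  apply Finset.sum_congr rfl
  intro j _
  rw [max_comm, mul_comm (y j), mul_comm (y i)]

theorem cost_swap {k : ℕ} {p x y : Fin k → ℝ} (L : Law k p x y) :
    ∑ i, p i * Rate (y i, x i) = ∑ i, p i * Rate (x i, y i) := by
  apply Finset.sum_congr rfl
  intro i _
  rw [rate_swap (dia_quad (L.x0 i) (L.y0 i) (L.xy i))]

/-- the extent of the Wulff shape of area `s` -/
noncomputable def ww (s h : ℝ) : ℝ := 2 * LL h * √(s / VV h)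

/-- the laws with nearly optimal cost -/
theorem near_y {s h : ℝ} (hs : 0 < s) (hs4 : s < 1 / 4) (hh : 0 ≤ h)
    (hopt : √(s * VV h) - h = JJ s) {ε : ℝ} (hε : 0 < ε) : ∃ η : ℝ, 0 < η ∧ η ≤ s ∧
    ∀ (k : ℕ) (p x y : Fin k → ℝ), Law k p x y → s - η ≤ ar2 p x y →
      ∑ i, p i * Rate (x i, y i) ≤ JJ s + η → |∑ i, p i * y i - ww s h| ≤ ε := by
  have hJ := jj_pos hs hs4.le
  obtain ⟨R, hR⟩ : ∃ R, R = √(s * VV h) := ⟨_, rfl⟩
  have hR0 : 0 < R := by rw [hR]; linarith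
  have hV := vv_nonneg h
  have hR2 : R ^ 2 = s * VV h := by rw [hR, Real.sq_sqrt (by positivity)]
  have hV0 : 0 < VV h := by
    rcases hV.lt_or_eq with h1 | h1
    · exact h1
    · rw [← h1, mul_zero] at hR2
      have := pow_pos hR0 2
      linarith
  obtain ⟨Λ, hΛ⟩ : ∃ Λ, Λ = LL h := ⟨_, rfl⟩
  have hΛ0 : 0 ≤ Λ := hΛ ▸ LL_nonneg hh
  have hw : ww s h = 2 * s * Λ / R := by
    unfold ww
    rw [← hΛ]
    have h1 : √(s / VV h) = s / R := by
      rw [show s / VV h = (s / R) ^ 2 by rw [div_pow, hR2]; field_simp]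
      exact Real.sqrt_sq (by positivity)
    rw [h1]
    ring
  obtain ⟨C1, hC1⟩ : ∃ C1, C1 = (R ^ 2 + 4 * s * R + s * (2 + Λ) ^ 2) / R ^ 2 := ⟨_, rfl⟩
  obtain ⟨C2, hC2⟩ : ∃ C2, C2 = (R ^ 2 + 4 * s * Λ + 4 * s * R + 9 * s) / (2 * s * R) := ⟨_, rfl⟩
  have hC10 : 0 < C1 := by rw [hC1]; positivity
  have hC20 : 0 < C2 := by rw [hC2]; positivity
  obtain ⟨δ, hδ⟩ : ∃ δ, δ = min (min 1 s) (ε / (C1 + C2)) := ⟨_, rfl⟩
  have hδ0 : 0 < δ := by rw [hδ]; exact lt_min (lt_min one_pos hs) (by positivity)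
  have hδ1 : δ ≤ 1 := (hδ ▸ min_le_left _ _ : δ ≤ min 1 s).trans (min_le_left _ _)
  have hδs : δ ≤ s := (hδ ▸ min_le_left _ _ : δ ≤ min 1 s).trans (min_le_right _ _)
  have hδε : δ * (C1 + C2) ≤ ε := by
    have : δ ≤ ε / (C1 + C2) := hδ ▸ min_le_right _ _
    rwa [le_div_iff₀ (by positivity)] at this
  have hη0 : 0 < δ ^ 2 := by positivity
  have hηs : δ ^ 2 ≤ s := by nlinarith
  refine ⟨δ ^ 2, hη0, hηs, ?_⟩
  intro k p x y L ha hcost
  obtain ⟨C, hC⟩ : ∃ C, C = ∑ i, p i * Rate (x i, y i) := ⟨_, rfl⟩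
  obtain ⟨Y, hY⟩ : ∃ Y, Y = ∑ i, p i * y i := ⟨_, rfl⟩
  have hY0 : 0 ≤ Y := by rw [hY]; exact Finset.sum_nonneg fun i _ => mul_nonneg (L.p0 i) (L.y0 i)
  have hY1 : Y ≤ 1 := by
    rw [hY, ← L.p1]
    apply Finset.sum_le_sum
    intro i _
    have h1 := L.xy i
    have h2 := L.x0 i
    have h3 := mul_le_mul_of_nonneg_left (show y i ≤ 1 by linarith) (L.p0 i)
    linarith
  have hC0 : 0 ≤ C := by
    rw [hC]
    exact Finset.sum_nonneg fun i _ => mul_nonneg (L.p0 i)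
      (rate_nonneg' (dia_quad (L.x0 i) (L.y0 i) (L.xy i)))
  have g1 := mixed1 hh (show 0 ≤ s - δ ^ 2 by linarith) hδ0.le L ha
  have g2 := mixed2 hh (show 0 ≤ s - δ ^ 2 by linarith) hδ0.le L ha
  rw [← hC, ← hY, ← hΛ] at g1 g2
  rw [← hC] at hcost
  rw [← hY, hw]
  have hCh : C + h ≤ R + δ ^ 2 := by rw [hR]; linarith
  have k1 : (C + h + δ * Λ) ^ 2 ≤ (R + δ ^ 2 + δ * Λ) ^ 2 :=
    pow_le_pow_left₀ (by positivity) (by linarith) 2
  have k2 : (C + h + δ * Y) ^ 2 ≤ (R + δ ^ 2 + δ * Y) ^ 2 :=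
    pow_le_pow_left₀ (by positivity) (by linarith) 2
  have m1 := mul_le_mul_of_nonneg_left (g1.trans k1) hs.le
  have m2 := mul_le_mul_of_nonneg_left (g2.trans k2) hs.le
  have e1 : s * ((s - δ ^ 2 + δ * Y) * VV h) = (s - δ ^ 2 + δ * Y) * R ^ 2 := by rw [hR2]; ring
  have e2 : s * ((s - δ ^ 2) * (VV h + 4 * (δ * Λ))) =
      (s - δ ^ 2) * (R ^ 2 + 4 * s * (δ * Λ)) := by rw [hR2]; ring
  rw [e1] at m1
  rw [e2] at m2
  -- the upper bound
  have u1 : Y ≤ 2 * s * Λ / R + δ * C1 := by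
    have v1 : Y * R ^ 2 ≤ 2 * s * Λ * R + δ * (R ^ 2 + 4 * s * R + s * (2 + Λ) ^ 2) := by
      have v2 : δ * (Y * R ^ 2) ≤
          δ * (2 * s * Λ * R + δ * (R ^ 2 + 2 * s * R + s * (δ + Λ) ^ 2)) := by
        nlinarith
      have v3 := le_of_mul_le_mul_left v2 hδ0
      have v4 : (δ + Λ) ^ 2 ≤ (2 + Λ) ^ 2 := pow_le_pow_left₀ (by positivity) (by linarith) 2
      have v5 : R ^ 2 + 2 * s * R + s * (δ + Λ) ^ 2 ≤ R ^ 2 + 4 * s * R + s * (2 + Λ) ^ 2 := by
        have := mul_le_mul_of_nonneg_left v4 hs.le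
        have : 0 ≤ s * R := by positivity
        linarith
      have v6 := mul_le_mul_of_nonneg_left v5 hδ0.le
      linarith
    have v7 : 2 * s * Λ / R + δ * C1 =
        (2 * s * Λ * R + δ * (R ^ 2 + 4 * s * R + s * (2 + Λ) ^ 2)) / R ^ 2 := by
      rw [hC1]; field_simp
    rw [v7, le_div_iff₀ (by positivity)]
    exact v1
  have u2 : 2 * s * Λ / R ≤ Y + δ * C2 := by
    have v1 : 2 * s * Λ * (2 * s) ≤ Y * (2 * s * R) +
        δ * (R ^ 2 + 4 * s * Λ + 4 * s * R + 9 * s) := by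
      have v2 : δ * (2 * s * Λ * (2 * s)) ≤ δ * (Y * (2 * s * R) +
          δ * (R ^ 2 + 4 * s * (δ * Λ) + 2 * s * R + s * (δ + Y) ^ 2)) := by
        nlinarith
      have v3 := le_of_mul_le_mul_left v2 hδ0
      have v4 : (δ + Y) ^ 2 ≤ 9 := by nlinarith
      have v5 : R ^ 2 + 4 * s * (δ * Λ) + 2 * s * R + s * (δ + Y) ^ 2 ≤
          R ^ 2 + 4 * s * Λ + 4 * s * R + 9 * s := by
        have w1 := mul_le_mul_of_nonneg_left v4 hs.le
        have w2 : δ * Λ ≤ Λ := by nlinarith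
        have w3 := mul_le_mul_of_nonneg_left w2 hs.le
        have w4 : 0 ≤ s * R := by positivity
        linarith
      have v6 := mul_le_mul_of_nonneg_left v5 hδ0.le
      linarith
    have v7 : Y + δ * C2 = (Y * (2 * s * R) +
        δ * (R ^ 2 + 4 * s * Λ + 4 * s * R + 9 * s)) / (2 * s * R) := by
      rw [hC2]; field_simp
    have v8 : 2 * s * Λ / R = 2 * s * Λ * (2 * s) / (2 * s * R) := by field_simp
    rw [v7, v8]
    exact div_le_div_of_nonneg_right v1 (by positivity)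
  have c1 : δ * C1 ≤ ε := by nlinarith
  have c2 : δ * C2 ≤ ε := by nlinarith
  rw [abs_le]
  constructor <;> linarith

end Pool.Agent.U262.AR
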