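import Pool.Agent.U262.AR.U1

/-!
The isoperimetric inequality with the deficit given by the width.
-/

set_option autoImplicit false

namespace Pool.Agent.U262.AR

open Finset Filter Topology

theorem iso2 {q : ℕ} {px py : ℕ → ℝ} (hxq : px q = px 0) (hyq : py q = py 0)
    (hmax : ∀ i ≤ q, px i ≤ px 0) {a : ℕ} (ha : a ≤ q) (hmin' : ∀ i ≤ q, px a ≤ px i) :
    (∑ i ∈ range q, (px i + px (i + 1)) / 2 * (py (i + 1) - py i)) *
      (∑ i ∈ range q, |px (i + 1) - px i|) ^ 2 ≤
      (∑ i ∈ range q, ∑ j ∈ range q,
        max (|px (i + 1) - px i| * |py (j + 1) - py j|)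
          (|px (j + 1) - px j| * |py (i + 1) - py i|)) *
        ((px 0 - px a) / 2 * (∑ i ∈ range q, |px (i + 1) - px i|) -
          2 * ((px 0 - px a) / 2) ^ 2) := by
  obtain ⟨A, hA⟩ : ∃ A, A = ∑ i ∈ range q, (px i + px (i + 1)) / 2 * (py (i + 1) - py i) := ⟨_, rfl⟩
  rw [← hA]
  obtain ⟨xi, hxi⟩ : ∃ xi : ℕ → ℝ, ∀ i, xi i = |px (i + 1) - px i| := ⟨_, fun _ => rfl⟩
  obtain ⟨et, het⟩ : ∃ et : ℕ → ℝ, ∀ i, et i = |py (i + 1) - py i| := ⟨_, fun _ => rfl⟩
  have hxi0 : ∀ i, 0 ≤ xi i := fun i => by rw [hxi]; exact abs_nonneg _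
  have het0 : ∀ i, 0 ≤ et i := fun i => by rw [het]; exact abs_nonneg _
  simp only [← hxi, ← het]
  have hclosed : ∀ c : ℝ, A = ∑ i ∈ range q, ((px i - c) + (px (i + 1) - c)) / 2 *
      (py (i + 1) - py i) := by
    intro c
    have h1 : ∑ i ∈ range q, (py (i + 1) - py i) = 0 := by
      rw [Finset.sum_range_sub, hyq, sub_self]
    have h2 : ∑ i ∈ range q, ((px i - c) + (px (i + 1) - c)) / 2 * (py (i + 1) - py i) =
        ∑ i ∈ range q, (px i + px (i + 1)) / 2 * (py (i + 1) - py i) -
          c * ∑ i ∈ range q, (py (i + 1) - py i) := by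
      rw [Finset.mul_sum, ← Finset.sum_sub_distrib]
      apply Finset.sum_congr rfl
      intro i _
      ring
    rw [h2, h1, hA]
    ring
  obtain ⟨w, hwd⟩ : ∃ w, w = (px 0 - px a) / 2 := ⟨_, rfl⟩
  rw [← hwd]
  -- perturbation
  have key : ∀ t : ℝ, 0 < t → A * (∑ i ∈ range q, (xi i + t)) ^ 2 ≤
      (∑ i ∈ range q, ∑ j ∈ range q,
      max ((xi i + t) * (et j + t)) ((xi j + t) * (et i + t))) *
        (w * (∑ i ∈ range q, (xi i + t)) - 2 * w ^ 2) := by
    intro t ht
    obtain ⟨D, hD⟩ : ∃ D, D = ∑ i ∈ range q, ∑ j ∈ range q,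
      max ((xi i + t) * (et j + t)) ((xi j + t) * (et i + t)) := ⟨_, rfl⟩
    rw [← hD]
    have hD0 : 0 ≤ D := by
      rw [hD]
      apply Finset.sum_nonneg
      intro i _
      apply Finset.sum_nonneg
      intro j _
      apply le_max_of_le_left
      exact mul_nonneg (by linarith [hxi0 i]) (by linarith [het0 j])
    rcases eq_or_lt_of_le (hmin' 0 (Nat.zero_le _)) with hw | hw
    · -- degenerate case
      have h1 : ∀ i ≤ q, px i = px 0 := fun i hi =>
        le_antisymm (hmax i hi) (hw ▸ hmin' i hi)
      have h2 := hclosed (px 0)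
      have h3 : ∑ i ∈ range q, ((px i - px 0) + (px (i + 1) - px 0)) / 2 *
          (py (i + 1) - py i) = 0 := by
        apply Finset.sum_eq_zero
        intro i hi
        rw [Finset.mem_range] at hi
        rw [h1 i hi.le, h1 (i + 1) hi]
        ring
      have hw0 : w = 0 := by rw [hwd, hw]; ring
      rw [h2, h3, hw0]
      simp
    · have hq0 : 0 < q := by
        rcases Nat.eq_zero_or_pos q with h | h
        · subst h
          have : a = 0 := by omega
          subst this
          exact absurd hw (lt_irrefl _)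
        · exact h
      obtain ⟨X, Y, hX, hY, hsort, hG⟩ := exists_sort q (fun j => xi j + t) (fun j => et j + t)
        (fun j => by have := hxi0 j; linarith) (fun j => by have := het0 j; linarith)
      have hw0 : 0 < w := by rw [hwd]; linarith
      obtain ⟨SX, hSX⟩ : ∃ SX, SX = ∑ l ∈ Ico 0 q, X l := ⟨_, rfl⟩
      have hSX0 : 0 < SX := by
        rw [hSX]
        exact Finset.sum_pos (fun l _ => hX l) ⟨0, by rw [Finset.mem_Ico]; omega⟩
      have hSX' : ∑ i ∈ range q, (xi i + t) = SX := by
        rw [hSX, ← Finset.range_eq_Ico]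
        exact (hG (fun u _ => u)).symm
      rw [hSX']
      obtain ⟨lam, hlam⟩ : ∃ lam, lam = w / SX := ⟨_, rfl⟩
      have hl : 0 < lam := by rw [hlam]; positivity
      have hcc : cc q X lam 0 = w := by
        unfold cc
        rw [← hSX, hlam]
        field_simp
      have hs := schmidt (k := q) (q := q) (a := a) (px := fun i => px i - (px 0 + px a) / 2)
        (py := py) hl hX hY hsort (by omega) (by rw [hcc, hwd]; ring)
        (by rw [hcc, hwd, hxq]; ring) (by rw [hcc, hwd]; ring)
        (by
          intro i hi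
          rw [hcc, hwd, abs_le]
          have g1 := hmin' i hi
          have g2 := hmax i hi
          constructor <;> linarith)
      rw [← hclosed] at hs
      simp only [sub_sub_sub_cancel_right] at hs
      -- the sums
      have e1 : ∑ i ∈ range q, ∑ j ∈ range q, max (X i * Y j) (X j * Y i) = D := by
        have g1 : ∀ i, ∑ j ∈ range q, max (X i * Y j) (X j * Y i) =
            ∑ j ∈ range q, max (X i * (et j + t)) ((xi j + t) * Y i) := fun i =>
          hG (fun u v => max (X i * v) (u * Y i))
        simp only [g1]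
        rw [hG (fun u v => ∑ j ∈ range q, max (u * (et j + t)) ((xi j + t) * v)), hD]
      have e2 : ∑ i ∈ range q, ∑ j ∈ range q,
          max (X j * |py (i + 1) - py i|) (Y j * |px (i + 1) - px i|) ≤ D := by
        simp only [← hxi, ← het]
        have g1 : ∀ i, ∑ j ∈ range q, max (X j * et i) (Y j * xi i) =
            ∑ j ∈ range q, max ((xi j + t) * et i) ((et j + t) * xi i) := fun i =>
          hG (fun u v => max (u * et i) (v * xi i))
        simp only [g1]
        rw [hD]
        apply Finset.sum_le_sum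
        intro i _
        apply Finset.sum_le_sum
        intro j _
        have b1 := hxi0 j
        have b2 := het0 j
        have b3 := hxi0 i
        have b4 := het0 i
        rw [max_comm]
        apply max_le_max
        · nlinarith
        · nlinarith
      rw [e1] at hs
      have h5 := mul_le_mul_of_nonneg_left e2 hl.le
      have h6 : A + 2 * (lam ^ 2 * D) ≤ lam * D := hs.trans h5
      have h7 := mul_le_mul_of_nonneg_right h6 (sq_nonneg SX)
      have e3 : (A + 2 * (lam ^ 2 * D)) * SX ^ 2 = A * SX ^ 2 + 2 * w ^ 2 * D := by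
        rw [hlam]; field_simp
      have e4 : lam * D * SX ^ 2 = w * SX * D := by
        rw [hlam]; field_simp
      rw [e3, e4] at h7
      linarith
  -- the limit
  have hcont1 : Continuous fun t : ℝ => A * (∑ i ∈ range q, (xi i + t)) ^ 2 := by
    apply continuous_const.mul
    exact (continuous_finsetSum _ fun i _ => continuous_const.add continuous_id).pow 2
  have hcont2 : Continuous fun t : ℝ => (∑ i ∈ range q, ∑ j ∈ range q,
      max ((xi i + t) * (et j + t)) ((xi j + t) * (et i + t))) *
        (w * (∑ i ∈ range q, (xi i + t)) - 2 * w ^ 2) := by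
    apply Continuous.mul
    · apply continuous_finsetSum
      intro i _
      apply continuous_finsetSum
      intro j _
      exact ((continuous_const.add continuous_id).mul (continuous_const.add continuous_id)).max
        ((continuous_const.add continuous_id).mul (continuous_const.add continuous_id))
    · exact (continuous_const.mul
        (continuous_finsetSum _ fun i _ => continuous_const.add continuous_id)).sub
          continuous_const
  have hlim1 := (hcont1.tendsto 0).mono_left (nhdsWithin_le_nhds (s := Set.Ioi (0 : ℝ)))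
  have hlim2 := (hcont2.tendsto 0).mono_left (nhdsWithin_le_nhds (s := Set.Ioi (0 : ℝ)))
  have h6 := le_of_tendsto_of_tendsto hlim1 hlim2 (by
    filter_upwards [self_mem_nhdsWithin] with t ht
    exact key t ht)
  simpa using h6

theorem iso2_abs {q : ℕ} {px py : ℕ → ℝ} (hxq : px q = px 0) (hyq : py q = py 0)
    (hmax : ∀ i ≤ q, px i ≤ px 0) {a : ℕ} (ha : a ≤ q) (hmin' : ∀ i ≤ q, px a ≤ px i) :
    |∑ i ∈ range q, (px i + px (i + 1)) / 2 * (py (i + 1) - py i)| *
      (∑ i ∈ range q, |px (i + 1) - px i|) ^ 2 ≤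
      (∑ i ∈ range q, ∑ j ∈ range q,
        max (|px (i + 1) - px i| * |py (j + 1) - py j|)
          (|px (j + 1) - px j| * |py (i + 1) - py i|)) *
        ((px 0 - px a) / 2 * (∑ i ∈ range q, |px (i + 1) - px i|) -
          2 * ((px 0 - px a) / 2) ^ 2) := by
  have h1 := iso2 hxq hyq hmax ha hmin'
  have h2 := iso2 (px := px) (py := fun i => -py i) hxq (by rw [hyq]) hmax ha hmin'
  have e1 : ∀ i, -py (i + 1) - -py i = -(py (i + 1) - py i) := fun i => by ring
  simp only [e1, abs_neg, mul_neg, Finset.sum_neg_distrib] at h2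
  rcases abs_cases (∑ i ∈ range q, (px i + px (i + 1)) / 2 * (py (i + 1) - py i)) with h | h
  · rw [h.1]; exact h1
  · rw [h.1]; exact h2

end Pool.Agent.U262.AR
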