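import Pool.Agent.U262.AR.Q2
import Pool.Agent.U262.AR.Q3

/-!
Counting loops by the increments between marks.
-/

set_option autoImplicit false

namespace Pool.Agent.U262.AR

open Pool.Agent.TH795.EP Pool.Agent.TH795.EP2 Pool.Agent.TH795.SE2 Pool.Agent.TH262.SawL H981 Finset
open Pool.Agent.Y981.L2 Pool.Agent.U262.SW
open Filter Topology

theorem count_marks {n k m : ℕ} (hn : 1 ≤ n) (hk : 2 * n ≤ k * m) (hm : m ≤ 2 * n - 1)
    (B : Set (ZMod (2 * n) → ℤ × ℤ)) (T : Finset (Fin k → ℤ × ℤ))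
    (hB : ∀ f ∈ B, IsLoop (2 * n) f)
    (hT : ∀ f ∈ B, ∀ j : ZMod (2 * n), (∀ i, (f i).1 ≤ (f j).1) →
      (fun i : Fin k => f (((tt (2 * n) m (i + 1) : ℕ) : ZMod (2 * n)) + j) -
        f (((tt (2 * n) m i : ℕ) : ZMod (2 * n)) + j)) ∈ T) :
    B.ncard ≤ ∑ p ∈ range (2 * n) ×ˢ T,
      ∏ i : Fin k, a (tt (2 * n) m (i + 1) - tt (2 * n) m i) (p.2 i).1 (p.2 i).2 := by
  classical
  have : NeZero (2 * n) := ⟨by omega⟩
  have hfin : B.Finite := (loops_fin (M := 2 * n) (by omega)).subset hB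
  rw [Set.ncard_eq_toFinset_card _ hfin]
  unfold a
  simp only [← Fintype.card_piFinset]
  rw [← Finset.card_sigma]
  apply card_le_of_decode (fun q : (_ : ℕ × (Fin k → ℤ × ℤ)) × (Fin k → List St) =>
    fun r : ZMod (2 * n) =>
      H981.path ((List.range k).map fun i => if h : i < k then q.2 ⟨i, h⟩ else []).flatten
        (r - (q.1.1 : ZMod (2 * n))).val -
      H981.path ((List.range k).map fun i => if h : i < k then q.2 ⟨i, h⟩ else []).flatten
        (0 - (q.1.1 : ZMod (2 * n))).val)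
  intro f hf
  rw [Set.Finite.mem_toFinset] at hf
  have hfB := hf
  replace hf := hB f hf
  obtain ⟨j, hj⟩ := Finite.exists_max (fun i : ZMod (2 * n) => (f i).1)
  obtain ⟨W, hWl, hp, hs⟩ := closed_word (by omega) (loop_shift hf j)
  obtain ⟨t, ht⟩ : ∃ t, t = tt (2 * n) m := ⟨_, rfl⟩
  have htm : Monotone t := ht ▸ tt_mono _ _
  have ht0 : t 0 = 0 := by rw [ht]; exact tt_zero _ _
  have htk : t k = 2 * n := by rw [ht]; exact tt_end hk
  have htl : ∀ i, t i ≤ 2 * n := fun i => by rw [ht]; exact tt_le _ _ _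
  have hblocks := flatten_blocks W t htm ht0 k
  rw [htk, ← hWl, List.take_length] at hblocks
  have hp1 : ∀ i ≤ 2 * n, (H981.path W i).1 = (f ((i : ZMod (2 * n)) + j)).1 - (f j).1 := by
    intro i hi; rw [hp i hi]; rfl
  have hp2 : ∀ i ≤ 2 * n, (H981.path W i).2 = (f ((i : ZMod (2 * n)) + j)).2 - (f j).2 := by
    intro i hi; rw [hp i hi]; rfl
  -- the increments
  obtain ⟨b, hb⟩ : ∃ b : Fin k → List St, b = fun i : Fin k =>
    (W.drop (t i)).take (t (i + 1) - t i) := ⟨_, rfl⟩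
  have hblen : ∀ i : Fin k, (b i).length = t (i + 1) - t i := by
    intro i
    rw [hb]
    simp only
    rw [List.length_take, List.length_drop, hWl]
    have h1 := htl (i + 1)
    omega
  have hbd : ∀ i : Fin k, dx (b i) = (H981.path W (t (i + 1))).1 - (H981.path W (t i)).1 ∧
      dy (b i) = (H981.path W (t (i + 1))).2 - (H981.path W (t i)).2 := by
    intro i
    have h1 := path_drop W (t i) (t (i + 1) - t i)
    have h2 := htm (Nat.le_succ (i : ℕ))
    simp only [Nat.succ_eq_add_one] at h2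
    rw [show t i + (t (i + 1) - t i) = t (i + 1) by omega] at h1
    have h3 : H981.path (W.drop (t i)) (t (i + 1) - t i) = (dx (b i), dy (b i)) := by
      rw [hb]; rfl
    rw [h3] at h1
    rw [h1]
    constructor
    · simp only; ring
    · simp only; ring
  have hdec : ((List.range k).map fun i => if h : i < k then b ⟨i, h⟩ else []).flatten = W := by
    rw [← hblocks]
    congr 1
    apply List.map_congr_left
    intro i hi
    rw [List.mem_range] at hi
    rw [dif_pos hi, hb]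
  refine ⟨⟨(j.val, fun i => (dx (b i), dy (b i))), b⟩, ?_, ?_⟩
  · rw [Finset.mem_sigma]
    simp only [Finset.mem_product, Finset.mem_range]
    refine ⟨⟨ZMod.val_lt j, ?_⟩, ?_⟩
    · have h7 := hT f hfB j hj
      rw [← ht] at h7
      have e : (fun i : Fin k => (dx (b i), dy (b i))) = fun i : Fin k =>
          f (((t (i + 1) : ℕ) : ZMod (2 * n)) + j) - f (((t i : ℕ) : ZMod (2 * n)) + j) := by
        funext i
        ext
        · show dx (b i) = (f (((t ((i : ℕ) + 1) : ℕ) : ZMod (2 * n)) + j)).1 -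
            (f (((t (i : ℕ) : ℕ) : ZMod (2 * n)) + j)).1
          rw [(hbd i).1, hp1 _ (htl _), hp1 _ (htl _)]
          ring
        · show dy (b i) = (f (((t ((i : ℕ) + 1) : ℕ) : ZMod (2 * n)) + j)).2 -
            (f (((t (i : ℕ) : ℕ) : ZMod (2 * n)) + j)).2
          rw [(hbd i).2, hp2 _ (htl _), hp2 _ (htl _)]
          ring
      rw [e]
      exact h7
    · rw [Fintype.mem_piFinset]
      intro i
      rw [mem_fs, ← ht]
      refine ⟨⟨?_, rfl, rfl⟩, hblen i⟩
      rw [hb]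
      apply hs
      have := tt_diff (2 * n) m i
      rw [← ht] at this
      omega
  · funext i
    simp only
    rw [hdec, ZMod.natCast_zmod_val, hp _ (ZMod.val_lt _).le, hp _ (ZMod.val_lt _).le,
      ZMod.natCast_zmod_val, ZMod.natCast_zmod_val, sub_add_cancel, sub_add_cancel, hf.1,
      sub_sub_sub_cancel_right]
    exact sub_zero _

/-- the area of the loop and of the polygon of the marks -/
theorem marks_area {n k m : ℕ} (hn : 1 ≤ n) (hk : 2 * n ≤ k * m) {f : ZMod (2 * n) → ℤ × ℤ}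
    [NeZero (2 * n)] (hf : IsLoop (2 * n) f) (j : ZMod (2 * n)) :
    |((∑ r : ZMod (2 * n), (f r).1 * ((f (r + 1)).2 - (f r).2) : ℤ) : ℝ) -
      ∑ i ∈ range k, ((((f (((tt (2 * n) m i : ℕ) : ZMod (2 * n)) + j)).1 - (f j).1 : ℤ) : ℝ) +
      (((f (((tt (2 * n) m (i + 1) : ℕ) : ZMod (2 * n)) + j)).1 - (f j).1 : ℤ) : ℝ)) / 2 *
      ((((f (((tt (2 * n) m (i + 1) : ℕ) : ZMod (2 * n)) + j)).2 - (f j).2 : ℤ) : ℝ) -
        (((f (((tt (2 * n) m i : ℕ) : ZMod (2 * n)) + j)).2 - (f j).2 : ℤ) : ℝ))| ≤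
      2 * n * m := by
  obtain ⟨W, hWl, hp, hs⟩ := closed_word (by omega) (loop_shift hf j)
  have hp1 : ∀ i ≤ 2 * n, (H981.path W i).1 = (f ((i : ZMod (2 * n)) + j)).1 - (f j).1 := by
    intro i hi; rw [hp i hi]; rfl
  have hp2 : ∀ i ≤ 2 * n, (H981.path W i).2 = (f ((i : ZMod (2 * n)) + j)).2 - (f j).2 := by
    intro i hi; rw [hp i hi]; rfl
  have hFa : Fa W = ∑ r : ZMod (2 * n), (f r).1 * ((f (r + 1)).2 - (f r).2) := by
    rw [← area_shift f j,
      ← sum_zmod (fun i => ((f (i + j)).1 - (f j).1) * ((f (i + 1 + j)).2 - (f (i + j)).2))]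
    unfold Fa
    rw [hWl]
    apply Finset.sum_congr rfl
    intro r hr
    rw [Finset.mem_range] at hr
    rw [hp1 r hr.le, hp2 (r + 1) (by omega), hp2 r hr.le]
    push_cast
    ring
  have g1 := area_marks W m k (by rw [hWl]; exact hk)
  rw [hWl, hFa] at g1
  have e : ∀ i, H981.path W (tt (2 * n) m i) =
      (((f (((tt (2 * n) m i : ℕ) : ZMod (2 * n)) + j)).1 - (f j).1),
        ((f (((tt (2 * n) m i : ℕ) : ZMod (2 * n)) + j)).2 - (f j).2)) := by
    intro i
    exact Prod.ext (hp1 _ (tt_le _ _ _)) (hp2 _ (tt_le _ _ _))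
  simp only [e] at g1
  push_cast at g1 ⊢
  exact g1

end Pool.Agent.U262.AR
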