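import Pool.Agent.U262.AR.Q4

/-!
Counting loops by the laws of their marks.
-/

set_option autoImplicit false

namespace Pool.Agent.U262.AR

open Pool.Agent.TH795.EP Pool.Agent.TH795.EP2 Pool.Agent.TH795.SE2 Pool.Agent.TH262.SawL H981 Finset
open Pool.Agent.Y981.L2 Pool.Agent.U262.SW
open Filter Topology

theorem loop_far {M : ℕ} {f : ZMod M → ℤ × ℤ} (hf : IsLoop M f) (j : ZMod M) (r : ℕ) :
    |(f ((r : ZMod M) + j)).1 - (f j).1| + |(f ((r : ZMod M) + j)).2 - (f j).2| ≤ r := by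
  induction r with
  | zero => simp
  | succ r ih =>
    have h1 := hf.2.2 ((r : ZMod M) + j)
    have e : (((r + 1 : ℕ) : ZMod M) + j) = (r : ZMod M) + j + 1 := by push_cast; ring
    rw [e]
    push_cast
    have h2 := abs_add_le ((f ((r : ZMod M) + j + 1)).1 - (f ((r : ZMod M) + j)).1)
      ((f ((r : ZMod M) + j)).1 - (f j).1)
    have h3 := abs_add_le ((f ((r : ZMod M) + j + 1)).2 - (f ((r : ZMod M) + j)).2)
      ((f ((r : ZMod M) + j)).2 - (f j).2)
    rw [sub_add_sub_cancel] at h2 h3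
    linarith

theorem loop_inc {M : ℕ} {f : ZMod M → ℤ × ℤ} (hf : IsLoop M f) (j : ZMod M) {a b : ℕ}
    (hab : a ≤ b) :
    |(f ((b : ZMod M) + j) - f ((a : ZMod M) + j)).1| +
      |(f ((b : ZMod M) + j) - f ((a : ZMod M) + j)).2| ≤ (b - a : ℕ) := by
  have h1 := loop_far hf ((a : ZMod M) + j) (b - a)
  have e : (((b - a : ℕ) : ZMod M) + ((a : ZMod M) + j)) = (b : ZMod M) + j := by
    rw [← add_assoc, ← Nat.cast_add, Nat.sub_add_cancel hab]
  rw [e] at h1
  exact h1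

/-- the law of the increments -/
theorem law_of {n k : ℕ} (hn : 1 ≤ n) {M : Fin k → ℕ} (hMs : ∑ i, M i = 2 * n)
    {D : Fin k → ℤ × ℤ} (hle : ∀ i, |(D i).1| + |(D i).2| ≤ M i) :
    Law k (fun i => (M i : ℝ) / (2 * n)) (fun i => |((D i).1 : ℝ)| / M i)
      (fun i => |((D i).2 : ℝ)| / M i) ∧
    (∀ i, (M i : ℝ) / (2 * n) * (|((D i).1 : ℝ)| / M i) = |((D i).1 : ℝ)| / (2 * n)) ∧
    (∀ i, (M i : ℝ) / (2 * n) * (|((D i).2 : ℝ)| / M i) = |((D i).2 : ℝ)| / (2 * n)) := by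
  have hn0 : (0 : ℝ) < n := by exact_mod_cast hn
  have hler : ∀ i, |((D i).1 : ℝ)| + |((D i).2 : ℝ)| ≤ M i := by
    intro i
    exact_mod_cast hle i
  refine ⟨⟨fun i => by positivity, ?_, fun i => by positivity, fun i => by positivity, ?_⟩, ?_, ?_⟩
  · rw [← Finset.sum_div]
    have : (∑ i, (M i : ℝ)) = 2 * n := by exact_mod_cast hMs
    rw [this]
    exact div_self (by positivity)
  · intro i
    rw [← add_div]
    exact div_le_one_of_le₀ (hler i) (Nat.cast_nonneg _)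
  · intro i
    rcases Nat.eq_zero_or_pos (M i) with h0 | h0
    · have h1 := hler i
      rw [h0, Nat.cast_zero] at h1
      have h2 : |((D i).1 : ℝ)| = 0 := by
        linarith [abs_nonneg ((D i).1 : ℝ), abs_nonneg ((D i).2 : ℝ)]
      rw [h2, zero_div, zero_div, mul_zero]
    · have : (M i : ℝ) ≠ 0 := by exact_mod_cast h0.ne'
      field_simp
  · intro i
    rcases Nat.eq_zero_or_pos (M i) with h0 | h0
    · have h1 := hler i
      rw [h0, Nat.cast_zero] at h1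
      have h2 : |((D i).2 : ℝ)| = 0 := by
        linarith [abs_nonneg ((D i).1 : ℝ), abs_nonneg ((D i).2 : ℝ)]
      rw [h2, zero_div, zero_div, mul_zero]
    · have : (M i : ℝ) ≠ 0 := by exact_mod_cast h0.ne'
      field_simp

/-- the law `(p, x, y)` belongs to the increments `D` -/
def Fit (n : ℕ) {k : ℕ} (D : Fin k → ℤ × ℤ) (p x y : Fin k → ℝ) : Prop :=
  (∀ i, p i * x i = |((D i).1 : ℝ)| / (2 * n)) ∧ ∀ i, p i * y i = |((D i).2 : ℝ)| / (2 * n)

/-- all laws that belong to `D` have cost at least `C` -/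
def Dear (n : ℕ) {k : ℕ} (C : ℝ) (D : Fin k → ℤ × ℤ) : Prop :=
  ∀ p x y : Fin k → ℝ, Law k p x y → Fit n D p x y → C ≤ ∑ i, p i * Rate (x i, y i)

theorem sum_tt {n k m : ℕ} (hk : 2 * n ≤ k * m) :
    ∑ i : Fin k, (tt (2 * n) m (i + 1) - tt (2 * n) m i) = 2 * n := by
  have h1 : ∀ l, ∑ i ∈ range l, (tt (2 * n) m (i + 1) - tt (2 * n) m i) = tt (2 * n) m l := by
    intro l
    induction l with
    | zero => simp [tt_zero]
    | succ l ih =>
      rw [Finset.sum_range_succ, ih]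
      have : tt (2 * n) m l ≤ tt (2 * n) m (l + 1) := tt_mono _ _ (Nat.le_succ l)
      omega
  rw [Fin.sum_univ_eq_sum_range (fun i => tt (2 * n) m (i + 1) - tt (2 * n) m i) k, h1, tt_end hk]

/-- one term of the sum -/
theorem term_dear {n k m : ℕ} (hn : 2 ≤ n) (hk : 2 * n ≤ k * m) {K : ℝ}
    (hK : ∀ N : ℕ, 2 ≤ N → ∀ m ≤ N, ∀ x y : ℤ, 0 < a m x y →
      (a m x y : ℝ) ≤ q N K * (mu ^ m * Real.exp (-(m * Rate (|(x : ℝ)| / m, |(y : ℝ)| / m)))))
    {D : Fin k → ℤ × ℤ} {C : ℝ} (hD : Dear n C D) :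
    ((∏ i : Fin k, a (tt (2 * n) m (i + 1) - tt (2 * n) m i) (D i).1 (D i).2 : ℕ) : ℝ) ≤
      q (2 * n) (K * k) * (mu ^ (2 * n) * Real.exp (-(2 * n * C))) := by
  classical
  have hmu := mu_pos
  obtain ⟨M, hM⟩ : ∃ M : Fin k → ℕ, M = fun i : Fin k => tt (2 * n) m (i + 1) - tt (2 * n) m i :=
    ⟨_, rfl⟩
  have hMs : ∑ i, M i = 2 * n := by rw [hM]; exact sum_tt hk
  have hMe : ∀ i : Fin k, tt (2 * n) m (i + 1) - tt (2 * n) m i = M i := fun i => by rw [hM]
  simp only [hMe]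
  by_cases hz : ∀ i, 0 < a (M i) (D i).1 (D i).2
  swap
  · push Not at hz
    obtain ⟨i, hi⟩ := hz
    have h0 : ∏ i : Fin k, a (M i) (D i).1 (D i).2 = 0 :=
      Finset.prod_eq_zero (Finset.mem_univ i) (by omega)
    rw [h0, Nat.cast_zero]
    exact mul_nonneg (q_pos _ _).le (mul_nonneg (pow_nonneg hmu.le _) (Real.exp_pos _).le)
  have hn0 : (0 : ℝ) < n := by exact_mod_cast (by omega : 0 < n)
  have hML : ∀ i, M i ≤ 2 * n := by
    intro i
    rw [← hMs]
    exact Finset.single_le_sum (fun _ _ => Nat.zero_le _) (Finset.mem_univ i)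
  have hle : ∀ i, |(D i).1| + |(D i).2| ≤ M i := by
    intro i
    obtain ⟨w, -, hwx, hwy, hwl⟩ := exists_of_a (hz i)
    have b1 := abs_add_abs_le w
    rw [hwx, hwy, hwl] at b1
    exact b1
  obtain ⟨hlaw, hpx, hpy⟩ := law_of (show 1 ≤ n by omega) hMs hle
  have hJ := hD _ _ _ hlaw ⟨hpx, hpy⟩
  -- the product
  have hprod : ((∏ i : Fin k, a (M i) (D i).1 (D i).2 : ℕ) : ℝ) ≤
      ∏ i : Fin k, (q (2 * n) K * (mu ^ (M i) *
        Real.exp (-(M i * Rate (|((D i).1 : ℝ)| / M i, |((D i).2 : ℝ)| / M i))))) := by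
    push_cast
    apply Finset.prod_le_prod
    · intro i _; exact Nat.cast_nonneg _
    · intro i _
      exact hK (2 * n) (by omega) (M i) (hML i) (D i).1 (D i).2 (hz i)
  refine hprod.trans ?_
  rw [Finset.prod_mul_distrib, Finset.prod_mul_distrib, Finset.prod_const, Finset.card_univ,
    Fintype.card_fin, Finset.prod_pow_eq_pow_sum, hMs, ← Real.exp_sum]
  have hq : q (2 * n) K ^ k = q (2 * n) (K * k) := by
    unfold q
    rw [← Real.exp_nat_mul]
    congr 1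
    ring
  rw [hq]
  apply mul_le_mul_of_nonneg_left _ (q_pos _ _).le
  apply mul_le_mul_of_nonneg_left _ (pow_nonneg hmu.le _)
  apply Real.exp_le_exp.2
  rw [Finset.sum_neg_distrib, neg_le_neg_iff]
  have h5 : ∑ i, (M i : ℝ) * Rate (|((D i).1 : ℝ)| / M i, |((D i).2 : ℝ)| / M i) =
      2 * n * ∑ i, (M i : ℝ) / (2 * n) * Rate (|((D i).1 : ℝ)| / M i, |((D i).2 : ℝ)| / M i) := by
    rw [Finset.mul_sum]
    apply Finset.sum_congr rfl
    intro i _
    field_simp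
  rw [h5]
  exact mul_le_mul_of_nonneg_left hJ (by positivity)

/-- the increments of a loop between the marks -/
def inc {n : ℕ} (k m : ℕ) (f : ZMod (2 * n) → ℤ × ℤ) (j : ZMod (2 * n)) : Fin k → ℤ × ℤ :=
  fun i => f (((tt (2 * n) m (i + 1) : ℕ) : ZMod (2 * n)) + j) -
        f (((tt (2 * n) m i : ℕ) : ZMod (2 * n)) + j)

theorem inc_le {n k m : ℕ} {f : ZMod (2 * n) → ℤ × ℤ} (hf : IsLoop (2 * n) f) (j : ZMod (2 * n))
    (i : Fin k) : |(inc k m f j i).1| + |(inc k m f j i).2| ≤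
      (tt (2 * n) m (i + 1) - tt (2 * n) m i : ℕ) :=
  loop_inc hf j (tt_mono _ _ (Nat.le_succ i))

/-- **Counting the loops all of whose laws are dear.** -/
theorem count_law : ∃ K : ℝ, 0 ≤ K ∧ ∀ n : ℕ, 2 ≤ n → ∀ k : ℕ, 2 ≤ k → k ≤ n →
    ∀ (B : Set (ZMod (2 * n) → ℤ × ℤ)) (C : ℝ), (∀ f ∈ B, IsLoop (2 * n) f) →
    (∀ f ∈ B, ∀ j : ZMod (2 * n), (∀ i, (f i).1 ≤ (f j).1) →
      Dear n C (inc k (2 * n / k + 1) f j)) →
    (B.ncard : ℝ) ≤ Real.exp (K * k * Real.log n ^ 2 - 2 * n * C) * ln n := by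
  obtain ⟨K1, hK1, h1⟩ := block_le
  obtain ⟨K2, hK2, h2⟩ := norm_lo
  refine ⟨27 + 4 * K1 + K2, by positivity, ?_⟩
  intro n hn k hk2 hkn B C hBL hBC
  classical
  have hmu := mu_pos
  have hn0 : (0 : ℝ) < n := by exact_mod_cast (by omega : 0 < n)
  have hk0 : (0 : ℝ) < k := by exact_mod_cast (by omega : 0 < k)
  obtain ⟨m, hm⟩ : ∃ m, m = 2 * n / k + 1 := ⟨_, rfl⟩
  rw [← hm] at hBC
  have hkm : 2 * n ≤ k * m := by
    rw [hm]
    have := Nat.lt_mul_div_succ (2 * n) (show 0 < k by omega)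
    exact this.le
  have hm2 : m ≤ 2 * n - 1 := by
    have h3 : 2 * n / k ≤ 2 * n / 2 := Nat.div_le_div_left hk2 (by norm_num)
    rw [Nat.mul_div_cancel_left _ (by norm_num : 0 < 2)] at h3
    omega
  obtain ⟨T, hT⟩ : ∃ T : Finset (Fin k → ℤ × ℤ), T = (Fintype.piFinset fun _ : Fin k =>
    Icc (-((2 * n : ℕ) : ℤ)) ((2 * n : ℕ) : ℤ) ×ˢ
      Icc (-((2 * n : ℕ) : ℤ)) ((2 * n : ℕ) : ℤ)).filter (fun D => Dear n C D) := ⟨_, rfl⟩
  have hcard : T.card ≤ ((4 * n + 1) * (4 * n + 1)) ^ k := by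
    rw [hT]
    refine (Finset.card_filter_le _ _).trans ?_
    rw [Fintype.card_piFinset]
    simp only [Finset.card_product, Int.card_Icc, Finset.prod_const, Finset.card_univ,
      Fintype.card_fin]
    apply le_of_eq
    congr 1
    congr 1
    all_goals
      push_cast
      omega
  have g1 := count_marks (n := n) (k := k) (m := m) (by omega) hkm hm2 B T hBL (by
    intro f hf j hj
    rw [hT, Finset.mem_filter, Fintype.mem_piFinset]
    refine ⟨?_, hBC f hf j hj⟩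
    intro i
    have e1 := inc_le (k := k) (m := m) (hBL f hf) j i
    have e2 := tt_le (2 * n) m (i + 1)
    have e3 := abs_nonneg (inc k m f j i).1
    have e4 := abs_nonneg (inc k m f j i).2
    have e5 : ((tt (2 * n) m (i + 1) - tt (2 * n) m i : ℕ) : ℤ) ≤ ((2 * n : ℕ) : ℤ) := by
      exact_mod_cast (by omega : tt (2 * n) m (i + 1) - tt (2 * n) m i ≤ 2 * n)
    have e6 : |(inc k m f j i).1| ≤ ((2 * n : ℕ) : ℤ) := by linarith
    have e7 : |(inc k m f j i).2| ≤ ((2 * n : ℕ) : ℤ) := by linarith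
    rw [Finset.mem_product, Finset.mem_Icc, Finset.mem_Icc]
    exact ⟨abs_le.1 e6, abs_le.1 e7⟩)
  have g2 : (B.ncard : ℝ) ≤ ∑ p ∈ range (2 * n) ×ˢ T,
      ((∏ i : Fin k, a (tt (2 * n) m (i + 1) - tt (2 * n) m i) (p.2 i).1 (p.2 i).2 : ℕ) : ℝ) := by
    rw [← Nat.cast_sum]
    exact_mod_cast g1
  have g3 : ∀ p ∈ range (2 * n) ×ˢ T,
      ((∏ i : Fin k, a (tt (2 * n) m (i + 1) - tt (2 * n) m i) (p.2 i).1 (p.2 i).2 : ℕ) : ℝ) ≤
      q (2 * n) (K1 * k) * (mu ^ (2 * n) * Real.exp (-(2 * n * C))) := by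
    intro p hp
    rw [Finset.mem_product, hT, Finset.mem_filter] at hp
    exact term_dear hn hkm h1 hp.2.2
  have g4 := g2.trans (Finset.sum_le_card_nsmul _ _ _ g3)
  rw [nsmul_eq_mul, Finset.card_product, Finset.card_range] at g4
  -- the number of the indices
  have g5 : (((2 * n) * T.card : ℕ) : ℝ) ≤ q n (27 * k) := by
    have e2 : 4 * n + 1 ≤ n ^ 4 := by
      have : 2 ^ 3 ≤ n ^ 3 := Nat.pow_le_pow_left hn 3
      have e3 : n ^ 4 = n ^ 3 * n := by ring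
      rw [e3]
      nlinarith
    have e3 : 2 * n ≤ n ^ 2 := by nlinarith
    have e4 : (2 * n) * T.card ≤ n ^ (9 * k) := by
      calc (2 * n) * T.card ≤ n ^ 2 * ((4 * n + 1) * (4 * n + 1)) ^ k :=
            Nat.mul_le_mul e3 hcard
        _ ≤ n ^ 2 * (n ^ 4 * n ^ 4) ^ k :=
            Nat.mul_le_mul_left _ (Nat.pow_le_pow_left (Nat.mul_le_mul e2 e2) k)
        _ = n ^ (2 + 8 * k) := by
            rw [← pow_add, ← pow_mul, ← pow_add]
        _ ≤ n ^ (9 * k) := Nat.pow_le_pow_right (by omega) (by omega)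
    have e5 := pow_le_q hn (9 * k)
    have e6 : (((2 * n) * T.card : ℕ) : ℝ) ≤ (n : ℝ) ^ (9 * k) := by exact_mod_cast e4
    refine e6.trans (e5.trans (le_of_eq ?_))
    congr 1
    push_cast
    ring
  have g6 : mu ^ (2 * n) ≤ q n K2 * ln n := by
    have e1 := h2 n hn 0 (Nat.zero_le _)
    rw [c_zero, Nat.cast_one, one_mul, Nat.sub_zero] at e1
    have e2 : mu ^ (2 * n) ≤ (c (2 * n) : ℝ) := by rw [c_eq]; exact mu_pow_le _
    exact e2.trans e1
  have g7 : q (2 * n) (K1 * k) ≤ q n (4 * K1 * k) := by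
    refine (q_two hn (by positivity)).trans (le_of_eq ?_)
    congr 1
    ring
  have hE := Real.exp_pos (-(2 * n * C))
  have hln := ln_pos hn
  calc (B.ncard : ℝ) ≤ _ := g4
    _ ≤ q n (27 * k) * (q n (4 * K1 * k) * ((q n K2 * ln n) * Real.exp (-(2 * n * C)))) := by
        apply mul_le_mul g5 _ (by have := q_pos (2 * n) (K1 * k); positivity) (q_pos _ _).le
        apply mul_le_mul g7 _ (by positivity) (q_pos _ _).le
        exact mul_le_mul_of_nonneg_right g6 hE.le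
    _ = q n (27 * k + 4 * K1 * k + K2) * Real.exp (-(2 * n * C)) * ln n := by
        rw [← q_mul, ← q_mul]; ring
    _ ≤ q n ((27 + 4 * K1 + K2) * k) * Real.exp (-(2 * n * C)) * ln n := by
        apply mul_le_mul_of_nonneg_right _ hln.le
        apply mul_le_mul_of_nonneg_right _ hE.le
        apply q_mono hn
        have hk1 : (1 : ℝ) ≤ k := by exact_mod_cast (by omega : 1 ≤ k)
        nlinarith
    _ = _ := by
        unfold q
        rw [← Real.exp_add]
        congr 2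

end Pool.Agent.U262.AR
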