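import Pool.Agent.U262.AR.Q5

/-!
The width of a loop and the law of its marks.
-/

set_option autoImplicit false

namespace Pool.Agent.U262.AR

open Pool.Agent.TH795.EP Pool.Agent.TH795.EP2 Pool.Agent.TH795.SE2 Pool.Agent.TH262.SawL H981 Finset
open Pool.Agent.Y981.L2 Pool.Agent.U262.SW
open Filter Topology

/-- the width of a loop -/
noncomputable def wid {m : ℕ} (f : ZMod m → ℤ × ℤ) : ℝ :=
  ⨆ p : ZMod m × ZMod m, (((f p.1).1 : ℝ) - (f p.2).1)

theorem wid_of {m : ℕ} [NeZero m] {f : ZMod m → ℤ × ℤ} {j b : ZMod m}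
    (hj : ∀ i, (f i).1 ≤ (f j).1) (hb : ∀ i, (f b).1 ≤ (f i).1) :
    wid f = ((f j).1 : ℝ) - (f b).1 := by
  unfold wid
  apply le_antisymm
  · apply ciSup_le
    intro p
    have h1 : ((f p.1).1 : ℝ) ≤ (f j).1 := by exact_mod_cast hj p.1
    have h2 : ((f b).1 : ℝ) ≤ (f p.2).1 := by exact_mod_cast hb p.2
    linarith
  · exact le_ciSup (f := fun p : ZMod m × ZMod m => (((f p.1).1 : ℝ) - (f p.2).1))
      (Set.finite_range _).bddAbove (j, b)

theorem marks_geo {n k m : ℕ} (hn : 2 ≤ n) (hk : 2 * n ≤ k * m) (hm : 1 ≤ m)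
    {f : ZMod (2 * n) → ℤ × ℤ} (hf : IsLoop (2 * n) f) {j : ZMod (2 * n)}
    (hj : ∀ i, (f i).1 ≤ (f j).1) : ∃ SX D8 wd : ℝ,
    SX = ∑ i, |((inc k m f j i).1 : ℝ)| ∧
    D8 = ∑ i, ∑ l, max (|((inc k m f j i).1 : ℝ)| * |((inc k m f j l).2 : ℝ)|)
      (|((inc k m f j l).1 : ℝ)| * |((inc k m f j i).2 : ℝ)|) ∧
    8 * ((AR.area (2 * n) f : ℝ) - 2 * n * m) ≤ D8 ∧
    ((AR.area (2 * n) f : ℝ) - 2 * n * m) * SX ^ 2 ≤ D8 * (wd / 2 * (SX - wd)) ∧
    wid f - m ≤ wd ∧ wd ≤ wid f ∧ 0 ≤ wd ∧ 2 * wd ≤ SX ∧ SX ≤ 2 * n := by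
  have : NeZero (2 * n) := ⟨by omega⟩
  obtain ⟨b, hb⟩ := Finite.exists_min (fun i : ZMod (2 * n) => (f i).1)
  obtain ⟨px, hpx⟩ : ∃ px : ℕ → ℝ, ∀ i, px i =
    (((f (((tt (2 * n) m i : ℕ) : ZMod (2 * n)) + j)).1 - (f j).1 : ℤ) : ℝ) := ⟨_, fun _ => rfl⟩
  obtain ⟨py, hpy⟩ : ∃ py : ℕ → ℝ, ∀ i, py i =
    (((f (((tt (2 * n) m i : ℕ) : ZMod (2 * n)) + j)).2 - (f j).2 : ℤ) : ℝ) := ⟨_, fun _ => rfl⟩
  have hx0 : px 0 = 0 := by rw [hpx, tt_zero]; simp
  have hxk : px k = 0 := by rw [hpx, tt_end hk]; simp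
  have hy0 : py 0 = 0 := by rw [hpy, tt_zero]; simp
  have hyk : py k = 0 := by rw [hpy, tt_end hk]; simp
  have hix : ∀ i : Fin k, ((inc k m f j i).1 : ℝ) = px (i + 1) - px i := by
    intro i
    rw [hpx, hpx]
    show (((f (((tt (2 * n) m (i + 1) : ℕ) : ZMod (2 * n)) + j)).1 -
        (f (((tt (2 * n) m i : ℕ) : ZMod (2 * n)) + j)).1 : ℤ) : ℝ) = _
    push_cast
    ring
  have hiy : ∀ i : Fin k, ((inc k m f j i).2 : ℝ) = py (i + 1) - py i := by
    intro i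
    rw [hpy, hpy]
    show (((f (((tt (2 * n) m (i + 1) : ℕ) : ZMod (2 * n)) + j)).2 -
        (f (((tt (2 * n) m i : ℕ) : ZMod (2 * n)) + j)).2 : ℤ) : ℝ) = _
    push_cast
    ring
  have hmax : ∀ i ≤ k, px i ≤ px 0 := by
    intro i _
    rw [hx0, hpx]
    have := hj (((tt (2 * n) m i : ℕ) : ZMod (2 * n)) + j)
    exact_mod_cast (by omega : (f (((tt (2 * n) m i : ℕ) : ZMod (2 * n)) + j)).1 - (f j).1 ≤ 0)
  obtain ⟨a, ha, hmin⟩ := Finset.exists_min_image (range (k + 1)) px ⟨0, by simp⟩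
  have hak : a ≤ k := by rw [Finset.mem_range] at ha; omega
  have hmin' : ∀ i ≤ k, px a ≤ px i := fun i hi => hmin i (by rw [Finset.mem_range]; omega)
  have i1 := iso_abs (q := k) (px := px) (py := py) (by rw [hxk, hx0]) (by rw [hyk, hy0]) hmax
  have i2 := iso2_abs (q := k) (px := px) (py := py) (by rw [hxk, hx0]) (by rw [hyk, hy0]) hmax
    hak hmin'
  have i3 := marks_area (n := n) (k := k) (m := m) (by omega) hk hf j
  simp only [← hpx, ← hpy] at i3
  obtain ⟨PP, hPP⟩ : ∃ PP, PP = ∑ i ∈ range k, (px i + px (i + 1)) / 2 * (py (i + 1) - py i) :=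
    ⟨_, rfl⟩
  rw [← hPP] at i1 i2 i3
  obtain ⟨SX, hSX⟩ : ∃ SX, SX = ∑ i ∈ range k, |px (i + 1) - px i| := ⟨_, rfl⟩
  obtain ⟨D8, hD8⟩ : ∃ D8, D8 = ∑ i ∈ range k, ∑ l ∈ range k,
        max (|px (i + 1) - px i| * |py (l + 1) - py l|)
          (|px (l + 1) - px l| * |py (i + 1) - py i|) := ⟨_, rfl⟩
  rw [← hSX, ← hD8] at i2
  rw [← hD8] at i1
  have hA : (AR.area (2 * n) f : ℝ) - 2 * n * m ≤ |PP| := by
    have e1 := area_eq hf.2.2 hf.2.1 (show 3 ≤ 2 * n by omega)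
    have e2 : (AR.area (2 * n) f : ℝ) =
        |((∑ r : ZMod (2 * n), (f r).1 * ((f (r + 1)).2 - (f r).2) : ℤ) : ℝ)| := by
      rw [← Int.cast_abs, ← e1, Int.cast_natCast]
    have e3 := abs_sub_abs_le_abs_sub
      ((∑ r : ZMod (2 * n), (f r).1 * ((f (r + 1)).2 - (f r).2) : ℤ) : ℝ) PP
    rw [e2]
    linarith
  refine ⟨SX, D8, px 0 - px a, ?_, ?_, ?_, ?_, ?_, ?_, ?_, ?_, ?_⟩
  · rw [hSX, Finset.sum_range]
    apply Finset.sum_congr rfl
    intro i _
    rw [hix]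
  · rw [hD8, Finset.sum_range]
    apply Finset.sum_congr rfl
    intro i _
    rw [Finset.sum_range]
    apply Finset.sum_congr rfl
    intro l _
    rw [hix, hix, hiy, hiy]
  · linarith
  · have e1 : (px 0 - px a) / 2 * (SX - (px 0 - px a)) =
        (px 0 - px a) / 2 * SX - 2 * ((px 0 - px a) / 2) ^ 2 := by ring
    rw [e1]
    exact (mul_le_mul_of_nonneg_right hA (sq_nonneg _)).trans i2
  · -- the vertex of smallest abscissa is near a mark
    rw [wid_of hj hb]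
    have hr : (b - j).val < 2 * n := ZMod.val_lt _
    obtain ⟨r, hrd⟩ : ∃ r, r = (b - j).val := ⟨_, rfl⟩
    rw [← hrd] at hr
    have h1 : r / m * m ≤ r := Nat.div_mul_le_self r m
    have h2 : r < (r / m + 1) * m := by
      have := Nat.lt_mul_div_succ r (show 0 < m by omega)
      rw [mul_comm]
      exact this
    have h3 : r / m ≤ k := by
      by_contra hcon
      push Not at hcon
      have : k * m ≤ r / m * m := Nat.mul_le_mul_right _ hcon.le
      omega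
    have h4 : tt (2 * n) m (r / m) = r / m * m := min_eq_left (by omega)
    have h5 := loop_inc hf j h1
    have h6 : ((r : ZMod (2 * n)) + j) = b := by
      rw [hrd, ZMod.natCast_zmod_val, sub_add_cancel]
    rw [h6] at h5
    have h7 := hmin' (r / m) h3
    have h8 : px (r / m) = (((f (((r / m * m : ℕ) : ZMod (2 * n)) + j)).1 - (f j).1 : ℤ) : ℝ) := by
      rw [hpx, h4]
    have h9 : |(f b).1 - (f (((r / m * m : ℕ) : ZMod (2 * n)) + j)).1| ≤ (m : ℤ) := by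
      have e1 : |(f b).1 - (f (((r / m * m : ℕ) : ZMod (2 * n)) + j)).1| ≤
          ((r - r / m * m : ℕ) : ℤ) := by
        have e2 := abs_nonneg (f b - f (((r / m * m : ℕ) : ZMod (2 * n)) + j)).2
        have e3 : (f b - f (((r / m * m : ℕ) : ZMod (2 * n)) + j)).1 =
          (f b).1 - (f (((r / m * m : ℕ) : ZMod (2 * n)) + j)).1 := rfl
        rw [e3] at h5
        linarith
      have e4 : r - r / m * m ≤ m := by
        rw [Nat.add_mul, Nat.one_mul] at h2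
        omega
      have e5 : ((r - r / m * m : ℕ) : ℤ) ≤ (m : ℤ) := by exact_mod_cast e4
      exact e1.trans e5
    have h10 : (f (((r / m * m : ℕ) : ZMod (2 * n)) + j)).1 - (f j).1 ≤
        (f b).1 - (f j).1 + m := by
      have := abs_le.1 h9
      linarith [this.1]
    have h11 : px (r / m) ≤ ((f b).1 : ℝ) - (f j).1 + m := by
      rw [h8]
      exact_mod_cast h10
    rw [hx0]
    linarith
  · rw [wid_of hj hb, hx0, hpx]
    have := hb (((tt (2 * n) m a : ℕ) : ZMod (2 * n)) + j)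
    have h1 : ((f b).1 : ℝ) ≤ (f (((tt (2 * n) m a : ℕ) : ZMod (2 * n)) + j)).1 := by
      exact_mod_cast this
    push_cast
    linarith
  · have := hmin' 0 (Nat.zero_le _)
    linarith
  · rw [hSX, Finset.range_eq_Ico, ← Finset.sum_Ico_consecutive _ (Nat.zero_le a) hak]
    have h1 : px 0 - px a ≤ ∑ i ∈ Ico 0 a, |px (i + 1) - px i| := by
      have e1 := Finset.sum_Ico_sub px (Nat.zero_le a)
      have e2 : px 0 - px a = ∑ i ∈ Ico 0 a, -(px (i + 1) - px i) := by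
        rw [Finset.sum_neg_distrib, e1]
        ring
      rw [e2]
      exact Finset.sum_le_sum fun i _ => neg_le_abs _
    have h2 : px 0 - px a ≤ ∑ i ∈ Ico a k, |px (i + 1) - px i| := by
      have e1 := Finset.sum_Ico_sub px hak
      have e2 : px 0 - px a = ∑ i ∈ Ico a k, (px (i + 1) - px i) := by
        rw [e1, hxk, hx0]
      rw [e2]
      exact Finset.sum_le_sum fun i _ => le_abs_self _
    linarith
  · rw [hSX, Finset.sum_range]
    have h1 : ∀ i : Fin k, |px (i + 1) - px i| ≤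
        ((tt (2 * n) m (i + 1) - tt (2 * n) m i : ℕ) : ℝ) := by
      intro i
      rw [← hix]
      have e1 := inc_le (k := k) (m := m) hf j i
      have e2 := abs_nonneg (inc k m f j i).2
      have e3 : |(inc k m f j i).1| ≤ ((tt (2 * n) m (i + 1) - tt (2 * n) m i : ℕ) : ℤ) := by
        linarith
      exact_mod_cast e3
    refine (Finset.sum_le_sum fun i _ => h1 i).trans ?_
    have h2 := sum_tt hk
    have h3 : (∑ i : Fin k, ((tt (2 * n) m (i + 1) - tt (2 * n) m i : ℕ) : ℝ)) =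
        ((2 * n : ℕ) : ℝ) := by
      rw [← Nat.cast_sum, h2]
    rw [h3]
    push_cast
    exact le_rfl

/-- the area of the law -/
theorem fit_area {n k : ℕ} (hn : 1 ≤ n) {D : Fin k → ℤ × ℤ} {p x y : Fin k → ℝ}
    (L : Law k p x y) (hF : Fit n D p x y) : ar2 p x y = 1 / (8 * n ^ 2) * ∑ i, ∑ j,
        max (|((D i).1 : ℝ)| * |((D j).2 : ℝ)|) (|((D j).1 : ℝ)| * |((D i).2 : ℝ)|) := by
  have hn0 : (0 : ℝ) < n := by exact_mod_cast hn
  unfold ar2
  rw [Finset.mul_sum, Finset.mul_sum]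
  apply Finset.sum_congr rfl
  intro i _
  rw [Finset.mul_sum, Finset.mul_sum]
  apply Finset.sum_congr rfl
  intro j _
  have e1 : p i * (p j * max (x i * y j) (x j * y i)) =
      max ((p i * x i) * (p j * y j)) ((p j * x j) * (p i * y i)) := by
    rw [mul_max_of_nonneg _ _ (L.p0 j), mul_max_of_nonneg _ _ (L.p0 i)]
    congr 1 <;> ring
  rw [e1, hF.1, hF.2, hF.1, hF.2]
  have e2 : ∀ u v : ℝ, u / (2 * n) * (v / (2 * n)) = 1 / (4 * n ^ 2) * (u * v) := by
    intro u v; field_simp; ring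
  rw [e2, e2, ← mul_max_of_nonneg _ _ (by positivity)]
  ring

theorem fit_x {n k : ℕ} {D : Fin k → ℤ × ℤ} {p x y : Fin k → ℝ}
    (hF : Fit n D p x y) : ∑ i, p i * x i = (∑ i, |((D i).1 : ℝ)|) / (2 * n) := by
  rw [Finset.sum_div]
  exact Finset.sum_congr rfl fun i _ => hF.1 i

end Pool.Agent.U262.AR
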