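import Pool.Agent.U262.AR.Q6

/-!
The width of the loops of large area.
-/

set_option autoImplicit false

namespace Pool.Agent.U262.AR

open Pool.Agent.TH795.EP Pool.Agent.TH795.EP2 Pool.Agent.TH795.SE2 Pool.Agent.TH262.SawL H981 Finset
open Pool.Agent.Y981.L2 Pool.Agent.U262.SW
open Filter Topology

/-- the loops of large area whose width is not near its expected value are dear -/
theorem dear_of {s h : ℝ} (hs : 0 < s) (hs4 : s < 1 / 4) (hh : 0 ≤ h)
    (hopt : √(s * VV h) - h = JJ s) {ε : ℝ} (hε : 0 < ε) (hε1 : ε ≤ 1) :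
    ∃ γ : ℝ, 0 < γ ∧ ∃ k : ℕ, 2 ≤ k ∧ ∀ n : ℕ, k ≤ n → ∀ f : ZMod (2 * n) → ℤ × ℤ,
      IsLoop (2 * n) f → s * (n : ℝ) ^ 2 ≤ (AR.area (2 * n) f : ℝ) →
      ε * n ≤ |wid f - ww s h * n| → ∀ j : ZMod (2 * n), (∀ i, (f i).1 ≤ (f j).1) →
      Dear n (JJ s + γ) (inc k (2 * n / k + 1) f j) := by
  obtain ⟨η, hη, hηs, hnear⟩ := near_y hs hs4 hh hopt (show 0 < ε / 4 by positivity)
  obtain ⟨w0, hw0⟩ : ∃ w0, w0 = ww s h := ⟨_, rfl⟩
  obtain ⟨s2, hs2⟩ : ∃ s2, s2 = min (s * (1 + ε ^ 2 / 8)) ((s + 1 / 4) / 2) := ⟨_, rfl⟩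
  have hs2a : s < s2 := by
    rw [hs2]
    apply lt_min
    · have : 0 < s * (ε ^ 2 / 8) := by positivity
      nlinarith
    · linarith
  have hs2b : s2 ≤ 1 / 4 := by
    have : s2 ≤ (s + 1 / 4) / 2 := hs2 ▸ min_le_right _ _
    linarith
  have hs2c : s2 ≤ s * (1 + ε ^ 2 / 8) := hs2 ▸ min_le_left _ _
  have hJ2 := jj_strict hs.le hs2a hs2b
  obtain ⟨γ, hγ⟩ : ∃ γ, γ = min η (JJ s2 - JJ s) := ⟨_, rfl⟩
  have hγ0 : 0 < γ := by rw [hγ]; exact lt_min hη (by linarith)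
  have hγ1 : γ ≤ η := hγ ▸ min_le_left _ _
  have hγ2 : γ ≤ JJ s2 - JJ s := hγ ▸ min_le_right _ _
  obtain ⟨τ, hτ⟩ : ∃ τ, τ = min (min η (s * ε ^ 2 / 16)) (ε / 4) := ⟨_, rfl⟩
  have hτ0 : 0 < τ := by
    rw [hτ]; exact lt_min (lt_min hη (by positivity)) (by positivity)
  have hτ1 : τ ≤ η := (hτ ▸ min_le_left _ _ : τ ≤ min η (s * ε ^ 2 / 16)).trans (min_le_left _ _)
  have hτ2 : τ ≤ s * ε ^ 2 / 16 :=
    (hτ ▸ min_le_left _ _ : τ ≤ min η (s * ε ^ 2 / 16)).trans (min_le_right _ _)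
  have hτ3 : τ ≤ ε / 4 := hτ ▸ min_le_right _ _
  obtain ⟨k, hk⟩ := exists_nat_ge (6 / τ + 2)
  have hk2 : 2 ≤ k := by
    have : (2 : ℝ) ≤ k := by
      have : 0 < 6 / τ := by positivity
      linarith
    exact_mod_cast this
  have hk0 : (0 : ℝ) < k := by exact_mod_cast (by omega : 0 < k)
  have hk6 : 6 / (k : ℝ) ≤ τ := by
    have h1 : 6 / τ ≤ k := by linarith
    rw [div_le_iff₀ hτ0] at h1
    rw [div_le_iff₀ hk0]
    linarith
  refine ⟨γ, hγ0, k, hk2, ?_⟩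
  intro n hkn f hf hA hw j hj p x y L hF
  have hn : 2 ≤ n := hk2.trans hkn
  have hn0 : (0 : ℝ) < n := by exact_mod_cast (by omega : 0 < n)
  obtain ⟨m, hm⟩ : ∃ m, m = 2 * n / k + 1 := ⟨_, rfl⟩
  rw [← hm] at hF
  have hkm : 2 * n ≤ k * m := by
    rw [hm]
    have := Nat.lt_mul_div_succ (2 * n) (show 0 < k by omega)
    exact this.le
  have hmr : (m : ℝ) ≤ 3 * n / k := by
    have h3 : ((2 * n / k : ℕ) : ℝ) ≤ (2 * n : ℕ) / k := Nat.cast_div_le
    rw [hm]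
    push_cast at h3 ⊢
    have h4 : (1 : ℝ) ≤ n / k := by
      rw [one_le_div hk0]
      exact_mod_cast hkn
    have h5 : (3 : ℝ) * n / k = 2 * n / k + n / k := by ring
    rw [h5]
    linarith
  have hmτ : (m : ℝ) ≤ τ / 2 * n := by
    have h1 : (3 : ℝ) * n / k = 6 / k / 2 * n := by ring
    rw [h1] at hmr
    have h2 := mul_le_mul_of_nonneg_right hk6 hn0.le
    linarith
  obtain ⟨SX, D8, wd, hSX, hD8, g1, g2, g3, g4, g5, g6, g7⟩ :=
    marks_geo hn hkm (by rw [hm]; exact Nat.le_add_left 1 _) hf hj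
  have hX := fit_x hF
  have har := fit_area (by omega) L hF
  rw [← hSX] at hX
  rw [← hD8] at har
  obtain ⟨X, hXd⟩ : ∃ X, X = ∑ i, p i * x i := ⟨_, rfl⟩
  rw [← hXd] at hX
  have hSXX : SX = 2 * n * X := by rw [hX]; field_simp
  have hD8r : D8 = 8 * n ^ 2 * ar2 p x y := by rw [har]; field_simp
  have hA2 : (s - τ) * (n : ℝ) ^ 2 ≤ (AR.area (2 * n) f : ℝ) - 2 * n * m := by
    have h1 := mul_le_mul_of_nonneg_left hmτ (show (0 : ℝ) ≤ 2 * n by positivity)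
    nlinarith
  by_contra hcon
  push Not at hcon
  -- the horizontal extent of the law
  have ha1 : s - τ ≤ ar2 p x y := by
    have h1 : 8 * ((s - τ) * (n : ℝ) ^ 2) ≤ 8 * n ^ 2 * ar2 p x y := by
      rw [← hD8r]
      linarith
    have h2 : (8 * (n : ℝ) ^ 2) * (s - τ) ≤ (8 * n ^ 2) * ar2 p x y := by linarith
    exact le_of_mul_le_mul_left h2 (by positivity)
  have hn1 := hnear k p y x L.swap (by rw [ar2_swap]; linarith) (by
    rw [cost_swap L]; linarith)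
  rw [← hw0, ← hXd] at hn1
  rw [← hw0] at hw
  have hn2 := abs_le.1 hn1
  rcases le_abs.1 hw with hcase | hcase
  · -- large width
    have h1 : (w0 + ε) * n ≤ wid f := by linarith
    have h2 : (w0 + ε) * n - τ / 2 * n ≤ X * n := by
      have e1 : 2 * ((w0 + ε) * n - τ / 2 * n) ≤ 2 * (X * n) := by
        have : 2 * (X * n) = SX := by rw [hSXX]; ring
        rw [this]
        linarith
      linarith
    have h3 : (w0 + ε - τ / 2) * n ≤ X * n := by linarith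
    have h4 := le_of_mul_le_mul_right h3 hn0
    linarith [hn2.2]
  · -- small width
    have h1 : wid f ≤ (w0 - ε) * n := by linarith
    have h2 : ε * n ≤ SX - 2 * wd := by
      have e1 : (w0 - ε / 4) * n ≤ X * n := mul_le_mul_of_nonneg_right (by linarith [hn2.1]) hn0.le
      have e2 : SX = 2 * (X * n) := by rw [hSXX]; ring
      have e3 : 0 < ε * n := by positivity
      rw [e2]
      linarith
    have hSX0 : 0 < SX := by
      have : 0 < ε * n := by positivity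
      linarith
    have h3 : ε / 2 * SX ≤ SX - 2 * wd := by
      have := mul_le_mul_of_nonneg_left g7 (show 0 ≤ ε / 2 by positivity)
      linarith
    have h4 : (ε / 2 * SX) ^ 2 ≤ (SX - 2 * wd) ^ 2 := pow_le_pow_left₀ (by positivity) h3 2
    have h5 : wd / 2 * (SX - wd) ≤ (1 - ε ^ 2 / 4) / 8 * SX ^ 2 := by nlinarith
    have hD0 : 0 ≤ D8 := by
      rw [hD8]
      apply Finset.sum_nonneg
      intro i _
      apply Finset.sum_nonneg
      intro l _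
      exact le_max_of_le_left (by positivity)
    have h6 : ((AR.area (2 * n) f : ℝ) - 2 * n * m) * SX ^ 2 ≤
        (D8 * ((1 - ε ^ 2 / 4) / 8)) * SX ^ 2 := by
      have := mul_le_mul_of_nonneg_left h5 hD0
      linarith
    have h7 := le_of_mul_le_mul_right h6 (by positivity)
    have h8 : (s - τ) * (n : ℝ) ^ 2 ≤ ((1 - ε ^ 2 / 4) * ar2 p x y) * n ^ 2 := by
      refine hA2.trans (h7.trans (le_of_eq ?_))
      rw [hD8r]
      ring
    have h9 := le_of_mul_le_mul_right h8 (by positivity)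
    have h10 : 0 < 1 - ε ^ 2 / 4 := by nlinarith
    have h11 : (1 - ε ^ 2 / 4) * (s * (1 + ε ^ 2 / 8)) ≤ (1 - ε ^ 2 / 4) * ar2 p x y := by
      refine le_trans ?_ h9
      have e1 : 0 ≤ s * ε ^ 4 := by positivity
      nlinarith
    have h12 := le_of_mul_le_mul_left h11 h10
    have h13 : s2 ≤ ar2 p x y := hs2c.trans h12
    have h14 : JJ s2 ≤ ∑ i, p i * Rate (x i, y i) :=
      csInf_le (cs_bdd s2) ⟨k, p, x, y, L.p0, L.p1, L.x0, L.y0, L.xy, h13, rfl⟩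
    linarith

/-- **The width of the loops of large area.** -/
theorem width_bad {s h : ℝ} (hs : 0 < s) (hs4 : s < 1 / 4) (hh : 0 ≤ h)
    (hopt : √(s * VV h) - h = JJ s) {ε : ℝ} (hε : 0 < ε) :
    ∃ c : ℝ, 0 < c ∧ ∀ᶠ n : ℕ in atTop,
      ({f : ZMod (2 * n) → ℤ × ℤ | IsLoop (2 * n) f ∧
        s * (n : ℝ) ^ 2 ≤ (AR.area (2 * n) f : ℝ) ∧ ε * n ≤ |wid f - ww s h * n|}.ncard : ℝ) ≤
      Real.exp (-(c * n)) * (LA (2 * n) ⌈s * (n : ℝ) ^ 2⌉).ncard := by
  obtain ⟨γ, hγ, k, hk2, hdear⟩ := dear_of hs hs4 hh hopt (ε := min ε 1)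
    (lt_min hε one_pos) (min_le_right _ _)
  obtain ⟨K, hK, hcount⟩ := count_law
  refine ⟨γ / 2, by positivity, ?_⟩
  have h1 := (area_limit hs.le hs4).eventually_const_lt (show -JJ s - γ / 2 < -JJ s by linarith)
  have h2 := LA_pos hs.le hs4
  have h3 := small_log (A := K * k) (B := 0) (show 0 < γ / 2 by positivity)
  filter_upwards [h1, h2, h3, eventually_ge_atTop k] with n e1 e2 e3 e4
  have hn : 2 ≤ n := hk2.trans e4
  have hn0 : (0 : ℝ) < n := by exact_mod_cast (by omega : 0 < n)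
  have hln := ln_pos hn
  obtain ⟨B, hB⟩ : ∃ B : Set (ZMod (2 * n) → ℤ × ℤ), B = {f | IsLoop (2 * n) f ∧
        s * (n : ℝ) ^ 2 ≤ (AR.area (2 * n) f : ℝ) ∧ ε * n ≤ |wid f - ww s h * n|} := ⟨_, rfl⟩
  rw [← hB]
  have g1 := hcount n hn k hk2 e4 B (JJ s + γ) (by rw [hB]; exact fun f hf => hf.1) (by
    rw [hB]
    intro f hf j hj
    apply hdear n e4 f hf.1 hf.2.1 _ j hj
    exact (mul_le_mul_of_nonneg_right (min_le_left _ _) hn0.le).trans hf.2.2)
  obtain ⟨N, hN⟩ : ∃ N : ℝ, N = ((LA (2 * n) ⌈s * (n : ℝ) ^ 2⌉).ncard : ℝ) := ⟨_, rfl⟩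
  rw [← hN] at e1 e2 ⊢
  have g2 : ln n ≤ Real.exp (2 * n * (JJ s + γ / 2)) * N := by
    have f1 : -(2 * n * (JJ s + γ / 2)) ≤ Real.log (N / ln n) := by
      rw [lt_div_iff₀ (by positivity)] at e1
      linarith
    have f2 := Real.exp_le_exp.2 f1
    rw [Real.exp_log (by positivity), le_div_iff₀ hln, Real.exp_neg] at f2
    have f3 := Real.exp_pos (2 * n * (JJ s + γ / 2))
    rw [inv_mul_le_iff₀ f3] at f2
    exact f2
  have f3 := Real.exp_pos (K * k * Real.log n ^ 2 - 2 * n * (JJ s + γ))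
  refine g1.trans ((mul_le_mul_of_nonneg_left g2 f3.le).trans ?_)
  rw [← mul_assoc, ← Real.exp_add]
  apply mul_le_mul_of_nonneg_right _ e2.le
  apply Real.exp_le_exp.2
  linarith

end Pool.Agent.U262.AR
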