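import Pool.Agent.U262.AR.Q7

/-!
The height of the loops of large area; the main statement.
-/

set_option autoImplicit false

namespace Pool.Agent.U262.AR

open Pool.Agent.TH795.EP Pool.Agent.TH795.EP2 Pool.Agent.TH795.SE2 Pool.Agent.TH262.SawL H981 Finset
open Pool.Agent.Y981.L2 Pool.Agent.U262.SW
open Filter Topology

/-- the loop with the coordinates exchanged -/
def swl {m : ℕ} (f : ZMod m → ℤ × ℤ) : ZMod m → ℤ × ℤ := fun i => (f i).swap

theorem swl_loop {m : ℕ} {f : ZMod m → ℤ × ℤ} (hf : IsLoop m f) : IsLoop m (swl f) := by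
  refine ⟨?_, ?_, ?_⟩
  · show (f 0).swap = 0
    rw [hf.1]; rfl
  · intro i j hij
    exact hf.2.1 (Prod.swap_injective hij)
  · intro i
    have := hf.2.2 i
    show |(f (i + 1)).2 - (f i).2| + |(f (i + 1)).1 - (f i).1| = 1
    rw [add_comm]
    exact this

theorem swl_inj {m : ℕ} : Function.Injective (swl : (ZMod m → ℤ × ℤ) → ZMod m → ℤ × ℤ) := by
  intro f g h
  funext i
  exact Prod.swap_injective (congrFun h i)

theorem swl_area {m : ℕ} (hm : 3 ≤ m) {f : ZMod m → ℤ × ℤ} (hf : IsLoop m f) :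
    AR.area m (swl f) = AR.area m f := by
  have : NeZero m := ⟨by omega⟩
  have h1 := area_eq hf.2.2 hf.2.1 hm
  have h2 := area_eq (swl_loop hf).2.2 (swl_loop hf).2.1 hm
  have h3 : ∑ k : ZMod m, (swl f k).1 * ((swl f (k + 1)).2 - (swl f k).2) =
      -∑ k : ZMod m, (f k).1 * ((f (k + 1)).2 - (f k).2) := by
    have e1 : ∀ k : ZMod m, (swl f k).1 * ((swl f (k + 1)).2 - (swl f k).2) +
        (f k).1 * ((f (k + 1)).2 - (f k).2) =
        (f (k + 1)).1 * (f (k + 1)).2 - (f k).1 * (f k).2 := by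
      intro k
      have e2 : ((f (k + 1)).1 - (f k).1) * ((f (k + 1)).2 - (f k).2) = 0 := by
        have h := hf.2.2 k
        rcases eq_or_ne ((f (k + 1)).1 - (f k).1) 0 with h0 | h0
        · rw [h0, zero_mul]
        · have h4 := Int.one_le_abs h0
          have h5 : |(f (k + 1)).2 - (f k).2| = 0 := by
            have := abs_nonneg ((f (k + 1)).2 - (f k).2)
            omega
          rw [abs_eq_zero.1 h5, mul_zero]
      show (f k).2 * ((f (k + 1)).1 - (f k).1) + (f k).1 * ((f (k + 1)).2 - (f k).2) = _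
      linear_combination -e2
    have e3 : ∑ k : ZMod m, ((f (k + 1)).1 * (f (k + 1)).2 - (f k).1 * (f k).2) = 0 := by
      rw [Finset.sum_sub_distrib, sub_eq_zero]
      exact Fintype.sum_equiv (Equiv.addRight (1 : ZMod m)) _ _ fun k => rfl
    rw [← Finset.sum_congr rfl fun k _ => e1 k, Finset.sum_add_distrib] at e3
    linarith
  rw [h3, abs_neg, ← h1] at h2
  exact_mod_cast h2

/-- the height of a loop -/
noncomputable def hei {m : ℕ} (f : ZMod m → ℤ × ℤ) : ℝ :=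
  ⨆ p : ZMod m × ZMod m, (((f p.1).2 : ℝ) - (f p.2).2)

theorem swl_wid {m : ℕ} (f : ZMod m → ℤ × ℤ) : wid (swl f) = hei f := rfl

/-- **The width and the height of the loops of large area.** -/
theorem extents_bad {s h : ℝ} (hs : 0 < s) (hs4 : s < 1 / 4) (hh : 0 ≤ h)
    (hopt : √(s * VV h) - h = JJ s) {ε : ℝ} (hε : 0 < ε) :
    ∃ c : ℝ, 0 < c ∧ ∀ᶠ n : ℕ in atTop,
      ({f : ZMod (2 * n) → ℤ × ℤ | IsLoop (2 * n) f ∧
        s * (n : ℝ) ^ 2 ≤ (AR.area (2 * n) f : ℝ) ∧ (ε ≤ |wid f / n - ww s h| ∨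
          ε ≤ |hei f / n - ww s h|)}.ncard : ℝ) ≤
      Real.exp (-(c * n)) * ({f : ZMod (2 * n) → ℤ × ℤ | IsLoop (2 * n) f ∧
        s * (n : ℝ) ^ 2 ≤ (AR.area (2 * n) f : ℝ)}.ncard : ℝ) := by
  obtain ⟨c, hc, h1⟩ := width_bad hs hs4 hh hopt hε
  refine ⟨c / 2, by positivity, ?_⟩
  have h3 : ∀ᶠ n : ℕ in atTop, 2 * Real.log 2 / c ≤ (n : ℝ) :=
    tendsto_natCast_atTop_atTop.eventually_ge_atTop _
  filter_upwards [h1, h3, eventually_ge_atTop 2] with n e1 e3 hn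
  have hn0 : (0 : ℝ) < n := by exact_mod_cast (by omega : 0 < n)
  rw [LA_eq hn] at e1
  obtain ⟨N, hN⟩ : ∃ N : ℝ, N = ({f : ZMod (2 * n) → ℤ × ℤ | IsLoop (2 * n) f ∧
        s * (n : ℝ) ^ 2 ≤ (AR.area (2 * n) f : ℝ)}.ncard : ℝ) := ⟨_, rfl⟩
  rw [← hN] at e1 ⊢
  obtain ⟨B, hB⟩ : ∃ B : Set (ZMod (2 * n) → ℤ × ℤ), B = {f | IsLoop (2 * n) f ∧
        s * (n : ℝ) ^ 2 ≤ (AR.area (2 * n) f : ℝ) ∧ ε * n ≤ |wid f - ww s h * n|} := ⟨_, rfl⟩
  rw [← hB] at e1
  have hfin : B.Finite := (loops_fin (M := 2 * n) (by omega)).subset (by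
    rw [hB]; exact fun f hf => hf.1)
  have hdiv : ∀ r : ℝ, ε ≤ |r / n - ww s h| → ε * n ≤ |r - ww s h * n| := by
    intro r hr
    have e : r - ww s h * n = (r / n - ww s h) * n := by field_simp
    rw [e, abs_mul, abs_of_pos hn0]
    exact mul_le_mul_of_nonneg_right hr hn0.le
  have hsub : {f : ZMod (2 * n) → ℤ × ℤ | IsLoop (2 * n) f ∧
        s * (n : ℝ) ^ 2 ≤ (AR.area (2 * n) f : ℝ) ∧ (ε ≤ |wid f / n - ww s h| ∨
          ε ≤ |hei f / n - ww s h|)} ⊆ B ∪ swl '' B := by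
    rintro f ⟨hf, hA, hw | hw⟩
    · left
      rw [hB]
      exact ⟨hf, hA, hdiv _ hw⟩
    · right
      refine ⟨swl f, ?_, ?_⟩
      · rw [hB]
        refine ⟨swl_loop hf, ?_, ?_⟩
        · rw [swl_area (by omega) hf]
          exact hA
        · rw [swl_wid]
          exact hdiv _ hw
      · funext i
        exact Prod.swap_swap _
  have h5 := Set.ncard_le_ncard hsub (hfin.union (hfin.image _))
  have h6 := Set.ncard_union_le B (swl '' B)
  rw [Set.ncard_image_of_injective _ swl_inj] at h6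
  have h7 : (({f : ZMod (2 * n) → ℤ × ℤ | IsLoop (2 * n) f ∧
        s * (n : ℝ) ^ 2 ≤ (AR.area (2 * n) f : ℝ) ∧ (ε ≤ |wid f / n - ww s h| ∨
          ε ≤ |hei f / n - ww s h|)}.ncard : ℕ) : ℝ) ≤ 2 * (B.ncard : ℝ) := by
    refine (Nat.cast_le.2 (h5.trans h6)).trans ?_
    rw [Nat.cast_add]
    linarith
  refine h7.trans ((mul_le_mul_of_nonneg_left e1 (by norm_num)).trans ?_)
  rw [← mul_assoc]
  apply mul_le_mul_of_nonneg_right _ (by rw [hN]; exact Nat.cast_nonneg _)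
  rw [div_le_iff₀ hc] at e3
  have h8 : 2 * Real.exp (-(c * n)) = Real.exp (Real.log 2 + -(c * n)) := by
    rw [Real.exp_add, Real.exp_log (by norm_num)]
  rw [h8]
  apply Real.exp_le_exp.2
  linarith

/-- the maximisers -/
theorem opt_iff {s h : ℝ} (hs : 0 < s) (hs4 : s < 1 / 4) (hh : 0 ≤ h)
    (hmax : ∀ h' : ℝ, 0 ≤ h' → √(s * VV h') - h' ≤ √(s * VV h) - h) :
    √(s * VV h) - h = JJ s := by
  obtain ⟨h0, hh0, hopt⟩ := exists_opt hs hs4
  apply le_antisymm ((wulff_lub hs.le hs4).1 ⟨h, hh, rfl⟩)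
  rw [← hopt]
  exact hmax h0 hh0

end Pool.Agent.U262.AR
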