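import Pool.Agent.U262.AR.W4
import Pool.Agent.U262.AR.I2

/-!
Loops with a large area, cut at equal times.
-/

set_option autoImplicit false

namespace Pool.Agent.U262.AR

open Pool.Agent.TH795.EP Pool.Agent.TH795.EP2 Pool.Agent.TH795.SE2 Pool.Agent.TH262.SawL H981 Finset
open Pool.Agent.Y981.L2 Pool.Agent.U262.SW

theorem iso_abs {q : ℕ} {px py : ℕ → ℝ} (hxq : px q = px 0) (hyq : py q = py 0)
    (hmax : ∀ i ≤ q, px i ≤ px 0) :
    |∑ i ∈ range q, (px i + px (i + 1)) / 2 * (py (i + 1) - py i)| ≤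
      1 / 8 * ∑ i ∈ range q, ∑ j ∈ range q,
        max (|px (i + 1) - px i| * |py (j + 1) - py j|)
          (|px (j + 1) - px j| * |py (i + 1) - py i|) := by
  rw [abs_le']
  refine ⟨iso hxq hyq hmax, ?_⟩
  have h := iso (px := px) (py := fun i => -py i) hxq (by rw [hyq]) hmax
  have e1 : ∀ i, -py (i + 1) - -py i = -(py (i + 1) - py i) := fun i => by ring
  simp only [e1, abs_neg, mul_neg, Finset.sum_neg_distrib] at h
  exact h

/-- the blocks of a word -/
theorem flatten_blocks (W : List St) (t : ℕ → ℕ) (ht : Monotone t) (h0 : t 0 = 0) (k : ℕ) :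
    ((List.range k).map fun i => (W.drop (t i)).take (t (i + 1) - t i)).flatten = W.take (t k) := by
  induction k with
  | zero => simp [h0]
  | succ k ih =>
    rw [List.range_succ, List.map_append, List.flatten_append, ih]
    simp only [List.map_cons, List.map_nil, List.flatten_cons, List.flatten_nil, List.append_nil]
    have h1 : t (k + 1) = t k + (t (k + 1) - t k) := by
      have : t k ≤ t (k + 1) := ht (Nat.le_succ k)
      omega
    conv_rhs => rw [h1, List.take_add]

theorem sum_zmod {M : ℕ} [NeZero M] (F : ZMod M → ℤ) :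
    ∑ k ∈ range M, F (k : ZMod M) = ∑ i : ZMod M, F i := by
  apply Finset.sum_nbij (fun k : ℕ => (k : ZMod M))
  · intro k _; exact Finset.mem_univ _
  · intro a ha b hb hab
    rw [Finset.mem_coe, Finset.mem_range] at ha hb
    have h1 := congrArg ZMod.val hab
    simp only at h1
    rwa [ZMod.val_cast_of_lt ha, ZMod.val_cast_of_lt hb] at h1
  · intro i _
    exact ⟨i.val, by simpa using ZMod.val_lt i, ZMod.natCast_zmod_val i⟩
  · intro _ _; rfl

/-- the area does not depend on the root -/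
theorem area_shift {M : ℕ} [NeZero M] (f : ZMod M → ℤ × ℤ) (j : ZMod M) :
    ∑ i : ZMod M, ((f (i + j)).1 - (f j).1) * ((f (i + 1 + j)).2 - (f (i + j)).2) =
      ∑ i : ZMod M, (f i).1 * ((f (i + 1)).2 - (f i).2) := by
  have h1 : ∑ i : ZMod M, ((f (i + 1)).2 - (f i).2) = 0 := by
    have h0 := Equiv.sum_comp (Equiv.addRight (1 : ZMod M)) fun i => (f i).2
    simp only [Equiv.coe_addRight] at h0
    rw [Finset.sum_sub_distrib, h0, sub_self]
  have h2 : ∑ i : ZMod M, (f (i + j)).1 * ((f (i + 1 + j)).2 - (f (i + j)).2) =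
      ∑ i : ZMod M, (f i).1 * ((f (i + 1)).2 - (f i).2) := by
    have h3 := Equiv.sum_comp (Equiv.addRight j) fun i => (f i).1 * ((f (i + 1)).2 - (f i).2)
    rw [← h3]
    apply Finset.sum_congr rfl
    intro i _
    simp only [Equiv.coe_addRight]
    rw [add_right_comm]
  have h3 : ∑ i : ZMod M, (f j).1 * ((f (i + 1 + j)).2 - (f (i + j)).2) = 0 := by
    rw [← Finset.mul_sum]
    have h4 := Equiv.sum_comp (Equiv.addRight j) fun i => ((f (i + 1)).2 - (f i).2)
    have h5 : ∑ i : ZMod M, ((f (i + 1 + j)).2 - (f (i + j)).2) = 0 := by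
      rw [← h1, ← h4]
      apply Finset.sum_congr rfl
      intro i _
      simp only [Equiv.coe_addRight]
      rw [add_right_comm]
    rw [h5, mul_zero]
  rw [← h2]
  have h4 : ∀ i : ZMod M, ((f (i + j)).1 - (f j).1) * ((f (i + 1 + j)).2 - (f (i + j)).2) =
      (f (i + j)).1 * ((f (i + 1 + j)).2 - (f (i + j)).2) -
        (f j).1 * ((f (i + 1 + j)).2 - (f (i + j)).2) := fun i => by ring
  rw [Finset.sum_congr rfl fun i _ => h4 i, Finset.sum_sub_distrib, h3, sub_zero]

/-- the times of the marks -/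
def tt (M m i : ℕ) : ℕ := min (i * m) M

theorem tt_mono (M m : ℕ) : Monotone (tt M m) := by
  intro i j hij
  unfold tt
  exact min_le_min_right _ (Nat.mul_le_mul_right _ hij)

theorem tt_le (M m i : ℕ) : tt M m i ≤ M := min_le_right _ _

theorem tt_diff (M m i : ℕ) : tt M m (i + 1) - tt M m i ≤ m := by
  unfold tt
  rw [Nat.add_one_mul]
  omega

theorem tt_zero (M m : ℕ) : tt M m 0 = 0 := by simp [tt]

theorem tt_end {M m k : ℕ} (h : M ≤ k * m) : tt M m k = M := min_eq_right h

/-- the area of the word and of the polygon of the marks -/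
theorem area_marks (W : List St) (m k : ℕ) (hk : W.length ≤ k * m) :
    |(Fa W : ℝ) - ∑ i ∈ range k, (((H981.path W (tt W.length m i)).1 : ℝ) +
      ((H981.path W (tt W.length m (i + 1))).1 : ℝ)) / 2 *
      (((H981.path W (tt W.length m (i + 1))).2 : ℝ) - ((H981.path W (tt W.length m i)).2 : ℝ))| ≤
      (W.length : ℝ) * m := by
  obtain ⟨t, ht⟩ : ∃ t, t = tt W.length m := ⟨_, rfl⟩
  have htm : Monotone t := ht ▸ tt_mono _ _
  have ht0 : t 0 = 0 := by rw [ht]; exact tt_zero _ _
  have htk : t k = W.length := by rw [ht]; exact tt_end hk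
  rw [← ht]
  obtain ⟨X, hX⟩ : ∃ X : ℕ → ℝ, ∀ s, X s = ((H981.path W s).1 : ℝ) := ⟨_, fun _ => rfl⟩
  obtain ⟨Y, hY⟩ : ∃ Y : ℕ → ℝ, ∀ s, Y s = ((H981.path W s).2 : ℝ) := ⟨_, fun _ => rfl⟩
  simp only [← hX, ← hY]
  have hFa : (Fa W : ℝ) = ∑ s ∈ range W.length, X s * (Y (s + 1) - Y s) := by
    unfold Fa
    push_cast
    simp only [← hX, ← hY]
  have hsplit : ∀ (G : ℕ → ℝ) (l : ℕ), ∑ s ∈ range (t l), G s =
      ∑ i ∈ range l, ∑ s ∈ Ico (t i) (t (i + 1)), G s := by
    intro G l
    induction l with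
    | zero => simp [ht0]
    | succ l ih =>
      rw [Finset.sum_range_succ, ← ih, Finset.range_eq_Ico, Finset.range_eq_Ico,
        Finset.sum_Ico_consecutive _ (Nat.zero_le _) (htm (Nat.le_succ l))]
  have hdY : ∀ i, Y (t (i + 1)) - Y (t i) = ∑ s ∈ Ico (t i) (t (i + 1)), (Y (s + 1) - Y s) :=
    fun i => (Finset.sum_Ico_sub Y (htm (Nat.le_succ i))).symm
  have hbx : ∀ s r, s ≤ r → |X r - X s| ≤ (r - s : ℕ) := by
    intro s r hsr
    obtain ⟨l, rfl⟩ : ∃ l, r = s + l := ⟨r - s, by omega⟩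
    have h1 := (path_le (W.drop s) l).1
    rw [hX, hX, path_drop, Nat.add_sub_cancel_left]
    push_cast
    rw [add_sub_cancel_left]
    exact_mod_cast h1
  have hby : ∀ s, |Y (s + 1) - Y s| ≤ 1 := by
    intro s
    have h1 := (step_le W s).2
    rw [hY, hY]
    exact_mod_cast h1
  rw [hFa, ← htk, hsplit, ← Finset.sum_sub_distrib]
  refine (Finset.abs_sum_le_sum_abs _ _).trans ?_
  have hblock : ∀ i ∈ range k, |∑ s ∈ Ico (t i) (t (i + 1)), X s * (Y (s + 1) - Y s) -
      (X (t i) + X (t (i + 1))) / 2 * (Y (t (i + 1)) - Y (t i))| ≤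
      ((t (i + 1) : ℝ) - t i) * m := by
    intro i _
    rw [hdY, Finset.mul_sum, ← Finset.sum_sub_distrib]
    refine (Finset.abs_sum_le_sum_abs _ _).trans ?_
    have h1 : ∀ s ∈ Ico (t i) (t (i + 1)), |X s * (Y (s + 1) - Y s) -
        (X (t i) + X (t (i + 1))) / 2 * (Y (s + 1) - Y s)| ≤ (m : ℝ) := by
      intro s hs
      rw [Finset.mem_Ico] at hs
      rw [← sub_mul, abs_mul]
      have g1 := hbx (t i) s hs.1
      have g2 := hbx s (t (i + 1)) hs.2.le
      have g3 : t (i + 1) - t i ≤ m := by rw [ht]; exact tt_diff _ _ _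
      have g4 : (((s - t i : ℕ)) : ℝ) ≤ m := by exact_mod_cast (by omega : s - t i ≤ m)
      have g5 : (((t (i + 1) - s : ℕ)) : ℝ) ≤ m := by
        exact_mod_cast (by omega : t (i + 1) - s ≤ m)
      have g6 : |X s - (X (t i) + X (t (i + 1))) / 2| ≤ m := by
        rw [abs_le] at g1 g2 ⊢
        constructor <;> linarith
      have g7 := hby s
      have g8 := abs_nonneg (Y (s + 1) - Y s)
      have g9 : (0 : ℝ) ≤ m := Nat.cast_nonneg _
      nlinarith
    refine (Finset.sum_le_sum h1).trans (le_of_eq ?_)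
    rw [Finset.sum_const, Nat.card_Ico, nsmul_eq_mul, Nat.cast_sub (htm (Nat.le_succ i))]
  refine (Finset.sum_le_sum hblock).trans (le_of_eq ?_)
  rw [← Finset.sum_mul, Finset.sum_range_sub (fun i => (t i : ℝ)), ht0]
  simp

/-- the admissible increments -/
noncomputable def DS (n k m : ℕ) (S : ℤ) : Finset (Fin k → ℤ × ℤ) := by
  classical
  exact (Fintype.piFinset fun _ : Fin k =>
    Icc (-((2 * n : ℕ) : ℤ)) ((2 * n : ℕ) : ℤ) ×ˢ Icc (-((2 * n : ℕ) : ℤ)) ((2 * n : ℕ) : ℤ)).filter
    (fun D => 8 * (S - 2 * n * m) ≤ ∑ i, ∑ j, max (|(D i).1| * |(D j).2|) (|(D j).1| * |(D i).2|))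

theorem LA_le_sum {n k m : ℕ} (hn : 1 ≤ n) (hk : 2 * n ≤ k * m) (hm : m ≤ 2 * n - 1) (S : ℤ) :
    (LA (2 * n) S).ncard ≤ ∑ p ∈ range (2 * n) ×ˢ DS n k m S,
      ∏ i : Fin k, a (tt (2 * n) m (i + 1) - tt (2 * n) m i) (p.2 i).1 (p.2 i).2 := by
  classical
  have : NeZero (2 * n) := ⟨by omega⟩
  rw [Set.ncard_eq_toFinset_card _ (LA_fin (by omega) S)]
  unfold a
  simp only [← Fintype.card_piFinset]
  rw [← Finset.card_sigma]
  apply card_le_of_decode (fun q : (_ : ℕ × (Fin k → ℤ × ℤ)) × (Fin k → List St) =>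
    fun r : ZMod (2 * n) =>
      H981.path ((List.range k).map fun i => if h : i < k then q.2 ⟨i, h⟩ else []).flatten
        (r - (q.1.1 : ZMod (2 * n))).val -
      H981.path ((List.range k).map fun i => if h : i < k then q.2 ⟨i, h⟩ else []).flatten
        (0 - (q.1.1 : ZMod (2 * n))).val)
  intro f hf
  rw [Set.Finite.mem_toFinset] at hf
  obtain ⟨hf, hS⟩ := hf
  obtain ⟨j, hj⟩ := Finite.exists_max (fun i : ZMod (2 * n) => (f i).1)
  obtain ⟨W, hWl, hp, hs⟩ := closed_word (by omega) (loop_shift hf j)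
  obtain ⟨t, ht⟩ : ∃ t, t = tt (2 * n) m := ⟨_, rfl⟩
  have htm : Monotone t := ht ▸ tt_mono _ _
  have ht0 : t 0 = 0 := by rw [ht]; exact tt_zero _ _
  have htk : t k = 2 * n := by rw [ht]; exact tt_end hk
  have htl : ∀ i, t i ≤ 2 * n := fun i => by rw [ht]; exact tt_le _ _ _
  have hblocks := flatten_blocks W t htm ht0 k
  rw [htk, ← hWl, List.take_length] at hblocks
  have hp1 : ∀ i ≤ 2 * n, (H981.path W i).1 = (f ((i : ZMod (2 * n)) + j)).1 - (f j).1 := by
    intro i hi; rw [hp i hi]; rfl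
  have hp2 : ∀ i ≤ 2 * n, (H981.path W i).2 = (f ((i : ZMod (2 * n)) + j)).2 - (f j).2 := by
    intro i hi; rw [hp i hi]; rfl
  -- the area
  have hFa : Fa W = ∑ r ∈ range (2 * n), (f (r : ZMod (2 * n))).1 *
      ((f ((r : ZMod (2 * n)) + 1)).2 - (f (r : ZMod (2 * n))).2) := by
    rw [sum_zmod (fun r => (f r).1 * ((f (r + 1)).2 - (f r).2)), ← area_shift f j,
      ← sum_zmod (fun i => ((f (i + j)).1 - (f j).1) * ((f (i + 1 + j)).2 - (f (i + j)).2))]
    unfold Fa
    rw [hWl]
    apply Finset.sum_congr rfl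
    intro r hr
    rw [Finset.mem_range] at hr
    rw [hp1 r hr.le, hp2 (r + 1) (by omega), hp2 r hr.le]
    push_cast
    ring
  rw [← hFa] at hS
  -- the increments
  obtain ⟨b, hb⟩ : ∃ b : Fin k → List St, b = fun i : Fin k =>
    (W.drop (t i)).take (t (i + 1) - t i) := ⟨_, rfl⟩
  have hblen : ∀ i : Fin k, (b i).length = t (i + 1) - t i := by
    intro i
    rw [hb]
    simp only
    rw [List.length_take, List.length_drop, hWl]
    have h1 := htl (i + 1)
    omega
  have hbd : ∀ i : Fin k, dx (b i) = (H981.path W (t (i + 1))).1 - (H981.path W (t i)).1 ∧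
      dy (b i) = (H981.path W (t (i + 1))).2 - (H981.path W (t i)).2 := by
    intro i
    have h1 := path_drop W (t i) (t (i + 1) - t i)
    have h2 := htm (Nat.le_succ (i : ℕ))
    simp only [Nat.succ_eq_add_one] at h2
    rw [show t i + (t (i + 1) - t i) = t (i + 1) by omega] at h1
    have h3 : H981.path (W.drop (t i)) (t (i + 1) - t i) = (dx (b i), dy (b i)) := by
      rw [hb]; rfl
    rw [h3] at h1
    rw [h1]
    constructor
    · simp only; ring
    · simp only; ring
  have hdec : ((List.range k).map fun i => if h : i < k then b ⟨i, h⟩ else []).flatten = W := by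
    rw [← hblocks]
    congr 1
    apply List.map_congr_left
    intro i hi
    rw [List.mem_range] at hi
    rw [dif_pos hi, hb]
  refine ⟨⟨(j.val, fun i => (dx (b i), dy (b i))), b⟩, ?_, ?_⟩
  · rw [Finset.mem_sigma]
    simp only [Finset.mem_product, Finset.mem_range]
    refine ⟨⟨ZMod.val_lt j, ?_⟩, ?_⟩
    · unfold DS
      rw [Finset.mem_filter, Fintype.mem_piFinset]
      constructor
      · intro i
        rw [Finset.mem_product, Finset.mem_Icc, Finset.mem_Icc]
        have g1 := abs_add_abs_le (b i)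
        have g2 := abs_nonneg (dx (b i))
        have g3 := abs_nonneg (dy (b i))
        have g4 := htl (i + 1)
        rw [hblen] at g1
        show (-(((2 * n : ℕ)) : ℤ) ≤ dx (b i) ∧ dx (b i) ≤ ((2 * n : ℕ) : ℤ)) ∧
          (-(((2 * n : ℕ)) : ℤ) ≤ dy (b i) ∧ dy (b i) ≤ ((2 * n : ℕ) : ℤ))
        exact ⟨abs_le.1 (by omega), abs_le.1 (by omega)⟩
      · -- the isoperimetric inequality
        have g1 := area_marks W m k (by rw [hWl]; exact hk)
        have g2 := iso_abs (q := k) (px := fun i => ((H981.path W (t i)).1 : ℝ))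
          (py := fun i => ((H981.path W (t i)).2 : ℝ))
          (by
            rw [htk, ht0, hp1 (2 * n) le_rfl, hp1 0 (Nat.zero_le _)]
            simp)
          (by
            rw [htk, ht0, hp2 (2 * n) le_rfl, hp2 0 (Nat.zero_le _)]
            simp)
          (by
            intro i _
            rw [ht0, hp1 0 (Nat.zero_le _), hp1 (t i) (htl i)]
            have h5 := hj ((t i : ZMod (2 * n)) + j)
            have h6 : (f ((t i : ZMod (2 * n)) + j)).1 - (f j).1 ≤
                (f (((0 : ℕ) : ZMod (2 * n)) + j)).1 - (f j).1 := by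
              rw [Nat.cast_zero, zero_add]
              omega
            exact_mod_cast h6)
        rw [hWl, ← ht] at g1
        obtain ⟨PP, hPP⟩ : ∃ PP : ℝ, PP = ∑ i ∈ range k, (((H981.path W (t i)).1 : ℝ) +
          ((H981.path W (t (i + 1))).1 : ℝ)) / 2 *
          (((H981.path W (t (i + 1))).2 : ℝ) - ((H981.path W (t i)).2 : ℝ)) := ⟨_, rfl⟩
        rw [← hPP] at g1 g2
        have g3 : (∑ i ∈ range k, ∑ j ∈ range k,
            max (|((H981.path W (t (i + 1))).1 : ℝ) - ((H981.path W (t i)).1 : ℝ)| *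
              |((H981.path W (t (j + 1))).2 : ℝ) - ((H981.path W (t j)).2 : ℝ)|)
            (|((H981.path W (t (j + 1))).1 : ℝ) - ((H981.path W (t j)).1 : ℝ)| *
              |((H981.path W (t (i + 1))).2 : ℝ) - ((H981.path W (t i)).2 : ℝ)|)) =
            ((∑ i : Fin k, ∑ j : Fin k, max (|dx (b i)| * |dy (b j)|) (|dx (b j)| * |dy (b i)|) : ℤ)
              : ℝ) := by
          rw [Finset.sum_range]
          push_cast
          apply Finset.sum_congr rfl
          intro i _
          rw [Finset.sum_range]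
          apply Finset.sum_congr rfl
          intro j _
          rw [(hbd i).1, (hbd i).2, (hbd j).1, (hbd j).2]
          push_cast
          rfl
        rw [g3] at g2
        obtain ⟨Z, hZ⟩ : ∃ Z : ℤ, Z = ∑ i : Fin k, ∑ j : Fin k,
            max (|dx (b i)| * |dy (b j)|) (|dx (b j)| * |dy (b i)|) := ⟨_, rfl⟩
        rw [← hZ] at g2
        have g4 : (S : ℝ) ≤ |(Fa W : ℝ)| := by
          rw [← Int.cast_abs]
          exact_mod_cast hS
        have g5 := abs_sub_abs_le_abs_sub (Fa W : ℝ) PP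
        have g6 : (8 : ℝ) * (S - 2 * n * m) ≤ (Z : ℝ) := by
          push_cast at g1
          linarith
        have g7 : 8 * (S - 2 * n * m) ≤ Z := by exact_mod_cast g6
        rw [hZ] at g7
        exact g7
    · rw [Fintype.mem_piFinset]
      intro i
      rw [mem_fs, ← ht]
      refine ⟨⟨?_, rfl, rfl⟩, hblen i⟩
      rw [hb]
      apply hs
      have := tt_diff (2 * n) m i
      rw [← ht] at this
      omega
  · funext i
    simp only
    rw [hdec, ZMod.natCast_zmod_val, hp _ (ZMod.val_lt _).le, hp _ (ZMod.val_lt _).le,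
      ZMod.natCast_zmod_val, ZMod.natCast_zmod_val, sub_add_cancel, sub_add_cancel, hf.1,
      sub_sub_sub_cancel_right]
    exact sub_zero _

end Pool.Agent.U262.AR
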