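import Pool.Agent.U262.AR.W6

/-!
The asymptotic lower bound for the large deviations of the area.
-/

set_option autoImplicit false

namespace Pool.Agent.U262.AR

open Pool.Agent.TH795.EP Pool.Agent.TH795.EP2 Pool.Agent.TH795.SE2 Pool.Agent.TH262.SawL H981 Finset
open Pool.Agent.Y981.L2 Pool.Agent.U262.SW
open Filter Topology

theorem small_log {A B ε : ℝ} (hε : 0 < ε) :
    ∀ᶠ n : ℕ in atTop, A * Real.log n ^ 2 + B ≤ ε * n := by
  have g1 : (fun m : ℕ => A * Real.log m ^ 2 + B) =o[atTop] (fun m : ℕ => (m : ℝ)) := by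
    apply Asymptotics.IsLittleO.add
    · apply Asymptotics.IsLittleO.const_mul_left
      exact (Real.isLittleO_pow_log_id_atTop (n := 2)).comp_tendsto tendsto_natCast_atTop_atTop
    · exact Asymptotics.isLittleO_const_left.2 (Or.inr
        (tendsto_norm_atTop_atTop.comp tendsto_natCast_atTop_atTop))
  filter_upwards [g1.bound hε] with m hm
  have g3 := le_abs_self (A * Real.log m ^ 2 + B)
  rw [Real.norm_eq_abs, Real.norm_eq_abs, abs_of_nonneg (Nat.cast_nonneg m : (0 : ℝ) ≤ m)] at hm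
  linarith

theorem ln_up : ∃ K : ℝ, 0 ≤ K ∧ ∀ n : ℕ, 2 ≤ n → (ln n : ℝ) ≤ q n K * mu ^ (2 * n) := by
  obtain ⟨K6, hK6, h6⟩ := norm_up
  obtain ⟨K4, hK4, h4, -⟩ := exists_K
  refine ⟨K6 + 4 * K4, by positivity, ?_⟩
  intro n hn
  have g1 := h6 n hn 0 (Nat.zero_le _)
  rw [c_zero, Nat.cast_one, one_mul, Nat.sub_zero] at g1
  have g2 := h4 (2 * n) (by omega) (2 * n) le_rfl
  have g3 := q_two hn hK4
  have hmu := mu_pos
  have p1 := q_pos n K6
  calc (ln n : ℝ) ≤ q n K6 * c (2 * n) := g1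
    _ ≤ q n K6 * (mu ^ (2 * n) * q (2 * n) K4) := by gcongr
    _ ≤ q n K6 * (mu ^ (2 * n) * q n (4 * K4)) := by gcongr
    _ = (q n K6 * q n (4 * K4)) * mu ^ (2 * n) := by ring
    _ = _ := by rw [q_mul]

/-- the area functional -/
noncomputable def ar2 {k : ℕ} (p x y : Fin k → ℝ) : ℝ :=
  1 / 2 * ∑ i, ∑ j, p i * (p j * max (x i * y j) (x j * y i))

theorem area_lower {k : ℕ} (p x y : Fin k → ℝ) (hp : ∀ i, 0 ≤ p i) (hs : ∑ i, p i = 1)
    (hx : ∀ i, 0 ≤ x i) (hy : ∀ i, 0 ≤ y i) (hxy : ∀ i, x i + y i ≤ 1) {a : ℝ} (ha0 : 0 ≤ a)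
    (ha : a < ar2 p x y) {ε : ℝ} (hε : 0 < ε) : ∀ᶠ n : ℕ in atTop,
      Real.exp (-(2 * n * (∑ i, p i * Rate (x i, y i) + ε))) * ln n ≤
        ((LA (2 * n) ⌈a * (n : ℝ) ^ 2⌉).ncard : ℝ) := by
  obtain ⟨C, hC, hpb⟩ := pb_low
  obtain ⟨K, hK, hln⟩ := ln_up
  obtain ⟨A, hA⟩ : ∃ A, A = ar2 p x y := ⟨_, rfl⟩
  rw [← hA] at ha
  have hA0 : 0 < A := by linarith
  have hmu := mu_pos
  have hmu1 : 0 ≤ Real.log mu := Real.log_nonneg one_le_mu
  -- the choice of δ
  obtain ⟨δ, hδ, hδ1, hδ2, hδ3⟩ : ∃ δ : ℝ, 0 < δ ∧ δ ≤ 1 / 2 ∧ C * δ ≤ ε / 2 ∧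
      a < (1 - 2 * δ) ^ 2 * A := by
    obtain ⟨δ, hd⟩ : ∃ δ, δ = min (1 / 2) (min (ε / (2 * (C + 1))) ((A - a) / (8 * (A + 1)))) :=
      ⟨_, rfl⟩
    have h1 : δ ≤ 1 / 2 := hd ▸ min_le_left _ _
    have h2 : δ ≤ ε / (2 * (C + 1)) := hd ▸ (min_le_right _ _).trans (min_le_left _ _)
    have h3 : δ ≤ (A - a) / (8 * (A + 1)) := hd ▸ (min_le_right _ _).trans (min_le_right _ _)
    have h0 : 0 < δ := by
      rw [hd]
      apply lt_min (by norm_num)
      apply lt_min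
      · positivity
      · apply div_pos (by linarith) (by positivity)
    refine ⟨δ, h0, h1, ?_, ?_⟩
    · rw [le_div_iff₀ (by positivity)] at h2
      nlinarith
    · rw [le_div_iff₀ (by positivity)] at h3
      nlinarith
  obtain ⟨M, hM⟩ := hpb δ hδ hδ1
  obtain ⟨m, hm⟩ : ∃ m, m = max M 2 := ⟨_, rfl⟩
  have hmM : M ≤ m := hm ▸ le_max_left _ _
  have hm2 : 2 ≤ m := hm ▸ le_max_right _ _
  choose X Y hX hY hXY hX2 hY2 hP using fun i => hM m hmM (x i) (y i) (hx i) (hy i) (hxy i)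
  have hm0 : (0 : ℝ) < m := by exact_mod_cast (by omega : 0 < m)
  have hm2r : (2 : ℝ) ≤ m := by exact_mod_cast hm2
  -- the constants
  obtain ⟨c1, hc1⟩ : ∃ c1, c1 = (1 - 2 * δ) ^ 2 * A := ⟨_, rfl⟩
  rw [← hc1] at hδ3
  obtain ⟨c2, hc2⟩ : ∃ c2 : ℝ, c2 = (4 * k + 6) * m / 2 := ⟨_, rfl⟩
  obtain ⟨c3, hc3⟩ : ∃ c3 : ℝ, c3 = (16 * m + 4 * m * k) * Real.log mu := ⟨_, rfl⟩
  have e1 : ∀ᶠ n : ℕ in atTop, (16 * m * c1 + c2) / (c1 - a) ≤ n :=
    tendsto_natCast_atTop_atTop.eventually_ge_atTop _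
  have e2 := small_log (A := K + 24) (B := c3) hε
  filter_upwards [e1, e2, eventually_ge_atTop (8 * m + 2)] with n h1 h2 hn
  have hn2 : 2 ≤ n := by omega
  have hn0 : (0 : ℝ) < n := by exact_mod_cast (by omega : 0 < n)
  have hn8 : (8 : ℝ) * m + 2 ≤ n := by exact_mod_cast hn
  -- the multiplicities
  obtain ⟨T, hT⟩ : ∃ T : ℝ, T = n / (2 * m) - 4 := ⟨_, rfl⟩
  have hmT : m * T = n / 2 - 4 * m := by rw [hT]; field_simp
  have hT0 : 0 ≤ T := by
    have : 0 ≤ m * T := by rw [hmT]; linarith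
    by_contra hcon
    push Not at hcon
    have := mul_neg_of_pos_of_neg hm0 hcon
    linarith
  obtain ⟨N, hN⟩ : ∃ N : Fin k → ℕ, N = fun i => ⌊p i * T⌋₊ := ⟨_, rfl⟩
  have hN1 : ∀ i, (N i : ℝ) ≤ p i * T := fun i => by
    rw [hN]; exact Nat.floor_le (mul_nonneg (hp i) hT0)
  have hN2 : ∀ i, p i * T - 1 ≤ (N i : ℝ) := fun i => by
    rw [hN]
    have := Nat.lt_floor_add_one (p i * T)
    simp only
    linarith
  obtain ⟨SN, hSN⟩ : ∃ SN, SN = ∑ i, N i := ⟨_, rfl⟩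
  have hSNr : (SN : ℝ) = ∑ i, (N i : ℝ) := by rw [hSN]; push_cast; rfl
  have hSN1 : (SN : ℝ) ≤ T := by
    rw [hSNr]
    calc ∑ i, (N i : ℝ) ≤ ∑ i, p i * T := Finset.sum_le_sum fun i _ => hN1 i
      _ = T := by rw [← Finset.sum_mul, hs, one_mul]
  have hSN2 : T - k ≤ (SN : ℝ) := by
    rw [hSNr]
    calc T - k = ∑ i : Fin k, (p i * T - 1) := by
          rw [Finset.sum_sub_distrib, ← Finset.sum_mul, hs, one_mul]; simp
      _ ≤ _ := Finset.sum_le_sum fun i _ => hN2 i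
  have hfit : m * (∑ i, N i) + 2 * (m + 1) ≤ n / 2 := by
    rw [← hSN, Nat.le_div_iff_mul_le (by norm_num)]
    have : ((m * SN + 2 * (m + 1)) * 2 : ℝ) ≤ n := by
      have g1 := mul_le_mul_of_nonneg_left hSN1 hm0.le
      rw [hmT] at g1
      nlinarith
    exact_mod_cast this
  have hmain := la_pieces N (fun i => (X i, Y i)) (fun i => ⟨hX i, hY i, hXY i⟩) hfit
  simp only at hmain
  rw [← hSN] at hmain
  obtain ⟨S', hS'⟩ : ∃ S' : ℤ, S' = 2 * (∑ i, ∑ j, (N i : ℤ) * ((N j : ℤ) *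
    max (X i * Y j) (X j * Y i))) - 6 * (SN : ℤ) * (m : ℤ) ^ 2 := ⟨_, rfl⟩
  rw [← hS'] at hmain
  -- the area
  have harea : a * (n : ℝ) ^ 2 ≤ S' := by
    rw [hS']
    push_cast
    have hterm : ∀ i j, (1 - 2 * δ) ^ 2 * m ^ 2 * (T ^ 2 * (p i * (p j * max (x i * y j) (x j * y i))) -
        T * (p i + p j)) ≤ (N i : ℝ) * ((N j : ℝ) * max ((X i : ℝ) * Y j) ((X j : ℝ) * Y i)) := by
      intro i j
      obtain ⟨W, hW⟩ : ∃ W, W = max (x i * y j) (x j * y i) := ⟨_, rfl⟩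
      have hx1 : ∀ i, x i ≤ 1 := fun i => by have := hxy i; have := hy i; linarith
      have hy1 : ∀ i, y i ≤ 1 := fun i => by have := hxy i; have := hx i; linarith
      have hW0 : 0 ≤ W := by rw [hW]; exact le_max_of_le_left (mul_nonneg (hx i) (hy j))
      have hW1 : W ≤ 1 := by
        rw [hW]
        exact max_le (mul_le_one₀ (hx1 i) (hy j) (hy1 j)) (mul_le_one₀ (hx1 j) (hy i) (hy1 i))
      have hd : 0 ≤ 1 - 2 * δ := by linarith
      have hXi : ∀ i, (0 : ℝ) ≤ X i := fun i => by have := hX i; exact_mod_cast (by omega : 0 ≤ X i)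
      have g1 : (1 - 2 * δ) ^ 2 * m ^ 2 * W ≤ max ((X i : ℝ) * Y j) ((X j : ℝ) * Y i) := by
        have g2 : ∀ i j, (1 - 2 * δ) ^ 2 * m ^ 2 * (x i * y j) ≤ (X i : ℝ) * Y j := by
          intro i j
          have := mul_le_mul (hX2 i) (hY2 j) (by have := hy j; positivity) (hXi i)
          calc _ = (1 - 2 * δ) * (m * x i) * ((1 - 2 * δ) * (m * y j)) := by ring
            _ ≤ _ := this
        rw [hW, mul_max_of_nonneg _ _ (by positivity)]
        exact max_le_max (g2 i j) (g2 j i)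
      have g3 : T ^ 2 * (p i * p j) - T * (p i + p j) ≤ (N i : ℝ) * N j := by
        have a1 := hN1 i
        have a2 := hN1 j
        have a3 := hN2 i
        have a4 := hN2 j
        have a5 : (0 : ℝ) ≤ N j := Nat.cast_nonneg _
        have a6 : 0 ≤ p i * T := mul_nonneg (hp i) hT0
        nlinarith [mul_nonneg a6 (by linarith : (0 : ℝ) ≤ 1 - (p j * T - N j)),
          mul_nonneg a5 (by linarith : (0 : ℝ) ≤ 1 - (p i * T - N i))]
      have g4 : (T ^ 2 * (p i * (p j * W)) - T * (p i + p j)) ≤ ((N i : ℝ) * N j) * W := by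
        have a1 : T * (p i + p j) * W ≤ T * (p i + p j) := by
          have : 0 ≤ T * (p i + p j) := mul_nonneg hT0 (add_nonneg (hp i) (hp j))
          nlinarith
        have a2 := mul_le_mul_of_nonneg_right g3 hW0
        nlinarith
      rw [← hW]
      calc (1 - 2 * δ) ^ 2 * m ^ 2 * (T ^ 2 * (p i * (p j * W)) - T * (p i + p j))
          ≤ (1 - 2 * δ) ^ 2 * m ^ 2 * (((N i : ℝ) * N j) * W) :=
            mul_le_mul_of_nonneg_left g4 (by positivity)
        _ = (N i : ℝ) * (N j * ((1 - 2 * δ) ^ 2 * m ^ 2 * W)) := by ring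
        _ ≤ _ := by gcongr
    have hsum : (1 - 2 * δ) ^ 2 * m ^ 2 * (T ^ 2 * (2 * A) - T * (2 * k)) ≤
        ∑ i, ∑ j, (N i : ℝ) * ((N j : ℝ) * max ((X i : ℝ) * Y j) ((X j : ℝ) * Y i)) := by
      refine le_trans (le_of_eq ?_) (Finset.sum_le_sum fun i _ => Finset.sum_le_sum fun j _ =>
        hterm i j)
      have s1 : ∑ i, ∑ j, p i * (p j * max (x i * y j) (x j * y i)) = 2 * A := by
        rw [hA]; unfold ar2; ring
      have s2 : ∑ i : Fin k, ∑ j : Fin k, (p i + p j) = 2 * k := by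
        simp only [Finset.sum_add_distrib, Finset.sum_const, Finset.card_univ, Fintype.card_fin,
          nsmul_eq_mul]
        rw [← Finset.mul_sum, hs]
        ring
      rw [← s1, ← s2]
      simp only [Finset.mul_sum, ← Finset.sum_sub_distrib, mul_sub]
    have hd2 : (1 - 2 * δ) ^ 2 ≤ 1 := by nlinarith
    have hd0 : 0 ≤ (1 - 2 * δ) ^ 2 := sq_nonneg _
    have s3 : 4 * (m : ℝ) ^ 2 * T ^ 2 = (n - 8 * m) ^ 2 := by
      have : 4 * (m : ℝ) ^ 2 * T ^ 2 = (2 * (m * T)) ^ 2 := by ring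
      rw [this, hmT]; ring
    have s4 : (m : ℝ) ^ 2 * T ≤ m * (n / 2) := by
      have : (m : ℝ) ^ 2 * T = m * (m * T) := by ring
      rw [this, hmT]
      nlinarith
    have s5 : (c1 - a) * n ≥ 16 * m * c1 + c2 := by
      rw [ge_iff_le, div_le_iff₀ (by linarith)] at *
      linarith
    have s6 : 2 * ((1 - 2 * δ) ^ 2 * m ^ 2 * (T ^ 2 * (2 * A) - T * (2 * k))) ≥
        c1 * (n - 8 * m) ^ 2 - 4 * k * (m * (n / 2)) := by
      have a1 : 2 * ((1 - 2 * δ) ^ 2 * m ^ 2 * (T ^ 2 * (2 * A) - T * (2 * k))) =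
          c1 * (4 * m ^ 2 * T ^ 2) - (1 - 2 * δ) ^ 2 * (4 * k * (m ^ 2 * T)) := by
        rw [hc1]; ring
      rw [a1, s3]
      have a2 : (1 - 2 * δ) ^ 2 * (4 * k * (m ^ 2 * T)) ≤ 1 * (4 * k * (m * (n / 2))) := by
        apply mul_le_mul hd2 _ (by positivity) zero_le_one
        exact mul_le_mul_of_nonneg_left s4 (by positivity)
      linarith
    have s7 : 6 * (SN : ℝ) * m ^ 2 ≤ 6 * (m * (n / 2)) := by
      have : (SN : ℝ) * m ^ 2 ≤ T * m ^ 2 := mul_le_mul_of_nonneg_right hSN1 (by positivity)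
      nlinarith
    have s8 : c2 * n = 4 * k * (m * (n / 2)) + 6 * (m * (n / 2)) := by rw [hc2]; ring
    have hc10 : 0 < c1 := by linarith
    have s9 := mul_le_mul_of_nonneg_right s5 hn0.le
    nlinarith [mul_pos hc10 (mul_pos hm0 hm0)]
  have hceil : ⌈a * (n : ℝ) ^ 2⌉ ≤ S' := Int.ceil_le.2 harea
  have hLA : ((LA (2 * n) S').ncard : ℝ) ≤ (LA (2 * n) ⌈a * (n : ℝ) ^ 2⌉).ncard := by
    have hsub : LA (2 * n) S' ⊆ LA (2 * n) ⌈a * (n : ℝ) ^ 2⌉ := fun f hf => ⟨hf.1, hceil.trans hf.2⟩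
    exact_mod_cast Set.ncard_le_ncard hsub (LA_fin (by omega) _)
  refine le_trans ?_ hLA
  -- the count
  have hcnt : Real.exp (-(2 * n * (∑ i, p i * Rate (x i, y i) + C * δ)) - c3) * mu ^ (2 * n) ≤
      (∏ i, (pb m (X i) (Y i) : ℝ) ^ N i) ^ 4 := by
    have g1 : ∏ i, (Real.exp (-(m * (Rate (x i, y i) + C * δ))) * mu ^ m) ^ N i ≤
        ∏ i, (pb m (X i) (Y i) : ℝ) ^ N i := by
      apply Finset.prod_le_prod
      · intro i _; positivity
      · intro i _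
        exact pow_le_pow_left₀ (by positivity) (hP i) _
    have g2 : ∏ i, (Real.exp (-(m * (Rate (x i, y i) + C * δ))) * mu ^ m) ^ N i =
        Real.exp (-(m * ∑ i, (N i : ℝ) * (Rate (x i, y i) + C * δ)) + m * SN * Real.log mu) := by
      have a1 : ∀ i, (Real.exp (-(m * (Rate (x i, y i) + C * δ))) * mu ^ m) ^ N i =
          Real.exp ((N i : ℝ) * (-(m * (Rate (x i, y i) + C * δ)) + m * Real.log mu)) := by
        intro i
        rw [Real.exp_nat_mul, Real.exp_add, Real.exp_nat_mul, Real.exp_log hmu]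
      simp only [a1]
      rw [← Real.exp_sum]
      congr 1
      rw [hSNr, Finset.mul_sum, ← Finset.sum_neg_distrib, Finset.mul_sum, Finset.sum_mul,
        ← Finset.sum_add_distrib]
      apply Finset.sum_congr rfl
      intro i _
      ring
    rw [g2] at g1
    refine le_trans ?_ (pow_le_pow_left₀ (Real.exp_pos _).le g1 4)
    have e3 : mu ^ (2 * n) = Real.exp ((2 * n : ℕ) * Real.log mu) := by
      rw [Real.exp_nat_mul, Real.exp_log hmu]
    rw [e3, ← Real.exp_add, ← Real.exp_nat_mul]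
    apply Real.exp_le_exp.2
    push_cast
    have hRn : ∀ i, 0 ≤ Rate (x i, y i) := by
      intro i
      apply rate_nonneg'
      show |x i| + |y i| ≤ 1
      rw [abs_of_nonneg (hx i), abs_of_nonneg (hy i)]
      exact hxy i
    have hCδ : 0 ≤ C * δ := mul_nonneg hC hδ.le
    have g3 : ∑ i, (N i : ℝ) * (Rate (x i, y i) + C * δ) ≤
        T * (∑ i, p i * Rate (x i, y i) + C * δ) := by
      have a1 : T * (∑ i, p i * Rate (x i, y i) + C * δ) =
          ∑ i, (p i * T) * (Rate (x i, y i) + C * δ) := by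
        have a2 : ∑ i, (p i * T) * (Rate (x i, y i) + C * δ) =
            T * ∑ i, p i * Rate (x i, y i) + T * (C * δ) * ∑ i, p i := by
          rw [Finset.mul_sum, Finset.mul_sum, ← Finset.sum_add_distrib]
          apply Finset.sum_congr rfl
          intro i _
          ring
        rw [a2, hs]
        ring
      rw [a1]
      apply Finset.sum_le_sum
      intro i _
      exact mul_le_mul_of_nonneg_right (hN1 i) (add_nonneg (hRn i) hCδ)
    have hcost : 0 ≤ ∑ i, p i * Rate (x i, y i) + C * δ :=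
      add_nonneg (Finset.sum_nonneg fun i _ => mul_nonneg (hp i) (hRn i)) hCδ
    have g4 : m * ∑ i, (N i : ℝ) * (Rate (x i, y i) + C * δ) ≤
        (n / 2) * (∑ i, p i * Rate (x i, y i) + C * δ) := by
      have a1 := mul_le_mul_of_nonneg_left g3 hm0.le
      rw [← mul_assoc, hmT] at a1
      have a2 : (n / 2 - 4 * m) * (∑ i, p i * Rate (x i, y i) + C * δ) ≤
          (n / 2) * (∑ i, p i * Rate (x i, y i) + C * δ) :=
        mul_le_mul_of_nonneg_right (by linarith) hcost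
      linarith
    have g5 : (n / 2 - 4 * m - m * k) * Real.log mu ≤ m * SN * Real.log mu := by
      apply mul_le_mul_of_nonneg_right _ hmu1
      have a1 := mul_le_mul_of_nonneg_left hSN2 hm0.le
      rw [mul_sub, hmT] at a1
      linarith
    rw [hc3]
    nlinarith
  have hmain' : (∏ i, (pb m (X i) (Y i) : ℝ) ^ N i) ^ 4 ≤
      ((n / 2 + 1 : ℕ) : ℝ) ^ 8 * (LA (2 * n) S').ncard := by exact_mod_cast hmain
  have hq8 : ((n / 2 + 1 : ℕ) : ℝ) ^ 8 ≤ q n 24 := by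
    have h5 := pow_le_q hn2 8
    have h6 : q n (3 * (8 : ℕ)) = q n 24 := by norm_num
    rw [h6] at h5
    refine le_trans (pow_le_pow_left₀ (Nat.cast_nonneg _) ?_ 8) h5
    exact_mod_cast (by omega : n / 2 + 1 ≤ n)
  have hN0 : (0 : ℝ) ≤ (LA (2 * n) S').ncard := Nat.cast_nonneg _
  have hfin : Real.exp (-(2 * n * (∑ i, p i * Rate (x i, y i) + C * δ)) - c3) * mu ^ (2 * n) ≤
      q n 24 * (LA (2 * n) S').ncard :=
    hcnt.trans (hmain'.trans (mul_le_mul_of_nonneg_right hq8 hN0))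
  have hln' := hln n hn2
  have e4 : Real.exp (-(2 * n * (∑ i, p i * Rate (x i, y i) + ε))) * ln n ≤
      q n (-24) * (Real.exp (-(2 * n * (∑ i, p i * Rate (x i, y i) + C * δ)) - c3) * mu ^ (2 * n)) := by
    refine (mul_le_mul_of_nonneg_left hln' (Real.exp_pos _).le).trans ?_
    rw [← mul_assoc, ← mul_assoc]
    apply mul_le_mul_of_nonneg_right _ (by positivity)
    unfold q
    rw [← Real.exp_add, ← Real.exp_add]
    apply Real.exp_le_exp.2
    have : 2 * n * ε ≥ 2 * n * (C * δ) + ε * n := by nlinarith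
    nlinarith
  refine e4.trans ((mul_le_mul_of_nonneg_left hfin (q_pos _ _).le).trans (le_of_eq ?_))
  rw [← mul_assoc, q_mul, neg_add_cancel, q_zero, one_mul]

end Pool.Agent.U262.AR
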