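import Pool.Agent.U262.AR.U1
import Pool.Agent.U262.AR.W7
import Pool.Agent.U262.SW.Rf
import Pool.Agent.U262.SW.Z

/-!
The upper bound for the large deviations of the area.
-/

set_option autoImplicit false

namespace Pool.Agent.U262.AR

open Pool.Agent.TH795.EP Pool.Agent.TH795.EP2 Pool.Agent.TH795.SE2 Pool.Agent.TH262.SawL H981 Finset
open Pool.Agent.Y981.L2 Pool.Agent.U262.SW

/-- the number of the walks with a given displacement, by the rate function -/
theorem block_le : ∃ K : ℝ, 0 ≤ K ∧ ∀ N : ℕ, 2 ≤ N → ∀ m ≤ N, ∀ x y : ℤ, 0 < a m x y →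
    (a m x y : ℝ) ≤ q N K * (mu ^ m * Real.exp (-(m * Rate (|(x : ℝ)| / m, |(y : ℝ)| / m)))) := by
  obtain ⟨K1, hK1, h1⟩ := ldp_words
  obtain ⟨K2, hK2, h2, -⟩ := exists_K
  have hc1 : (1 : ℝ) ≤ c 1 := by
    have := c_pos 1
    exact_mod_cast this
  have hmu := mu_pos
  have hmu1 := one_le_mu
  have hl2 : 0 < Real.log 2 := Real.log_pos (by norm_num)
  obtain ⟨K3, hK3⟩ : ∃ K3, K3 = Real.log (c 1) / Real.log 2 ^ 2 := ⟨_, rfl⟩
  have hK30 : 0 ≤ K3 := by rw [hK3]; exact div_nonneg (Real.log_nonneg hc1) (by positivity)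
  refine ⟨K1 + K2 + K3, by positivity, ?_⟩
  intro N hN m hm x y ha
  have har : (0 : ℝ) < a m x y := by exact_mod_cast ha
  have hlogN : Real.log 2 ≤ Real.log N := Real.log_le_log (by norm_num) (by exact_mod_cast hN)
  obtain ⟨w, -, hwx, hwy, hwl⟩ := exists_of_a ha
  have b1 := abs_add_abs_le w
  have b2 := parity w
  rw [hwx, hwy, hwl] at b1 b2
  rcases Nat.eq_zero_or_pos m with hm0 | hm0
  · rw [hm0] at ha ⊢
    have h3 : (a 0 x y : ℝ) ≤ c 0 := a_le_c 0 x y
    rw [c_zero] at h3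
    simp only [Nat.cast_zero, zero_mul, neg_zero, Real.exp_zero, pow_zero, mul_one]
    refine h3.trans ?_
    rw [Nat.cast_one]
    exact one_le_q hN (by positivity)
  have hm0r : (0 : ℝ) < m := by exact_mod_cast hm0
  have hdia : ((|(x : ℝ)| / m, |(y : ℝ)| / m) : ℝ × ℝ) ∈ Dia := by
    show |(|(x : ℝ)| / m)| + |(|(y : ℝ)| / m)| ≤ 1
    rw [abs_div, abs_div, abs_abs, abs_abs, abs_of_pos hm0r, ← add_div, div_le_one hm0r]
    exact_mod_cast b1
  rcases Nat.lt_or_ge 1 m with hm1 | hm1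
  · have hne : (x, y) ≠ ((0, 0) : ℤ × ℤ) := by
      intro h
      obtain ⟨e1, e2⟩ := Prod.mk.inj h
      rw [e1, e2, a_zero' hm0] at ha
      exact lt_irrefl _ ha
    have g1 := (abs_le.1 (h1 m hm1 x y hne b2 b1)).2
    have g2 : Rate (|(x : ℝ)| / m, |(y : ℝ)| / m) = Rate ((x : ℝ) / m, (y : ℝ) / m) := by
      have := rate_abs (mem_dia (show 1 ≤ m by omega) b1)
      simp only [abs_div, abs_of_pos hm0r] at this
      exact this
    rw [g2]
    have hc := c_pos m
    have g3 : Real.log ((a m x y : ℝ) / c m) ≤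
        K1 * Real.log m ^ 2 + -(m * Rate ((x : ℝ) / m, (y : ℝ) / m)) := by linarith
    have g4 := Real.exp_le_exp.2 g3
    rw [Real.exp_log (by positivity), Real.exp_add, div_le_iff₀ hc] at g4
    have g5 : Real.exp (K1 * Real.log m ^ 2) ≤ q N K1 := by
      unfold q
      apply Real.exp_le_exp.2
      apply mul_le_mul_of_nonneg_left _ hK1
      apply pow_le_pow_left₀ (Real.log_natCast_nonneg _)
      exact Real.log_le_log hm0r (by exact_mod_cast hm)
    have g6 := h2 N hN m hm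
    have hE := Real.exp_pos (-(m * Rate ((x : ℝ) / m, (y : ℝ) / m)))
    calc (a m x y : ℝ) ≤ Real.exp (K1 * Real.log m ^ 2) *
          Real.exp (-(m * Rate ((x : ℝ) / m, (y : ℝ) / m))) * c m := g4
      _ ≤ q N K1 * Real.exp (-(m * Rate ((x : ℝ) / m, (y : ℝ) / m))) * (mu ^ m * q N K2) := by
          apply mul_le_mul (mul_le_mul_of_nonneg_right g5 hE.le) g6 hc.le
          exact mul_nonneg (q_pos _ _).le hE.le
      _ = q N (K1 + K2) * (mu ^ m * Real.exp (-(m * Rate ((x : ℝ) / m, (y : ℝ) / m)))) := by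
          rw [← q_mul]; ring
      _ ≤ _ := by
          apply mul_le_mul_of_nonneg_right (q_mono hN (by linarith))
          positivity
  · have hm1' : m = 1 := by omega
    have g1 : (a m x y : ℝ) ≤ c m := a_le_c m x y
    have g2 : (c 1 : ℝ) ≤ q N K3 := by
      have e1 : (c 1 : ℝ) = Real.exp (K3 * Real.log 2 ^ 2) := by
        rw [hK3, div_mul_cancel₀ _ (by positivity), Real.exp_log (by linarith)]
      rw [e1]
      unfold q
      apply Real.exp_le_exp.2
      apply mul_le_mul_of_nonneg_left _ hK30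
      exact pow_le_pow_left₀ hl2.le hlogN 2
    have g3 : 1 ≤ mu ^ m * Real.exp (-(m * Rate (|(x : ℝ)| / m, |(y : ℝ)| / m))) := by
      have e1 := rate_le hdia
      have e2 : mu ^ m = Real.exp (m * Real.log mu) := by
        rw [mul_comm, Real.exp_mul, Real.exp_log hmu, Real.rpow_natCast]
      rw [e2, ← Real.exp_add]
      apply Real.one_le_exp
      nlinarith
    calc (a m x y : ℝ) ≤ c m := g1
      _ = c 1 := by rw [hm1']
      _ ≤ q N K3 := g2
      _ ≤ q N (K1 + K2 + K3) := q_mono hN (by linarith)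
      _ = q N (K1 + K2 + K3) * 1 := by ring
      _ ≤ _ := mul_le_mul_of_nonneg_left g3 (q_pos _ _).le

/-- the costs of the laws with the area functional at least `s` -/
def CS (s : ℝ) : Set ℝ := {C | ∃ (k : ℕ) (p x y : Fin k → ℝ), (∀ i, 0 ≤ p i) ∧ ∑ i, p i = 1 ∧
  (∀ i, 0 ≤ x i) ∧ (∀ i, 0 ≤ y i) ∧ (∀ i, x i + y i ≤ 1) ∧ s ≤ ar2 p x y ∧
  C = ∑ i, p i * Rate (x i, y i)}

/-- the rate function of the area -/
noncomputable def JJ (s : ℝ) : ℝ := sInf (CS s)

theorem cs_nonneg {s C : ℝ} (h : C ∈ CS s) : 0 ≤ C := by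
  obtain ⟨k, p, x, y, hp, -, hx, hy, hxy, -, rfl⟩ := h
  apply Finset.sum_nonneg
  intro i _
  apply mul_nonneg (hp i)
  apply rate_nonneg'
  show |x i| + |y i| ≤ 1
  rw [abs_of_nonneg (hx i), abs_of_nonneg (hy i)]
  exact hxy i

theorem cs_bdd (s : ℝ) : BddBelow (CS s) := ⟨0, fun _ h => cs_nonneg h⟩

theorem cs_mono {s t : ℝ} (h : s ≤ t) : CS t ⊆ CS s := by
  rintro C ⟨k, p, x, y, hp, h1, hx, hy, hxy, ha, rfl⟩
  exact ⟨k, p, x, y, hp, h1, hx, hy, hxy, h.trans ha, rfl⟩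

theorem jj_nonneg (s : ℝ) : 0 ≤ JJ s := by
  unfold JJ
  apply Real.sInf_nonneg
  intro C h
  exact cs_nonneg h

theorem jj_mono' {s t : ℝ} (h : s ≤ t) (hne : (CS t).Nonempty) : JJ s ≤ JJ t :=
  csInf_le_csInf (cs_bdd s) hne (cs_mono h)

/-- one term of the sum -/
theorem term_le {n k m : ℕ} (hn : 2 ≤ n) (hk : 2 * n ≤ k * m) {S : ℤ} {K : ℝ}
    (hK : ∀ N : ℕ, 2 ≤ N → ∀ m ≤ N, ∀ x y : ℤ, 0 < a m x y →
      (a m x y : ℝ) ≤ q N K * (mu ^ m * Real.exp (-(m * Rate (|(x : ℝ)| / m, |(y : ℝ)| / m)))))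
    {D : Fin k → ℤ × ℤ} (hD : D ∈ DS n k m S) {s : ℝ} (hs : s ≤ ((S : ℝ) - 2 * n * m) / n ^ 2) :
    ((∏ i : Fin k, a (tt (2 * n) m (i + 1) - tt (2 * n) m i) (D i).1 (D i).2 : ℕ) : ℝ) ≤
      q (2 * n) (K * k) * (mu ^ (2 * n) * Real.exp (-(2 * n * JJ s))) := by
  classical
  have hmu := mu_pos
  obtain ⟨t, ht⟩ : ∃ t, t = tt (2 * n) m := ⟨_, rfl⟩
  have htm : Monotone t := ht ▸ tt_mono _ _
  have ht0 : t 0 = 0 := by rw [ht]; exact tt_zero _ _
  have htk : t k = 2 * n := by rw [ht]; exact tt_end hk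
  have htl : ∀ i, t i ≤ 2 * n := fun i => by rw [ht]; exact tt_le _ _ _
  rw [← ht]
  obtain ⟨M, hM⟩ : ∃ M : Fin k → ℕ, M = fun i : Fin k => t (i + 1) - t i := ⟨_, rfl⟩
  have hMs : ∑ i, M i = 2 * n := by
    have h1 : ∀ l, ∑ i ∈ range l, (t (i + 1) - t i) = t l := by
      intro l
      induction l with
      | zero => simp [ht0]
      | succ l ih =>
        rw [Finset.sum_range_succ, ih]
        have : t l ≤ t (l + 1) := htm (Nat.le_succ l)
        omega
    rw [hM, Fin.sum_univ_eq_sum_range (fun i => t (i + 1) - t i) k, h1, htk]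
  have hMe : ∀ i : Fin k, t (i + 1) - t i = M i := fun i => by rw [hM]
  simp only [hMe]
  by_cases hz : ∀ i, 0 < a (M i) (D i).1 (D i).2
  swap
  · push Not at hz
    obtain ⟨i, hi⟩ := hz
    have h0 : ∏ i : Fin k, a (M i) (D i).1 (D i).2 = 0 :=
      Finset.prod_eq_zero (Finset.mem_univ i) (by omega)
    rw [h0, Nat.cast_zero]
    exact mul_nonneg (q_pos _ _).le (mul_nonneg (pow_nonneg hmu.le _) (Real.exp_pos _).le)
  have hn0 : (0 : ℝ) < n := by exact_mod_cast (by omega : 0 < n)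
  have hML : ∀ i, M i ≤ 2 * n := by
    intro i
    rw [← hMs]
    exact Finset.single_le_sum (fun _ _ => Nat.zero_le _) (Finset.mem_univ i)
  have hle : ∀ i, |(D i).1| + |(D i).2| ≤ M i := by
    intro i
    obtain ⟨w, -, hwx, hwy, hwl⟩ := exists_of_a (hz i)
    have b1 := abs_add_abs_le w
    rw [hwx, hwy, hwl] at b1
    exact b1
  have hler : ∀ i, |((D i).1 : ℝ)| + |((D i).2 : ℝ)| ≤ M i := by
    intro i
    exact_mod_cast hle i
  -- the law
  obtain ⟨p, hp⟩ : ∃ p : Fin k → ℝ, p = fun i => (M i : ℝ) / (2 * n) := ⟨_, rfl⟩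
  obtain ⟨x, hx⟩ : ∃ x : Fin k → ℝ, x = fun i => |((D i).1 : ℝ)| / M i := ⟨_, rfl⟩
  obtain ⟨y, hy⟩ : ∃ y : Fin k → ℝ, y = fun i => |((D i).2 : ℝ)| / M i := ⟨_, rfl⟩
  have hpx : ∀ i, p i * x i = |((D i).1 : ℝ)| / (2 * n) := by
    intro i
    rw [hp, hx]
    simp only
    rcases Nat.eq_zero_or_pos (M i) with h0 | h0
    · have h1 := hler i
      rw [h0, Nat.cast_zero] at h1
      have h2 : |((D i).1 : ℝ)| = 0 := by
        linarith [abs_nonneg ((D i).1 : ℝ), abs_nonneg ((D i).2 : ℝ)]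
      rw [h2, zero_div, zero_div, mul_zero]
    · have : (M i : ℝ) ≠ 0 := by exact_mod_cast h0.ne'
      field_simp
  have hpy : ∀ i, p i * y i = |((D i).2 : ℝ)| / (2 * n) := by
    intro i
    rw [hp, hy]
    simp only
    rcases Nat.eq_zero_or_pos (M i) with h0 | h0
    · have h1 := hler i
      rw [h0, Nat.cast_zero] at h1
      have h2 : |((D i).2 : ℝ)| = 0 := by
        linarith [abs_nonneg ((D i).1 : ℝ), abs_nonneg ((D i).2 : ℝ)]
      rw [h2, zero_div, zero_div, mul_zero]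
    · have : (M i : ℝ) ≠ 0 := by exact_mod_cast h0.ne'
      field_simp
  have hp0 : ∀ i, 0 ≤ p i := fun i => by rw [hp]; positivity
  have hx0 : ∀ i, 0 ≤ x i := fun i => by rw [hx]; positivity
  have hy0 : ∀ i, 0 ≤ y i := fun i => by rw [hy]; positivity
  have hxy : ∀ i, x i + y i ≤ 1 := by
    intro i
    rw [hx, hy]
    simp only
    rw [← add_div]
    exact div_le_one_of_le₀ (hler i) (Nat.cast_nonneg _)
  have hps : ∑ i, p i = 1 := by
    rw [hp]
    simp only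
    rw [← Finset.sum_div]
    have : (∑ i, (M i : ℝ)) = 2 * n := by exact_mod_cast hMs
    rw [this]
    exact div_self (by positivity)
  have har : s ≤ ar2 p x y := by
    refine hs.trans ?_
    unfold DS at hD
    rw [Finset.mem_filter] at hD
    have h1 : (8 : ℝ) * (S - 2 * n * m) ≤ ∑ i, ∑ j,
        max (|((D i).1 : ℝ)| * |((D j).2 : ℝ)|) (|((D j).1 : ℝ)| * |((D i).2 : ℝ)|) := by
      exact_mod_cast hD.2
    have h2 : ar2 p x y = 1 / (8 * n ^ 2) * ∑ i, ∑ j,
        max (|((D i).1 : ℝ)| * |((D j).2 : ℝ)|) (|((D j).1 : ℝ)| * |((D i).2 : ℝ)|) := by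
      unfold ar2
      rw [Finset.mul_sum, Finset.mul_sum]
      apply Finset.sum_congr rfl
      intro i _
      rw [Finset.mul_sum, Finset.mul_sum]
      apply Finset.sum_congr rfl
      intro j _
      have e1 : p i * (p j * max (x i * y j) (x j * y i)) =
          max ((p i * x i) * (p j * y j)) ((p j * x j) * (p i * y i)) := by
        rw [mul_max_of_nonneg _ _ (hp0 j), mul_max_of_nonneg _ _ (hp0 i)]
        congr 1 <;> ring
      rw [e1, hpx, hpy, hpx, hpy]
      have e2 : ∀ u v : ℝ, u / (2 * n) * (v / (2 * n)) = 1 / (4 * n ^ 2) * (u * v) := by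
        intro u v; field_simp; ring
      rw [e2, e2, ← mul_max_of_nonneg _ _ (by positivity)]
      ring
    rw [h2, div_le_iff₀ (by positivity)]
    have h3 : 1 / (8 * (n : ℝ) ^ 2) * (∑ i, ∑ j,
        max (|((D i).1 : ℝ)| * |((D j).2 : ℝ)|) (|((D j).1 : ℝ)| * |((D i).2 : ℝ)|)) * n ^ 2 =
        1 / 8 * (∑ i, ∑ j,
        max (|((D i).1 : ℝ)| * |((D j).2 : ℝ)|) (|((D j).1 : ℝ)| * |((D i).2 : ℝ)|)) := by
      field_simp
    rw [h3]
    linarith
  have hJ : JJ s ≤ ∑ i, p i * Rate (x i, y i) :=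
    csInf_le (cs_bdd s) ⟨k, p, x, y, hp0, hps, hx0, hy0, hxy, har, rfl⟩
  -- the product
  have hprod : ((∏ i : Fin k, a (M i) (D i).1 (D i).2 : ℕ) : ℝ) ≤
      ∏ i : Fin k, (q (2 * n) K * (mu ^ (M i) * Real.exp (-(M i * Rate (x i, y i))))) := by
    push_cast
    apply Finset.prod_le_prod
    · intro i _; exact Nat.cast_nonneg _
    · intro i _
      have := hK (2 * n) (by omega) (M i) (hML i) (D i).1 (D i).2 (hz i)
      rw [hx, hy]
      exact this
  refine hprod.trans ?_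
  rw [Finset.prod_mul_distrib, Finset.prod_mul_distrib, Finset.prod_const, Finset.card_univ,
    Fintype.card_fin, Finset.prod_pow_eq_pow_sum, hMs, ← Real.exp_sum]
  have hq : q (2 * n) K ^ k = q (2 * n) (K * k) := by
    unfold q
    rw [← Real.exp_nat_mul]
    congr 1
    ring
  rw [hq]
  apply mul_le_mul_of_nonneg_left _ (q_pos _ _).le
  apply mul_le_mul_of_nonneg_left _ (pow_nonneg hmu.le _)
  apply Real.exp_le_exp.2
  rw [Finset.sum_neg_distrib, neg_le_neg_iff]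
  have h5 : ∑ i, (M i : ℝ) * Rate (x i, y i) = 2 * n * ∑ i, p i * Rate (x i, y i) := by
    rw [Finset.mul_sum]
    apply Finset.sum_congr rfl
    intro i _
    rw [hp]
    simp only
    field_simp
  rw [h5]
  exact mul_le_mul_of_nonneg_left hJ (by positivity)

end Pool.Agent.U262.AR
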