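import Pool.Agent.U262.AR.U2

/-!
The upper bound for the large deviations of the area; regularity of the rate function.
-/

set_option autoImplicit false

namespace Pool.Agent.U262.AR

open Pool.Agent.TH795.EP Pool.Agent.TH795.EP2 Pool.Agent.TH795.SE2 Pool.Agent.TH262.SawL H981 Finset
open Pool.Agent.Y981.L2 Pool.Agent.U262.SW

theorem card_DS (n k m : ℕ) (S : ℤ) : (DS n k m S).card ≤ ((4 * n + 1) * (4 * n + 1)) ^ k := by
  classical
  unfold DS
  refine (Finset.card_filter_le _ _).trans ?_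
  rw [Fintype.card_piFinset]
  simp only [Finset.card_product, Int.card_Icc, Finset.prod_const, Finset.card_univ,
    Fintype.card_fin]
  apply le_of_eq
  congr 1
  congr 1
  all_goals
    push_cast
    omega

/-- **The upper bound**, with an explicit error. -/
theorem area_upper : ∃ K : ℝ, 0 ≤ K ∧ ∀ n : ℕ, 2 ≤ n → ∀ k : ℕ, 2 ≤ k → k ≤ n → ∀ S : ℤ, ∀ s : ℝ,
    s ≤ (S : ℝ) / n ^ 2 - 6 / k →
    ((LA (2 * n) S).ncard : ℝ) ≤ Real.exp (K * k * Real.log n ^ 2 - 2 * n * JJ s) * ln n := by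
  obtain ⟨K1, hK1, h1⟩ := block_le
  obtain ⟨K2, hK2, h2⟩ := norm_lo
  refine ⟨27 + 4 * K1 + K2, by positivity, ?_⟩
  intro n hn k hk2 hkn S s hs
  have hmu := mu_pos
  have hn0 : (0 : ℝ) < n := by exact_mod_cast (by omega : 0 < n)
  have hk0 : (0 : ℝ) < k := by exact_mod_cast (by omega : 0 < k)
  obtain ⟨m, hm⟩ : ∃ m, m = 2 * n / k + 1 := ⟨_, rfl⟩
  have hkm : 2 * n ≤ k * m := by
    rw [hm]
    have := Nat.lt_mul_div_succ (2 * n) (show 0 < k by omega)
    exact this.le
  have hm2 : m ≤ 2 * n - 1 := by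
    have h3 : 2 * n / k ≤ 2 * n / 2 := Nat.div_le_div_left hk2 (by norm_num)
    rw [Nat.mul_div_cancel_left _ (by norm_num : 0 < 2)] at h3
    omega
  have hmr : (m : ℝ) ≤ 3 * n / k := by
    have h3 : ((2 * n / k : ℕ) : ℝ) ≤ (2 * n : ℕ) / k := Nat.cast_div_le
    rw [hm]
    push_cast at h3 ⊢
    have h4 : (1 : ℝ) ≤ n / k := by
      rw [one_le_div hk0]
      exact_mod_cast hkn
    have h5 : (3 : ℝ) * n / k = 2 * n / k + n / k := by ring
    rw [h5]
    linarith
  have hs' : s ≤ ((S : ℝ) - 2 * n * m) / n ^ 2 := by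
    refine hs.trans ?_
    rw [sub_div]
    apply sub_le_sub_left
    rw [div_le_div_iff₀ (by positivity) hk0]
    rw [le_div_iff₀ hk0] at hmr
    nlinarith
  have g1 := LA_le_sum (n := n) (k := k) (m := m) (by omega) hkm hm2 S
  have g2 : ((LA (2 * n) S).ncard : ℝ) ≤ ∑ p ∈ range (2 * n) ×ˢ DS n k m S,
      ((∏ i : Fin k, a (tt (2 * n) m (i + 1) - tt (2 * n) m i) (p.2 i).1 (p.2 i).2 : ℕ) : ℝ) := by
    rw [← Nat.cast_sum]
    exact_mod_cast g1
  have g3 : ∀ p ∈ range (2 * n) ×ˢ DS n k m S,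
      ((∏ i : Fin k, a (tt (2 * n) m (i + 1) - tt (2 * n) m i) (p.2 i).1 (p.2 i).2 : ℕ) : ℝ) ≤
      q (2 * n) (K1 * k) * (mu ^ (2 * n) * Real.exp (-(2 * n * JJ s))) := by
    intro p hp
    rw [Finset.mem_product] at hp
    exact term_le hn hkm h1 hp.2 hs'
  have g4 := g2.trans (Finset.sum_le_card_nsmul _ _ _ g3)
  rw [nsmul_eq_mul, Finset.card_product, Finset.card_range] at g4
  -- the number of the indices
  have g5 : (((2 * n) * (DS n k m S).card : ℕ) : ℝ) ≤ q n (27 * k) := by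
    have e1 := card_DS n k m S
    have e2 : 4 * n + 1 ≤ n ^ 4 := by
      have : 2 ^ 3 ≤ n ^ 3 := Nat.pow_le_pow_left hn 3
      have e3 : n ^ 4 = n ^ 3 * n := by ring
      rw [e3]
      nlinarith
    have e3 : 2 * n ≤ n ^ 2 := by nlinarith
    have e4 : (2 * n) * (DS n k m S).card ≤ n ^ (9 * k) := by
      calc (2 * n) * (DS n k m S).card ≤ n ^ 2 * ((4 * n + 1) * (4 * n + 1)) ^ k :=
            Nat.mul_le_mul e3 e1
        _ ≤ n ^ 2 * (n ^ 4 * n ^ 4) ^ k :=
            Nat.mul_le_mul_left _ (Nat.pow_le_pow_left (Nat.mul_le_mul e2 e2) k)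
        _ = n ^ (2 + 8 * k) := by
            rw [← pow_add, ← pow_mul, ← pow_add]
        _ ≤ n ^ (9 * k) := Nat.pow_le_pow_right (by omega) (by omega)
    have e5 := pow_le_q hn (9 * k)
    have e6 : (((2 * n) * (DS n k m S).card : ℕ) : ℝ) ≤ (n : ℝ) ^ (9 * k) := by exact_mod_cast e4
    refine e6.trans (e5.trans (le_of_eq ?_))
    congr 1
    push_cast
    ring
  have g6 : mu ^ (2 * n) ≤ q n K2 * ln n := by
    have e1 := h2 n hn 0 (Nat.zero_le _)
    rw [c_zero, Nat.cast_one, one_mul, Nat.sub_zero] at e1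
    have e2 : mu ^ (2 * n) ≤ (c (2 * n) : ℝ) := by rw [c_eq]; exact mu_pow_le _
    exact e2.trans e1
  have g7 : q (2 * n) (K1 * k) ≤ q n (4 * K1 * k) := by
    refine (q_two hn (by positivity)).trans (le_of_eq ?_)
    congr 1
    ring
  have hE := Real.exp_pos (-(2 * n * JJ s))
  have hln := ln_pos hn
  calc ((LA (2 * n) S).ncard : ℝ) ≤ _ := g4
    _ ≤ q n (27 * k) * (q n (4 * K1 * k) * ((q n K2 * ln n) * Real.exp (-(2 * n * JJ s)))) := by
        apply mul_le_mul g5 _ (by have := q_pos (2 * n) (K1 * k); positivity) (q_pos _ _).le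
        apply mul_le_mul g7 _ (by positivity) (q_pos _ _).le
        exact mul_le_mul_of_nonneg_right g6 hE.le
    _ = q n (27 * k + 4 * K1 * k + K2) * Real.exp (-(2 * n * JJ s)) * ln n := by
        rw [← q_mul, ← q_mul]; ring
    _ ≤ q n ((27 + 4 * K1 + K2) * k) * Real.exp (-(2 * n * JJ s)) * ln n := by
        apply mul_le_mul_of_nonneg_right _ hln.le
        apply mul_le_mul_of_nonneg_right _ hE.le
        apply q_mono hn
        have hk1 : (1 : ℝ) ≤ k := by exact_mod_cast (by omega : 1 ≤ k)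
        nlinarith
    _ = _ := by
        unfold q
        rw [← Real.exp_add]
        congr 2

/-! ### regularity -/

theorem dia_quad {x y : ℝ} (hx : 0 ≤ x) (hy : 0 ≤ y) (hxy : x + y ≤ 1) :
    ((x, y) : ℝ × ℝ) ∈ Dia := by
  show |x| + |y| ≤ 1
  rw [abs_of_nonneg hx, abs_of_nonneg hy]
  exact hxy

/-- the area is at most the product of the means -/
theorem ar2_le {k : ℕ} {p x y : Fin k → ℝ} (hp : ∀ i, 0 ≤ p i) (hx : ∀ i, 0 ≤ x i)
    (hy : ∀ i, 0 ≤ y i) : ar2 p x y ≤ (∑ i, p i * x i) * (∑ i, p i * y i) := by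
  have h1 : (∑ i, p i * x i) * (∑ i, p i * y i) =
      1 / 2 * ∑ i, ∑ j, p i * (p j * (x i * y j + x j * y i)) := by
    have e1 : (∑ i, p i * x i) * (∑ i, p i * y i) = ∑ i, ∑ j, p i * (p j * (x i * y j)) := by
      rw [Finset.sum_mul_sum]
      apply Finset.sum_congr rfl
      intro i _
      apply Finset.sum_congr rfl
      intro j _
      ring
    have e2 : ∑ i, ∑ j, p i * (p j * (x j * y i)) = ∑ i, ∑ j, p i * (p j * (x i * y j)) := by
      rw [Finset.sum_comm]
      apply Finset.sum_congr rfl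
      intro i _
      apply Finset.sum_congr rfl
      intro j _
      ring
    have e3 : ∑ i, ∑ j, p i * (p j * (x i * y j + x j * y i)) =
        ∑ i, ∑ j, p i * (p j * (x i * y j)) + ∑ i, ∑ j, p i * (p j * (x j * y i)) := by
      rw [← Finset.sum_add_distrib]
      apply Finset.sum_congr rfl
      intro i _
      rw [← Finset.sum_add_distrib]
      apply Finset.sum_congr rfl
      intro j _
      ring
    rw [e1, e3, e2]
    ring
  rw [h1]
  unfold ar2
  apply mul_le_mul_of_nonneg_left _ (by norm_num)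
  apply Finset.sum_le_sum
  intro i _
  apply Finset.sum_le_sum
  intro j _
  apply mul_le_mul_of_nonneg_left _ (hp i)
  apply mul_le_mul_of_nonneg_left _ (hp j)
  apply max_le
  · have := mul_nonneg (hx j) (hy i); linarith
  · have := mul_nonneg (hx i) (hy j); linarith

/-- mixing with the square -/
theorem cs_mix {s θ : ℝ} (hs : 0 ≤ s) (hθ : 0 ≤ θ) (hθ1 : θ ≤ 1) {C : ℝ} (hC : C ∈ CS s) :
    (1 - θ) * C + θ * ((Rate (1, 0) + Rate (0, 1)) / 2) ∈ CS (((1 - θ) * √s + θ / 2) ^ 2) := by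
  obtain ⟨k, p, x, y, hp, h1, hx, hy, hxy, ha, rfl⟩ := hC
  refine ⟨k + 2, Fin.cons (θ / 2) (Fin.cons (θ / 2) fun i => (1 - θ) * p i),
    Fin.cons 1 (Fin.cons 0 x), Fin.cons 0 (Fin.cons 1 y), ?_, ?_, ?_, ?_, ?_, ?_, ?_⟩
  · intro i
    refine Fin.cases ?_ (fun i => ?_) i
    · simp only [Fin.cons_zero]; positivity
    · refine Fin.cases ?_ (fun i => ?_) i
      · simp only [Fin.cons_succ, Fin.cons_zero]; positivity
      · simp only [Fin.cons_succ]
        exact mul_nonneg (by linarith) (hp i)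
  · rw [Fin.sum_univ_succ, Fin.sum_univ_succ]
    simp only [Fin.cons_zero, Fin.cons_succ]
    rw [← Finset.mul_sum, h1]
    ring
  · intro i
    refine Fin.cases ?_ (fun i => ?_) i
    · simp only [Fin.cons_zero]; norm_num
    · refine Fin.cases ?_ (fun i => ?_) i
      · simp only [Fin.cons_succ, Fin.cons_zero]; exact le_rfl
      · simp only [Fin.cons_succ]
        exact hx i
  · intro i
    refine Fin.cases ?_ (fun i => ?_) i
    · simp only [Fin.cons_zero]; exact le_rfl
    · refine Fin.cases ?_ (fun i => ?_) i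
      · simp only [Fin.cons_succ, Fin.cons_zero]; norm_num
      · simp only [Fin.cons_succ]
        exact hy i
  · intro i
    refine Fin.cases ?_ (fun i => ?_) i
    · simp only [Fin.cons_zero]; norm_num
    · refine Fin.cases ?_ (fun i => ?_) i
      · simp only [Fin.cons_succ, Fin.cons_zero]; norm_num
      · simp only [Fin.cons_succ]
        exact hxy i
  · -- the area
    obtain ⟨EX, hEX⟩ : ∃ EX, EX = ∑ i, p i * x i := ⟨_, rfl⟩
    obtain ⟨EY, hEY⟩ : ∃ EY, EY = ∑ i, p i * y i := ⟨_, rfl⟩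
    obtain ⟨A, hA⟩ : ∃ A, A = ar2 p x y := ⟨_, rfl⟩
    rw [← hA] at ha
    have hEX0 : 0 ≤ EX := by
      rw [hEX]; exact Finset.sum_nonneg fun i _ => mul_nonneg (hp i) (hx i)
    have hEY0 : 0 ≤ EY := by
      rw [hEY]; exact Finset.sum_nonneg fun i _ => mul_nonneg (hp i) (hy i)
    have hA' : A ≤ EX * EY := by
      rw [hA, hEX, hEY]
      exact ar2_le hp hx hy
    have key : ar2 (Fin.cons (θ / 2) (Fin.cons (θ / 2) fun i => (1 - θ) * p i) : Fin (k + 2) → ℝ)
        (Fin.cons 1 (Fin.cons 0 x)) (Fin.cons 0 (Fin.cons 1 y)) =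
        (1 - θ) ^ 2 * A + (1 - θ) * θ / 2 * (EX + EY) + θ ^ 2 / 4 := by
      have hmx : ∀ i, max (x i) 0 = x i := fun i => max_eq_left (hx i)
      have hmy : ∀ i, max (y i) 0 = y i := fun i => max_eq_left (hy i)
      have hmx' : ∀ i, max 0 (x i) = x i := fun i => max_eq_right (hx i)
      have hmy' : ∀ i, max 0 (y i) = y i := fun i => max_eq_right (hy i)
      rw [hA, hEX, hEY]
      unfold ar2
      simp only [Fin.sum_univ_succ, Fin.cons_zero, Fin.cons_succ, one_mul, mul_one, mul_zero,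
        zero_mul, max_self, hmx, hmy, hmx', hmy', add_zero, zero_add]
      have e0 : max (1 : ℝ) 0 = 1 := max_eq_left (by norm_num)
      have e0' : max (0 : ℝ) 1 = 1 := max_eq_right (by norm_num)
      rw [e0, e0']
      have e1 : ∀ z : Fin k → ℝ, ∑ i, θ / 2 * ((1 - θ) * p i * z i) =
          θ / 2 * (1 - θ) * ∑ i, p i * z i := by
        intro z
        rw [Finset.mul_sum]
        apply Finset.sum_congr rfl
        intro i _
        ring
      have e2 : ∑ i, ((1 - θ) * p i * (θ / 2 * y i) + ((1 - θ) * p i * (θ / 2 * x i) +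
          ∑ j, (1 - θ) * p i * ((1 - θ) * p j * max (x i * y j) (x j * y i)))) =
          θ / 2 * (1 - θ) * ∑ i, p i * y i + θ / 2 * (1 - θ) * ∑ i, p i * x i +
          (1 - θ) ^ 2 * ∑ i, ∑ j, p i * (p j * max (x i * y j) (x j * y i)) := by
        rw [Finset.mul_sum, Finset.mul_sum, Finset.mul_sum, ← Finset.sum_add_distrib,
          ← Finset.sum_add_distrib]
        apply Finset.sum_congr rfl
        intro i _
        have e3 : ∑ j, (1 - θ) * p i * ((1 - θ) * p j * max (x i * y j) (x j * y i)) =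
            (1 - θ) ^ 2 * ∑ j, p i * (p j * max (x i * y j) (x j * y i)) := by
          rw [Finset.mul_sum]
          apply Finset.sum_congr rfl
          intro j _
          ring
        rw [e3]
        ring
      simp only [e1, e2]
      ring
    rw [key]
    have hs1 : √s ≤ √A := Real.sqrt_le_sqrt ha
    have hsA : √A ^ 2 = A := Real.sq_sqrt (hs.trans ha)
    have h0 : 0 ≤ √s := Real.sqrt_nonneg _
    have h2 : √A ≤ (EX + EY) / 2 := by
      apply abs_le_of_sq_le_sq' _ (by linarith) |>.2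
      rw [hsA]
      nlinarith [sq_nonneg (EX - EY)]
    have h3 : ((1 - θ) * √s + θ / 2) ^ 2 ≤ ((1 - θ) * √A + θ / 2) ^ 2 := by
      apply pow_le_pow_left₀
      · have := mul_nonneg (by linarith : (0 : ℝ) ≤ 1 - θ) h0
        linarith
      · have := mul_le_mul_of_nonneg_left hs1 (by linarith : (0 : ℝ) ≤ 1 - θ)
        linarith
    refine h3.trans ?_
    have h4 : ((1 - θ) * √A + θ / 2) ^ 2 = (1 - θ) ^ 2 * √A ^ 2 + (1 - θ) * θ * √A + θ ^ 2 / 4 := by
      ring
    rw [h4, hsA]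
    have h5 : (1 - θ) * θ * √A ≤ (1 - θ) * θ * ((EX + EY) / 2) :=
      mul_le_mul_of_nonneg_left h2 (mul_nonneg (by linarith) hθ)
    linarith
  · rw [Fin.sum_univ_succ, Fin.sum_univ_succ]
    simp only [Fin.cons_zero, Fin.cons_succ]
    have e1 : ∑ i, (1 - θ) * p i * Rate (x i, y i) = (1 - θ) * ∑ i, p i * Rate (x i, y i) := by
      rw [Finset.mul_sum]
      apply Finset.sum_congr rfl
      intro i _
      ring
    rw [e1]
    ring

end Pool.Agent.U262.AR
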