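import Pool.Agent.U262.AR.U3

/-!
The rate function of the area and the limit theorem.
-/

set_option autoImplicit false

namespace Pool.Agent.U262.AR

open Pool.Agent.TH795.EP Pool.Agent.TH795.EP2 Pool.Agent.TH795.SE2 Pool.Agent.TH262.SawL H981 Finset
open Pool.Agent.Y981.L2 Pool.Agent.U262.SW
open Filter Topology

theorem logmu : 0 ≤ Real.log mu := Real.log_nonneg one_le_mu

theorem rate_zero : Rate (0, 0) = 0 := by
  apply le_antisymm
  · apply ciSup_le
    intro h
    have := Lam_nonneg h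
    simp only [mul_zero, add_zero, zero_sub]
    linarith
  · exact rate_nonneg' (dia_quad le_rfl le_rfl (by norm_num))

theorem cs_zero : (0 : ℝ) ∈ CS 0 := by
  refine ⟨1, fun _ => 1, fun _ => 0, fun _ => 0, fun _ => by norm_num, by simp,
    fun _ => le_rfl, fun _ => le_rfl, fun _ => by norm_num, ?_, ?_⟩
  · unfold ar2; simp
  · simp [rate_zero]

theorem corner : (Rate (1, 0) + Rate (0, 1)) / 2 ≤ Real.log mu := by
  have h1 := rate_le (dia_quad (by norm_num : (0 : ℝ) ≤ 1) le_rfl (by norm_num))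
  have h2 := rate_le (dia_quad le_rfl (by norm_num : (0 : ℝ) ≤ 1) (by norm_num))
  linarith

theorem cs_ne {s : ℝ} (h : s ≤ 1 / 4) : (CS s).Nonempty := by
  have h1 := cs_mix (le_refl 0) (zero_le_one) (le_refl 1) cs_zero
  exact ⟨_, cs_mono (by norm_num; linarith) h1⟩

theorem jj_mono {s t : ℝ} (h : s ≤ t) (ht : t ≤ 1 / 4) : JJ s ≤ JJ t := jj_mono' h (cs_ne ht)

theorem jj_nonpos {s : ℝ} (h : s ≤ 0) : JJ s = 0 :=
  le_antisymm (csInf_le (cs_bdd s) (cs_mono h cs_zero)) (jj_nonneg s)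

theorem exists_near {s ε : ℝ} (hs : s ≤ 1 / 4) (hε : 0 < ε) : ∃ C ∈ CS s, C < JJ s + ε :=
  exists_lt_of_csInf_lt (cs_ne hs) (by unfold JJ; linarith)

theorem jj_mix {s θ : ℝ} (hs : 0 ≤ s) (hs4 : s ≤ 1 / 4) (hθ : 0 ≤ θ) (hθ1 : θ ≤ 1) :
    JJ (((1 - θ) * √s + θ / 2) ^ 2) ≤ (1 - θ) * JJ s + θ * Real.log mu := by
  apply le_of_forall_pos_le_add
  intro ε hε
  obtain ⟨C, hC, hC1⟩ := exists_near hs4 hε
  have h1 := csInf_le (cs_bdd _) (cs_mix hs hθ hθ1 hC)
  refine h1.trans ?_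
  have h2 := mul_le_mul_of_nonneg_left hC1.le (by linarith : 0 ≤ 1 - θ)
  have h3 := mul_le_mul_of_nonneg_left corner hθ
  nlinarith

/-- mixing with the point -/
theorem cs_scale {s θ : ℝ} (hθ : 0 ≤ θ) (hθ1 : θ ≤ 1) {C : ℝ} (hC : C ∈ CS s) :
    θ * C ∈ CS (θ ^ 2 * s) := by
  obtain ⟨k, p, x, y, hp, h1, hx, hy, hxy, ha, rfl⟩ := hC
  refine ⟨k + 1, Fin.cons (1 - θ) (fun i => θ * p i), Fin.cons 0 x, Fin.cons 0 y,
    ?_, ?_, ?_, ?_, ?_, ?_, ?_⟩
  · intro i
    refine Fin.cases ?_ (fun i => ?_) i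
    · simp only [Fin.cons_zero]; linarith
    · simp only [Fin.cons_succ]
      exact mul_nonneg hθ (hp i)
  · rw [Fin.sum_univ_succ]
    simp only [Fin.cons_zero, Fin.cons_succ]
    rw [← Finset.mul_sum, h1]
    ring
  · intro i
    refine Fin.cases ?_ (fun i => ?_) i
    · simp only [Fin.cons_zero]; exact le_rfl
    · simp only [Fin.cons_succ]
      exact hx i
  · intro i
    refine Fin.cases ?_ (fun i => ?_) i
    · simp only [Fin.cons_zero]; exact le_rfl
    · simp only [Fin.cons_succ]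
      exact hy i
  · intro i
    refine Fin.cases ?_ (fun i => ?_) i
    · simp only [Fin.cons_zero]; norm_num
    · simp only [Fin.cons_succ]
      exact hxy i
  · refine (mul_le_mul_of_nonneg_left ha (sq_nonneg θ)).trans (le_of_eq ?_)
    unfold ar2
    simp only [Fin.sum_univ_succ, Fin.cons_zero, Fin.cons_succ, mul_zero,
      zero_mul, max_self, zero_add, Finset.sum_const_zero]
    have e2 : ∑ i, ∑ j, θ * p i * (θ * p j * max (x i * y j) (x j * y i)) =
        θ ^ 2 * ∑ i, ∑ j, p i * (p j * max (x i * y j) (x j * y i)) := by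
      rw [Finset.mul_sum]
      apply Finset.sum_congr rfl
      intro i _
      rw [Finset.mul_sum]
      apply Finset.sum_congr rfl
      intro j _
      ring
    rw [e2]
    ring
  · rw [Fin.sum_univ_succ]
    simp only [Fin.cons_zero, Fin.cons_succ]
    rw [rate_zero, mul_zero, zero_add, Finset.mul_sum]
    apply Finset.sum_congr rfl
    intro i _
    ring

/-- `J (s ^ 2) / s` is nondecreasing -/
theorem jj_scale {s θ : ℝ} (hs4 : s ≤ 1 / 4) (hθ : 0 ≤ θ) (hθ1 : θ ≤ 1) :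
    JJ (θ ^ 2 * s) ≤ θ * JJ s := by
  apply le_of_forall_pos_le_add
  intro ε hε
  obtain ⟨C, hC, hC1⟩ := exists_near hs4 hε
  have h1 := csInf_le (cs_bdd _) (cs_scale hθ hθ1 hC)
  refine h1.trans ?_
  have h2 := mul_le_mul_of_nonneg_left hC1.le hθ
  nlinarith

theorem jj_le {s : ℝ} (hs : 0 ≤ s) (hs4 : s ≤ 1 / 4) : JJ s ≤ 2 * √s * Real.log mu := by
  have h1 : √s ≤ 1 / 2 := by
    rw [Real.sqrt_le_left (by norm_num)]
    norm_num; linarith
  have h2 := jj_mix (le_refl 0) (by norm_num) (θ := 2 * √s) (by positivity) (by linarith)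
  rw [jj_nonpos le_rfl, Real.sqrt_zero, mul_zero, zero_add, zero_add] at h2
  have h3 : (2 * √s / 2) ^ 2 = s := by
    rw [mul_div_cancel_left₀ _ (by norm_num : (2 : ℝ) ≠ 0), Real.sq_sqrt hs]
  rwa [h3] at h2

theorem jj_step {s t r : ℝ} (hst : s ≤ t) (htr : t ≤ r) (hr : r < 1 / 4) :
    JJ t ≤ JJ s + Real.log mu / (1 / 2 - √r) * (√t - √s) := by
  have hr2 : √r < 1 / 2 := by
    rw [Real.sqrt_lt' (by norm_num)]
    norm_num; linarith
  have hd : 0 < 1 / 2 - √r := by linarith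
  rcases le_or_gt t 0 with ht | ht
  · rw [jj_nonpos ht, jj_nonpos (hst.trans ht), Real.sqrt_eq_zero_of_nonpos ht,
      Real.sqrt_eq_zero_of_nonpos (hst.trans ht)]
    simp
  -- reduction to `0 ≤ s`
  have key : ∀ s : ℝ, 0 ≤ s → s ≤ t → JJ t ≤ JJ s + Real.log mu / (1 / 2 - √r) * (√t - √s) := by
    intro s hs hst
    have h1 : √s ≤ √t := Real.sqrt_le_sqrt hst
    have h2 : √t ≤ √r := Real.sqrt_le_sqrt htr
    have hd2 : 0 < 1 / 2 - √s := by linarith
    obtain ⟨θ, hθ⟩ : ∃ θ, θ = (√t - √s) / (1 / 2 - √s) := ⟨_, rfl⟩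
    have hθ0 : 0 ≤ θ := by rw [hθ]; exact div_nonneg (by linarith) hd2.le
    have hθ1 : θ ≤ 1 := by rw [hθ, div_le_one hd2]; linarith
    have h3 := jj_mix hs (by linarith) hθ0 hθ1
    have h4 : (1 - θ) * √s + θ / 2 = √t := by
      have e1 : θ * (1 / 2 - √s) = √t - √s := by rw [hθ]; exact div_mul_cancel₀ _ hd2.ne'
      linarith
    rw [h4, Real.sq_sqrt ht.le] at h3
    have h5 : θ ≤ (√t - √s) / (1 / 2 - √r) := by
      rw [hθ]
      exact div_le_div_of_nonneg_left (by linarith) hd (by linarith)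
    have h6 : θ * Real.log mu ≤ (√t - √s) / (1 / 2 - √r) * Real.log mu :=
      mul_le_mul_of_nonneg_right h5 logmu
    have h7 : (√t - √s) / (1 / 2 - √r) * Real.log mu =
        Real.log mu / (1 / 2 - √r) * (√t - √s) := by ring
    have h8 := mul_nonneg hθ0 (jj_nonneg s)
    linarith
  rcases le_or_gt 0 s with hs | hs
  · exact key s hs hst
  · have := key 0 le_rfl ht.le
    rw [jj_nonpos hs.le, Real.sqrt_eq_zero_of_nonpos hs.le]
    rw [jj_nonpos le_rfl, Real.sqrt_zero] at this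
    exact this

theorem jj_abs {s t r : ℝ} (hs : s ≤ r) (htr : t ≤ r) (hr : r < 1 / 4) :
    |JJ t - JJ s| ≤ Real.log mu / (1 / 2 - √r) * |√t - √s| := by
  rcases le_total s t with h | h
  · have h1 := jj_step h htr hr
    have h2 := jj_mono h (by linarith)
    rw [abs_of_nonneg (by linarith), abs_of_nonneg (by have := Real.sqrt_le_sqrt h; linarith)]
    linarith
  · have h1 := jj_step h hs hr
    have h2 := jj_mono h (by linarith)
    rw [abs_sub_comm, abs_of_nonneg (by linarith), abs_sub_comm (√t),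
      abs_of_nonneg (by have := Real.sqrt_le_sqrt h; linarith)]
    linarith

theorem jj_contAt {s : ℝ} (h : s < 1 / 4) : ContinuousAt JJ s := by
  obtain ⟨r, hr1, hr2⟩ := exists_between h
  rw [ContinuousAt, tendsto_iff_norm_sub_tendsto_zero]
  have h1 : Tendsto (fun t => Real.log mu / (1 / 2 - √r) * |√t - √s|) (𝓝 s) (𝓝 0) := by
    have h2 : Tendsto (fun t => Real.log mu / (1 / 2 - √r) * |√t - √s|) (𝓝 s)
        (𝓝 (Real.log mu / (1 / 2 - √r) * |√s - √s|)) := by
      apply Tendsto.const_mul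
      apply Tendsto.abs
      apply Tendsto.sub_const
      exact Real.continuous_sqrt.tendsto s
    rwa [sub_self, abs_zero, mul_zero] at h2
  apply squeeze_zero' (Eventually.of_forall fun t => norm_nonneg _) _ h1
  filter_upwards [eventually_lt_nhds hr1] with t ht
  exact jj_abs hr1.le ht.le hr2

/-- **The limit.** -/
theorem area_limit {s : ℝ} (h0 : 0 ≤ s) (h1 : s < 1 / 4) :
    Tendsto (fun n : ℕ => Real.log (((LA (2 * n) ⌈s * (n : ℝ) ^ 2⌉).ncard : ℝ) / ln n) / (2 * n))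
      atTop (𝓝 (-JJ s)) := by
  have hcont := jj_contAt h1
  obtain ⟨K, hK, hup⟩ := area_upper
  have lower : ∀ ε : ℝ, 0 < ε → ∀ᶠ n : ℕ in atTop, -JJ s - ε <
      Real.log (((LA (2 * n) ⌈s * (n : ℝ) ^ 2⌉).ncard : ℝ) / ln n) / (2 * n) ∧
      (0 : ℝ) < (LA (2 * n) ⌈s * (n : ℝ) ^ 2⌉).ncard := by
    intro ε hε
    -- a point to the right
    have e1 : ∀ᶠ t in 𝓝[>] s, JJ t < JJ s + ε / 4 :=
      (hcont.tendsto.mono_left nhdsWithin_le_nhds).eventually_lt_const (by linarith)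
    have e2 : ∀ᶠ t in 𝓝[>] s, t < 1 / 4 :=
      (eventually_lt_nhds h1).filter_mono nhdsWithin_le_nhds
    obtain ⟨t, ⟨ht1, ht2⟩, ht3⟩ := ((e1.and e2).and self_mem_nhdsWithin).exists
    obtain ⟨C, hC, hC1⟩ := exists_near ht2.le (show 0 < ε / 4 by linarith)
    obtain ⟨k, p, x, y, hp, h2, hx, hy, hxy, ha, rfl⟩ := hC
    have h3 := area_lower p x y hp h2 hx hy hxy h0 (lt_of_lt_of_le ht3 ha)
      (show 0 < ε / 4 by linarith)
    filter_upwards [h3, eventually_ge_atTop 2] with n hn hn2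
    have hln := ln_pos hn2
    have hn0 : (0 : ℝ) < n := by exact_mod_cast (by omega : 0 < n)
    have hpos : (0 : ℝ) < (LA (2 * n) ⌈s * (n : ℝ) ^ 2⌉).ncard :=
      lt_of_lt_of_le (mul_pos (Real.exp_pos _) hln) hn
    refine ⟨?_, hpos⟩
    rw [← le_div_iff₀ hln] at hn
    have h4 := Real.log_le_log (Real.exp_pos _) hn
    rw [Real.log_exp] at h4
    rw [lt_div_iff₀ (by positivity)]
    nlinarith
  have upper : ∀ ε : ℝ, 0 < ε → ∀ᶠ n : ℕ in atTop,
      Real.log (((LA (2 * n) ⌈s * (n : ℝ) ^ 2⌉).ncard : ℝ) / ln n) / (2 * n) < -JJ s + ε := by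
    intro ε hε
    have e1 : Tendsto (fun k : ℕ => s - 6 / (k : ℝ)) atTop (𝓝 s) := by
      have := (tendsto_const_div_atTop_nhds_zero_nat (6 : ℝ)).const_sub s
      rwa [sub_zero] at this
    have e2 : ∀ᶠ k : ℕ in atTop, JJ s - ε / 4 < JJ (s - 6 / (k : ℝ)) :=
      (hcont.tendsto.comp e1).eventually_const_lt (by linarith)
    obtain ⟨k, hk1, hk2⟩ := (e2.and (eventually_ge_atTop 2)).exists
    have e3 := small_log (A := K * k) (B := 0) hε
    filter_upwards [e3, eventually_ge_atTop (max k 2), lower 1 one_pos] with n hn hn2 hn3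
    have hn2' : 2 ≤ n := le_trans (le_max_right _ _) hn2
    have hkn : k ≤ n := le_trans (le_max_left _ _) hn2
    have hln := ln_pos hn2'
    have hn0 : (0 : ℝ) < n := by exact_mod_cast (by omega : 0 < n)
    have h5 := hup n hn2' k hk2 hkn ⌈s * (n : ℝ) ^ 2⌉ (s - 6 / k) (by
      apply sub_le_sub_right
      rw [le_div_iff₀ (by positivity)]
      exact Int.le_ceil _)
    rw [← div_le_iff₀ hln] at h5
    have h6 := Real.log_le_log (div_pos hn3.2 hln) h5
    rw [Real.log_exp] at h6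
    rw [div_lt_iff₀ (by positivity)]
    rw [add_zero] at hn
    have hJ := mul_lt_mul_of_pos_left hk1 hn0
    nlinarith
  rw [tendsto_order]
  constructor
  · intro a ha
    have := lower (-JJ s - a) (by linarith)
    filter_upwards [this] with n hn
    linarith [hn.1]
  · intro a ha
    have := upper (a + JJ s) (by linarith)
    filter_upwards [this] with n hn
    linarith

end Pool.Agent.U262.AR
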