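import Pool.Agent.U262.AR.U4
import Pool.Agent.H976R2.SB.Walks

/-!
The rate function of the end point is positive away from the origin (by sub-ballisticity), and the
rate function of the area is positive.
-/

set_option autoImplicit false

namespace Pool.Agent.U262.AR

open Pool.Agent.TH795.EP Pool.Agent.TH795.EP2 Pool.Agent.TH795.SE2 Pool.Agent.TH262.SawL H981 Finset
open Pool.Agent.Y981.L2 Pool.Agent.U262.SW
open Filter Topology

/-! ### the symmetry -/

theorem Z_sw (h : ℝ × ℝ) (n : ℕ) : Z (h.2, h.1) n = Z h n := by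
  rw [Z_eq, Z_eq]
  apply Finset.sum_nbij' (fun z => (z.2, z.1)) (fun z => (z.2, z.1))
  · intro z hz
    unfold Bx at hz ⊢
    rw [Finset.mem_product, Finset.mem_Icc, Finset.mem_Icc] at hz ⊢
    simp only
    omega
  · intro z hz
    unfold Bx at hz ⊢
    rw [Finset.mem_product, Finset.mem_Icc, Finset.mem_Icc] at hz ⊢
    simp only
    omega
  · intro z _
    simp
  · intro z _
    simp
  · intro z _
    simp only
    rw [a_sw]
    congr 2
    ring

theorem Lam_swap (h : ℝ × ℝ) : Lam (h.2, h.1) = Lam h := by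
  have h1 := Lam_tendsto (h.2, h.1)
  simp only [Z_sw] at h1
  have h2 := tendsto_nhds_unique h1 (Lam_tendsto h)
  linarith

theorem rate_swap_le {x y : ℝ} (hv : ((x, y) : ℝ × ℝ) ∈ Dia) : Rate (y, x) ≤ Rate (x, y) := by
  apply ciSup_le
  intro h
  have g1 := le_rate hv (h.2, h.1)
  rw [Lam_swap] at g1
  simp only at g1 ⊢
  linarith

/-! ### positivity -/

/-- transfer of the walks -/
theorem transfer (n : ℕ) (Q : (Fin (n + 1) → ℤ × ℤ) → Prop)
    (Q' : (Fin (n + 1) → Fin 2 → ℤ) → Prop)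
    (hQ : ∀ ω : Fin (n + 1) → Fin 2 → ℤ, Q (fun i => (ω i 0, ω i 1)) ↔ Q' ω) :
    {ω : Fin (n + 1) → Fin 2 → ℤ | Pool.Agent.H976R2.SB.IsSAW 2 n ω ∧ Q' ω}.ncard =
      Nat.card {ω // H981.IsSAW n ω ∧ Q ω} := by
  have h1 : Nat.card {ω // H981.IsSAW n ω ∧ Q ω} = {ω | H981.IsSAW n ω ∧ Q ω}.ncard :=
    Nat.card_coe_set_eq _
  rw [h1]
  obtain ⟨F, hF⟩ : ∃ F : (Fin (n + 1) → Fin 2 → ℤ) → (Fin (n + 1) → ℤ × ℤ),
      F = fun ω i => (ω i 0, ω i 1) := ⟨_, rfl⟩
  have hinj : Function.Injective F := by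
    intro ω ω' h
    funext i k
    have h2 := congrFun h i
    rw [hF] at h2
    obtain ⟨h3, h4⟩ := Prod.mk.inj h2
    fin_cases k
    · exact h3
    · exact h4
  have himg : {ω | H981.IsSAW n ω ∧ Q ω} =
      F '' {ω | Pool.Agent.H976R2.SB.IsSAW 2 n ω ∧ Q' ω} := by
    ext ω
    constructor
    · rintro ⟨⟨h2, h3, h4⟩, h5⟩
      refine ⟨fun i => ![(ω i).1, (ω i).2], ⟨⟨?_, ?_, ?_⟩, ?_⟩, ?_⟩
      · funext k
        simp only [h2]
        fin_cases k <;> rfl
      · intro i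
        rw [Fin.sum_univ_two]
        exact h3 i
      · intro i j hij
        apply h4
        have e1 := congrFun hij 0
        have e2 := congrFun hij 1
        exact Prod.ext e1 e2
      · rw [← hQ]
        exact h5
      · rw [hF]
        rfl
    · rintro ⟨ω, ⟨⟨h2, h3, h4⟩, h5⟩, rfl⟩
      rw [hF]
      refine ⟨⟨?_, ?_, ?_⟩, ?_⟩
      · simp only [h2]
        rfl
      · intro i
        have := h3 i
        rw [Fin.sum_univ_two] at this
        exact this
      · intro i j hij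
        apply h4
        obtain ⟨e1, e2⟩ := Prod.mk.inj hij
        funext k
        fin_cases k
        · exact e1
        · exact e2
      · exact (hQ ω).2 h5
  rw [himg, Set.ncard_image_of_injective _ hinj]

theorem a_far : ∃ b : ℝ, 0 < b ∧ ∃ n0 : ℕ, ∀ n : ℕ, n0 ≤ n → ∀ x y : ℤ,
    (n : ℝ) / Real.log n ^ b ≤ x →
    (a n x y : ℝ) ≤ Real.exp (-(n : ℝ) ^ (1 - 1 / 2 : ℝ)) * c n := by
  obtain ⟨b, hb, h⟩ := Pool.Agent.H976R2.SB.walks_far 2 le_rfl
  obtain ⟨n0, hn0⟩ := h (1 / 2) (by norm_num)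
  refine ⟨b, hb, n0, ?_⟩
  intro n hn x y hx
  have h1 := hn0 n hn
  have e1 : ({ω | Pool.Agent.H976R2.SB.IsSAW 2 n ω}.ncard : ℝ) = c n := by
    have h2 := transfer n (fun _ => True) (fun _ => True) (fun _ => Iff.rfl)
    simp only [and_true] at h2
    rw [h2]
    exact_mod_cast card_walks n
  rw [e1] at h1
  refine le_trans ?_ h1
  have h2 := card_walks_to n (x, y)
  simp only at h2
  rw [← h2, ← transfer n (fun ω => ω (Fin.last n) = (x, y))
    (fun ω => (ω (Fin.last n) 0, ω (Fin.last n) 1) = (x, y)) (fun _ => Iff.rfl)]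
  have hfin : {ω | Pool.Agent.H976R2.SB.IsSAW 2 n ω ∧
      ∃ i k, (n : ℝ) / (Real.log n) ^ b ≤ |(ω i k : ℝ)|}.Finite :=
    (Pool.Agent.H976R2.SB.finite_saw 2 n (by norm_num)).subset fun ω h => h.1
  have hsub : {ω : Fin (n + 1) → Fin 2 → ℤ | Pool.Agent.H976R2.SB.IsSAW 2 n ω ∧
      (ω (Fin.last n) 0, ω (Fin.last n) 1) = (x, y)} ⊆
      {ω | Pool.Agent.H976R2.SB.IsSAW 2 n ω ∧
        ∃ i k, (n : ℝ) / (Real.log n) ^ b ≤ |(ω i k : ℝ)|} := by
    rintro ω ⟨hω, h3⟩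
    refine ⟨hω, Fin.last n, 0, ?_⟩
    rw [(Prod.mk.inj h3).1]
    exact hx.trans (le_abs_self _)
  exact_mod_cast Set.ncard_le_ncard hsub hfin

theorem rate_pos_axis {t : ℝ} (ht : 0 < t) (ht1 : t ≤ 1) : 0 < Rate (t, 0) := by
  have hdia : ((t, 0) : ℝ × ℝ) ∈ Dia := dia_quad ht.le le_rfl (by linarith)
  rcases (rate_nonneg' hdia).lt_or_eq with h | h
  · exact h
  exfalso
  obtain ⟨K, hK, hldp⟩ := ldp_words
  obtain ⟨b, hb, n0, hfar⟩ := a_far
  -- the conditions on `N`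
  have hlogn : Tendsto (fun n : ℕ => Real.log ((2 * n : ℕ) : ℝ)) atTop atTop := by
    apply Real.tendsto_log_atTop.comp
    apply tendsto_natCast_atTop_atTop.comp
    exact tendsto_id.const_mul_atTop' (by norm_num)
  have c1 : ∀ᶠ n : ℕ in atTop, 2 / t ≤ Real.log ((2 * n : ℕ) : ℝ) ^ b :=
    ((tendsto_rpow_atTop hb).comp hlogn).eventually_ge_atTop _
  have c2 : ∀ᶠ n : ℕ in atTop, 2 / t ≤ (n : ℝ) :=
    tendsto_natCast_atTop_atTop.eventually_ge_atTop _
  have c3 : ∀ᶠ n : ℕ in atTop, K * Real.log ((2 * n : ℕ) : ℝ) ^ 2 <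
      ((2 * n : ℕ) : ℝ) ^ (1 - 1 / 2 : ℝ) := by
    have g1 : (fun x : ℝ => Real.log x ^ (2 : ℝ)) =o[atTop] (fun x => x ^ (1 - 1 / 2 : ℝ)) :=
      isLittleO_log_rpow_rpow_atTop 2 (by norm_num)
    have g2 := g1.bound (show (0 : ℝ) < 1 / (2 * (K + 1)) by positivity)
    have g3 : Tendsto (fun n : ℕ => ((2 * n : ℕ) : ℝ)) atTop atTop :=
      tendsto_natCast_atTop_atTop.comp (tendsto_id.const_mul_atTop' (by norm_num))
    filter_upwards [g3.eventually g2, eventually_ge_atTop 1] with n hn hn1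
    have hp : (0 : ℝ) < ((2 * n : ℕ) : ℝ) := by exact_mod_cast (by omega : 0 < 2 * n)
    have hpp : (0 : ℝ) < ((2 * n : ℕ) : ℝ) ^ (1 - 1 / 2 : ℝ) := Real.rpow_pos_of_pos hp _
    have e1 : Real.log ((2 * n : ℕ) : ℝ) ^ (2 : ℝ) = Real.log ((2 * n : ℕ) : ℝ) ^ 2 := by
      rw [← Real.rpow_natCast]; norm_num
    rw [e1, Real.norm_eq_abs, Real.norm_eq_abs, abs_of_nonneg (sq_nonneg _),
      abs_of_pos hpp] at hn
    have h3 := mul_le_mul_of_nonneg_left hn (show 0 ≤ K + 1 by linarith)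
    have h4 : (K + 1) * (1 / (2 * (K + 1)) * ((2 * n : ℕ) : ℝ) ^ (1 - 1 / 2 : ℝ)) =
        ((2 * n : ℕ) : ℝ) ^ (1 - 1 / 2 : ℝ) / 2 := by
      field_simp
    rw [h4] at h3
    have h5 := sq_nonneg (Real.log ((2 * n : ℕ) : ℝ))
    nlinarith
  obtain ⟨n, ⟨⟨hc1, hc2⟩, hc3⟩, hn⟩ := (((c1.and c2).and c3).and
    (eventually_ge_atTop (max n0 1))).exists
  have hn1 : 1 ≤ n := (le_max_right _ _).trans hn
  have hn2 : n0 ≤ 2 * n := by have := (le_max_left n0 1).trans hn; omega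
  have hn0 : (0 : ℝ) < n := by exact_mod_cast hn1
  -- the end point
  obtain ⟨X, hX⟩ : ∃ X : ℤ, X = 2 * ⌊t * n⌋ := ⟨_, rfl⟩
  have htn : 2 ≤ t * n := by
    rw [div_le_iff₀ ht] at hc2
    linarith
  have hX1 : (X : ℝ) ≤ t * (2 * n) := by
    rw [hX]
    push_cast
    linarith [Int.floor_le (t * n)]
  have hX2 : t * n ≤ X := by
    rw [hX]
    push_cast
    linarith [Int.lt_floor_add_one (t * n)]
  have hX0 : 0 < X := by
    have : (0 : ℝ) < X := by linarith
    exact_mod_cast this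
  have hXn : X ≤ 2 * n := by
    have : (X : ℝ) ≤ 2 * n := by nlinarith
    exact_mod_cast this
  have hne : (X, 0) ≠ ((0, 0) : ℤ × ℤ) := by
    intro e
    have := (Prod.mk.inj e).1
    omega
  have g1 := (abs_le.1 (hldp (2 * n) (by omega) X 0 hne (by rw [hX]; push_cast; omega)
    (by rw [abs_of_pos hX0, abs_zero, add_zero]; exact_mod_cast hXn))).1
  have g2 : Rate ((X : ℝ) / ((2 * n : ℕ) : ℝ), ((0 : ℤ) : ℝ) / ((2 * n : ℕ) : ℝ)) ≤ 0 := by
    rw [h]
    have hp : (0 : ℝ) < ((2 * n : ℕ) : ℝ) := by exact_mod_cast (by omega : 0 < 2 * n)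
    have hX0r : (0 : ℝ) < X := by exact_mod_cast hX0
    rw [Int.cast_zero, zero_div]
    apply rate_mono
    · exact div_nonneg hX0r.le hp.le
    · rw [div_le_iff₀ hp]
      push_cast
      exact hX1
    · exact le_rfl
    · exact le_rfl
    · exact hdia
  have g3 := hfar (2 * n) hn2 X 0 (by
    have hp : (0 : ℝ) < ((2 * n : ℕ) : ℝ) := by exact_mod_cast (by omega : 0 < 2 * n)
    have hL : 0 < Real.log ((2 * n : ℕ) : ℝ) ^ b := lt_of_lt_of_le (by positivity) hc1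
    rw [div_le_iff₀ hL]
    push_cast at hc1 ⊢
    have h3 : t * n * (2 / t) ≤ X * Real.log (2 * (n : ℝ)) ^ b := by
      apply mul_le_mul hX2 hc1 (by positivity)
      have : (0 : ℝ) < X := by exact_mod_cast hX0
      exact this.le
    have h4 : t * n * (2 / t) = 2 * n := by field_simp
    linarith)
  have hc := c_pos (2 * n)
  have ha1 := one_le_a hne (show (X + 0 - ((2 * n : ℕ) : ℤ)) % 2 = 0 by
    rw [hX]; push_cast; omega) (by
    rw [abs_of_pos hX0, abs_zero, add_zero]; exact_mod_cast hXn)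
  have ha : (0 : ℝ) < a (2 * n) X 0 := by exact_mod_cast ha1
  rw [← div_le_iff₀ hc] at g3
  have g4 := Real.log_le_log (div_pos ha hc) g3
  rw [Real.log_exp] at g4
  have hp : (0 : ℝ) < ((2 * n : ℕ) : ℝ) := by exact_mod_cast (by omega : 0 < 2 * n)
  have g5 := mul_nonpos_of_nonneg_of_nonpos hp.le g2
  linarith

theorem rate_pos {x y : ℝ} (hx : 0 ≤ x) (hy : 0 ≤ y) (hxy : x + y ≤ 1) (h : 0 < x ∨ 0 < y) :
    0 < Rate (x, y) := by
  have hd := dia_quad hx hy hxy
  rcases h with h | h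
  · have h1 := rate_pos_axis h (by linarith)
    have h2 := rate_mono (v := (x, 0)) (v' := (x, y)) hx le_rfl le_rfl hy hd
    linarith
  · have h1 := rate_pos_axis h (by linarith)
    have h2 := rate_swap_le (dia_quad (le_refl 0) hy (by linarith))
    have h3 := rate_mono (v := (0, y)) (v' := (x, y)) le_rfl hx hy le_rfl hd
    linarith

/-- a lower bound for the rate function of the area -/
theorem le_jj {s : ℝ} (hs : 0 ≤ s) (hs4 : s ≤ 1 / 4) : Rate (√s, √s) ≤ JJ s := by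
  apply le_csInf (cs_ne hs4)
  rintro C ⟨k, p, x, y, hp, h1, hx, hy, hxy, ha, rfl⟩
  obtain ⟨EX, hEX⟩ : ∃ EX, EX = ∑ i, p i * x i := ⟨_, rfl⟩
  obtain ⟨EY, hEY⟩ : ∃ EY, EY = ∑ i, p i * y i := ⟨_, rfl⟩
  have hEX0 : 0 ≤ EX := by
    rw [hEX]; exact Finset.sum_nonneg fun i _ => mul_nonneg (hp i) (hx i)
  have hEY0 : 0 ≤ EY := by
    rw [hEY]; exact Finset.sum_nonneg fun i _ => mul_nonneg (hp i) (hy i)
  have hE1 : EX + EY ≤ 1 := by
    rw [hEX, hEY, ← Finset.sum_add_distrib, ← h1]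
    apply Finset.sum_le_sum
    intro i _
    have := mul_le_mul_of_nonneg_left (hxy i) (hp i)
    linarith
  have hA : s ≤ EX * EY := by
    rw [hEX, hEY]
    exact ha.trans (ar2_le hp hx hy)
  have g1 : Rate (EX, EY) ≤ ∑ i, p i * Rate (x i, y i) := by
    have := convex_rate.map_sum_le (t := Finset.univ) (w := p) (p := fun i => (x i, y i))
      (fun i _ => hp i) h1 (fun i _ => dia_quad (hx i) (hy i) (hxy i))
    have e1 : ∑ i, p i • ((x i, y i) : ℝ × ℝ) = (EX, EY) := by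
      rw [hEX, hEY]
      ext
      · simp [Prod.fst_sum]
      · simp [Prod.snd_sum]
    rw [e1] at this
    simpa only [smul_eq_mul] using this
  have hd := dia_quad hEX0 hEY0 hE1
  have g2 : Rate ((EX + EY) / 2, (EX + EY) / 2) ≤ Rate (EX, EY) := by
    have h2 := convex_rate.2 hd (dia_quad hEY0 hEX0 (by linarith))
      (show (0 : ℝ) ≤ 1 / 2 by norm_num) (show (0 : ℝ) ≤ 1 / 2 by norm_num) (by norm_num)
    have e1 : (1 / 2 : ℝ) • ((EX, EY) : ℝ × ℝ) + (1 / 2 : ℝ) • ((EY, EX) : ℝ × ℝ) =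
        ((EX + EY) / 2, (EX + EY) / 2) := by
      ext
      · simp only [Prod.fst_add, Prod.smul_fst, smul_eq_mul]; ring
      · simp only [Prod.snd_add, Prod.smul_snd, smul_eq_mul]; ring
    rw [e1] at h2
    simp only [smul_eq_mul] at h2
    have h3 := rate_swap_le hd
    linarith
  have g3 : √s ≤ (EX + EY) / 2 := by
    rw [Real.sqrt_le_left (by linarith)]
    nlinarith [sq_nonneg (EX - EY)]
  have g4 := rate_mono (v := (√s, √s)) (v' := ((EX + EY) / 2, (EX + EY) / 2)) (Real.sqrt_nonneg _)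
    g3 (Real.sqrt_nonneg _) g3 (dia_quad (by linarith) (by linarith) (by linarith))
  linarith

theorem jj_pos {s : ℝ} (hs : 0 < s) (hs4 : s ≤ 1 / 4) : 0 < JJ s := by
  have h1 := le_jj hs.le hs4
  have h0 : 0 < √s := Real.sqrt_pos.2 hs
  have h2 : √s ≤ 1 / 2 := by
    rw [Real.sqrt_le_left (by norm_num)]
    norm_num; linarith
  have h3 := rate_pos h0.le h0.le (by linarith) (Or.inl h0)
  linarith

/-- `J(s) / √s` is nondecreasing -/
theorem jj_ratio {s t : ℝ} (hs : 0 ≤ s) (hst : s ≤ t) (ht : t ≤ 1 / 4) :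
    JJ s * √t ≤ JJ t * √s := by
  rcases hs.lt_or_eq with h | h
  · have ht0 : 0 < t := lt_of_lt_of_le h hst
    have hst0 : 0 < √t := Real.sqrt_pos.2 ht0
    have h1 := jj_scale (s := t) (θ := √s / √t) ht (by positivity)
      (by rw [div_le_one hst0]; exact Real.sqrt_le_sqrt hst)
    have h2 : (√s / √t) ^ 2 * t = s := by
      rw [div_pow, Real.sq_sqrt h.le, Real.sq_sqrt ht0.le]
      field_simp
    rw [h2] at h1
    have h3 := mul_le_mul_of_nonneg_right h1 hst0.le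
    have h4 : √s / √t * JJ t * √t = JJ t * √s := by field_simp
    linarith
  · rw [← h, jj_nonpos le_rfl, Real.sqrt_zero]
    simp

theorem jj_strict {s t : ℝ} (hs : 0 ≤ s) (hst : s < t) (ht : t ≤ 1 / 4) : JJ s < JJ t := by
  have h1 := jj_pos (lt_of_le_of_lt hs hst) ht
  have h2 := jj_ratio hs hst.le ht
  have h3 : √s < √t := Real.sqrt_lt_sqrt hs hst
  have h4 : 0 < √t := lt_of_le_of_lt (Real.sqrt_nonneg _) h3
  by_contra hcon
  push Not at hcon
  nlinarith [jj_nonneg s]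

end Pool.Agent.U262.AR
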