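import Pool.Agent.U262.AR.U5
import Pool.Agent.U262.AR.G2

/-!
The large deviations of the number of the enclosed cells.
-/

set_option autoImplicit false

namespace Pool.Agent.U262.AR

open Pool.Agent.TH795.EP Pool.Agent.TH795.EP2 Pool.Agent.TH795.SE2 Pool.Agent.TH262.SawL H981 Finset
open Pool.Agent.Y981.L2 Pool.Agent.U262.SW
open Filter Topology

theorem LA_eq {n : ℕ} (hn : 2 ≤ n) (r : ℝ) :
    LA (2 * n) ⌈r⌉ = {f | IsLoop (2 * n) f ∧ r ≤ (AR.area (2 * n) f : ℝ)} := by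
  have : NeZero (2 * n) := ⟨by omega⟩
  ext f
  unfold LA
  rw [Set.mem_setOf_eq, Set.mem_setOf_eq]
  apply and_congr_right
  intro hf
  rw [sum_zmod (fun k => (f k).1 * ((f (k + 1)).2 - (f k).2)),
    ← area_eq hf.2.2 hf.2.1 (by omega), Int.ceil_le]
  push_cast
  exact Iff.rfl

theorem LA_pos {s : ℝ} (h0 : 0 ≤ s) (h1 : s < 1 / 4) :
    ∀ᶠ n : ℕ in atTop, (0 : ℝ) < (LA (2 * n) ⌈s * (n : ℝ) ^ 2⌉).ncard := by
  obtain ⟨C, k, p, x, y, hp, h2, hx, hy, hxy, ha, -⟩ := cs_ne (le_refl (1 / 4))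
  have h3 := area_lower p x y hp h2 hx hy hxy h0 (lt_of_lt_of_le h1 ha) one_pos
  filter_upwards [h3, eventually_ge_atTop 2] with n hn hn2
  exact lt_of_lt_of_le (mul_pos (Real.exp_pos _) (ln_pos hn2)) hn

/-- the polygons with the area in a window -/
def WA (n : ℕ) (s t : ℝ) : Set (ZMod (2 * n) → ℤ × ℤ) :=
  {f | IsLoop (2 * n) f ∧ s * (n : ℝ) ^ 2 ≤ AR.area (2 * n) f ∧
    (AR.area (2 * n) f : ℝ) ≤ t * (n : ℝ) ^ 2}

theorem window_limit {s t : ℝ} (h0 : 0 ≤ s) (h1 : s < 1 / 4) (hst : s < t) :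
    Tendsto (fun n : ℕ => Real.log (((WA n s t).ncard : ℝ) / ln n) / (2 * n)) atTop
      (𝓝 (-JJ s)) := by
  obtain ⟨t', ht1, ht2⟩ : ∃ t', s < t' ∧ t' < min t (1 / 4) := exists_between (lt_min hst h1)
  have ht3 : t' < t := lt_of_lt_of_le ht2 (min_le_left _ _)
  have ht4 : t' < 1 / 4 := lt_of_lt_of_le ht2 (min_le_right _ _)
  have hA := area_limit h0 h1
  have hB := area_limit (h0.trans ht1.le) ht4
  have hJ := jj_strict h0 ht1 ht4.le
  have hAp := LA_pos h0 h1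
  have hBp := LA_pos (h0.trans ht1.le) ht4
  have hD := (hA.sub hB).eventually_const_lt (show (JJ t' - JJ s) / 2 < -JJ s - -JJ t' by linarith)
  have hbig : ∀ᶠ n : ℕ in atTop, Real.log 2 / (JJ t' - JJ s) ≤ n :=
    tendsto_natCast_atTop_atTop.eventually_ge_atTop _
  have key : ∀ᶠ n : ℕ in atTop,
      Real.log (((LA (2 * n) ⌈s * (n : ℝ) ^ 2⌉).ncard : ℝ) / ln n) / (2 * n) -
        Real.log 2 / 2 / n ≤ Real.log (((WA n s t).ncard : ℝ) / ln n) / (2 * n) ∧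
      Real.log (((WA n s t).ncard : ℝ) / ln n) / (2 * n) ≤
      Real.log (((LA (2 * n) ⌈s * (n : ℝ) ^ 2⌉).ncard : ℝ) / ln n) / (2 * n) := by
    filter_upwards [hAp, hBp, hD, hbig, eventually_ge_atTop 2] with n h2 h3 h4 h5 h6
    have hn0 : (0 : ℝ) < n := by exact_mod_cast (by omega : 0 < n)
    have hln := ln_pos h6
    have hfinA := LA_fin (M := 2 * n) (by omega) ⌈s * (n : ℝ) ^ 2⌉
    have hfinB := LA_fin (M := 2 * n) (by omega) ⌈t' * (n : ℝ) ^ 2⌉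
    have hsub : WA n s t ⊆ LA (2 * n) ⌈s * (n : ℝ) ^ 2⌉ := by
      rw [LA_eq h6]
      rintro f ⟨g1, g2, -⟩
      exact ⟨g1, g2⟩
    have hsub2 : LA (2 * n) ⌈s * (n : ℝ) ^ 2⌉ ⊆ WA n s t ∪ LA (2 * n) ⌈t' * (n : ℝ) ^ 2⌉ := by
      rw [LA_eq h6, LA_eq h6]
      rintro f ⟨g1, g2⟩
      rcases le_or_gt (t' * (n : ℝ) ^ 2) (AR.area (2 * n) f : ℝ) with g3 | g3
      · exact Or.inr ⟨g1, g3⟩
      · refine Or.inl ⟨g1, g2, g3.le.trans ?_⟩
        exact mul_le_mul_of_nonneg_right ht3.le (by positivity)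
    have hfinW := hfinA.subset hsub
    have c1 : ((WA n s t).ncard : ℝ) ≤ (LA (2 * n) ⌈s * (n : ℝ) ^ 2⌉).ncard := by
      exact_mod_cast Set.ncard_le_ncard hsub hfinA
    have c2 : ((LA (2 * n) ⌈s * (n : ℝ) ^ 2⌉).ncard : ℝ) ≤
        (WA n s t).ncard + (LA (2 * n) ⌈t' * (n : ℝ) ^ 2⌉).ncard := by
      exact_mod_cast (Set.ncard_le_ncard hsub2 (hfinW.union hfinB)).trans (Set.ncard_union_le _ _)
    obtain ⟨A, hAd⟩ : ∃ A : ℝ, A = (LA (2 * n) ⌈s * (n : ℝ) ^ 2⌉).ncard := ⟨_, rfl⟩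
    obtain ⟨B, hBd⟩ : ∃ B : ℝ, B = (LA (2 * n) ⌈t' * (n : ℝ) ^ 2⌉).ncard := ⟨_, rfl⟩
    obtain ⟨W, hWd⟩ : ∃ W : ℝ, W = (WA n s t).ncard := ⟨_, rfl⟩
    rw [← hAd] at h2 h4 c1 c2 ⊢
    rw [← hBd] at h3 h4 c2
    rw [← hWd] at c1 c2 ⊢
    have c3 : B ≤ A / 2 := by
      rw [← sub_div, lt_div_iff₀ (by positivity), Real.log_div h2.ne' hln.ne',
        Real.log_div h3.ne' hln.ne'] at h4
      have hd : 0 < JJ t' - JJ s := by linarith
      rw [div_le_iff₀ hd] at h5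
      have c4 : Real.log 2 + Real.log B ≤ Real.log A := by nlinarith
      rw [← Real.log_mul (by norm_num) h3.ne'] at c4
      have c5 := (Real.log_le_log_iff (by positivity) h2).1 c4
      linarith
    have c6 : A / 2 ≤ W := by linarith
    have c7 : 0 < W := lt_of_lt_of_le (by positivity) c6
    constructor
    · have e1 : Real.log (A / ln n) - Real.log 2 ≤ Real.log (W / ln n) := by
        rw [Real.log_div h2.ne' hln.ne', Real.log_div c7.ne' hln.ne']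
        have := Real.log_le_log (by positivity) c6
        rw [Real.log_div h2.ne' (by norm_num)] at this
        linarith
      have e2 : Real.log (A / ln n) / (2 * n) - Real.log 2 / 2 / n =
          (Real.log (A / ln n) - Real.log 2) / (2 * n) := by
        field_simp
      rw [e2]
      exact div_le_div_of_nonneg_right e1 (by positivity)
    · apply div_le_div_of_nonneg_right _ (by positivity)
      exact Real.log_le_log (by positivity) (div_le_div_of_nonneg_right c1 hln.le)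
  have hlow : Tendsto (fun n : ℕ =>
      Real.log (((LA (2 * n) ⌈s * (n : ℝ) ^ 2⌉).ncard : ℝ) / ln n) / (2 * n) -
        Real.log 2 / 2 / n) atTop (𝓝 (-JJ s)) := by
    have := hA.sub (tendsto_const_div_atTop_nhds_zero_nat (Real.log 2 / 2))
    rwa [sub_zero] at this
  exact tendsto_of_tendsto_of_tendsto_of_le_of_le' hlow hA (key.mono fun n h => h.1)
    (key.mono fun n h => h.2)

theorem rate_swap {x y : ℝ} (hv : ((x, y) : ℝ × ℝ) ∈ Dia) : Rate (y, x) = Rate (x, y) := by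
  apply le_antisymm (rate_swap_le hv)
  apply rate_swap_le
  show |y| + |x| ≤ 1
  have : |x| + |y| ≤ 1 := hv
  linarith

theorem jj_le' {s : ℝ} (hs : 0 ≤ s) (hs4 : s ≤ 1 / 4) : JJ s ≤ 2 * √s * Rate (1, 0) := by
  have h1 : √s ≤ 1 / 2 := by
    rw [Real.sqrt_le_left (by norm_num)]
    norm_num; linarith
  have h2 := cs_mix (le_refl 0) (θ := 2 * √s) (by positivity) (by linarith) cs_zero
  have h3 := csInf_le (cs_bdd _) h2
  have h4 : ((1 - 2 * √s) * √0 + 2 * √s / 2) ^ 2 = s := by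
    rw [Real.sqrt_zero, mul_zero, zero_add, mul_div_cancel_left₀ _ (by norm_num : (2 : ℝ) ≠ 0),
      Real.sq_sqrt hs]
  rw [h4] at h3
  have h5 := rate_swap (dia_quad (by norm_num : (0 : ℝ) ≤ 1) le_rfl (by norm_num))
  rw [h5] at h3
  unfold JJ
  refine h3.trans (le_of_eq ?_)
  ring

/-- **The uniform upper bound** for the area. -/
theorem area_upper' : ∃ K : ℝ, 0 ≤ K ∧ ∀ n : ℕ, 2 ≤ n → ∀ k : ℕ, 2 ≤ k → k ≤ n → ∀ s : ℝ,
    ({f | IsLoop (2 * n) f ∧ s * (n : ℝ) ^ 2 ≤ (AR.area (2 * n) f : ℝ)}.ncard : ℝ) / ln n ≤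
      Real.exp (K * k * Real.log n ^ 2 - 2 * n * JJ (s - 6 / k)) := by
  obtain ⟨K, hK, h⟩ := area_upper
  refine ⟨K, hK, ?_⟩
  intro n hn k hk hkn s
  have hn0 : (0 : ℝ) < n := by exact_mod_cast (by omega : 0 < n)
  have h1 := h n hn k hk hkn ⌈s * (n : ℝ) ^ 2⌉ (s - 6 / k) (by
    apply sub_le_sub_right
    rw [le_div_iff₀ (by positivity)]
    exact Int.le_ceil _)
  rw [← LA_eq hn, div_le_iff₀ (ln_pos hn)]
  exact h1

end Pool.Agent.U262.AR
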