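import Pool.Agent.U262.AR.U7

/-!
The duality between the free energy of the pulled walk and the rate function of its end point; the
level sets of the free energy.
-/

set_option autoImplicit false

namespace Pool.Agent.U262.AR

open Pool.Agent.TH795.EP Pool.Agent.TH795.EP2 Pool.Agent.TH795.SE2 Pool.Agent.TH262.SawL H981 Finset
open Pool.Agent.Y981.L2 Pool.Agent.U262.SW
open Filter Topology

theorem lam_dual (l : ℝ × ℝ) {ε : ℝ} (hε : 0 < ε) :
    ∃ v ∈ Dia, Lam l ≤ l.1 * v.1 + l.2 * v.2 - Rate v + ε := by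
  by_contra hcon
  push Not at hcon
  obtain ⟨K, hK, hb⟩ := block_le
  have hmu := mu_pos
  have hsm := small_log (A := 18 + K) (B := 1) hε
  obtain ⟨n, hn1, hn2⟩ := (hsm.and (eventually_ge_atTop 2)).exists
  have hn0 : (0 : ℝ) < n := by exact_mod_cast (by omega : 0 < n)
  have hterm : ∀ z ∈ Bx n, (a n z.1 z.2 : ℝ) * Real.exp (l.1 * z.1 + l.2 * z.2) ≤
      q n K * (mu ^ n * Real.exp (n * (Lam l - ε))) := by
    intro z _
    have hR : 0 ≤ q n K * (mu ^ n * Real.exp (n * (Lam l - ε))) :=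
      mul_nonneg (q_pos _ _).le (mul_nonneg (pow_nonneg hmu.le _) (Real.exp_pos _).le)
    rcases Nat.eq_zero_or_pos (a n z.1 z.2) with h0 | h0
    · rw [h0, Nat.cast_zero, zero_mul]
      exact hR
    obtain ⟨w, -, hwx, hwy, hwl⟩ := exists_of_a h0
    have b1 := abs_add_abs_le w
    rw [hwx, hwy, hwl] at b1
    have hd := mem_dia (show 1 ≤ n by omega) b1
    have h1 := hb n hn2 n le_rfl z.1 z.2 h0
    have h2 := rate_abs hd
    simp only [abs_div, abs_of_pos hn0] at h2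
    rw [h2] at h1
    have h3 := hcon _ hd
    simp only at h3
    calc (a n z.1 z.2 : ℝ) * Real.exp (l.1 * z.1 + l.2 * z.2)
        ≤ (q n K * (mu ^ n * Real.exp (-(n * Rate ((z.1 : ℝ) / n, (z.2 : ℝ) / n))))) *
          Real.exp (l.1 * z.1 + l.2 * z.2) := mul_le_mul_of_nonneg_right h1 (Real.exp_pos _).le
      _ = q n K * (mu ^ n * Real.exp (-(n * Rate ((z.1 : ℝ) / n, (z.2 : ℝ) / n)) +
          (l.1 * z.1 + l.2 * z.2))) := by
          rw [Real.exp_add (-(n * Rate ((z.1 : ℝ) / n, (z.2 : ℝ) / n)))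
            (l.1 * z.1 + l.2 * z.2)]
          ring
      _ ≤ _ := by
          apply mul_le_mul_of_nonneg_left _ (q_pos _ _).le
          apply mul_le_mul_of_nonneg_left _ (pow_nonneg hmu.le _)
          apply Real.exp_le_exp.2
          have e1 : l.1 * z.1 + l.2 * z.2 = n * (l.1 * (z.1 / n) + l.2 * (z.2 / n)) := by
            field_simp
          rw [e1, ← mul_neg, ← mul_add]
          apply mul_le_mul_of_nonneg_left _ hn0.le
          linarith
  have h4 : Z l n ≤ (2 * n + 1) ^ 2 * (q n K * (mu ^ n * Real.exp (n * (Lam l - ε)))) := by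
    rw [Z_eq]
    refine (Finset.sum_le_card_nsmul _ _ _ hterm).trans (le_of_eq ?_)
    rw [card_Bx, nsmul_eq_mul]
    push_cast
    ring
  have h5 : ((2 * n + 1 : ℝ)) ^ 2 ≤ q n 18 := by
    have e1 : (2 * n + 1) ^ 2 ≤ n ^ 6 := by
      have e2 : 2 * n + 1 ≤ n ^ 3 := by
        have : 2 ^ 2 ≤ n ^ 2 := Nat.pow_le_pow_left hn2 2
        have e3 : n ^ 3 = n ^ 2 * n := by ring
        rw [e3]
        nlinarith
      calc (2 * n + 1) ^ 2 ≤ (n ^ 3) ^ 2 := Nat.pow_le_pow_left e2 2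
        _ = n ^ 6 := by ring
    have e4 := pow_le_q hn2 6
    have e5 : ((2 * n + 1 : ℝ)) ^ 2 ≤ (n : ℝ) ^ 6 := by exact_mod_cast e1
    refine e5.trans (e4.trans (le_of_eq ?_))
    norm_num
  have h6 := Lam_le l (show 1 ≤ n by omega)
  have h7 : Real.log (Z l n) ≤ (18 + K) * Real.log n ^ 2 + n * Real.log mu + n * (Lam l - ε) := by
    have e1 : Z l n ≤ q n (18 + K) * (mu ^ n * Real.exp (n * (Lam l - ε))) := by
      refine h4.trans ?_
      rw [← q_mul, mul_assoc]
      apply mul_le_mul_of_nonneg_right h5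
      exact mul_nonneg (q_pos _ _).le (mul_nonneg (pow_nonneg hmu.le _) (Real.exp_pos _).le)
    have e2 := Real.log_le_log (Z_pos l n) e1
    rw [Real.log_mul (q_pos _ _).ne' (by positivity), Real.log_mul (by positivity) (by positivity),
      Real.log_exp, Real.log_pow] at e2
    have e3 : Real.log (q n (18 + K)) = (18 + K) * Real.log n ^ 2 := by
      unfold q; rw [Real.log_exp]
    rw [e3] at e2
    linarith
  nlinarith

theorem lam_lip (l m : ℝ × ℝ) : Lam l ≤ Lam m + |l.1 - m.1| + |l.2 - m.2| := by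
  apply le_of_forall_pos_le_add
  intro ε hε
  obtain ⟨v, hv, h1⟩ := lam_dual l hε
  have h2 := le_rate hv m
  have hd : |v.1| + |v.2| ≤ 1 := hv
  have h3 : (l.1 - m.1) * v.1 ≤ |l.1 - m.1| := by
    refine (le_abs_self _).trans ?_
    rw [abs_mul]
    have := abs_nonneg v.2
    have := abs_nonneg (l.1 - m.1)
    nlinarith
  have h4 : (l.2 - m.2) * v.2 ≤ |l.2 - m.2| := by
    refine (le_abs_self _).trans ?_
    rw [abs_mul]
    have := abs_nonneg v.1
    have := abs_nonneg (l.2 - m.2)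
    nlinarith
  linarith

theorem lam_convex {l m : ℝ × ℝ} {α β : ℝ} (hα : 0 ≤ α) (hβ : 0 ≤ β) (hαβ : α + β = 1) :
    Lam (α * l.1 + β * m.1, α * l.2 + β * m.2) ≤ α * Lam l + β * Lam m := by
  apply le_of_forall_pos_le_add
  intro ε hε
  obtain ⟨v, hv, h1⟩ := lam_dual (α * l.1 + β * m.1, α * l.2 + β * m.2) hε
  have h2 := mul_le_mul_of_nonneg_left (le_rate hv l) hα
  have h3 := mul_le_mul_of_nonneg_left (le_rate hv m) hβ
  simp only at h1
  have h4 : α * Rate v + β * Rate v = Rate v := by rw [← add_mul, hαβ, one_mul]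
  nlinarith

theorem continuous_lam : Continuous Lam := by
  rw [continuous_iff_continuousAt]
  intro m
  rw [ContinuousAt, tendsto_iff_norm_sub_tendsto_zero]
  have h1 : Tendsto (fun l : ℝ × ℝ => |l.1 - m.1| + |l.2 - m.2|) (𝓝 m) (𝓝 0) := by
    have h2 : Continuous fun l : ℝ × ℝ => |l.1 - m.1| + |l.2 - m.2| := by fun_prop
    have h3 := h2.tendsto m
    simpa using h3
  apply squeeze_zero (fun _ => norm_nonneg _) _ h1
  intro l
  have h2 := lam_lip l m
  have h3 := lam_lip m l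
  rw [abs_sub_comm m.1, abs_sub_comm m.2] at h3
  rw [Real.norm_eq_abs, abs_le]
  constructor <;> linarith

theorem lam_zero : Lam (0, 0) = 0 := psi_zero

/-- monotonicity in the quadrant -/
theorem lam_mono {x y x' y' : ℝ} (hx : 0 ≤ x) (hxx : x ≤ x') (hy : 0 ≤ y) (hyy : y ≤ y') :
    Lam (x, y) ≤ Lam (x', y') := by
  have key : ∀ {x x' y : ℝ}, 0 ≤ x → x ≤ x' → Lam (x, y) ≤ Lam (x', y) := by
    intro x x' y hx hxx
    rcases hxx.eq_or_lt with h | h
    · rw [h]
    have hx' : 0 < x' := lt_of_le_of_lt hx h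
    have h1 := lam_convex (l := (x', y)) (m := (-x', y)) (α := (x' + x) / (2 * x'))
      (β := (x' - x) / (2 * x')) (div_nonneg (by linarith) (by linarith))
      (div_nonneg (by linarith) (by linarith)) (by field_simp; ring)
    have h2 : Lam (-x', y) = Lam (x', y) := Lam_sg (x', y)
    rw [h2] at h1
    simp only at h1
    have e1 : (x' + x) / (2 * x') * x' + (x' - x) / (2 * x') * -x' = x := by field_simp; ring
    have e2 : (x' + x) / (2 * x') * y + (x' - x) / (2 * x') * y = y := by field_simp; ring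
    have e3 : (x' + x) / (2 * x') * Lam (x', y) + (x' - x) / (2 * x') * Lam (x', y) =
        Lam (x', y) := by field_simp; ring
    rw [e1, e2, e3] at h1
    exact h1
  have h1 := key (y := y) hx hxx
  have h2 : Lam (x', y) ≤ Lam (x', y') := by
    have h3 := key (y := x') hy hyy
    have h4 := Lam_swap (x', y)
    have h5 := Lam_swap (x', y')
    simp only at h4 h5
    rw [h4, h5] at h3
    exact h3
  exact h1.trans h2

theorem lam_abs (x y : ℝ) : Lam (|x|, |y|) = Lam (x, y) := by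
  have h1 : Lam (|x|, |y|) = Lam (x, |y|) := by
    rcases abs_cases x with ⟨h, _⟩ | ⟨h, _⟩
    · rw [h]
    · rw [h]; exact Lam_sg (x, |y|)
  rw [h1]
  rcases abs_cases y with ⟨h, _⟩ | ⟨h, _⟩
  · rw [h]
  · rw [h]; exact Lam_ng (x, y)

/-! ### the level sets -/

/-- the heights over `x` -/
def hset (h x : ℝ) : Set ℝ := {y | 0 ≤ y ∧ Lam (x, y) ≤ h}

/-- the upper boundary -/
noncomputable def gg (h x : ℝ) : ℝ := sSup (hset h x)

theorem hset_bdd (h x : ℝ) : BddAbove (hset h x) := by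
  refine ⟨h + Real.log mu, ?_⟩
  rintro y ⟨hy, hl⟩
  have := (abs_le_Lam (x, y)).2
  simp only at this
  rw [abs_of_nonneg hy] at this
  linarith

theorem hset_closed (h x : ℝ) : IsClosed (hset h x) := by
  have h1 : hset h x = Set.Ici 0 ∩ (fun y => Lam (x, y)) ⁻¹' Set.Iic h := rfl
  rw [h1]
  apply isClosed_Ici.inter
  apply isClosed_Iic.preimage
  exact continuous_lam.comp (by fun_prop)

theorem gg_mem {h x : ℝ} (hx : Lam (x, 0) ≤ h) : 0 ≤ gg h x ∧ Lam (x, gg h x) ≤ h :=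
  (hset_closed h x).csSup_mem ⟨0, le_rfl, hx⟩ (hset_bdd h x)

theorem le_gg {h x y : ℝ} (hy : 0 ≤ y) (hl : Lam (x, y) ≤ h) : y ≤ gg h x :=
  le_csSup (hset_bdd h x) ⟨hy, hl⟩

theorem gg_anti {h x x' : ℝ} (hx : 0 ≤ x) (hxx : x ≤ x') (hl : Lam (x', 0) ≤ h) :
    gg h x' ≤ gg h x := by
  obtain ⟨h1, h2⟩ := gg_mem hl
  exact le_gg h1 ((lam_mono hx hxx h1 le_rfl).trans h2)

theorem gg_concave {h x x' α β : ℝ} (hx : Lam (x, 0) ≤ h) (hx' : Lam (x', 0) ≤ h) (hα : 0 ≤ α)
    (hβ : 0 ≤ β) (hαβ : α + β = 1) : α * gg h x + β * gg h x' ≤ gg h (α * x + β * x') := by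
  obtain ⟨h1, h2⟩ := gg_mem hx
  obtain ⟨h3, h4⟩ := gg_mem hx'
  apply le_gg (by positivity)
  have h5 := lam_convex (l := (x, gg h x)) (m := (x', gg h x')) hα hβ hαβ
  simp only at h5
  have h6 : α * Lam (x, gg h x) + β * Lam (x', gg h x') ≤ h := by
    have e1 := mul_le_mul_of_nonneg_left h2 hα
    have e2 := mul_le_mul_of_nonneg_left h4 hβ
    have e3 : α * h + β * h = h := by rw [← add_mul, hαβ, one_mul]
    linarith
  exact h5.trans h6

/-- the end of the level set on the axis -/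
noncomputable def LL (h : ℝ) : ℝ := gg h 0

theorem LL_mem {h : ℝ} (hh : 0 ≤ h) : 0 ≤ LL h ∧ Lam (LL h, 0) ≤ h := by
  obtain ⟨h1, h2⟩ := gg_mem (h := h) (x := 0) (by rw [lam_zero]; exact hh)
  refine ⟨h1, ?_⟩
  have h3 := Lam_swap (0, LL h)
  simp only at h3
  rw [h3]
  exact h2

theorem lam_x {h x : ℝ} (hh : 0 ≤ h) (hx : 0 ≤ x) (hxL : x ≤ LL h) : Lam (x, 0) ≤ h :=
  (lam_mono hx hxL le_rfl le_rfl).trans (LL_mem hh).2

theorem le_LL {h x y : ℝ} (hx : 0 ≤ x) (hy : 0 ≤ y) (hl : Lam (x, y) ≤ h) : x ≤ LL h := by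
  apply le_gg hx
  have h1 := Lam_swap (x, 0)
  simp only at h1
  rw [h1]
  exact (lam_mono hx le_rfl le_rfl hy).trans hl

end Pool.Agent.U262.AR
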