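import Pool.Agent.U262.AR.V1

/-!
The lower bound for the rate function of the area by the area of the level sets of the free energy.
-/

set_option autoImplicit false

namespace Pool.Agent.U262.AR

open Pool.Agent.TH795.EP Pool.Agent.TH795.EP2 Pool.Agent.TH795.SE2 Pool.Agent.TH262.SawL H981 Finset
open Pool.Agent.Y981.L2 Pool.Agent.U262.SW
open Filter Topology

/-- the step -/
noncomputable def dl (h : ℝ) (N : ℕ) : ℝ := LL h / N

/-- the heights at the points of the partition -/
noncomputable def GG (h : ℝ) (N j : ℕ) : ℝ := if j ≤ N then gg h (j * dl h N) else 0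

/-- the horizontal parts of the edges -/
noncomputable def al (h : ℝ) (N j : ℕ) : ℝ := if j < N then dl h N else 0

/-- the vertical parts of the edges -/
noncomputable def be (h : ℝ) (N j : ℕ) : ℝ := GG h N j - GG h N (j + 1)

section

variable {h : ℝ} {N : ℕ}

theorem dl_nonneg (hh : 0 ≤ h) : 0 ≤ dl h N := div_nonneg (LL_mem hh).1 (Nat.cast_nonneg _)

theorem N_dl (hN : 1 ≤ N) : N * dl h N = LL h := by
  unfold dl
  have : (N : ℝ) ≠ 0 := by exact_mod_cast (by omega : N ≠ 0)
  field_simp

theorem j_dl (hh : 0 ≤ h) (hN : 1 ≤ N) {j : ℕ} (hj : j ≤ N) : 0 ≤ j * dl h N ∧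
    j * dl h N ≤ LL h ∧ Lam (j * dl h N, 0) ≤ h := by
  have h1 := dl_nonneg (N := N) hh
  have h2 : j * dl h N ≤ LL h := by
    rw [← N_dl (h := h) hN]
    exact mul_le_mul_of_nonneg_right (by exact_mod_cast hj) h1
  have h3 : 0 ≤ j * dl h N := mul_nonneg (Nat.cast_nonneg _) h1
  exact ⟨h3, h2, lam_x hh h3 h2⟩

theorem GG_le (hh : 0 ≤ h) (hN : 1 ≤ N) {j : ℕ} (hj : j ≤ N) : 0 ≤ GG h N j ∧
    Lam (j * dl h N, GG h N j) ≤ h := by
  unfold GG
  rw [if_pos hj]
  exact gg_mem (j_dl hh hN hj).2.2

theorem GG_end : GG h N (N + 1) = 0 := by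
  unfold GG
  rw [if_neg (by omega)]

theorem GG_zero : GG h N 0 = LL h := by
  unfold GG LL
  rw [if_pos (Nat.zero_le _), Nat.cast_zero, zero_mul]

theorem be_nonneg (hh : 0 ≤ h) (hN : 1 ≤ N) {j : ℕ} (hj : j ≤ N) : 0 ≤ be h N j := by
  unfold be
  rcases hj.eq_or_lt with e | e
  · rw [e, GG_end, sub_zero]
    exact (GG_le hh hN le_rfl).1
  · unfold GG
    rw [if_pos hj, if_pos (by omega)]
    have h1 := gg_anti (h := h) (x := j * dl h N) (x' := ((j + 1 : ℕ) : ℝ) * dl h N)
      (j_dl hh hN hj).1 (mul_le_mul_of_nonneg_right (by push_cast; linarith) (dl_nonneg hh))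
      (j_dl hh hN (by omega)).2.2
    linarith

theorem al_nonneg (hh : 0 ≤ h) (j : ℕ) : 0 ≤ al h N j := by
  unfold al
  split_ifs
  · exact dl_nonneg hh
  · exact le_rfl

theorem be_step (hh : 0 ≤ h) (hN : 1 ≤ N) {j : ℕ} (hj : j + 2 ≤ N) : be h N j ≤ be h N (j + 1) := by
  unfold be GG
  rw [if_pos (by omega), if_pos (by omega), if_pos (by omega)]
  have h1 := gg_concave (h := h) (x := j * dl h N) (x' := ((j + 1 + 1 : ℕ) : ℝ) * dl h N)
    (j_dl hh hN (by omega)).2.2 (j_dl hh hN (by omega)).2.2 (show (0 : ℝ) ≤ 1 / 2 by norm_num)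
    (show (0 : ℝ) ≤ 1 / 2 by norm_num) (by norm_num)
  have e : 1 / 2 * (j * dl h N) + 1 / 2 * (((j + 1 + 1 : ℕ) : ℝ) * dl h N) =
      ((j + 1 : ℕ) : ℝ) * dl h N := by push_cast; ring
  rw [e] at h1
  linarith

theorem be_mono (hh : 0 ≤ h) (hN : 1 ≤ N) {i j : ℕ} (hij : i ≤ j) (hj : j < N) :
    be h N i ≤ be h N j := by
  induction j, hij using Nat.le_induction with
  | base => exact le_rfl
  | succ j hij ih => exact (ih (by omega)).trans (be_step hh hN (by omega))

/-- the support function -/
theorem support_le (hh : 0 ≤ h) (hN : 1 ≤ N) {x y : ℝ} (hx : 0 ≤ x) (hy : 0 ≤ y)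
    (hxy : x + y ≤ 1) : ∑ j ∈ range (N + 1), max (x * al h N j) (be h N j * y) ≤
      Rate (x, y) + h := by
  classical
  have hex : ∃ j, N ≤ j ∨ x * dl h N < be h N j * y := ⟨N, Or.inl le_rfl⟩
  obtain ⟨r, hr⟩ : ∃ r, r = Nat.find hex := ⟨_, rfl⟩
  have hr1 := Nat.find_spec hex
  rw [← hr] at hr1
  have hr2 : ∀ j < r, j < N ∧ be h N j * y ≤ x * dl h N := by
    intro j hj
    have := Nat.find_min hex (hr ▸ hj)
    push Not at this
    exact this
  have hrN : r ≤ N := by
    by_contra hcon
    push Not at hcon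
    have := (hr2 N hcon).1
    omega
  have h1 : ∀ j ∈ range (N + 1), max (x * al h N j) (be h N j * y) =
      if j < r then x * dl h N else be h N j * y := by
    intro j hj
    rw [Finset.mem_range] at hj
    split_ifs with hjr
    · obtain ⟨g1, g2⟩ := hr2 j hjr
      unfold al
      rw [if_pos g1]
      exact max_eq_left g2
    · unfold al
      split_ifs with hjN
      · apply max_eq_right
        rcases hr1 with g | g
        · omega
        · exact g.le.trans (mul_le_mul_of_nonneg_right (be_mono hh hN (by omega) hjN) hy)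
      · rw [mul_zero]
        exact max_eq_right (mul_nonneg (be_nonneg hh hN (by omega)) hy)
  rw [Finset.sum_congr rfl h1]
  have h2 : ∑ j ∈ range (N + 1), (if j < r then x * dl h N else be h N j * y) =
      x * (r * dl h N) + GG h N r * y := by
    have e1 : ∀ m, r ≤ m → ∑ j ∈ range m, (if j < r then x * dl h N else be h N j * y) =
        x * (r * dl h N) + (GG h N r - GG h N m) * y := by
      intro m hm
      induction m, hm using Nat.le_induction with
      | base =>
        rw [sub_self, zero_mul, add_zero]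
        rw [Finset.sum_congr rfl (g := fun _ => x * dl h N) (fun j hj => by
          rw [Finset.mem_range] at hj; rw [if_pos hj])]
        rw [Finset.sum_const, Finset.card_range, nsmul_eq_mul]
        ring
      | succ m hm ih =>
        rw [Finset.sum_range_succ, ih, if_neg (by omega)]
        unfold be
        ring
    rw [e1 (N + 1) (by omega), GG_end, sub_zero]
  rw [h2]
  have h3 := le_rate (dia_quad hx hy hxy) (r * dl h N, GG h N r)
  have h4 := (GG_le hh hN hrN).2
  simp only at h3
  linarith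

/-- the area under the arc -/
theorem arc_ge (hh : 0 ≤ h) (hN : 1 ≤ N) :
    ∑ j ∈ range N, dl h N * GG h N (j + 1) ≤
      mx (fun _ : Fin (N + 1) => 1) (fun i => be h N i) (fun i => al h N i)
        (fun _ : Fin (N + 1) => 1) (fun i => be h N i) (fun i => al h N i) := by
  classical
  unfold mx
  simp only [one_mul]
  rw [Fin.sum_univ_eq_sum_range (fun i => ∑ j : Fin (N + 1), max (be h N i * al h N j)
    (be h N j * al h N i)) (N + 1)]
  have e0 : ∀ i, ∑ j : Fin (N + 1), max (be h N i * al h N j) (be h N j * al h N i) =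
      ∑ j ∈ range (N + 1), max (be h N i * al h N j) (be h N j * al h N i) := fun i =>
    Fin.sum_univ_eq_sum_range (fun j => max (be h N i * al h N j) (be h N j * al h N i)) (N + 1)
  simp only [e0]
  -- the terms off the diagonal
  have h1 : ∑ i ∈ range (N + 1), ∑ j ∈ range (N + 1), ((if j < i then be h N i * al h N j else 0) +
      (if i < j then be h N j * al h N i else 0)) ≤
      ∑ i ∈ range (N + 1), ∑ j ∈ range (N + 1), max (be h N i * al h N j)
        (be h N j * al h N i) := by
    apply Finset.sum_le_sum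
    intro i hi
    apply Finset.sum_le_sum
    intro j hj
    rw [Finset.mem_range] at hi hj
    rcases lt_trichotomy i j with g | g | g
    · rw [if_neg (by omega), if_pos g, zero_add]
      exact le_max_right _ _
    · rw [if_neg (by omega), if_neg (by omega), zero_add, g]
      exact (mul_nonneg (be_nonneg hh hN (by omega)) (al_nonneg hh j)).trans (le_max_left _ _)
    · rw [if_pos g, if_neg (by omega), add_zero]
      exact le_max_left _ _
  have h2 : ∑ i ∈ range (N + 1), ∑ j ∈ range (N + 1), (if i < j then be h N j * al h N i else 0) =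
      ∑ j ∈ range N, dl h N * GG h N (j + 1) := by
    have e1 : ∀ i ∈ range (N + 1), ∑ j ∈ range (N + 1),
        (if i < j then be h N j * al h N i else 0) = al h N i * GG h N (i + 1) := by
      intro i hi
      rw [Finset.mem_range] at hi
      have e2 : ∀ m, i + 1 ≤ m → ∑ j ∈ range m, (if i < j then be h N j * al h N i else 0) =
          al h N i * (GG h N (i + 1) - GG h N m) := by
        intro m hm
        induction m, hm using Nat.le_induction with
        | base =>
          rw [sub_self, mul_zero]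
          apply Finset.sum_eq_zero
          intro j hj
          rw [Finset.mem_range] at hj
          rw [if_neg (by omega)]
        | succ m hm ih =>
          rw [Finset.sum_range_succ, ih, if_pos (by omega)]
          unfold be
          ring
      rw [e2 (N + 1) (by omega), GG_end, sub_zero]
    rw [Finset.sum_congr rfl e1, Finset.sum_range_succ]
    have e3 : al h N N = 0 := by unfold al; rw [if_neg (lt_irrefl _)]
    rw [e3, zero_mul, add_zero]
    apply Finset.sum_congr rfl
    intro j hj
    rw [Finset.mem_range] at hj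
    unfold al
    rw [if_pos hj]
  have h3 : ∑ i ∈ range (N + 1), ∑ j ∈ range (N + 1), (if j < i then be h N i * al h N j else 0) =
      ∑ j ∈ range N, dl h N * GG h N (j + 1) := by
    rw [Finset.sum_comm, ← h2]
  have h4 : ∑ i ∈ range (N + 1), ∑ j ∈ range (N + 1), ((if j < i then be h N i * al h N j else 0) +
      (if i < j then be h N j * al h N i else 0)) =
      2 * ∑ j ∈ range N, dl h N * GG h N (j + 1) := by
    have e1 : ∀ i, ∑ j ∈ range (N + 1), ((if j < i then be h N i * al h N j else 0) +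
        (if i < j then be h N j * al h N i else 0)) =
        ∑ j ∈ range (N + 1), (if j < i then be h N i * al h N j else 0) +
        ∑ j ∈ range (N + 1), (if i < j then be h N j * al h N i else 0) := fun i =>
      Finset.sum_add_distrib
    simp only [e1]
    rw [Finset.sum_add_distrib, h2, h3]
    ring
  linarith

/-- the measure of the level set -/
noncomputable def VV (h : ℝ) : ℝ := (MeasureTheory.volume {l : ℝ × ℝ | Lam l ≤ h}).toReal

theorem exists_cell {δ : ℝ} : ∀ (N : ℕ), 1 ≤ N → ∀ t : ℝ, 0 ≤ t → t ≤ N * δ →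
    ∃ j < N, j * δ ≤ t ∧ t ≤ ((j : ℝ) + 1) * δ := by
  intro N hN
  induction N, hN using Nat.le_induction with
  | base =>
    intro t h1 h2
    exact ⟨0, by omega, by simpa using h1, by simpa using h2⟩
  | succ N hN ih =>
    intro t h1 h2
    rcases le_or_gt (N * δ) t with h3 | h3
    · exact ⟨N, by omega, h3, by push_cast at h2; exact h2⟩
    · obtain ⟨j, hj, h4, h5⟩ := ih t h1 h3.le
      exact ⟨j, by omega, h4, h5⟩

open MeasureTheory in
theorem VV_le (hh : 0 ≤ h) (hN : 1 ≤ N) : VV h ≤ 4 * ∑ j ∈ range N, dl h N * GG h N j := by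
  have hd := dl_nonneg (N := N) hh
  have hcov : {l : ℝ × ℝ | Lam l ≤ h} ⊆ ⋃ j ∈ range N,
      ((Set.Icc (j * dl h N) (((j : ℝ) + 1) * dl h N) ×ˢ Set.Icc (-GG h N j) (GG h N j)) ∪
        (Set.Icc (-(((j : ℝ) + 1) * dl h N)) (-(j * dl h N)) ×ˢ
          Set.Icc (-GG h N j) (GG h N j))) := by
    rintro ⟨x, y⟩ hl
    rw [Set.mem_setOf_eq, ← lam_abs] at hl
    have h1 := le_LL (abs_nonneg x) (abs_nonneg y) hl
    obtain ⟨j, hj, h2, h3⟩ := exists_cell N hN |x| (abs_nonneg x) (by rw [N_dl hN]; exact h1)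
    have h4 : |y| ≤ GG h N j := by
      unfold GG
      rw [if_pos hj.le]
      apply le_gg (abs_nonneg y)
      exact (lam_mono (j_dl hh hN hj.le).1 h2 (abs_nonneg y) le_rfl).trans hl
    rw [abs_le] at h4
    rw [Set.mem_iUnion₂]
    refine ⟨j, Finset.mem_range.2 hj, ?_⟩
    rcases abs_cases x with ⟨e, _⟩ | ⟨e, _⟩
    · rw [e] at h2 h3
      exact Or.inl ⟨⟨h2, h3⟩, h4⟩
    · rw [e] at h2 h3
      exact Or.inr ⟨⟨by simp only; linarith, by simp only; linarith⟩, h4⟩
  have hvol : ∀ j ∈ range N, volume ((Set.Icc (j * dl h N) (((j : ℝ) + 1) * dl h N) ×ˢ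
      Set.Icc (-GG h N j) (GG h N j)) ∪ (Set.Icc (-(((j : ℝ) + 1) * dl h N)) (-(j * dl h N)) ×ˢ
          Set.Icc (-GG h N j) (GG h N j))) ≤ ENNReal.ofReal (4 * (dl h N * GG h N j)) := by
    intro j hj
    rw [Finset.mem_range] at hj
    have hG := (GG_le hh hN hj.le).1
    refine (measure_union_le _ _).trans ?_
    rw [Measure.volume_eq_prod, Measure.prod_prod, Measure.prod_prod, Real.volume_Icc,
      Real.volume_Icc, Real.volume_Icc, ← ENNReal.ofReal_mul, ← ENNReal.ofReal_mul,
      ← ENNReal.ofReal_add]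
    · apply ENNReal.ofReal_le_ofReal
      apply le_of_eq
      ring
    · have : 0 ≤ ((j : ℝ) + 1) * dl h N - j * dl h N := by
        have e : ((j : ℝ) + 1) * dl h N - j * dl h N = dl h N := by ring
        rw [e]; exact hd
      exact mul_nonneg this (by linarith)
    · have : 0 ≤ -(j * dl h N) - -(((j : ℝ) + 1) * dl h N) := by
        have e : -(j * dl h N) - -(((j : ℝ) + 1) * dl h N) = dl h N := by ring
        rw [e]; exact hd
      exact mul_nonneg this (by linarith)
    · have e : -(j * dl h N) - -(((j : ℝ) + 1) * dl h N) = dl h N := by ring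
      rw [e]; exact hd
    · have e : ((j : ℝ) + 1) * dl h N - j * dl h N = dl h N := by ring
      rw [e]; exact hd
  have hsum : 0 ≤ ∑ j ∈ range N, 4 * (dl h N * GG h N j) := by
    apply Finset.sum_nonneg
    intro j hj
    rw [Finset.mem_range] at hj
    have := mul_nonneg hd (GG_le hh hN hj.le).1
    linarith
  have h5 : volume {l : ℝ × ℝ | Lam l ≤ h} ≤
      ENNReal.ofReal (∑ j ∈ range N, 4 * (dl h N * GG h N j)) := by
    refine (measure_mono hcov).trans ((measure_biUnion_finset_le _ _).trans ?_)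
    rw [ENNReal.ofReal_sum_of_nonneg]
    · exact Finset.sum_le_sum hvol
    · intro j hj
      rw [Finset.mem_range] at hj
      have := mul_nonneg hd (GG_le hh hN hj.le).1
      linarith
  unfold VV
  refine (ENNReal.toReal_mono ENNReal.ofReal_ne_top h5).trans ?_
  rw [ENNReal.toReal_ofReal hsum, Finset.mul_sum]

theorem sum_shift (hN : 1 ≤ N) (hh : 0 ≤ h) : ∑ j ∈ range N, dl h N * GG h N j ≤
    ∑ j ∈ range N, dl h N * GG h N (j + 1) + LL h ^ 2 / N := by
  have h1 : ∑ j ∈ range N, dl h N * GG h N j - ∑ j ∈ range N, dl h N * GG h N (j + 1) =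
      dl h N * (GG h N 0 - GG h N N) := by
    rw [← Finset.sum_sub_distrib]
    have e1 : ∀ m, ∑ j ∈ range m, (dl h N * GG h N j - dl h N * GG h N (j + 1)) =
        dl h N * (GG h N 0 - GG h N m) := by
      intro m
      induction m with
      | zero => simp
      | succ m ih => rw [Finset.sum_range_succ, ih]; ring
    exact e1 N
  have h2 := (GG_le hh hN (le_refl N)).1
  rw [GG_zero] at h1
  have h3 := mul_nonneg (dl_nonneg (N := N) hh) h2
  have h4 : dl h N * LL h = LL h ^ 2 / N := by unfold dl; ring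
  nlinarith

/-- **Part A.** -/
theorem wulff_lower {s C : ℝ} (hs : 0 ≤ s) (hC : C ∈ CS s) (hh : 0 ≤ h) :
    √(s * VV h) ≤ C + h := by
  have hC0 := cs_nonneg hC
  obtain ⟨k, p, x, y, hp, h1, hx, hy, hxy, ha, rfl⟩ := hC
  obtain ⟨C, hCd⟩ : ∃ C, C = ∑ i, p i * Rate (x i, y i) := ⟨_, rfl⟩
  rw [← hCd] at hC0 ⊢
  have key : ∀ N : ℕ, 1 ≤ N → s * VV h ≤ (C + h) ^ 2 + 4 * s * LL h ^ 2 / N := by
    intro N hN
    obtain ⟨Q, hQ⟩ : ∃ Q, Q = mx (fun _ : Fin (N + 1) => 1) (fun i => be h N i)
      (fun i => al h N i) (fun _ : Fin (N + 1) => 1) (fun i => be h N i)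
      (fun i => al h N i) := ⟨_, rfl⟩
    have hQ0 : 0 ≤ Q := by
      rw [hQ]
      refine le_trans ?_ (arc_ge hh hN)
      apply Finset.sum_nonneg
      intro j hj
      rw [Finset.mem_range] at hj
      exact mul_nonneg (dl_nonneg hh) (GG_le hh hN (by omega)).1
    have hbn : ∀ i : Fin (N + 1), 0 ≤ be h N i := fun i => be_nonneg hh hN (by omega)
    have g1 := minkowski p x y (fun _ : Fin (N + 1) => 1) (fun i => be h N i) (fun i => al h N i)
      hp hx hy (fun _ => zero_le_one) hbn (fun i => al_nonneg hh i) (Real.sqrt_nonneg s)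
      (Real.sqrt_nonneg Q) (by rw [Real.sq_sqrt hs]; exact ha) (by rw [Real.sq_sqrt hQ0, hQ])
    have g2 : 2 * mx p x y (fun _ : Fin (N + 1) => 1) (fun i => be h N i) (fun i => al h N i) ≤
        C + h := by
      unfold mx
      have e1 : ∀ i, ∑ j : Fin (N + 1), p i * (1 * max (x i * al h N j) (be h N j * y i)) =
          p i * ∑ j ∈ range (N + 1), max (x i * al h N j) (be h N j * y i) := by
        intro i
        rw [Finset.mul_sum]
        simp only [one_mul]
        exact Fin.sum_univ_eq_sum_range (fun j => p i * max (x i * al h N j) (be h N j * y i))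
          (N + 1)
      simp only [e1]
      have e2 : 2 * (1 / 2 * ∑ i, p i * ∑ j ∈ range (N + 1), max (x i * al h N j)
          (be h N j * y i)) = ∑ i, p i * ∑ j ∈ range (N + 1), max (x i * al h N j)
          (be h N j * y i) := by ring
      rw [e2]
      have e3 : C + h = ∑ i, p i * (Rate (x i, y i) + h) := by
        rw [hCd]
        have : ∑ i, p i * (Rate (x i, y i) + h) = ∑ i, p i * Rate (x i, y i) + (∑ i, p i) * h := by
          rw [Finset.sum_mul, ← Finset.sum_add_distrib]
          apply Finset.sum_congr rfl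
          intro i _
          ring
        rw [this, h1, one_mul]
      rw [e3]
      apply Finset.sum_le_sum
      intro i _
      exact mul_le_mul_of_nonneg_left (support_le hh hN (hx i) (hy i) (hxy i)) (hp i)
    have g3 : 2 * (√s * √Q) ≤ C + h := by linarith
    have g4 : (2 * (√s * √Q)) ^ 2 ≤ (C + h) ^ 2 := pow_le_pow_left₀ (by positivity) g3 2
    have g5 : (2 * (√s * √Q)) ^ 2 = 4 * s * Q := by
      rw [mul_pow, mul_pow, Real.sq_sqrt hs, Real.sq_sqrt hQ0]
      ring
    have g6 : VV h ≤ 4 * Q + 4 * (LL h ^ 2 / N) := by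
      have e1 := VV_le (N := N) hh hN
      have e2 := sum_shift hN hh
      have e3 := arc_ge hh hN
      rw [← hQ] at e3
      linarith
    have g7 := mul_le_mul_of_nonneg_left g6 hs
    have g8 : s * (4 * Q + 4 * (LL h ^ 2 / N)) = 4 * s * Q + 4 * s * LL h ^ 2 / N := by ring
    rw [g5] at g4
    linarith
  have hlim : s * VV h ≤ (C + h) ^ 2 := by
    have h2 : Tendsto (fun N : ℕ => (C + h) ^ 2 + 4 * s * LL h ^ 2 / N) atTop
        (𝓝 ((C + h) ^ 2 + 0)) :=
      tendsto_const_nhds.add (tendsto_const_div_atTop_nhds_zero_nat (4 * s * LL h ^ 2))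
    rw [add_zero] at h2
    apply ge_of_tendsto h2
    filter_upwards [eventually_ge_atTop 1] with N hN
    exact key N hN
  rw [Real.sqrt_le_left (by linarith)]
  exact hlim

end

end Pool.Agent.U262.AR
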