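import Pool.Agent.U262.AR.V2

/-!
The support function of the level set of the free energy, and optimal speeds.
-/

set_option autoImplicit false

namespace Pool.Agent.U262.AR

open Pool.Agent.TH795.EP Pool.Agent.TH795.EP2 Pool.Agent.TH795.SE2 Pool.Agent.TH262.SawL H981 Finset
open Pool.Agent.Y981.L2 Pool.Agent.U262.SW
open Filter Topology

/-- the costs of a displacement -/
def MS (h : ℝ) (w : ℝ × ℝ) : Set ℝ :=
  {r | ∃ t : ℝ, 0 < t ∧ |w.1| + |w.2| ≤ t ∧ r = t * (Rate (w.1 / t, w.2 / t) + h)}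

noncomputable def mm (h : ℝ) (w : ℝ × ℝ) : ℝ := sInf (MS h w)

theorem dia_div {w : ℝ × ℝ} {t : ℝ} (ht : 0 < t) (hw : |w.1| + |w.2| ≤ t) :
    ((w.1 / t, w.2 / t) : ℝ × ℝ) ∈ Dia := by
  show |w.1 / t| + |w.2 / t| ≤ 1
  rw [abs_div, abs_div, abs_of_pos ht, ← add_div, div_le_one ht]
  exact hw

section

variable {h : ℝ}

theorem ms_nonneg (hh : 0 ≤ h) {w : ℝ × ℝ} {r : ℝ} (hr : r ∈ MS h w) : 0 ≤ r := by
  obtain ⟨t, ht, hw, rfl⟩ := hr
  have := rate_nonneg' (dia_div ht hw)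
  exact mul_nonneg ht.le (by linarith)

theorem ms_bdd (hh : 0 ≤ h) (w : ℝ × ℝ) : BddBelow (MS h w) := ⟨0, fun _ hr => ms_nonneg hh hr⟩

theorem ms_ne (w : ℝ × ℝ) : (MS h w).Nonempty :=
  ⟨_, |w.1| + |w.2| + 1, by positivity, by linarith, rfl⟩

theorem mm_nonneg (hh : 0 ≤ h) (w : ℝ × ℝ) : 0 ≤ mm h w :=
  Real.sInf_nonneg fun _ hr => ms_nonneg hh hr

theorem mm_hom_le (hh : 0 ≤ h) {c : ℝ} (hc : 0 < c) (w : ℝ × ℝ) : mm h (c • w) ≤ c * mm h w := by
  have key : mm h (c • w) / c ≤ mm h w := by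
    apply le_csInf (ms_ne w)
    rintro r ⟨t, ht, hw, rfl⟩
    rw [div_le_iff₀ hc]
    apply csInf_le (ms_bdd hh _)
    refine ⟨c * t, by positivity, ?_, ?_⟩
    · simp only [Prod.smul_fst, Prod.smul_snd, smul_eq_mul]
      rw [abs_mul, abs_mul, abs_of_pos hc, ← mul_add]
      exact mul_le_mul_of_nonneg_left hw hc.le
    · simp only [Prod.smul_fst, Prod.smul_snd, smul_eq_mul]
      rw [mul_div_mul_left _ _ hc.ne', mul_div_mul_left _ _ hc.ne']
      ring
  rw [div_le_iff₀ hc] at key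
  linarith

theorem mm_hom (hh : 0 ≤ h) (c : ℝ) (hc : 0 < c) (w : ℝ × ℝ) : mm h (c • w) = c * mm h w := by
  apply le_antisymm (mm_hom_le hh hc w)
  have h1 := mm_hom_le hh (inv_pos.2 hc) (c • w)
  rw [smul_smul, inv_mul_cancel₀ hc.ne', one_smul] at h1
  have h2 := mul_le_mul_of_nonneg_left h1 hc.le
  rw [← mul_assoc, mul_inv_cancel₀ hc.ne', one_mul] at h2
  exact h2

theorem mm_add (hh : 0 ≤ h) (u w : ℝ × ℝ) : mm h (u + w) ≤ mm h u + mm h w := by
  apply le_of_forall_pos_le_add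
  intro ε hε
  obtain ⟨r, ⟨t, ht, hu, rfl⟩, hr⟩ := exists_lt_of_csInf_lt (ms_ne (h := h) u)
    (show sInf (MS h u) < mm h u + ε / 2 by unfold mm; linarith)
  obtain ⟨r', ⟨t', ht', hw, rfl⟩, hr'⟩ := exists_lt_of_csInf_lt (ms_ne (h := h) w)
    (show sInf (MS h w) < mm h w + ε / 2 by unfold mm; linarith)
  have hT : 0 < t + t' := by linarith
  have h1 : mm h (u + w) ≤ (t + t') * (Rate ((u + w).1 / (t + t'), (u + w).2 / (t + t')) + h) := by
    apply csInf_le (ms_bdd hh _)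
    refine ⟨t + t', hT, ?_, rfl⟩
    simp only [Prod.fst_add, Prod.snd_add]
    have := abs_add_le u.1 w.1
    have := abs_add_le u.2 w.2
    linarith
  have h2 := convex_rate.2 (dia_div ht hu) (dia_div ht' hw)
    (div_nonneg ht.le hT.le) (div_nonneg ht'.le hT.le) (by field_simp)
  have e : (t / (t + t')) • ((u.1 / t, u.2 / t) : ℝ × ℝ) +
      (t' / (t + t')) • ((w.1 / t', w.2 / t') : ℝ × ℝ) =
      ((u + w).1 / (t + t'), (u + w).2 / (t + t')) := by
    ext
    · simp only [Prod.fst_add, Prod.smul_fst, smul_eq_mul]; field_simp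
    · simp only [Prod.snd_add, Prod.smul_snd, smul_eq_mul]; field_simp
  rw [e] at h2
  simp only [smul_eq_mul] at h2
  have h3 := mul_le_mul_of_nonneg_left h2 hT.le
  have h4 : (t + t') * (t / (t + t') * Rate (u.1 / t, u.2 / t) +
      t' / (t + t') * Rate (w.1 / t', w.2 / t')) =
      t * Rate (u.1 / t, u.2 / t) + t' * Rate (w.1 / t', w.2 / t') := by field_simp
  rw [h4] at h3
  linarith

/-- **Duality.** -/
theorem exists_speed (hh : 0 ≤ h) {w : ℝ × ℝ} {c : ℝ}
    (hc : ∀ l : ℝ × ℝ, Lam l ≤ h → l.1 * w.1 + l.2 * w.2 ≤ c) {ε : ℝ} (hε : 0 < ε) :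
    ∃ t : ℝ, 0 < t ∧ |w.1| + |w.2| ≤ t ∧ t * (Rate (w.1 / t, w.2 / t) + h) ≤ c + ε := by
  have key : mm h w ≤ c := by
    rcases eq_or_ne w 0 with h0 | h0
    · have h1 := mm_hom hh 2 (by norm_num) (0 : ℝ × ℝ)
      rw [smul_zero] at h1
      have h2 := hc (0, 0) (by rw [lam_zero]; exact hh)
      simp only [zero_mul, add_zero] at h2
      rw [h0]
      linarith
    obtain ⟨f, hf⟩ : ∃ f : (ℝ × ℝ) →ₗ.[ℝ] ℝ, f = LinearPMap.mkSpanSingleton w (mm h w) h0 :=
      ⟨_, rfl⟩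
    obtain ⟨g, hg1, hg2⟩ := exists_extension_of_le_sublinear f (mm h)
      (fun c hc x => mm_hom hh c hc x) (mm_add hh) (by
        rintro ⟨x, hx⟩
        subst hf
        obtain ⟨a, rfl⟩ := Submodule.mem_span_singleton.1 hx
        have e1 : (LinearPMap.mkSpanSingleton w (mm h w) h0) ⟨a • w, hx⟩ = a * mm h w :=
          LinearPMap.mkSpanSingleton'_apply w (mm h w) _ a hx
        rw [e1]
        simp only
        rcases lt_or_ge 0 a with ha | ha
        · rw [mm_hom hh a ha]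
        · have h1 := mm_nonneg hh (a • w)
          have h2 := mm_nonneg hh w
          nlinarith)
    have hgw : g w = mm h w := by
      have hmem : w ∈ f.domain := by
        rw [hf]
        exact Submodule.mem_span_singleton_self w
      have h1 := hg1 ⟨w, hmem⟩
      simp only at h1
      rw [h1]
      subst hf
      exact LinearPMap.mkSpanSingleton_apply ℝ ℝ h0 (mm h w)
    have hgl : ∀ x : ℝ × ℝ, g x = g (1, 0) * x.1 + g (0, 1) * x.2 := by
      intro x
      have e : x = x.1 • ((1, 0) : ℝ × ℝ) + x.2 • ((0, 1) : ℝ × ℝ) := by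
        ext
        · simp
        · simp
      conv_lhs => rw [e]
      rw [map_add, map_smul, map_smul, smul_eq_mul, smul_eq_mul]
      ring
    have hL : Lam (g (1, 0), g (0, 1)) ≤ h := by
      apply le_of_forall_pos_le_add
      intro η hη
      obtain ⟨v, hv, h1⟩ := lam_dual (g (1, 0), g (0, 1)) hη
      simp only at h1
      rw [← hgl v] at h1
      have h2 := hg2 v
      have h3 : mm h v ≤ 1 * (Rate (v.1 / 1, v.2 / 1) + h) :=
        csInf_le (ms_bdd hh v) ⟨1, one_pos, hv, rfl⟩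
      rw [div_one, div_one, one_mul] at h3
      linarith
    have h1 := hc _ hL
    simp only at h1
    rw [← hgl w, hgw] at h1
    exact h1
  obtain ⟨r, ⟨t, ht, hw, rfl⟩, hr⟩ := exists_lt_of_csInf_lt (ms_ne (h := h) w)
    (show sInf (MS h w) < c + ε by have : sInf (MS h w) = mm h w := rfl; linarith)
  exact ⟨t, ht, hw, hr.le⟩

end

end Pool.Agent.U262.AR
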