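import Pool.Agent.U262.AR.V3

/-!
The Wulff formula for the rate function of the area.
-/

set_option autoImplicit false

namespace Pool.Agent.U262.AR

open Pool.Agent.TH795.EP Pool.Agent.TH795.EP2 Pool.Agent.TH795.SE2 Pool.Agent.TH262.SawL H981 Finset
open Pool.Agent.Y981.L2 Pool.Agent.U262.SW
open Filter Topology

section

variable {h : ℝ} {N : ℕ}

open MeasureTheory in
theorem vol_fin (h : ℝ) : volume {l : ℝ × ℝ | Lam l ≤ h} ≠ ⊤ := by
  have hsub : {l : ℝ × ℝ | Lam l ≤ h} ⊆ Set.Icc (-(h + Real.log mu)) (h + Real.log mu) ×ˢ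
      Set.Icc (-(h + Real.log mu)) (h + Real.log mu) := by
    intro l hl
    rw [Set.mem_setOf_eq] at hl
    obtain ⟨h1, h2⟩ := abs_le_Lam l
    exact ⟨abs_le.1 (by linarith), abs_le.1 (by linarith)⟩
  apply ne_top_of_le_ne_top _ (measure_mono hsub)
  rw [Measure.volume_eq_prod, Measure.prod_prod, Real.volume_Icc]
  exact ENNReal.mul_ne_top ENNReal.ofReal_ne_top ENNReal.ofReal_ne_top

open MeasureTheory in
theorem VV_ge (hh : 0 ≤ h) (hN : 1 ≤ N) :
    4 * ∑ j ∈ range N, dl h N * GG h N (j + 1) ≤ VV h := by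
  have hd := dl_nonneg (N := N) hh
  obtain ⟨A, hA⟩ : ∃ A : ℕ → Set ℝ, A = fun j : ℕ => Set.Ioo (j * dl h N) (((j : ℝ) + 1) * dl h N) ∪
    Set.Ioo (-(((j : ℝ) + 1) * dl h N)) (-(j * dl h N)) := ⟨_, rfl⟩
  obtain ⟨S, hS⟩ : ∃ S : ℕ → Set (ℝ × ℝ), S = fun j =>
    A j ×ˢ Set.Ioo (-GG h N (j + 1)) (GG h N (j + 1)) := ⟨_, rfl⟩
  have hjd : ∀ j : ℕ, 0 ≤ j * dl h N := fun j => mul_nonneg (Nat.cast_nonneg _) hd
  have hAabs : ∀ j x, x ∈ A j → j * dl h N < |x| ∧ |x| < ((j : ℝ) + 1) * dl h N := by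
    intro j x hx
    rw [hA] at hx
    have h0 := hjd j
    rcases hx with ⟨h1, h2⟩ | ⟨h1, h2⟩
    · rw [abs_of_pos (by linarith)]
      exact ⟨h1, h2⟩
    · rw [abs_of_neg (by linarith)]
      exact ⟨by linarith, by linarith⟩
  have hAm : ∀ j, MeasurableSet (A j) := fun j => by
    rw [hA]; exact measurableSet_Ioo.union measurableSet_Ioo
  have hAv : ∀ j, volume (A j) = ENNReal.ofReal (2 * dl h N) := by
    intro j
    have h0 := hjd j
    rw [hA]
    simp only
    rw [measure_union _ measurableSet_Ioo, Real.volume_Ioo, Real.volume_Ioo,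
      ← ENNReal.ofReal_add]
    · congr 1
      ring
    · have e : ((j : ℝ) + 1) * dl h N - j * dl h N = dl h N := by ring
      rw [e]; exact hd
    · have e : -(j * dl h N) - -(((j : ℝ) + 1) * dl h N) = dl h N := by ring
      rw [e]; exact hd
    · rw [Set.disjoint_left]
      rintro x ⟨h1, h2⟩ ⟨h3, h4⟩
      linarith
  have hdis : (↑(range N) : Set ℕ).PairwiseDisjoint S := by
    have key : ∀ i j : ℕ, i < j → Disjoint (S i) (S j) := by
      intro i j hij
      rw [Set.disjoint_left]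
      intro z hz hz'
      rw [hS] at hz hz'
      have h1 := (hAabs i z.1 hz.1).2
      have h2 := (hAabs j z.1 hz'.1).1
      have h3 : ((i : ℝ) + 1) * dl h N ≤ j * dl h N := by
        apply mul_le_mul_of_nonneg_right _ hd
        exact_mod_cast hij
      linarith
    intro i _ j _ hij
    rcases lt_or_gt_of_ne hij with g | g
    · exact key i j g
    · exact (key j i g).symm
  have hsub : (⋃ j ∈ range N, S j) ⊆ {l : ℝ × ℝ | Lam l ≤ h} := by
    intro l hl
    rw [Set.mem_iUnion₂] at hl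
    obtain ⟨j, hj, hl⟩ := hl
    rw [Finset.mem_range] at hj
    rw [hS] at hl
    obtain ⟨h1, h2⟩ := hl
    have h3 := (hAabs j l.1 h1).2
    have h4 : |l.2| < GG h N (j + 1) := abs_lt.2 h2
    rw [Set.mem_setOf_eq]
    have h5 := lam_mono (abs_nonneg l.1) h3.le (abs_nonneg l.2) h4.le
    rw [lam_abs] at h5
    have h6 := (GG_le hh hN (show j + 1 ≤ N by omega)).2
    push_cast at h6
    exact h5.trans h6
  have hv : volume (⋃ j ∈ range N, S j) = ∑ j ∈ range N, volume (S j) := by
    apply measure_biUnion_finset hdis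
    intro j _
    rw [hS]
    exact (hAm j).prod measurableSet_Ioo
  have hv2 : ∀ j ∈ range N, volume (S j) = ENNReal.ofReal (4 * (dl h N * GG h N (j + 1))) := by
    intro j hj
    rw [Finset.mem_range] at hj
    rw [hS]
    simp only
    rw [Measure.volume_eq_prod, Measure.prod_prod, hAv, Real.volume_Ioo,
      ← ENNReal.ofReal_mul (by linarith)]
    congr 1
    ring
  have hpos : ∀ j ∈ range N, 0 ≤ 4 * (dl h N * GG h N (j + 1)) := by
    intro j hj
    rw [Finset.mem_range] at hj
    have := mul_nonneg hd (GG_le hh hN (show j + 1 ≤ N by omega)).1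
    linarith
  have h1 := measure_mono (μ := volume) hsub
  rw [hv, Finset.sum_congr rfl hv2, ← ENNReal.ofReal_sum_of_nonneg hpos] at h1
  have h2 := ENNReal.toReal_mono (vol_fin h) h1
  rw [ENNReal.toReal_ofReal (Finset.sum_nonneg hpos), ← Finset.mul_sum] at h2
  exact h2

theorem support_up (hh : 0 ≤ h) (hN : 1 ≤ N) {j : ℕ} (hj : j < N) (hd : 0 < dl h N) {l : ℝ × ℝ}
    (hl : Lam l ≤ h) : l.1 * be h N j + l.2 * dl h N ≤
      (((j : ℝ) + 1) * dl h N) * be h N j + GG h N j * dl h N := by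
  have hb := be_nonneg hh hN hj.le
  obtain ⟨x, hx⟩ : ∃ x, x = |l.1| := ⟨_, rfl⟩
  obtain ⟨y, hy⟩ : ∃ y, y = |l.2| := ⟨_, rfl⟩
  have hx0 : 0 ≤ x := hx ▸ abs_nonneg _
  have hy0 : 0 ≤ y := hy ▸ abs_nonneg _
  have h1 : l.1 * be h N j ≤ x * be h N j :=
    mul_le_mul_of_nonneg_right (hx ▸ le_abs_self _) hb
  have h2 : l.2 * dl h N ≤ y * dl h N := mul_le_mul_of_nonneg_right (hy ▸ le_abs_self _) hd.le
  have h3 : Lam (x, y) ≤ h := by rw [hx, hy, lam_abs]; exact hl
  have hxL : Lam (x, 0) ≤ h := (lam_mono hx0 le_rfl le_rfl hy0).trans h3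
  have h4 : y ≤ gg h x := le_gg hy0 h3
  obtain ⟨j1, j2, j3⟩ := j_dl hh hN hj.le
  obtain ⟨k1, k2, k3⟩ := j_dl hh hN (show j + 1 ≤ N by omega)
  push_cast at k1 k2 k3
  have hG0 : GG h N j = gg h (j * dl h N) := by unfold GG; rw [if_pos hj.le]
  have hG1 : GG h N (j + 1) = gg h (((j : ℝ) + 1) * dl h N) := by
    unfold GG; rw [if_pos (by omega)]; push_cast; rfl
  have hbe : be h N j = GG h N j - GG h N (j + 1) := rfl
  obtain ⟨X0, hX0⟩ : ∃ X0, X0 = j * dl h N := ⟨_, rfl⟩
  obtain ⟨X1, hX1⟩ : ∃ X1, X1 = ((j : ℝ) + 1) * dl h N := ⟨_, rfl⟩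
  obtain ⟨b, hbd⟩ : ∃ b, b = be h N j := ⟨_, rfl⟩
  obtain ⟨G0, hG0d⟩ : ∃ G0, G0 = GG h N j := ⟨_, rfl⟩
  obtain ⟨G1, hG1d⟩ : ∃ G1, G1 = GG h N (j + 1) := ⟨_, rfl⟩
  obtain ⟨d, hdd⟩ : ∃ d, d = dl h N := ⟨_, rfl⟩
  have hX01 : X1 = X0 + d := by rw [hX1, hX0, hdd]; ring
  rw [← hX0] at hG0 j1 j3
  rw [← hX1] at hG1 k1 k3 ⊢
  rw [← hG0d] at hG0 hbe ⊢
  rw [← hG1d] at hG1 hbe
  rw [← hbd] at hb h1 hbe ⊢
  rw [← hdd] at hd h2 ⊢
  have key : x * b + gg h x * d ≤ X1 * b + G0 * d := by
    rcases lt_or_ge x X0 with c1 | c1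
    · have hne : 0 < X1 - x := by linarith
      have g := gg_concave (h := h) (x := x) (x' := X1) (α := d / (X1 - x))
        (β := (X0 - x) / (X1 - x)) hxL k3 (div_nonneg hd.le hne.le)
        (div_nonneg (by linarith) hne.le) (by rw [← add_div, div_eq_one_iff_eq hne.ne']; linarith)
      have e : d / (X1 - x) * x + (X0 - x) / (X1 - x) * X1 = X0 := by
        rw [div_mul_eq_mul_div, div_mul_eq_mul_div, ← add_div, div_eq_iff hne.ne']
        rw [hX01]; ring
      rw [e, ← hG0, ← hG1] at g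
      have g2 := mul_le_mul_of_nonneg_left g hne.le
      have e2 : (X1 - x) * (d / (X1 - x) * gg h x + (X0 - x) / (X1 - x) * G1) =
          d * gg h x + (X0 - x) * G1 := by field_simp
      rw [e2] at g2
      have e3 : (X1 - x) * G0 = d * G0 + (X0 - x) * G0 := by rw [hX01]; ring
      rw [e3] at g2
      rw [hbe, hX01]
      nlinarith [mul_nonneg hd.le (hbe ▸ hb)]
    rcases le_or_gt x X1 with c2 | c2
    · have g := gg_anti (h := h) j1 c1 hxL
      rw [← hG0] at g
      have g1 := mul_le_mul_of_nonneg_right c2 hb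
      have g2 := mul_le_mul_of_nonneg_right g hd.le
      linarith
    · have hne : 0 < x - X0 := by linarith
      have g := gg_concave (h := h) (x := X0) (x' := x) (α := (x - X1) / (x - X0))
        (β := d / (x - X0)) j3 hxL (div_nonneg (by linarith) hne.le)
        (div_nonneg hd.le hne.le) (by rw [← add_div, div_eq_one_iff_eq hne.ne']; linarith)
      have e : (x - X1) / (x - X0) * X0 + d / (x - X0) * x = X1 := by
        rw [div_mul_eq_mul_div, div_mul_eq_mul_div, ← add_div, div_eq_iff hne.ne']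
        rw [hX01]; ring
      rw [e, ← hG0, ← hG1] at g
      have g2 := mul_le_mul_of_nonneg_left g hne.le
      have e2 : (x - X0) * ((x - X1) / (x - X0) * G0 + d / (x - X0) * gg h x) =
          (x - X1) * G0 + d * gg h x := by field_simp
      rw [e2] at g2
      have e3 : (x - X0) * G1 = d * G1 + (x - X1) * G1 := by rw [hX01]; ring
      rw [e3] at g2
      rw [hbe]
      nlinarith [mul_nonneg hd.le (hbe ▸ hb)]
  have h5 := mul_le_mul_of_nonneg_right h4 hd.le
  linarith

/-- the bound of the support function in the direction of the edge `j` -/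
noncomputable def cj (h : ℝ) (N j : ℕ) : ℝ :=
  if j < N then (((j : ℝ) + 1) * dl h N) * be h N j + GG h N j * dl h N else LL h * GG h N N

theorem sum_cj (hN : 1 ≤ N) : ∑ j ∈ range (N + 1), cj h N j =
    2 * ∑ j ∈ range N, dl h N * GG h N j := by
  rw [Finset.sum_range_succ]
  have e0 : cj h N N = LL h * GG h N N := by unfold cj; rw [if_neg (lt_irrefl _)]
  have e1 : ∑ j ∈ range N, cj h N j =
      ∑ j ∈ range N, ((((j : ℝ) + 1) * dl h N) * be h N j + GG h N j * dl h N) := by
    apply Finset.sum_congr rfl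
    intro j hj
    rw [Finset.mem_range] at hj
    unfold cj
    rw [if_pos hj]
  have e2 : ∀ m : ℕ, ∑ j ∈ range m, ((((j : ℝ) + 1) * dl h N) * be h N j + GG h N j * dl h N) =
      2 * ∑ j ∈ range m, dl h N * GG h N j - m * dl h N * GG h N m := by
    intro m
    induction m with
    | zero => simp
    | succ m ih =>
      rw [Finset.sum_range_succ, ih, Finset.sum_range_succ]
      unfold be
      push_cast
      ring
  rw [e0, e1, e2 N, N_dl hN]
  ring

theorem LL_pos (hh : 0 < h) : 0 < LL h := by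
  have h1 := lam_lip (0, h) (0, 0)
  rw [lam_zero] at h1
  simp only [sub_self, abs_zero, add_zero, sub_zero, zero_add] at h1
  rw [abs_of_pos hh] at h1
  exact lt_of_lt_of_le hh (le_gg hh.le h1)

open MeasureTheory in
theorem VV_pos (hh : 0 < h) : 0 < VV h := by
  have hsub : Set.Icc (0 : ℝ) (h / 2) ×ˢ Set.Icc (0 : ℝ) (h / 2) ⊆ {l : ℝ × ℝ | Lam l ≤ h} := by
    rintro l ⟨⟨h1, h2⟩, ⟨h3, h4⟩⟩
    rw [Set.mem_setOf_eq]
    have h5 := lam_lip l (0, 0)
    rw [lam_zero] at h5
    simp only [sub_zero, zero_add] at h5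
    rw [abs_of_nonneg h1, abs_of_nonneg h3] at h5
    linarith
  have h1 := measure_mono (μ := volume) hsub
  rw [Measure.volume_eq_prod, Measure.prod_prod, Real.volume_Icc, sub_zero,
    ← ENNReal.ofReal_mul (by positivity)] at h1
  have h2 := ENNReal.toReal_mono (vol_fin h) h1
  rw [ENNReal.toReal_ofReal (by positivity)] at h2
  unfold VV
  refine lt_of_lt_of_le ?_ h2
  positivity

/-- **Part B.** -/
theorem wulff_upper {κ h0 : ℝ} (hκ : 0 ≤ κ) (h00 : 0 ≤ h0)
    (hH : ∀ s C : ℝ, 0 ≤ s → C ∈ CS s → κ * √s ≤ C + h0) (hh : h0 < h) : κ ^ 2 ≤ VV h := by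
  have hh0 : 0 < h := lt_of_le_of_lt h00 hh
  have hL := LL_pos hh0
  have hV := VV_pos hh0
  -- the bound for every partition
  have key : ∀ N : ℕ, 1 ≤ N → ∀ ε : ℝ, 0 < ε →
      κ * √(∑ j ∈ range N, dl h N * GG h N (j + 1)) ≤
        2 * ∑ j ∈ range N, dl h N * GG h N j + ε := by
    intro N hN ε hε
    have hd : 0 < dl h N := div_pos hL (by exact_mod_cast (by omega : 0 < N))
    have hN1 : (0 : ℝ) < (N : ℝ) + 1 := by positivity
    have hsup : ∀ j : Fin (N + 1), ∀ l : ℝ × ℝ, Lam l ≤ h →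
        l.1 * ((be h N j, al h N j) : ℝ × ℝ).1 + l.2 * ((be h N j, al h N j) : ℝ × ℝ).2 ≤
          cj h N j := by
      intro j l hl
      simp only
      unfold cj al
      split_ifs with hj
      · exact support_up hh0.le hN hj hd hl
      · have hjN : (j : ℕ) = N := by have := j.2; omega
        rw [mul_zero, add_zero, hjN]
        have e1 : be h N N = GG h N N := by unfold be; rw [GG_end, sub_zero]
        rw [e1]
        apply mul_le_mul_of_nonneg_right _ (GG_le hh0.le hN le_rfl).1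
        have e2 : Lam (|l.1|, |l.2|) ≤ h := by rw [lam_abs]; exact hl
        exact (le_abs_self _).trans (le_LL (abs_nonneg _) (abs_nonneg _) e2)
    choose t ht htw htc using fun j : Fin (N + 1) =>
      exists_speed hh0.le (hsup j) (show 0 < ε / ((N : ℝ) + 1) by positivity)
    obtain ⟨T, hT⟩ : ∃ T, T = ∑ j, t j := ⟨_, rfl⟩
    have hT0 : 0 < T := by
      rw [hT]
      exact Finset.sum_pos (fun j _ => ht j) ⟨0, Finset.mem_univ _⟩
    have hbn : ∀ i : Fin (N + 1), 0 ≤ be h N i := fun i => be_nonneg hh0.le hN (by omega)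
    have han : ∀ i : Fin (N + 1), 0 ≤ al h N i := fun i => al_nonneg hh0.le i
    obtain ⟨Q, hQ⟩ : ∃ Q, Q = mx (fun _ : Fin (N + 1) => 1) (fun i => be h N i)
      (fun i => al h N i) (fun _ : Fin (N + 1) => 1) (fun i => be h N i)
      (fun i => al h N i) := ⟨_, rfl⟩
    have hQ1 : ∑ j ∈ range N, dl h N * GG h N (j + 1) ≤ Q := by
      rw [hQ]; exact arc_ge hh0.le hN
    have hQ0 : 0 ≤ Q := by
      refine le_trans ?_ hQ1
      apply Finset.sum_nonneg
      intro j hj
      rw [Finset.mem_range] at hj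
      exact mul_nonneg hd.le (GG_le hh0.le hN (by omega)).1
    -- the law
    have hmem : ∑ i, (t i / T) * Rate (be h N i / t i, al h N i / t i) ∈ CS (Q / T ^ 2) := by
      refine ⟨N + 1, fun i => t i / T, fun i => be h N i / t i, fun i => al h N i / t i,
        fun i => (div_pos (ht i) hT0).le, ?_, fun i => div_nonneg (hbn i) (ht i).le,
        fun i => div_nonneg (han i) (ht i).le, ?_, ?_, rfl⟩
      · rw [← Finset.sum_div, ← hT, div_self hT0.ne']
      · intro i
        simp only
        rw [← add_div, div_le_one (ht i)]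
        have := htw i
        simp only at this
        rw [abs_of_nonneg (hbn i), abs_of_nonneg (han i)] at this
        exact this
      · apply le_of_eq
        rw [hQ]
        unfold ar2 mx
        rw [mul_div_assoc, Finset.sum_div]
        congr 1
        apply Finset.sum_congr rfl
        intro i _
        rw [Finset.sum_div]
        apply Finset.sum_congr rfl
        intro j _
        have hti := (ht i).ne'
        have htj := (ht j).ne'
        have hTn := hT0.ne'
        have e1 : max (be h N i / t i * (al h N j / t j)) (be h N j / t j * (al h N i / t i)) =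
            max (be h N i * al h N j) (be h N j * al h N i) / (t i * t j) := by
          rw [← max_div_div_right (mul_pos (ht i) (ht j)).le]
          congr 1
          · field_simp
          · field_simp
        rw [e1]
        field_simp
    have h1 := hH _ _ (div_nonneg hQ0 (sq_nonneg T)) hmem
    rw [Real.sqrt_div hQ0, Real.sqrt_sq hT0.le] at h1
    have h2 : κ * √Q ≤ ∑ i, t i * Rate (be h N i / t i, al h N i / t i) + T * h0 := by
      have e1 := mul_le_mul_of_nonneg_left h1 hT0.le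
      have e2 : T * (κ * (√Q / T)) = κ * √Q := by field_simp
      have e3 : T * (∑ i, (t i / T) * Rate (be h N i / t i, al h N i / t i) + h0) =
          ∑ i, t i * Rate (be h N i / t i, al h N i / t i) + T * h0 := by
        rw [mul_add, Finset.mul_sum]
        congr 1
        apply Finset.sum_congr rfl
        intro i _
        field_simp
      rw [e2, e3] at e1
      exact e1
    have h3 : ∑ i, t i * Rate (be h N i / t i, al h N i / t i) + T * h ≤
        2 * ∑ j ∈ range N, dl h N * GG h N j + ε := by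
      have e1 : ∑ i, t i * Rate (be h N i / t i, al h N i / t i) + T * h =
          ∑ i, t i * (Rate (be h N i / t i, al h N i / t i) + h) := by
        rw [hT, Finset.sum_mul, ← Finset.sum_add_distrib]
        apply Finset.sum_congr rfl
        intro i _
        ring
      rw [e1]
      have e2 : ∑ i, t i * (Rate (be h N i / t i, al h N i / t i) + h) ≤
          ∑ i : Fin (N + 1), (cj h N i + ε / ((N : ℝ) + 1)) :=
        Finset.sum_le_sum fun i _ => htc i
      refine e2.trans (le_of_eq ?_)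
      rw [Finset.sum_add_distrib, Finset.sum_const, Finset.card_univ, Fintype.card_fin,
        nsmul_eq_mul, Fin.sum_univ_eq_sum_range (fun i => cj h N i) (N + 1), sum_cj hN]
      push_cast
      field_simp
    have h4 : T * h0 ≤ T * h := mul_le_mul_of_nonneg_left hh.le hT0.le
    have h5 : √(∑ j ∈ range N, dl h N * GG h N (j + 1)) ≤ √Q := Real.sqrt_le_sqrt hQ1
    have h6 := mul_le_mul_of_nonneg_left h5 hκ
    linarith
  -- in terms of the measure
  have key2 : ∀ N : ℕ, 1 ≤ N → κ * √(VV h / 4 - LL h ^ 2 / N) ≤ VV h / 2 + 2 * (LL h ^ 2 / N) := by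
    intro N hN
    have h1 : κ * √(∑ j ∈ range N, dl h N * GG h N (j + 1)) ≤
        2 * ∑ j ∈ range N, dl h N * GG h N j :=
      le_of_forall_pos_le_add fun ε hε => key N hN ε hε
    have h2 := VV_le (N := N) hh0.le hN
    have h3 := VV_ge (N := N) hh0.le hN
    have h4 := sum_shift (N := N) hN hh0.le
    have h5 : √(VV h / 4 - LL h ^ 2 / N) ≤ √(∑ j ∈ range N, dl h N * GG h N (j + 1)) := by
      apply Real.sqrt_le_sqrt
      linarith
    have h6 := mul_le_mul_of_nonneg_left h5 hκ
    linarith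
  have hlim : κ * √(VV h / 4) ≤ VV h / 2 := by
    have h1 := tendsto_const_div_atTop_nhds_zero_nat (LL h ^ 2)
    have h2 : Tendsto (fun N : ℕ => κ * √(VV h / 4 - LL h ^ 2 / N)) atTop
        (𝓝 (κ * √(VV h / 4 - 0))) := by
      apply Tendsto.const_mul
      apply (Real.continuous_sqrt.tendsto _).comp
      exact tendsto_const_nhds.sub h1
    have h3 : Tendsto (fun N : ℕ => VV h / 2 + 2 * (LL h ^ 2 / N)) atTop
        (𝓝 (VV h / 2 + 2 * 0)) := tendsto_const_nhds.add (h1.const_mul 2)
    rw [sub_zero] at h2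
    rw [mul_zero, add_zero] at h3
    apply le_of_tendsto_of_tendsto h2 h3
    filter_upwards [eventually_ge_atTop 1] with N hN
    exact key2 N hN
  have h1 : √(VV h / 4) = √(VV h) / 2 := by
    rw [Real.sqrt_div hV.le]
    congr 1
    rw [show (4 : ℝ) = 2 ^ 2 by norm_num, Real.sqrt_sq (by norm_num)]
  rw [h1] at hlim
  have h2 : 0 < √(VV h) := Real.sqrt_pos.2 hV
  have h3 : √(VV h) ^ 2 = VV h := Real.sq_sqrt hV.le
  have h4 : κ ≤ √(VV h) := by
    by_contra hcon
    push Not at hcon
    nlinarith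
  calc κ ^ 2 ≤ √(VV h) ^ 2 := pow_le_pow_left₀ hκ h4 2
    _ = VV h := h3

end

end Pool.Agent.U262.AR
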