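import Pool.Agent.U262.SW.R
import Pool.Agent.U262.SW.N

/-!
Unfolding of the walks in a half plane, with a control of the end point.
-/

set_option autoImplicit false

namespace Pool.Agent.U262.AR

open Pool.Agent.TH795.EP Pool.Agent.TH795.EP2 Pool.Agent.TH795.SE2 Pool.Agent.TH262.SawL H981 Finset
open Pool.Agent.Y981.L2 Pool.Agent.U262.SW

/-- the sum of the coordinates -/
def sm (p : ℤ × ℤ) : ℤ := p.1 + p.2

/-- the word stays strictly above its start -/
def Up (w : List St) : Prop := ∀ k, 0 < k → k ≤ w.length → 0 < sm (H981.path w k)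

/-- the word is a bridge in the diagonal direction -/
def Br1 (w : List St) : Prop := ∀ k, 0 < k → k ≤ w.length →
  0 < sm (H981.path w k) ∧ sm (H981.path w k) ≤ dx w + dy w

theorem Br1.brH {w : List St} (h : Br1 w) : BrH 1 1 w := by
  intro k h1 h2
  obtain ⟨g1, g2⟩ := h k h1 h2
  unfold sm at g1 g2
  unfold SW.hh
  simp only [one_mul]
  constructor
  · exact_mod_cast g1
  · exact_mod_cast g2

theorem br1_of {w : List St} (h : BrH 1 1 w) : Br1 w := by
  intro k h1 h2
  obtain ⟨g1, g2⟩ := h k h1 h2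
  unfold SW.hh at g1 g2
  simp only [one_mul] at g1 g2
  unfold sm
  constructor
  · exact_mod_cast g1
  · exact_mod_cast g2

theorem br1_append {u v : List St} (hu : Saw u) (hu' : Br1 u) (hv : Saw v) (hv' : Br1 v) :
    Saw (u ++ v) ∧ Br1 (u ++ v) := by
  obtain ⟨h1, h2⟩ := br_append hu hu'.brH hv hv'.brH
  exact ⟨h1, br1_of h2⟩

/-- the reflection in the antidiagonal -/
def rf (w : List St) : List St := ng (sg (sw w))

theorem length_rf (w : List St) : (rf w).length = w.length := by
  unfold rf; rw [length_ng, length_sg, length_sw]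

theorem path_rf (w : List St) (k : ℕ) :
    H981.path (rf w) k = (-(H981.path w k).2, -(H981.path w k).1) := by
  unfold rf
  rw [path_ng', path_sg', path_sw']

theorem dx_rf (w : List St) : dx (rf w) = -dy w := by
  unfold rf; rw [dx_ng, dx_sg, dx_sw]

theorem dy_rf (w : List St) : dy (rf w) = -dx w := by
  unfold rf; rw [dy_ng, dy_sg, dy_sw]

theorem saw_rf {w : List St} (h : Saw w) : Saw (rf w) := (saw_sw h).sg.ng

theorem rf_rf (w : List St) : rf (rf w) = w := by
  unfold rf ng sg sw
  simp only [List.map_map]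
  conv_rhs => rw [← List.map_id w]
  apply List.map_congr_left
  intro s _
  cases s <;> rfl

theorem sm_drop (w : List St) (t k : ℕ) :
    sm (H981.path w (t + k)) = sm (H981.path w t) + sm (H981.path (w.drop t) k) := by
  rw [path_drop]
  unfold sm
  simp only
  ring

/-- half plane words of height at most `A` with displacement `(x, y)` -/
noncomputable def hw (A m : ℕ) (x y : ℤ) : ℕ :=
  (fs (fun w => Saw w ∧ Up w ∧ (∀ k, sm (H981.path w k) ≤ A) ∧ dx w = x ∧ dy w = y) m).card

/-- bridges with displacement `(x + t, y + t)` -/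
noncomputable def gb (m : ℕ) (x y : ℤ) : ℕ :=
  (fs (fun w => Saw w ∧ Br1 w ∧ ∃ t : ℕ, dx w = x + t ∧ dy w = y + t) m).card

/-- bridges of height `A` with given displacement -/
noncomputable def bb (A m : ℕ) (x y : ℤ) : ℕ :=
  (fs (fun w => Saw w ∧ Br1 w ∧ (dx w = x ∧ dy w = y) ∧ x + y = A) m).card

/-- the index set of the decomposition -/
noncomputable def ixs (A m : ℕ) : Finset (ℕ × (ℤ × ℤ)) :=
  Ico A (m + 1) ×ˢ (Icc (-(m : ℤ)) m ×ˢ Icc (-(m : ℤ)) m)

theorem hw_step (A m : ℕ) (x y : ℤ) : hw (A + 1) m x y ≤ hw A m x y +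
    ∑ p ∈ ixs (A + 1) m, bb (A + 1) p.1 p.2.1 p.2.2 * hw A (m - p.1) (p.2.2 - y) (p.2.1 - x) := by
  classical
  unfold hw
  rw [← Finset.card_filter_add_card_filter_not (fun w => ∀ k, sm (H981.path w k) ≤ A)]
  apply Nat.add_le_add
  · apply Finset.card_le_card
    intro w hw
    rw [Finset.mem_filter, mem_fs] at hw
    obtain ⟨⟨⟨h1, h2, h3, h4⟩, h5⟩, h6⟩ := hw
    exact mem_fs.2 ⟨⟨h1, h2, h6, h4⟩, h5⟩
  · unfold bb
    simp only [← Finset.card_product]
    rw [← Finset.card_sigma]
    apply card_le_of_decode (fun q : (_ : ℕ × (ℤ × ℤ)) × (List St × List St) =>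
      q.2.1 ++ rf q.2.2)
    intro w hw
    rw [Finset.mem_filter, mem_fs] at hw
    obtain ⟨⟨⟨h1, h2, h3, h4, h5⟩, h6⟩, h7⟩ := hw
    push Not at h7
    obtain ⟨k0, hk0⟩ := h7
    -- the last passage at height A + 1
    obtain ⟨k1, hk1, hk1'⟩ : ∃ k, k ≤ w.length ∧ sm (H981.path w k) = A + 1 := by
      rcases le_or_gt k0 w.length with h | h
      · refine ⟨k0, h, ?_⟩
        have := h3 k0
        push_cast at this
        omega
      · refine ⟨w.length, le_rfl, ?_⟩
        rw [path_ge h.le] at hk0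
        have := h3 w.length
        push_cast at this
        omega
    obtain ⟨t, htS, htmax⟩ := Finset.exists_max_image
      ((range (w.length + 1)).filter fun k => sm (H981.path w k) = A + 1) id
      ⟨k1, by rw [Finset.mem_filter, Finset.mem_range]; exact ⟨by omega, hk1'⟩⟩
    rw [Finset.mem_filter, Finset.mem_range] at htS
    obtain ⟨htl, htA⟩ := htS
    have hlast : ∀ k, t < k → k ≤ w.length → sm (H981.path w k) < A + 1 := by
      intro k hk hkl
      have g1 := h3 k
      push_cast at g1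
      rcases lt_or_eq_of_le g1 with g | g
      · exact g
      · have g2 := htmax k (by rw [Finset.mem_filter, Finset.mem_range]; exact ⟨by omega, g⟩)
        simp only [id] at g2
        omega
    have ht0 : 0 < t := by
      by_contra hcon
      have : t = 0 := by omega
      subst this
      rw [path_zero'] at htA
      unfold sm at htA
      simp only at htA
      omega
    obtain ⟨u, hu⟩ : ∃ u, u = w.take t := ⟨_, rfl⟩
    obtain ⟨v, hv⟩ : ∃ v, v = w.drop t := ⟨_, rfl⟩
    have huv : w = u ++ v := by rw [hu, hv, List.take_append_drop]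
    have hul : u.length = t := by rw [hu, List.length_take]; omega
    have hvl : v.length = w.length - t := by rw [hv, List.length_drop]
    have hup : ∀ k ≤ t, H981.path u k = H981.path w k := by
      intro k hk
      rw [hu]
      exact path_take hk
    have hud : (dx u, dy u) = H981.path w t := by
      rw [← path_len u, hul, hup t le_rfl]
    have hud1 : dx u = (H981.path w t).1 := congrArg Prod.fst hud
    have hud2 : dy u = (H981.path w t).2 := congrArg Prod.snd hud
    have hsum : dx u + dy u = A + 1 := by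
      rw [hud1, hud2]
      exact htA
    have hvp : ∀ k, sm (H981.path w (t + k)) = A + 1 + sm (H981.path v k) := by
      intro k
      rw [sm_drop, htA, hv]
    have hsu : Saw u := by
      rw [hu]
      exact h1.subw (List.take_prefix _ _).isInfix
    have hsv : Saw v := by
      rw [hv]
      exact h1.subw (List.drop_suffix _ _).isInfix
    have hdx : dx w = dx u + dx v := by rw [huv, dx_append]
    have hdy : dy w = dy u + dy v := by rw [huv, dy_append]
    have habs := abs_add_abs_le u
    have hab1 := le_abs_self (dx u)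
    have hab2 := le_abs_self (dy u)
    have hab3 := abs_nonneg (dx u)
    have hab4 := abs_nonneg (dy u)
    rw [hul] at habs
    refine ⟨⟨(t, (dx u, dy u)), (u, rf v)⟩, ?_, ?_⟩
    · rw [Finset.mem_sigma]
      unfold ixs
      simp only [Finset.mem_product, Finset.mem_Ico, Finset.mem_Icc, mem_fs]
      refine ⟨⟨⟨by omega, by omega⟩, abs_le.1 (by omega), abs_le.1 (by omega)⟩,
        ⟨⟨hsu, ?_, by simp, by push_cast; omega⟩, hul⟩, ⟨saw_rf hsv, ?_, ?_, ?_, ?_⟩, ?_⟩
      · intro k hk hkl
        rw [hul] at hkl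
        rw [hup k hkl]
        have g1 := h3 k
        push_cast at g1
        exact ⟨h2 k hk (by omega), by omega⟩
      · intro k hk hkl
        rw [length_rf] at hkl
        rw [path_rf]
        have g1 := hlast (t + k) (by omega) (by omega)
        rw [hvp] at g1
        unfold sm at g1 ⊢
        simp only
        omega
      · intro k
        rw [path_rf]
        rcases le_or_gt k v.length with hk | hk
        · have g1 := h2 (t + k) (by omega) (by omega)
          rw [hvp] at g1
          unfold sm at g1 ⊢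
          simp only
          omega
        · rw [path_ge hk.le, path_len]
          have g1 := h2 (t + v.length) (by omega) (by omega)
          rw [hvp, path_len] at g1
          unfold sm at g1 ⊢
          simp only at g1 ⊢
          omega
      · rw [dx_rf]; omega
      · rw [dy_rf]; omega
      · rw [length_rf]; omega
    · simp only
      rw [rf_rf]
      exact huv.symm

theorem gb_conv (A m : ℕ) {x y : ℤ} (hxy : x + y ≤ A + 1) :
    ∑ p ∈ ixs (A + 1) m, bb (A + 1) p.1 p.2.1 p.2.2 * gb (m - p.1) (p.2.2 - y) (p.2.1 - x) ≤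
      gb m x y := by
  classical
  unfold bb gb
  simp only [← Finset.card_product]
  rw [← Finset.card_sigma]
  apply Finset.card_le_card_of_injOn (fun q : (_ : ℕ × (ℤ × ℤ)) × (List St × List St) =>
    q.2.1 ++ q.2.2)
  · rintro ⟨⟨t, d1, d2⟩, u, v⟩ hq
    rw [Finset.mem_coe, Finset.mem_sigma] at hq
    unfold ixs at hq
    simp only [Finset.mem_product, Finset.mem_Ico, Finset.mem_Icc, mem_fs] at hq
    obtain ⟨⟨⟨g1, g2⟩, -⟩, ⟨⟨hsu, hbu, ⟨hu1, hu2⟩, hA⟩, hul⟩, ⟨hsv, hbv, s, hv1, hv2⟩, hvl⟩ := hq
    rw [Finset.mem_coe, mem_fs]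
    simp only
    obtain ⟨k1, k2⟩ := br1_append hsu hbu hsv hbv
    push_cast at hA
    refine ⟨⟨k1, k2, s + ((A : ℤ) + 1 - x - y).toNat, ?_, ?_⟩, by rw [List.length_append]; omega⟩
    · rw [dx_append, hu1, hv1]
      push_cast
      rw [Int.toNat_of_nonneg (by omega)]
      omega
    · rw [dy_append, hu2, hv2]
      push_cast
      rw [Int.toNat_of_nonneg (by omega)]
      omega
  · rintro ⟨⟨t, d1, d2⟩, u, v⟩ hq ⟨⟨t', d1', d2'⟩, u', v'⟩ hq' he
    rw [Finset.mem_coe, Finset.mem_sigma] at hq hq'
    unfold ixs at hq hq'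
    simp only [Finset.mem_product, Finset.mem_Ico, Finset.mem_Icc, mem_fs] at hq hq'
    obtain ⟨⟨⟨g1, g2⟩, -⟩, ⟨⟨hsu, hbu, ⟨hu1, hu2⟩, hA⟩, hul⟩, ⟨hsv, hbv, s, hv1, hv2⟩, hvl⟩ := hq
    obtain ⟨⟨⟨g1', g2'⟩, -⟩, ⟨⟨hsu', hbu', ⟨hu1', hu2'⟩, hA'⟩, hul'⟩,
      ⟨hsv', hbv', s', hv1', hv2'⟩, hvl'⟩ := hq'
    simp only at he
    have key : ∀ (a b c d : List St), a ++ b = c ++ d → dx a + dy a = A + 1 →
        dx c + dy c = A + 1 → Br1 b → a.length < c.length → False := by
      intro a b c d h1 h2 h3 h4 h5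
      have hl := congrArg List.length h1
      rw [List.length_append, List.length_append] at hl
      have e1 : H981.path (c ++ d) c.length = (dx c, dy c) := by
        rw [path_append_left le_rfl, path_len]
      obtain ⟨r, hr⟩ : ∃ r, c.length = a.length + r := ⟨c.length - a.length, by omega⟩
      rw [← h1, hr, path_append_right] at e1
      obtain ⟨e2, e3⟩ := Prod.mk.inj e1
      have g := (h4 r (by omega) (by omega)).1
      unfold sm at g
      omega
    push_cast at hA hA'
    have hlen : u.length = u'.length := by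
      rcases Nat.lt_trichotomy u.length u'.length with h | h | h
      · exact (key u v u' v' he (by omega) (by omega) hbv h).elim
      · exact h
      · exact (key u' v' u v he.symm (by omega) (by omega) hbv' h).elim
    obtain ⟨k1, k2⟩ := List.append_inj he hlen
    subst k1
    subst k2
    have e1 : t = t' := by omega
    have e2 : d1 = d1' := by omega
    have e3 : d2 = d2' := by omega
    subst e1
    subst e2
    subst e3
    rfl

theorem hw_zero (m : ℕ) (x y : ℤ) : hw 0 m x y ≤ gb m x y := by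
  unfold hw gb
  apply Finset.card_le_card
  intro w hw
  rw [mem_fs] at hw
  obtain ⟨⟨h1, h2, h3, h4, h5⟩, h6⟩ := hw
  have h7 : w = [] := by
    rcases Nat.eq_zero_or_pos w.length with h | h
    · exact List.length_eq_zero_iff.1 h
    · have g1 := h2 w.length h le_rfl
      have g2 := h3 w.length
      push_cast at g2
      omega
  subst h7
  rw [mem_fs]
  refine ⟨⟨h1, ?_, 0, ?_, ?_⟩, h6⟩
  · intro k hk hkl
    simp at hkl
    omega
  · rw [h4]; simp
  · rw [h5]; simp

theorem hw_nil {A m : ℕ} {x y : ℤ} (h : (A : ℤ) < x + y) : hw A m x y = 0 := by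
  unfold hw
  rw [Finset.card_eq_zero]
  by_contra hne
  obtain ⟨w, hw⟩ := Finset.nonempty_iff_ne_empty.2 hne
  rw [mem_fs] at hw
  obtain ⟨⟨h1, h2, h3, h4, h5⟩, h6⟩ := hw
  have := h3 w.length
  rw [path_len] at this
  unfold sm at this
  simp only at this
  omega

/-- **Unfolding.** -/
theorem hw_le {ε : ℝ} (hε : 0 ≤ ε) (A : ℕ) : ∀ (m : ℕ) (x y : ℤ), (hw A m x y : ℝ) ≤
    (∏ i ∈ range A, (1 + Real.exp (-(ε * (i + 1))))) * (Real.exp (ε * m) * gb m x y) := by
  induction A with
  | zero =>
    intro m x y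
    rw [Finset.range_zero, Finset.prod_empty, one_mul]
    have h1 : (hw 0 m x y : ℝ) ≤ gb m x y := by exact_mod_cast hw_zero m x y
    have h2 : 1 ≤ Real.exp (ε * m) := Real.one_le_exp (by positivity)
    have h3 : (0 : ℝ) ≤ gb m x y := Nat.cast_nonneg _
    nlinarith
  | succ A ih =>
    intro m x y
    rcases le_or_gt (x + y) ((A + 1 : ℕ) : ℤ) with hxy | hxy
    · obtain ⟨C, hC⟩ : ∃ C, C = ∏ i ∈ range A, (1 + Real.exp (-(ε * (i + 1)))) := ⟨_, rfl⟩
      have hC0 : 0 ≤ C := by
        rw [hC]
        exact Finset.prod_nonneg fun i _ => by positivity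
      have ih' := ih
      rw [← hC] at ih'
      rw [Finset.prod_range_succ, ← hC]
      have h1 : (hw (A + 1) m x y : ℝ) ≤ hw A m x y +
          ∑ p ∈ ixs (A + 1) m, (bb (A + 1) p.1 p.2.1 p.2.2 : ℝ) *
            hw A (m - p.1) (p.2.2 - y) (p.2.1 - x) := by
        exact_mod_cast hw_step A m x y
      have h2 : (∑ p ∈ ixs (A + 1) m, (bb (A + 1) p.1 p.2.1 p.2.2 : ℝ) *
          gb (m - p.1) (p.2.2 - y) (p.2.1 - x)) ≤ gb m x y := by
        push_cast at hxy
        exact_mod_cast gb_conv A m hxy
      have h3 : ∑ p ∈ ixs (A + 1) m, (bb (A + 1) p.1 p.2.1 p.2.2 : ℝ) *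
            hw A (m - p.1) (p.2.2 - y) (p.2.1 - x) ≤
          ∑ p ∈ ixs (A + 1) m, (C * (Real.exp (ε * m) * Real.exp (-(ε * (A + 1))))) *
            ((bb (A + 1) p.1 p.2.1 p.2.2 : ℝ) * gb (m - p.1) (p.2.2 - y) (p.2.1 - x)) := by
        apply Finset.sum_le_sum
        intro p hp
        unfold ixs at hp
        rw [Finset.mem_product, Finset.mem_Ico] at hp
        obtain ⟨⟨g1, g2⟩, -⟩ := hp
        have g3 := ih' (m - p.1) (p.2.2 - y) (p.2.1 - x)
        have g4 : Real.exp (ε * ((m - p.1 : ℕ) : ℝ)) ≤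
            Real.exp (ε * m) * Real.exp (-(ε * (A + 1))) := by
          rw [← Real.exp_add]
          apply Real.exp_le_exp.2
          rw [Nat.cast_sub (by omega)]
          have g5 : ((A : ℝ) + 1) ≤ p.1 := by exact_mod_cast g1
          nlinarith
        have g6 : (0 : ℝ) ≤ gb (m - p.1) (p.2.2 - y) (p.2.1 - x) := Nat.cast_nonneg _
        have g7 : (0 : ℝ) ≤ bb (A + 1) p.1 p.2.1 p.2.2 := Nat.cast_nonneg _
        calc (bb (A + 1) p.1 p.2.1 p.2.2 : ℝ) * hw A (m - p.1) (p.2.2 - y) (p.2.1 - x)
            ≤ (bb (A + 1) p.1 p.2.1 p.2.2 : ℝ) * (C * (Real.exp (ε * ((m - p.1 : ℕ) : ℝ)) *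
              gb (m - p.1) (p.2.2 - y) (p.2.1 - x))) := mul_le_mul_of_nonneg_left g3 g7
          _ ≤ (bb (A + 1) p.1 p.2.1 p.2.2 : ℝ) * (C * ((Real.exp (ε * m) *
              Real.exp (-(ε * (A + 1)))) * gb (m - p.1) (p.2.2 - y) (p.2.1 - x))) := by gcongr
          _ = _ := by ring
      rw [← Finset.mul_sum] at h3
      have h4 := ih' m x y
      have h5 : 0 ≤ C * (Real.exp (ε * m) * Real.exp (-(ε * (A + 1)))) := by positivity
      have h6 := mul_le_mul_of_nonneg_left h2 h5
      calc (hw (A + 1) m x y : ℝ) ≤ C * (Real.exp (ε * m) * gb m x y) +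
            C * (Real.exp (ε * m) * Real.exp (-(ε * (A + 1)))) * gb m x y := by linarith
        _ = _ := by ring
    · rw [hw_nil hxy, Nat.cast_zero]
      apply mul_nonneg (Finset.prod_nonneg fun i _ => by positivity)
      positivity

theorem prod_bound {ε : ℝ} (hε : 0 < ε) (A : ℕ) :
    ∏ i ∈ range A, (1 + Real.exp (-(ε * (i + 1)))) ≤ Real.exp (1 / ε) := by
  have h1 : ∏ i ∈ range A, (1 + Real.exp (-(ε * (i + 1)))) ≤
      ∏ i ∈ range A, Real.exp (Real.exp (-(ε * (i + 1)))) := by
    apply Finset.prod_le_prod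
    · intro i _; positivity
    · intro i _
      have := Real.add_one_le_exp (Real.exp (-(ε * (i + 1))))
      linarith
  rw [← Real.exp_sum] at h1
  refine h1.trans (Real.exp_le_exp.2 ?_)
  -- the geometric series
  have h2 : ∀ B : ℕ, ε * ∑ i ∈ range B, Real.exp (-(ε * (i + 1))) ≤ 1 - Real.exp (-(ε * B)) := by
    intro B
    induction B with
    | zero => simp
    | succ B ih =>
      rw [Finset.sum_range_succ, mul_add]
      have h3 : ε * Real.exp (-(ε * (B + 1))) ≤ Real.exp (-(ε * B)) - Real.exp (-(ε * (B + 1))) := by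
        have h4 := Real.add_one_le_exp ε
        have h5 : Real.exp (-(ε * B)) = Real.exp ε * Real.exp (-(ε * (B + 1))) := by
          rw [← Real.exp_add]; congr 1; ring
        rw [h5]
        have h6 := Real.exp_pos (-(ε * ((B : ℝ) + 1)))
        nlinarith
      push_cast
      linarith
  have h3 := h2 A
  have h4 := Real.exp_pos (-(ε * A))
  rw [le_div_iff₀ hε]
  linarith

end Pool.Agent.U262.AR
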