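import Pool.Agent.U262.AR.W1
import Pool.Agent.U262.SW.Z

/-!
Bridges with a displacement at least the given one.
-/

set_option autoImplicit false

namespace Pool.Agent.U262.AR

open Pool.Agent.TH795.EP Pool.Agent.TH795.EP2 Pool.Agent.TH795.SE2 Pool.Agent.TH262.SawL H981 Finset
open Pool.Agent.Y981.L2 Pool.Agent.U262.SW

/-- bridges with displacement at least `(x, y)` -/
noncomputable def pb (m : ℕ) (x y : ℤ) : ℕ :=
  (fs (fun w => Saw w ∧ Br1 w ∧ x ≤ dx w ∧ y ≤ dy w) m).card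

theorem gb_le_pb (m : ℕ) {x y x' y' : ℤ} (hx : x ≤ x') (hy : y ≤ y') : gb m x' y' ≤ pb m x y := by
  unfold gb pb
  apply Finset.card_le_card
  intro w hw
  rw [mem_fs] at hw ⊢
  obtain ⟨⟨h1, h2, t, h3, h4⟩, h5⟩ := hw
  exact ⟨⟨h1, h2, by omega, by omega⟩, h5⟩

theorem la_le_hw (m : ℕ) (x y : ℤ) : laH (-1) (-1) m x y ≤ hw (m + 1) (m + 1) (x + 1) y := by
  unfold laH hw
  apply card_le_of_decode (fun w => w.tail)
  intro w hw
  rw [mem_fs] at hw
  obtain ⟨⟨⟨h1, h2, h3⟩, h4⟩, h5⟩ := hw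
  have hlo : ∀ k, 0 ≤ sm (H981.path w k) := by
    intro k
    have := h4 k
    unfold SW.hh at this
    unfold sm
    have h6 : (0 : ℝ) ≤ ((H981.path w k).1 : ℝ) + (H981.path w k).2 := by linarith
    exact_mod_cast h6
  have hp : ∀ k, H981.path (St.E :: w) (k + 1) = (1 + (H981.path w k).1, (H981.path w k).2) := by
    intro k
    rw [path_cons_succ]
    simp [St.x_E, St.y_E]
  refine ⟨St.E :: w, mem_fs.2 ⟨⟨?_, ?_, ?_, ?_, ?_⟩, ?_⟩, rfl⟩
  · rw [saw_iff']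
    intro i j hij hj
    rw [List.length_cons] at hj
    obtain ⟨j, rfl⟩ : ∃ j', j = j' + 1 := ⟨j - 1, by omega⟩
    rcases Nat.eq_zero_or_pos i with h0 | h0
    · subst h0
      rw [path_zero', hp]
      intro he
      have := hlo j
      obtain ⟨e1, e2⟩ := Prod.mk.inj he
      unfold sm at this
      omega
    · obtain ⟨i, rfl⟩ : ∃ i', i = i' + 1 := ⟨i - 1, by omega⟩
      rw [hp, hp]
      intro he
      obtain ⟨e1, e2⟩ := Prod.mk.inj he
      exact saw_iff'.1 h1 i j (by omega) (by omega) (Prod.ext (by omega) (by omega))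
  · intro k hk hkl
    obtain ⟨k, rfl⟩ : ∃ k', k = k' + 1 := ⟨k - 1, by omega⟩
    rw [hp]
    have := hlo k
    unfold sm at this ⊢
    simp only
    omega
  · intro k
    have h6 := abs_add_abs_le ((St.E :: w).take k)
    have h7 : ((St.E :: w).take k).length ≤ m + 1 := by
      rw [List.length_take, List.length_cons]; omega
    have h8 := le_abs_self (dx ((St.E :: w).take k))
    have h9 := le_abs_self (dy ((St.E :: w).take k))
    unfold sm H981.path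
    simp only
    push_cast
    omega
  · rw [dx_cons, St.x_E, h2]; ring
  · rw [dy_cons, St.y_E, h3]; ring
  · rw [List.length_cons, h5]

theorem a_le_pb : ∃ K : ℝ, 0 ≤ K ∧ ∀ ε : ℝ, 0 < ε → ∀ m : ℕ, 2 ≤ m → ∀ x y : ℤ, 0 ≤ x → 0 ≤ y →
    (x, y) ≠ (0, 0) → (a m x y : ℝ) ≤
      q m K * (Real.exp (1 / ε) * (Real.exp (ε * (m + 1)) * pb (m + 1) x y)) := by
  obtain ⟨K, hK, h⟩ := a_le_laH
  refine ⟨K, hK, ?_⟩
  intro ε hε m hm x y hx hy hxy
  have g1 := h m hm m le_rfl (-1) (-1) (Or.inl (by norm_num)) x y (by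
    have h1 : (0 : ℝ) ≤ x := by exact_mod_cast hx
    have h2 : (0 : ℝ) ≤ y := by exact_mod_cast hy
    linarith) hxy
  have g2 : (laH (-1) (-1) m x y : ℝ) ≤ hw (m + 1) (m + 1) (x + 1) y := by
    exact_mod_cast la_le_hw m x y
  have g3 := hw_le hε.le (m + 1) (m + 1) (x + 1) y
  have g4 := prod_bound hε (m + 1)
  have g5 : (gb (m + 1) (x + 1) y : ℝ) ≤ pb (m + 1) x y := by
    exact_mod_cast gb_le_pb (m + 1) (by omega) le_rfl
  push_cast at g3
  refine g1.trans (mul_le_mul_of_nonneg_left (g2.trans (g3.trans ?_)) (q_pos _ _).le)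
  have g6 : (0 : ℝ) ≤ gb (m + 1) (x + 1) y := Nat.cast_nonneg _
  exact mul_le_mul g4 (mul_le_mul_of_nonneg_left g5 (Real.exp_pos _).le) (by positivity)
    (Real.exp_pos _).le

theorem rate_nonneg' {v : ℝ × ℝ} (hv : v ∈ Dia) : 0 ≤ Rate v := by
  have h2 := le_rate hv (0, 0)
  have h3 : Lam (0, 0) = 0 := psi_zero
  rw [h3] at h2
  simpa using h2

/-- the rate function near a point of the quadrant -/
theorem rate_near {x y δ : ℝ} (hx : 0 ≤ x) (hy : 0 ≤ y) (hxy : x + y ≤ 1) (hδ : 0 ≤ δ) (hδ1 : δ ≤ 1)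
    {X Y : ℝ} (hX : 0 ≤ X) (hY : 0 ≤ Y) (h1 : X ≤ (1 - δ) * x + δ / 2)
    (h2 : Y ≤ (1 - δ) * y + δ / 2) : Rate (X, Y) ≤ Rate (x, y) + δ * Real.log mu := by
  have hv : ((x, y) : ℝ × ℝ) ∈ Dia := by
    show |x| + |y| ≤ 1
    rw [abs_of_nonneg hx, abs_of_nonneg hy]; exact hxy
  have hh : ((1 / 2, 1 / 2) : ℝ × ℝ) ∈ Dia := by
    show |(1 / 2 : ℝ)| + |(1 / 2 : ℝ)| ≤ 1
    norm_num
  have hw : (((1 - δ) * x + δ / 2, (1 - δ) * y + δ / 2) : ℝ × ℝ) ∈ Dia := by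
    show |(1 - δ) * x + δ / 2| + |(1 - δ) * y + δ / 2| ≤ 1
    have e1 : 0 ≤ (1 - δ) * x := mul_nonneg (by linarith) hx
    have e2 : 0 ≤ (1 - δ) * y := mul_nonneg (by linarith) hy
    rw [abs_of_nonneg (by positivity), abs_of_nonneg (by positivity)]
    nlinarith
  have g1 := rate_mono (v := (X, Y)) (v' := ((1 - δ) * x + δ / 2, (1 - δ) * y + δ / 2)) hX h1 hY h2 hw
  have g2 := convex_rate.2 hv hh (by linarith : 0 ≤ 1 - δ) hδ (by ring)
  have e : (1 - δ) • ((x, y) : ℝ × ℝ) + δ • ((1 / 2, 1 / 2) : ℝ × ℝ) =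
      ((1 - δ) * x + δ / 2, (1 - δ) * y + δ / 2) := by
    ext
    · simp only [Prod.fst_add, Prod.smul_fst, smul_eq_mul]; ring
    · simp only [Prod.snd_add, Prod.smul_snd, smul_eq_mul]; ring
  rw [e] at g2
  simp only [smul_eq_mul] at g2
  have g3 := rate_le hh
  have g4 := rate_nonneg' hv
  nlinarith

open Filter Topology in
/-- **The number of bridges with a given displacement or more.** -/
theorem pb_low : ∃ C : ℝ, 0 ≤ C ∧ ∀ δ : ℝ, 0 < δ → δ ≤ 1 / 2 → ∃ M : ℕ, ∀ m : ℕ, M ≤ m →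
    ∀ x y : ℝ, 0 ≤ x → 0 ≤ y → x + y ≤ 1 → ∃ X Y : ℤ, 1 ≤ X ∧ 1 ≤ Y ∧ X + Y ≤ m ∧
      (1 - 2 * δ) * (m * x) ≤ X ∧ (1 - 2 * δ) * (m * y) ≤ Y ∧
      Real.exp (-(m * (Rate (x, y) + C * δ))) * mu ^ m ≤ pb m X Y := by
  obtain ⟨K1, hK1, h1⟩ := a_le_pb
  obtain ⟨K2, hK2, h2⟩ := ldp_words
  have hmu1 : 0 ≤ Real.log mu := Real.log_nonneg one_le_mu
  refine ⟨2 * Real.log mu + 3, by positivity, ?_⟩
  intro δ hδ hδ1
  -- the logarithmic terms are small
  have e1 : ∀ᶠ m : ℕ in atTop, (K1 + K2) * Real.log m ^ 2 + (1 / δ + Real.log mu + 1) ≤ δ * m := by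
    have g1 : (fun m : ℕ => (K1 + K2) * Real.log m ^ 2 + (1 / δ + Real.log mu + 1)) =o[atTop]
        (fun m : ℕ => (m : ℝ)) := by
      apply Asymptotics.IsLittleO.add
      · apply Asymptotics.IsLittleO.const_mul_left
        exact (Real.isLittleO_pow_log_id_atTop (n := 2)).comp_tendsto tendsto_natCast_atTop_atTop
      · exact Asymptotics.isLittleO_const_left.2 (Or.inr
          (tendsto_norm_atTop_atTop.comp tendsto_natCast_atTop_atTop))
    have g2 := g1.bound hδ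
    filter_upwards [g2] with m hm
    have g3 := le_abs_self ((K1 + K2) * Real.log m ^ 2 + (1 / δ + Real.log mu + 1))
    rw [Real.norm_eq_abs, Real.norm_eq_abs, abs_of_nonneg (Nat.cast_nonneg m : (0 : ℝ) ≤ m)] at hm
    linarith
  obtain ⟨M1, hM1⟩ := eventually_atTop.1 e1
  obtain ⟨M2, hM2⟩ := exists_nat_ge (6 / δ)
  refine ⟨max (max M1 M2) 2 + 1, ?_⟩
  intro m' hm' x y hx hy hxy
  obtain ⟨m, rfl⟩ : ∃ m, m' = m + 1 := ⟨m' - 1, by omega⟩
  have hm1 : M1 ≤ m := by omega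
  have hm2 : M2 ≤ m := by omega
  have hm3 : 2 ≤ m := by omega
  have hm0 : (0 : ℝ) < m := by exact_mod_cast (by omega : 0 < m)
  have hδm : 6 ≤ δ * m := by
    have g1 : 6 / δ ≤ m := hM2.trans (by exact_mod_cast hm2)
    rw [div_le_iff₀ hδ] at g1
    linarith
  obtain ⟨X0, hX0⟩ : ∃ X0 : ℤ, X0 = ⌈(1 - δ) * (m * x)⌉ := ⟨_, rfl⟩
  obtain ⟨Y0, hY0⟩ : ∃ Y0 : ℤ, Y0 = ⌈(1 - δ) * (m * y)⌉ := ⟨_, rfl⟩
  have b1 := Int.le_ceil ((1 - δ) * (m * x))
  have b2 := Int.ceil_lt_add_one ((1 - δ) * (m * x))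
  have b3 := Int.le_ceil ((1 - δ) * (m * y))
  have b4 := Int.ceil_lt_add_one ((1 - δ) * (m * y))
  rw [← hX0] at b1 b2
  rw [← hY0] at b3 b4
  have p1 : 0 ≤ (1 - δ) * (m * x) := mul_nonneg (by linarith) (by positivity)
  have p2 : 0 ≤ (1 - δ) * (m * y) := mul_nonneg (by linarith) (by positivity)
  have c1 : 0 ≤ X0 := by rw [hX0]; exact Int.ceil_nonneg p1
  have c2 : 0 ≤ Y0 := by rw [hY0]; exact Int.ceil_nonneg p2
  obtain ⟨Y, hY1, hY2, hpar⟩ : ∃ Y : ℤ, Y0 + 1 ≤ Y ∧ Y ≤ Y0 + 2 ∧ (X0 + 1 + Y - m) % 2 = 0 := by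
    rcases Int.emod_two_eq_zero_or_one (X0 + 1 + (Y0 + 1) - m) with h | h
    · exact ⟨Y0 + 1, le_rfl, by omega, h⟩
    · exact ⟨Y0 + 2, by omega, le_rfl, by omega⟩
  have hX1r : ((X0 + 1 : ℤ) : ℝ) = X0 + 1 := by push_cast; ring
  have hY1r : (Y0 : ℝ) + 1 ≤ Y := by exact_mod_cast hY1
  have hY2r : (Y : ℝ) ≤ Y0 + 2 := by exact_mod_cast hY2
  have r1 : ((X0 + 1 : ℤ) : ℝ) / m ≤ (1 - δ) * x + δ / 2 := by
    rw [div_le_iff₀ hm0, hX1r]
    nlinarith
  have r2 : (Y : ℝ) / m ≤ (1 - δ) * y + δ / 2 := by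
    rw [div_le_iff₀ hm0]
    nlinarith
  have hne : (X0 + 1, Y) ≠ ((0, 0) : ℤ × ℤ) := by
    intro h
    have := (Prod.mk.inj h).1
    omega
  have hle : |X0 + 1| + |Y| ≤ (m : ℤ) := by
    rw [abs_of_nonneg (by omega), abs_of_nonneg (by omega)]
    have g1 : ((X0 + 1 : ℤ) : ℝ) / m + Y / m ≤ 1 := by
      have : (1 - δ) * (x + y) ≤ (1 - δ) * 1 := mul_le_mul_of_nonneg_left hxy (by linarith)
      linarith
    rw [← add_div, div_le_one hm0] at g1
    exact_mod_cast g1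
  have g1 := h2 m hm3 (X0 + 1) Y hne hpar hle
  have g2 := h1 δ hδ m hm3 (X0 + 1) Y (by omega) (by omega) hne
  have g3 := rate_near hx hy hxy hδ.le (by linarith) (X := ((X0 + 1 : ℤ) : ℝ) / m) (Y := (Y : ℝ) / m)
    (div_nonneg (by rw [hX1r]; have : (0 : ℝ) ≤ X0 := by exact_mod_cast c1
                    linarith) hm0.le)
    (div_nonneg (by have : (0 : ℝ) ≤ Y0 := by exact_mod_cast c2
                    linarith) hm0.le) r1 r2
  have ha : (0 : ℝ) < a m (X0 + 1) Y := by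
    have := one_le_a hne hpar hle
    exact_mod_cast (by omega : 0 < a m (X0 + 1) Y)
  have hc := c_pos m
  have hcm : mu ^ m ≤ (c m : ℝ) := by rw [c_eq]; exact mu_pow_le _
  have hmu := mu_pos
  have hle2 : X0 + 1 + Y ≤ ((m + 1 : ℕ) : ℤ) := by
    have g1 := le_abs_self (X0 + 1)
    have g2 := le_abs_self Y
    push_cast
    omega
  refine ⟨X0 + 1, Y, by omega, by omega, hle2, ?_, ?_, ?_⟩
  · rw [hX1r]
    push_cast
    have hx1 : x ≤ 1 := by linarith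
    nlinarith
  · push_cast
    have hy1 : y ≤ 1 := by linarith
    nlinarith
  · have g4 := (abs_le.1 g1).1
    have g5 : -(m * (Rate (x, y) + δ * Real.log mu)) - K2 * Real.log m ^ 2 ≤
        Real.log ((a m (X0 + 1) Y : ℝ) / c m) := by
      have := mul_le_mul_of_nonneg_left g3 hm0.le
      linarith
    have g6 := Real.exp_le_exp.2 g5
    rw [Real.exp_log (by positivity), le_div_iff₀ hc] at g6
    have g7 := hM1 m hm1
    -- combine
    have g8 : Real.exp (-(m * (Rate (x, y) + δ * Real.log mu)) - K2 * Real.log m ^ 2) * mu ^ m ≤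
        q m K1 * (Real.exp (1 / δ) * (Real.exp (δ * (m + 1)) * pb (m + 1) (X0 + 1) Y)) :=
      (mul_le_mul_of_nonneg_left hcm (Real.exp_pos _).le).trans (g6.trans g2)
    have e2 : q m K1 * (Real.exp (1 / δ) * (Real.exp (δ * (m + 1)) * pb (m + 1) (X0 + 1) Y)) =
        Real.exp (K1 * Real.log m ^ 2 + 1 / δ + δ * (m + 1)) * pb (m + 1) (X0 + 1) Y := by
      unfold q
      rw [Real.exp_add, Real.exp_add]
      ring
    rw [e2] at g8
    have hv : ((x, y) : ℝ × ℝ) ∈ Dia := by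
      show |x| + |y| ≤ 1
      rw [abs_of_nonneg hx, abs_of_nonneg hy]; exact hxy
    have g9 := rate_nonneg' hv
    have e3 : Real.exp (-(((m + 1 : ℕ) : ℝ) * (Rate (x, y) + (2 * Real.log mu + 3) * δ))) * mu ^ (m + 1) ≤
        Real.exp (-(K1 * Real.log m ^ 2 + 1 / δ + δ * (m + 1))) *
        (Real.exp (-(m * (Rate (x, y) + δ * Real.log mu)) - K2 * Real.log m ^ 2) * mu ^ m) := by
      have e4 : mu ^ (m + 1) = Real.exp (Real.log mu) * mu ^ m := by
        rw [Real.exp_log hmu, pow_succ]; ring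
      rw [e4, ← mul_assoc, ← mul_assoc, ← Real.exp_add, ← Real.exp_add]
      apply mul_le_mul_of_nonneg_right _ (pow_pos hmu m).le
      apply Real.exp_le_exp.2
      push_cast
      nlinarith [mul_nonneg hδ.le hmu1, mul_nonneg (mul_nonneg hδ.le hmu1) hm0.le]
    refine e3.trans ((mul_le_mul_of_nonneg_left g8 (Real.exp_pos _).le).trans (le_of_eq ?_))
    rw [← mul_assoc, ← Real.exp_add, neg_add_cancel, Real.exp_zero, one_mul]

end Pool.Agent.U262.AR
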