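import Pool.Agent.U262.AR.W2

/-!
The area below a word, and chains of bridges.
-/

set_option autoImplicit false

namespace Pool.Agent.U262.AR

open Pool.Agent.TH795.EP Pool.Agent.TH795.EP2 Pool.Agent.TH795.SE2 Pool.Agent.TH262.SawL H981 Finset
open Pool.Agent.Y981.L2 Pool.Agent.U262.SW

/-- the integral of `x dy` along the word -/
def Fa (w : List St) : ℤ := ∑ k ∈ range w.length,
  (H981.path w k).1 * ((H981.path w (k + 1)).2 - (H981.path w k).2)

theorem sum_dy (w : List St) : ∑ k ∈ range w.length,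
    ((H981.path w (k + 1)).2 - (H981.path w k).2) = dy w := by
  rw [Finset.sum_range_sub (fun k => (H981.path w k).2), path_len, path_zero']
  simp

theorem Fa_append (u v : List St) : Fa (u ++ v) = Fa u + Fa v + dx u * dy v := by
  unfold Fa
  rw [List.length_append, Finset.sum_range_add, add_assoc]
  congr 1
  · apply Finset.sum_congr rfl
    intro k hk
    rw [Finset.mem_range] at hk
    rw [path_append_left (by omega), path_append_left (by omega)]
  · rw [← sum_dy v, Finset.mul_sum, ← Finset.sum_add_distrib]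
    apply Finset.sum_congr rfl
    intro k _
    rw [path_append_right, add_assoc, path_append_right]
    simp only
    ring

theorem path_le (w : List St) (k : ℕ) : |(H981.path w k).1| ≤ k ∧ |(H981.path w k).2| ≤ k := by
  have h1 := abs_add_abs_le (w.take k)
  have h2 : (w.take k).length ≤ k := by rw [List.length_take]; omega
  have h3 := abs_nonneg (dx (w.take k))
  have h4 := abs_nonneg (dy (w.take k))
  unfold H981.path
  constructor
  · simp only; omega
  · simp only; omega

theorem step_le (w : List St) (k : ℕ) :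
    |(H981.path w (k + 1)).1 - (H981.path w k).1| ≤ 1 ∧
      |(H981.path w (k + 1)).2 - (H981.path w k).2| ≤ 1 := by
  rw [path_drop w k 1]
  have := path_le (w.drop k) 1
  simp only
  rw [add_sub_cancel_left, add_sub_cancel_left]
  exact_mod_cast this

theorem Fa_abs (w : List St) : |Fa w| ≤ (w.length : ℤ) ^ 2 := by
  unfold Fa
  refine (Finset.abs_sum_le_sum_abs _ _).trans ?_
  have h1 : ∀ k ∈ range w.length, |(H981.path w k).1 * ((H981.path w (k + 1)).2 -
      (H981.path w k).2)| ≤ (w.length : ℤ) := by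
    intro k hk
    rw [Finset.mem_range] at hk
    rw [abs_mul]
    have g1 := (path_le w k).1
    have g2 := (step_le w k).2
    have g3 := abs_nonneg (H981.path w k).1
    nlinarith
  refine (Finset.sum_le_sum h1).trans (le_of_eq ?_)
  rw [Finset.sum_const, Finset.card_range]
  simp [sq]

/-- the sum over the pairs -/
def EE : List (ℤ × ℤ) → ℤ
  | [] => 0
  | z :: L => z.1 * (L.map Prod.snd).sum + EE L

/-- chains of bridges along the list -/
def Ch (m : ℕ) (L : List (ℤ × ℤ)) (w : List St) : Prop :=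
  Saw w ∧ Br1 w ∧ (L.map Prod.fst).sum ≤ dx w ∧ (L.map Prod.snd).sum ≤ dy w ∧
    (∀ k, -(m : ℤ) ≤ (H981.path w k).1) ∧ (∀ k, (H981.path w k).2 ≤ dy w + m) ∧
    EE L - L.length * (m : ℤ) ^ 2 ≤ Fa w

noncomputable def chn (m : ℕ) (L : List (ℤ × ℤ)) : ℕ := (fs (Ch m L) (m * L.length)).card

theorem sum_nonneg' {L : List (ℤ × ℤ)} (h : ∀ z ∈ L, 0 ≤ z.1 ∧ 0 ≤ z.2) :
    0 ≤ (L.map Prod.fst).sum ∧ 0 ≤ (L.map Prod.snd).sum := by
  constructor
  · apply List.sum_nonneg
    intro a ha
    rw [List.mem_map] at ha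
    obtain ⟨z, hz, rfl⟩ := ha
    exact (h z hz).1
  · apply List.sum_nonneg
    intro a ha
    rw [List.mem_map] at ha
    obtain ⟨z, hz, rfl⟩ := ha
    exact (h z hz).2

theorem chn_cons (m : ℕ) {z : ℤ × ℤ} {L : List (ℤ × ℤ)} (hz : 0 ≤ z.1 ∧ 0 ≤ z.2)
    (hL : ∀ z ∈ L, 0 ≤ z.1 ∧ 0 ≤ z.2) : pb m z.1 z.2 * chn m L ≤ chn m (z :: L) := by
  classical
  unfold pb chn
  rw [← Finset.card_product]
  apply Finset.card_le_card_of_injOn (fun q => q.1 ++ q.2)
  · rintro ⟨u, v⟩ hq
    rw [Finset.mem_coe, Finset.mem_product, mem_fs, mem_fs] at hq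
    obtain ⟨⟨⟨h1, h2, h3, h4⟩, h5⟩, ⟨g1, g2, g3, g4, g5, g6, g7⟩, g8⟩ := hq
    simp only at h1 h2 h3 h4 h5 g1 g2 g3 g4 g5 g6 g7 g8
    rw [Finset.mem_coe, mem_fs]
    simp only
    obtain ⟨k1, k2⟩ := br1_append h1 h2 g1 g2
    obtain ⟨s1, s2⟩ := sum_nonneg' hL
    have hl : (u ++ v).length = m * (z :: L).length := by
      rw [List.length_append, h5, g8, List.length_cons]; ring
    refine ⟨⟨k1, k2, ?_, ?_, ?_, ?_, ?_⟩, hl⟩
    · rw [List.map_cons, List.sum_cons, dx_append]; omega
    · rw [List.map_cons, List.sum_cons, dy_append]; omega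
    · intro k
      rcases le_or_gt k u.length with hk | hk
      · rw [path_append_left hk]
        have := (abs_le.1 (path_box u k).1).1
        omega
      · obtain ⟨l, rfl⟩ : ∃ l, k = u.length + l := ⟨k - u.length, by omega⟩
        rw [path_append_right]
        have := g5 l
        simp only
        omega
    · intro k
      rw [dy_append]
      rcases le_or_gt k u.length with hk | hk
      · rw [path_append_left hk]
        have e1 := path_drop u k (u.length - k)
        rw [show k + (u.length - k) = u.length by omega, path_len] at e1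
        have e2 := (Prod.mk.inj e1).2
        have e3 := (abs_le.1 (path_le (u.drop k) (u.length - k)).2).1
        omega
      · obtain ⟨l, rfl⟩ : ∃ l, k = u.length + l := ⟨k - u.length, by omega⟩
        rw [path_append_right]
        have := g6 l
        simp only
        omega
    · rw [Fa_append, List.length_cons]
      have e1 := (abs_le.1 (Fa_abs u)).1
      rw [h5] at e1
      have e2 : z.1 * (L.map Prod.snd).sum ≤ dx u * dy v := by
        apply mul_le_mul h3 g4 s2 (hz.1.trans h3)
      show z.1 * (L.map Prod.snd).sum + EE L - ((L.length + 1 : ℕ) : ℤ) * (m : ℤ) ^ 2 ≤ _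
      push_cast
      linarith
  · rintro ⟨u, v⟩ hq ⟨u', v'⟩ hq' he
    rw [Finset.mem_coe, Finset.mem_product, mem_fs, mem_fs] at hq hq'
    simp only at hq hq' he
    obtain ⟨e1, e2⟩ := List.append_inj he (by omega)
    rw [e1, e2]

theorem chn_nil (m : ℕ) : 1 ≤ chn m [] := by
  unfold chn
  rw [Nat.succ_le_iff, Finset.card_pos]
  refine ⟨[], mem_fs.2 ⟨⟨?_, ?_, ?_, ?_, ?_, ?_, ?_⟩, by simp⟩⟩
  · rw [saw_iff']
    intro i j hij hj
    simp at hj
    omega
  · intro k hk hkl
    simp at hkl
    omega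
  · simp
  · simp
  · intro k
    rw [path_ge (by simp), path_len]
    simp
  · intro k
    rw [path_ge (by simp), path_len]
    simp
  · simp [EE, Fa]

theorem chn_low (m : ℕ) : ∀ L : List (ℤ × ℤ), (∀ z ∈ L, 0 ≤ z.1 ∧ 0 ≤ z.2) →
    (L.map fun z => pb m z.1 z.2).prod ≤ chn m L := by
  intro L
  induction L with
  | nil => intro _; simpa using chn_nil m
  | cons z L ih =>
    intro h
    rw [List.map_cons, List.prod_cons]
    have hL : ∀ z ∈ L, 0 ≤ z.1 ∧ 0 ≤ z.2 := fun w hw => h w (List.mem_cons_of_mem _ hw)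
    exact (Nat.mul_le_mul_left _ (ih hL)).trans (chn_cons m (h z List.mem_cons_self) hL)

end Pool.Agent.U262.AR
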