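import Pool.Agent.U262.AR.W3

/-!
Corner words, half plane words, and loops with a large area.
-/

set_option autoImplicit false

namespace Pool.Agent.U262.AR

open Pool.Agent.TH795.EP Pool.Agent.TH795.EP2 Pool.Agent.TH795.SE2 Pool.Agent.TH262.SawL H981 Finset
open Pool.Agent.Y981.L2 Pool.Agent.U262.SW

theorem step_orth (w : List St) (k : ℕ) : ((H981.path w (k + 1)).1 - (H981.path w k).1) *
    ((H981.path w (k + 1)).2 - (H981.path w k).2) = 0 := by
  rw [path_drop w k 1]
  simp only
  rw [add_sub_cancel_left, add_sub_cancel_left]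
  unfold H981.path
  rcases h : w.drop k with _ | ⟨s, t⟩
  · simp
  · simp only [List.take_succ_cons, List.take_zero]
    rw [dx_cons, dy_cons]
    cases s <;> simp [St.x_E, St.y_E, St.x_W, St.y_W, St.x_N, St.y_N, St.x_S, St.y_S]

theorem Fa_ng (w : List St) : Fa (ng w) = -Fa w := by
  unfold Fa
  rw [length_ng, ← Finset.sum_neg_distrib]
  apply Finset.sum_congr rfl
  intro k _
  rw [path_ng', path_ng']
  simp only
  ring

theorem Fa_sg (w : List St) : Fa (sg w) = -Fa w := by
  unfold Fa
  rw [length_sg, ← Finset.sum_neg_distrib]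
  apply Finset.sum_congr rfl
  intro k _
  rw [path_sg', path_sg']
  simp only
  ring

theorem Fa_rv (w : List St) : Fa (rv w) = -Fa w + dx w * dy w := by
  have h1 : dx w * dy w = ∑ k ∈ range w.length,
      dx w * ((H981.path w (k + 1)).2 - (H981.path w k).2) := by
    rw [← Finset.mul_sum, sum_dy]
  rw [h1]
  unfold Fa
  rw [length_rv, ← Finset.sum_range_reflect, ← Finset.sum_neg_distrib, ← Finset.sum_add_distrib]
  apply Finset.sum_congr rfl
  intro k hk
  rw [Finset.mem_range] at hk
  rw [path_rv, path_rv]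
  have e1 : w.length - (w.length - 1 - k) = k + 1 := by omega
  have e2 : w.length - (w.length - 1 - k + 1) = k := by omega
  rw [e1, e2]
  have e3 := step_orth w k
  simp only
  nlinarith

/-- the word stays in a quadrant with its end points on the two sides -/
def Cor (w : List St) : Prop := (∀ k, 0 < k → k ≤ w.length → 0 < (H981.path w k).1) ∧
  ∀ k, k < w.length → (H981.path w k).2 < dy w

noncomputable def cor (N : ℕ) (x y S : ℤ) : ℕ :=
  (fs (fun w => Saw w ∧ Cor w ∧ (dx w = x ∧ dy w = y) ∧ S ≤ Fa w) N).card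

/-- words on one side of a vertical line -/
def Hw (w : List St) : Prop := ∀ k, 0 < k → k < w.length → 0 < (H981.path w k).1

noncomputable def half (N : ℕ) (y S : ℤ) : ℕ :=
  (fs (fun w => Saw w ∧ Hw w ∧ (dx w = 0 ∧ dy w = y) ∧ S ≤ Fa w) N).card

theorem cor_E {N : ℕ} (hN : 1 ≤ N) (x y S : ℤ) : cor N x y S ≤ cor (N + 1) (x + 1) y S := by
  unfold cor
  apply card_le_of_decode (fun w => w.tail)
  intro w hw
  rw [mem_fs] at hw
  obtain ⟨⟨h1, ⟨h2, h3⟩, ⟨h4, h5⟩, h6⟩, h7⟩ := hw
  have hp : ∀ k, H981.path (St.E :: w) (k + 1) = (1 + (H981.path w k).1, (H981.path w k).2) := by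
    intro k
    rw [path_cons_succ]
    simp [St.x_E, St.y_E]
  have hnn : ∀ k ≤ w.length, 0 ≤ (H981.path w k).1 := by
    intro k hk
    rcases Nat.eq_zero_or_pos k with h | h
    · subst h; rw [path_zero']
    · exact (h2 k h hk).le
  have hy0 : 0 < dy w := by
    have := h3 0 (by omega)
    rwa [path_zero'] at this
  refine ⟨St.E :: w, mem_fs.2 ⟨⟨?_, ⟨?_, ?_⟩, ⟨?_, ?_⟩, ?_⟩, ?_⟩, rfl⟩
  · rw [saw_iff']
    intro i j hij hj
    rw [List.length_cons] at hj
    obtain ⟨j, rfl⟩ : ∃ j', j = j' + 1 := ⟨j - 1, by omega⟩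
    rcases Nat.eq_zero_or_pos i with h0 | h0
    · subst h0
      rw [path_zero', hp]
      intro he
      have := hnn j (by omega)
      have e1 := (Prod.mk.inj he).1
      omega
    · obtain ⟨i, rfl⟩ : ∃ i', i = i' + 1 := ⟨i - 1, by omega⟩
      rw [hp, hp]
      intro he
      obtain ⟨e1, e2⟩ := Prod.mk.inj he
      exact saw_iff'.1 h1 i j (by omega) (by omega) (Prod.ext (by omega) (by omega))
  · intro k hk hkl
    rw [List.length_cons] at hkl
    obtain ⟨k, rfl⟩ : ∃ k', k = k' + 1 := ⟨k - 1, by omega⟩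
    rw [hp]
    have := hnn k (by omega)
    simp only
    omega
  · intro k hkl
    rw [List.length_cons] at hkl
    rw [dy_cons, St.y_E, zero_add]
    rcases Nat.eq_zero_or_pos k with h | h
    · subst h; rw [path_zero']; exact hy0
    · obtain ⟨k, rfl⟩ : ∃ k', k = k' + 1 := ⟨k - 1, by omega⟩
      rw [hp]
      exact h3 k (by omega)
  · rw [dx_cons, St.x_E, h4]; ring
  · rw [dy_cons, St.y_E, h5]; ring
  · have e : St.E :: w = [St.E] ++ w := rfl
    rw [e, Fa_append]
    have e1 : Fa [St.E] = 0 := by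
      simp [Fa, H981.path]
    have e2 : dx [St.E] = 1 := by rw [dx_cons, St.x_E]; simp
    rw [e1, e2]
    omega
  · rw [List.length_cons, h7]

/-- two corner words make a half plane word -/
theorem cor_cor {N1 N2 : ℕ} (h1N : 1 ≤ N1) (x y S1 S2 : ℤ) :
    cor N1 x y S1 * cor N2 x y S2 ≤ half (N1 + N2) (2 * y) (S1 + S2) := by
  classical
  unfold cor half
  rw [← Finset.card_product]
  apply Finset.card_le_card_of_injOn (fun q => q.1 ++ rv (ng q.2))
  · rintro ⟨u, v⟩ hq
    rw [Finset.mem_coe, Finset.mem_product, mem_fs, mem_fs] at hq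
    obtain ⟨⟨⟨h1, ⟨h2, h3⟩, ⟨h4, h5⟩, h6⟩, h7⟩, ⟨g1, ⟨g2, g3⟩, ⟨g4, g5⟩, g6⟩, g7⟩ := hq
    simp only at h1 h2 h3 h4 h5 h6 h7 g1 g2 g3 g4 g5 g6 g7
    rw [Finset.mem_coe, mem_fs]
    simp only
    have hlr : (rv (ng v)).length = N2 := by rw [length_rv, length_ng, g7]
    have hp : ∀ k, H981.path (u ++ rv (ng v)) (N1 + k) =
        ((H981.path v (N2 - k)).1, 2 * y - (H981.path v (N2 - k)).2) := by
      intro k
      rw [← h7, path_append_right, path_rv, path_ng', length_ng, g7, dx_ng, dy_ng]
      ext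
      · simp only; omega
      · simp only; omega
    have hpl : ∀ k ≤ N1, H981.path (u ++ rv (ng v)) k = H981.path u k := fun k hk =>
      path_append_left (by omega)
    have hyle : ∀ k ≤ N1, (H981.path u k).2 ≤ y := by
      intro k hk
      rcases Nat.lt_or_ge k u.length with h | h
      · have := h3 k h; omega
      · have e : k = u.length := by omega
        rw [e, path_len]
        exact h5.le
    refine ⟨⟨?_, ?_, ⟨?_, ?_⟩, ?_⟩, by rw [List.length_append, h7, hlr]⟩
    · rw [saw_iff']
      intro i j hij hj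
      rw [List.length_append, h7, hlr] at hj
      rcases Nat.lt_or_ge N1 j with hj1 | hj1
      · obtain ⟨l, rfl⟩ : ∃ l, j = N1 + l := ⟨j - N1, by omega⟩
        rw [hp l]
        rcases Nat.lt_or_ge N1 i with hi1 | hi1
        · obtain ⟨l', rfl⟩ : ∃ l', i = N1 + l' := ⟨i - N1, by omega⟩
          rw [hp l']
          intro he
          obtain ⟨e1, e2⟩ := Prod.mk.inj he
          exact saw_iff'.1 g1 (N2 - l) (N2 - l') (by omega) (by omega)
            (Prod.ext e1.symm (by omega))
        · rw [hpl i hi1]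
          intro he
          have e1 := hyle i hi1
          have e2 := g3 (N2 - l) (by omega)
          have e3 := congrArg Prod.snd he
          simp only at e3
          omega
      · rw [hpl i (by omega), hpl j hj1]
        exact saw_iff'.1 h1 i j hij (by omega)
    · intro k hk hkl
      rw [List.length_append, h7, hlr] at hkl
      rcases Nat.lt_or_ge N1 k with hk1 | hk1
      · obtain ⟨l, rfl⟩ : ∃ l, k = N1 + l := ⟨k - N1, by omega⟩
        rw [hp l]
        exact g2 (N2 - l) (by omega) (by omega)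
      · rw [hpl k hk1]
        exact h2 k hk (by omega)
    · rw [dx_append, dx_rv, dx_ng]; omega
    · rw [dy_append, dy_rv, dy_ng]; omega
    · rw [Fa_append, Fa_rv, Fa_ng, dx_ng, dy_ng, dy_rv, dy_ng, h4, g4, g5]
      have : Fa u + (- -Fa v + x * -y) + x * - -y = Fa u + Fa v := by ring
      omega
  · rintro ⟨u, v⟩ hq ⟨u', v'⟩ hq' he
    rw [Finset.mem_coe, Finset.mem_product, mem_fs, mem_fs] at hq hq'
    simp only at hq hq' he
    obtain ⟨e1, e2⟩ := List.append_inj he (by omega)
    have e3 := congrArg rv e2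
    rw [rv_rv, rv_rv] at e3
    have e4 := congrArg ng e3
    rw [ng_ng, ng_ng] at e4
    rw [e1, e4]

/-- loops with a large area -/
def LA (M : ℕ) (S : ℤ) : Set (ZMod M → ℤ × ℤ) := {f | IsLoop M f ∧
  S ≤ |∑ k ∈ range M, (f (k : ZMod M)).1 * ((f ((k : ZMod M) + 1)).2 - (f (k : ZMod M)).2)|}

theorem LA_fin {M : ℕ} (hM : 2 ≤ M) (S : ℤ) : (LA M S).Finite :=
  (loops_fin hM).subset fun _ hf => hf.1

theorem area_word {M : ℕ} (hM : 2 ≤ M) {W : List St} (hl : W.length = M) (hx : dx W = 0)
    (hy : dy W = 0) : ∑ k ∈ range M, (H981.path W ((k : ZMod M)).val).1 *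
      ((H981.path W ((k : ZMod M) + 1).val).2 - (H981.path W ((k : ZMod M)).val).2) = Fa W := by
  have : NeZero M := ⟨by omega⟩
  unfold Fa
  rw [hl]
  apply Finset.sum_congr rfl
  intro k hk
  rw [Finset.mem_range] at hk
  have h1 : ((k : ZMod M)).val = k := ZMod.val_cast_of_lt hk
  rw [h1]
  rcases Nat.lt_or_ge (k + 1) M with h | h
  · have h2 : ((k : ZMod M) + 1).val = k + 1 := by
      have := ZMod.val_cast_of_lt h
      push_cast at this
      exact this
    rw [h2]
  · have h3 : k + 1 = M := by omega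
    have h2 : ((k : ZMod M) + 1).val = 0 := by
      have : ((k + 1 : ℕ) : ZMod M) = 0 := by rw [h3]; exact ZMod.natCast_self M
      push_cast at this
      rw [this]
      exact ZMod.val_zero
    have h4 : H981.path W (k + 1) = (0, 0) := by
      rw [h3, ← hl, path_len, hx, hy]
    rw [h2, h4, path_zero']

/-- two half plane words make a loop -/
theorem half_half {N1 N2 : ℕ} (h1N : 1 ≤ N1) (h2N : 1 ≤ N2) (y S1 S2 : ℤ) :
    half N1 y S1 * half N2 y S2 ≤ (LA (N1 + N2) (S1 + S2)).ncard := by
  classical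
  obtain ⟨M, hMd⟩ : ∃ M, M = N1 + N2 := ⟨_, rfl⟩
  rw [← hMd]
  have hM : 2 ≤ M := by omega
  have : NeZero M := ⟨by omega⟩
  have hval : ∀ k : ℕ, k < M → ((k : ZMod M)).val = k := fun k hk => ZMod.val_cast_of_lt hk
  obtain ⟨φ, hφ⟩ : ∃ φ : List St × List St → (ZMod M → ℤ × ℤ), ∀ q i,
      φ q i = H981.path (q.1 ++ rv (sg q.2)) i.val := ⟨_, fun _ _ => rfl⟩
  unfold half
  rw [← Finset.card_product]
  have p1 : ∀ u v : List St, u.length = N1 → ∀ k ≤ N1, H981.path (u ++ rv (sg v)) k =
      H981.path u k := fun u v hu k hk => path_append_left (by omega)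
  have p2 : ∀ u v : List St, u.length = N1 → v.length = N2 → dx u = 0 → dy u = y →
      dx v = 0 → dy v = y → ∀ l, H981.path (u ++ rv (sg v)) (N1 + l) =
        (-(H981.path v (N2 - l)).1, (H981.path v (N2 - l)).2) := by
    intro u v hu hv hux huy hvx hvy l
    rw [← hu, path_append_right, path_rv, path_sg', length_sg, hv, dx_sg, dy_sg]
    ext
    · simp only; omega
    · simp only; omega
  rw [← Finset.card_image_of_injOn (f := φ) ?_, ← Set.ncard_coe_finset]
  · apply Set.ncard_le_ncard _ (LA_fin hM _)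
    intro f hf
    rw [Finset.mem_coe, Finset.mem_image] at hf
    obtain ⟨⟨u, v⟩, h1, rfl⟩ := hf
    rw [Finset.mem_product, mem_fs, mem_fs] at h1
    obtain ⟨⟨⟨hu, hulo, ⟨hux, huy⟩, huS⟩, hul⟩, ⟨hv, hvlo, ⟨hvx, hvy⟩, hvS⟩, hvl⟩ := h1
    simp only at hu hulo hux huy huS hul hv hvlo hvx hvy hvS hvl
    obtain ⟨W, hW⟩ : ∃ W, W = u ++ rv (sg v) := ⟨_, rfl⟩
    have hWl : W.length = M := by
      rw [hW, List.length_append, length_rv, length_sg]; omega
    have hfun : φ (u, v) = fun i : ZMod M => H981.path W i.val := by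
      funext i
      rw [hφ, hW]
    have q1 := p1 u v hul
    have q2 := p2 u v hul hvl hux huy hvx hvy
    rw [← hW] at q1 q2
    have hWx : dx W = 0 := by rw [hW, dx_append, dx_rv, dx_sg]; omega
    have hWy : dy W = 0 := by rw [hW, dy_append, dy_rv, dy_sg]; omega
    have hnn : ∀ k ≤ N1, 0 ≤ (H981.path u k).1 := by
      intro k hk
      rcases Nat.eq_zero_or_pos k with h | h
      · subst h; rw [path_zero']
      · rcases Nat.lt_or_ge k N1 with h' | h'
        · exact (hulo k h (by omega)).le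
        · have e : k = u.length := by omega
          rw [e, path_len]
          exact hux.ge
    refine ⟨?_, ?_⟩
    · rw [hfun]
      apply loop_of hM hWl hWx hWy
      intro i j hij hj
      rcases Nat.lt_or_ge N1 j with h2 | h2
      · obtain ⟨l, rfl⟩ : ∃ l, j = N1 + l := ⟨j - N1, by omega⟩
        rw [q2 l]
        rcases Nat.lt_or_ge N1 i with h3 | h3
        · obtain ⟨l', rfl⟩ : ∃ l', i = N1 + l' := ⟨i - N1, by omega⟩
          rw [q2 l']
          intro he
          obtain ⟨e1, e2⟩ := Prod.mk.inj he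
          exact saw_iff'.1 hv (N2 - l) (N2 - l') (by omega) (by omega)
            (Prod.ext (by omega) e2.symm)
        · rw [q1 i h3]
          intro he
          have e1 := hnn i h3
          have e2 := hvlo (N2 - l) (by omega) (by omega)
          have e3 := congrArg Prod.fst he
          simp only at e3
          omega
      · rw [q1 i (by omega), q1 j h2]
        exact saw_iff'.1 hu i j hij (by omega)
    · rw [hfun]
      simp only
      rw [area_word hM hWl hWx hWy, hW, Fa_append, Fa_rv, Fa_sg, dx_sg, hux, hvx]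
      refine le_trans ?_ (le_abs_self _)
      have : Fa u + (- -Fa v + -0 * dy (sg v)) + 0 * dy (rv (sg v)) = Fa u + Fa v := by ring
      omega
  · rintro ⟨u, v⟩ h1 ⟨u', v'⟩ h2 heq
    rw [Finset.mem_coe, Finset.mem_product, mem_fs, mem_fs] at h1 h2
    obtain ⟨⟨⟨hu, hulo, ⟨hux, huy⟩, huS⟩, hul⟩, ⟨hv, hvlo, ⟨hvx, hvy⟩, hvS⟩, hvl⟩ := h1
    obtain ⟨⟨⟨hu', hulo', ⟨hux', huy'⟩, huS'⟩, hul'⟩, ⟨hv', hvlo', ⟨hvx', hvy'⟩, hvS'⟩, hvl'⟩ := h2
    simp only at hu hulo hux huy huS hul hv hvlo hvx hvy hvS hvl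
    simp only at hu' hulo' hux' huy' huS' hul' hv' hvlo' hvx' hvy' hvS' hvl'
    have hk : ∀ k, k < M → H981.path (u ++ rv (sg v)) k = H981.path (u' ++ rv (sg v')) k := by
      intro k hk
      have := congrFun heq (k : ZMod M)
      rw [hφ, hφ, hval k hk] at this
      exact this
    have e1 : u = u' := by
      apply word_ext (by omega)
      intro k hk'
      have g1 := hk k (by omega)
      rw [p1 u v hul k (by omega), p1 u' v' hul' k (by omega)] at g1
      exact g1
    have e2 : v = v' := by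
      apply word_ext (by omega)
      intro l hl'
      rcases Nat.eq_zero_or_pos l with h0 | h0
      · subst h0; rw [path_zero', path_zero']
      · have g1 := hk (N1 + (N2 - l)) (by omega)
        rw [p2 u v hul hvl hux huy hvx hvy, p2 u' v' hul' hvl' hux' huy' hvx' hvy',
          show N2 - (N2 - l) = l by omega] at g1
        obtain ⟨g2, g3⟩ := Prod.mk.inj g1
        exact Prod.ext (by omega) g3
    rw [e1, e2]

end Pool.Agent.U262.AR
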