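import Pool.Agent.U262.AR.W4

/-!
From chains of bridges to loops with a large area.
-/

set_option autoImplicit false

namespace Pool.Agent.U262.AR

open Pool.Agent.TH795.EP Pool.Agent.TH795.EP2 Pool.Agent.TH795.SE2 Pool.Agent.TH262.SawL H981 Finset
open Pool.Agent.Y981.L2 Pool.Agent.U262.SW

theorem rep_ok {s : St} (hs : s.x + s.y = 1) (n : ℕ) :
    Saw (List.replicate n s) ∧ Br1 (List.replicate n s) := by
  have h1 : ∀ k ≤ n, sm (H981.path (List.replicate n s) k) = k := by
    intro k hk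
    rw [path_rep s hk]
    unfold sm
    simp only
    rw [← mul_add, hs, mul_one]
  constructor
  · rw [saw_iff']
    intro i j hij hj
    rw [List.length_replicate] at hj
    intro he
    have e1 := h1 i (by omega)
    have e2 := h1 j hj
    rw [he, e2] at e1
    omega
  · intro k hk hkl
    rw [List.length_replicate] at hkl
    rw [h1 k hkl, dx_rep, dy_rep, ← mul_add, hs, mul_one]
    omega

theorem Fa_repE (n : ℕ) : Fa (List.replicate n St.E) = 0 := by
  unfold Fa
  rw [List.length_replicate]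
  apply Finset.sum_eq_zero
  intro k hk
  rw [Finset.mem_range] at hk
  rw [path_rep _ (by omega), path_rep _ (by omega), St.y_E]
  simp

theorem Fa_repN (n : ℕ) : Fa (List.replicate n St.N) = 0 := by
  unfold Fa
  rw [List.length_replicate]
  apply Finset.sum_eq_zero
  intro k hk
  rw [Finset.mem_range] at hk
  rw [path_rep _ (by omega), path_rep _ (by omega), St.x_N]
  simp

theorem ch_cor {m l1 l2 : ℕ} (h1 : m < l1) (h2 : m < l2) (L : List (ℤ × ℤ))
    (hL : ∀ z ∈ L, 0 ≤ z.1 ∧ 0 ≤ z.2) : chn m L ≤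
    ∑ p ∈ Icc (0 : ℤ) ((l2 + m * L.length + l1 : ℕ) : ℤ) ×ˢ
        Icc (0 : ℤ) ((l2 + m * L.length + l1 : ℕ) : ℤ),
      cor (l2 + m * L.length + l1) p.1 p.2 (EE L - L.length * (m : ℤ) ^ 2) := by
  classical
  unfold cor
  rw [← Finset.card_sigma]
  unfold chn
  apply card_le_of_decode (fun q : (_ : ℤ × ℤ) × List St => (q.2.drop l2).take (m * L.length))
  intro B hB
  rw [mem_fs] at hB
  obtain ⟨⟨b1, b2, b3, b4, b5, b6, b7⟩, b8⟩ := hB
  obtain ⟨s1, s2⟩ := sum_nonneg' hL
  obtain ⟨hE1, hE2⟩ := rep_ok (s := St.E) (by rw [St.x_E, St.y_E]; rfl) l2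
  obtain ⟨hN1, hN2⟩ := rep_ok (s := St.N) (by rw [St.x_N, St.y_N]; rfl) l1
  have hx0 : 0 ≤ dx B := s1.trans b3
  have hy0 : 0 ≤ dy B := s2.trans b4
  obtain ⟨V, hV⟩ : ∃ V, V = B ++ List.replicate l1 St.N := ⟨_, rfl⟩
  obtain ⟨w, hw⟩ : ∃ w, w = List.replicate l2 St.E ++ V := ⟨_, rfl⟩
  obtain ⟨v1, v2⟩ := br1_append b1 b2 hN1 hN2
  rw [← hV] at v1 v2
  obtain ⟨w1, w2⟩ := br1_append hE1 hE2 v1 v2
  rw [← hw] at w1 w2
  have hVl : V.length = m * L.length + l1 := by
    rw [hV, List.length_append, b8, List.length_replicate]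
  have hwl : w.length = l2 + m * L.length + l1 := by
    rw [hw, List.length_append, hVl, List.length_replicate]; omega
  have hVx : dx V = dx B := by rw [hV, dx_append, dx_rep, St.x_N]; ring
  have hVy : dy V = dy B + l1 := by rw [hV, dy_append, dy_rep, St.y_N]; ring
  have hwx : dx w = l2 + dx B := by rw [hw, dx_append, dx_rep, St.x_E, hVx]; ring
  have hwy : dy w = dy B + l1 := by rw [hw, dy_append, dy_rep, St.y_E, hVy]; ring
  have hp1 : ∀ k ≤ l2, H981.path w k = ((k : ℤ), 0) := by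
    intro k hk
    rw [hw, path_append_left (by rw [List.length_replicate]; exact hk), path_rep _ hk, St.x_E,
      St.y_E]
    simp
  have hp2 : ∀ k, H981.path w (l2 + k) = (l2 + (H981.path V k).1, (H981.path V k).2) := by
    intro k
    have := path_append_right (List.replicate l2 St.E) V k
    rw [List.length_replicate, ← hw, dx_rep, dy_rep, St.x_E, St.y_E] at this
    rw [this]
    ext
    · simp only; ring
    · simp only; ring
  have hV1 : ∀ k ≤ m * L.length, H981.path V k = H981.path B k := by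
    intro k hk
    rw [hV]
    exact path_append_left (by omega)
  have hV2 : ∀ k ≤ l1, H981.path V (m * L.length + k) = (dx B, dy B + k) := by
    intro k hk
    have := path_append_right B (List.replicate l1 St.N) k
    rw [b8, ← hV, path_rep _ hk, St.x_N, St.y_N] at this
    rw [this]
    ext
    · simp only; ring
    · simp only; ring
  have habs := abs_add_abs_le w
  rw [hwl, hwx, hwy] at habs
  have ab1 := le_abs_self ((l2 : ℤ) + dx B)
  have ab2 := le_abs_self (dy B + (l1 : ℤ))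
  have ab3 := abs_nonneg ((l2 : ℤ) + dx B)
  have ab4 := abs_nonneg (dy B + (l1 : ℤ))
  refine ⟨⟨(dx w, dy w), w⟩, ?_, ?_⟩
  · rw [Finset.mem_sigma]
    simp only [Finset.mem_product, Finset.mem_Icc, mem_fs]
    rw [hwx, hwy]
    refine ⟨⟨⟨by omega, by omega⟩, by omega, by omega⟩, ⟨w1, ⟨?_, ?_⟩, by simp, ?_⟩, hwl⟩
    · intro k hk hkl
      rw [hwl] at hkl
      rcases Nat.lt_or_ge l2 k with hk1 | hk1
      · obtain ⟨j, rfl⟩ : ∃ j, k = l2 + j := ⟨k - l2, by omega⟩
        rw [hp2]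
        rcases Nat.lt_or_ge (m * L.length) j with hj | hj
        · obtain ⟨i, rfl⟩ : ∃ i, j = m * L.length + i := ⟨j - m * L.length, by omega⟩
          rw [hV2 i (by omega)]
          simp only
          omega
        · rw [hV1 j hj]
          have := b5 j
          simp only
          omega
      · rw [hp1 k hk1]
        simp only
        omega
    · intro k hkl
      rw [hwl] at hkl
      rw [hwy]
      rcases Nat.lt_or_ge l2 k with hk1 | hk1
      · obtain ⟨j, rfl⟩ : ∃ j, k = l2 + j := ⟨k - l2, by omega⟩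
        rw [hp2]
        rcases Nat.lt_or_ge (m * L.length) j with hj | hj
        · obtain ⟨i, rfl⟩ : ∃ i, j = m * L.length + i := ⟨j - m * L.length, by omega⟩
          rw [hV2 i (by omega)]
          simp only
          omega
        · rw [hV1 j hj]
          have := b6 j
          simp only
          omega
      · rw [hp1 k hk1]
        simp only
        omega
    · rw [hw, Fa_append, Fa_repE, hV, Fa_append, Fa_repN, ← hV, hVy, dx_rep, dy_rep, St.x_E,
        St.y_N]
      have e1 : 0 ≤ (l2 : ℤ) * (dy B + l1) := mul_nonneg (by omega) (by omega)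
      have e2 : 0 ≤ dx B * (l1 : ℤ) := mul_nonneg hx0 (by omega)
      linarith
  · simp only
    rw [hw, List.drop_left' (List.length_replicate ..), hV, List.take_left' b8]

/-- **Loops with a large area from chains of bridges.** -/
theorem la_low {m n : ℕ} (L : List (ℤ × ℤ)) (hL : ∀ z ∈ L, 0 ≤ z.1 ∧ 0 ≤ z.2)
    (hn : m * L.length + 2 * (m + 1) ≤ n / 2) :
    chn m L ^ 4 ≤ (n / 2 + 1) ^ 8 * (LA (2 * n) (4 * (EE L - L.length * (m : ℤ) ^ 2))).ncard := by
  classical
  obtain ⟨S, hS⟩ : ∃ S, S = EE L - L.length * (m : ℤ) ^ 2 := ⟨_, rfl⟩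
  obtain ⟨l2, hl2⟩ : ∃ l2, n / 2 = l2 + m * L.length + (m + 1) :=
    ⟨n / 2 - m * L.length - (m + 1), by omega⟩
  have h1 := ch_cor (l1 := m + 1) (l2 := l2) (Nat.lt_succ_self m) (by omega) L hL
  rw [← hl2, ← hS] at h1
  rw [← hS]
  obtain ⟨Q, hQ⟩ : ∃ Q, Q = n / 2 := ⟨_, rfl⟩
  rw [← hQ] at h1 hl2
  rw [← hQ]
  obtain ⟨p, hp, hmax⟩ := Finset.exists_max_image (Icc (0 : ℤ) (Q : ℤ) ×ˢ Icc (0 : ℤ) (Q : ℤ))
    (fun p => cor Q p.1 p.2 S) ⟨(0, 0), by simp⟩
  have h2 : chn m L ≤ (Q + 1) ^ 2 * cor Q p.1 p.2 S := by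
    refine h1.trans ((Finset.sum_le_sum hmax).trans (le_of_eq ?_))
    rw [Finset.sum_const, Finset.card_product, Int.card_Icc, smul_eq_mul]
    have : ((Q : ℤ) + 1 - 0).toNat = Q + 1 := by omega
    rw [this, sq]
  have hQ1 : 1 ≤ Q := by omega
  -- the loops
  have h3 : cor Q p.1 p.2 S ^ 4 ≤ (LA (2 * n) (4 * S)).ncard := by
    have g1 := cor_cor hQ1 p.1 p.2 S S (N2 := Q)
    rcases Nat.even_or_odd n with hev | hod
    · have e : 2 * n = (Q + Q) + (Q + Q) := by
        obtain ⟨r, hr⟩ := hev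
        omega
      have g2 := half_half (N1 := Q + Q) (N2 := Q + Q) (by omega) (by omega) (2 * p.2) (S + S) (S + S)
      rw [← e, show S + S + (S + S) = 4 * S by ring] at g2
      refine le_trans ?_ g2
      calc cor Q p.1 p.2 S ^ 4 = (cor Q p.1 p.2 S * cor Q p.1 p.2 S) *
            (cor Q p.1 p.2 S * cor Q p.1 p.2 S) := by ring
        _ ≤ _ := Nat.mul_le_mul g1 g1
    · have e : 2 * n = (Q + Q) + ((Q + 1) + (Q + 1)) := by
        obtain ⟨r, hr⟩ := hod
        omega
      have g3 := cor_E hQ1 p.1 p.2 S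
      have g4 := cor_cor (N1 := Q + 1) (N2 := Q + 1) (by omega) (p.1 + 1) p.2 S S
      have g2 := half_half (N1 := Q + Q) (N2 := (Q + 1) + (Q + 1)) (by omega) (by omega)
        (2 * p.2) (S + S) (S + S)
      rw [← e, show S + S + (S + S) = 4 * S by ring] at g2
      refine le_trans ?_ g2
      calc cor Q p.1 p.2 S ^ 4 = (cor Q p.1 p.2 S * cor Q p.1 p.2 S) *
            (cor Q p.1 p.2 S * cor Q p.1 p.2 S) := by ring
        _ ≤ _ := Nat.mul_le_mul g1 ((Nat.mul_le_mul g3 g3).trans g4)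
  calc chn m L ^ 4 ≤ ((Q + 1) ^ 2 * cor Q p.1 p.2 S) ^ 4 := Nat.pow_le_pow_left h2 4
    _ = (Q + 1) ^ 8 * cor Q p.1 p.2 S ^ 4 := by ring
    _ ≤ _ := Nat.mul_le_mul_left _ h3

end Pool.Agent.U262.AR
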