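import Pool.Agent.U262.AR.W5

/-!
The lower bound for the large deviations of the area.
-/

set_option autoImplicit false

namespace Pool.Agent.U262.AR

open Pool.Agent.TH795.EP Pool.Agent.TH795.EP2 Pool.Agent.TH795.SE2 Pool.Agent.TH262.SawL H981 Finset
open Pool.Agent.Y981.L2 Pool.Agent.U262.SW

/-- the sum over all pairs -/
def DD (L : List (ℤ × ℤ)) : ℤ :=
  (L.map fun u => (L.map fun v => max (u.1 * v.2) (v.1 * u.2)).sum).sum

theorem EE_sorted : ∀ L : List (ℤ × ℤ), L.Pairwise (fun u v => v.1 * u.2 ≤ u.1 * v.2) →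
    2 * EE L + (L.map fun z => z.1 * z.2).sum = DD L := by
  intro L
  induction L with
  | nil => intro _; simp [EE, DD]
  | cons u L ih =>
    intro h
    rw [List.pairwise_cons] at h
    obtain ⟨h1, h2⟩ := h
    have g := ih h2
    have e1 : (L.map fun v => max (u.1 * v.2) (v.1 * u.2)).sum = u.1 * (L.map Prod.snd).sum := by
      rw [← List.sum_map_mul_left]
      congr 1
      apply List.map_congr_left
      intro v hv
      exact max_eq_left (h1 v hv)
    have e2 : DD (u :: L) = u.1 * u.2 + 2 * (u.1 * (L.map Prod.snd).sum) + DD L := by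
      unfold DD
      simp only [List.map_cons, List.sum_cons, max_self]
      rw [e1, List.sum_map_add]
      have e3 : (L.map fun v => max (v.1 * u.2) (u.1 * v.2)).sum =
          (L.map fun v => max (u.1 * v.2) (v.1 * u.2)).sum := by
        congr 1
        apply List.map_congr_left
        intro v _
        exact max_comm _ _
      rw [e3, e1]
      ring
    rw [e2, List.map_cons, List.sum_cons, ← g]
    show 2 * (u.1 * (L.map Prod.snd).sum + EE L) + _ = _
    ring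

theorem DD_perm {L L' : List (ℤ × ℤ)} (h : L.Perm L') : DD L = DD L' := by
  unfold DD
  have e1 : ∀ u : ℤ × ℤ, (L.map fun v => max (u.1 * v.2) (v.1 * u.2)).sum =
      (L'.map fun v => max (u.1 * v.2) (v.1 * u.2)).sum := fun u => (h.map _).sum_eq
  simp only [e1]
  exact (h.map _).sum_eq

/-- the slope -/
noncomputable def key (z : ℤ × ℤ) : ℝ := (z.2 : ℝ) / z.1

theorem exists_sorted (L0 : List (ℤ × ℤ)) (hpos : ∀ z ∈ L0, 1 ≤ z.1 ∧ 1 ≤ z.2) :
    ∃ L : List (ℤ × ℤ), L.Perm L0 ∧ L.Pairwise (fun u v => v.1 * u.2 ≤ u.1 * v.2) := by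
  classical
  refine ⟨L0.insertionSort (fun u v => key u ≤ key v), List.perm_insertionSort _ _, ?_⟩
  have ht : IsTotal (ℤ × ℤ) (fun u v => key u ≤ key v) := ⟨fun u v => le_total _ _⟩
  have htr : IsTrans (ℤ × ℤ) (fun u v => key u ≤ key v) := ⟨fun u v w h1 h2 => le_trans h1 h2⟩
  have h1 := List.pairwise_insertionSort (fun u v : ℤ × ℤ => key u ≤ key v) L0
  apply List.Pairwise.imp_of_mem _ h1
  intro u v hu hv h
  have hu' := (hpos u ((List.mem_insertionSort _).1 hu)).1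
  have hv' := (hpos v ((List.mem_insertionSort _).1 hv)).1
  have a1 : (0 : ℝ) < u.1 := by exact_mod_cast (by omega : 0 < u.1)
  have a2 : (0 : ℝ) < v.1 := by exact_mod_cast (by omega : 0 < v.1)
  unfold key at h
  rw [div_le_div_iff₀ a1 a2] at h
  have : u.2 * v.1 ≤ v.2 * u.1 := by exact_mod_cast h
  linarith

/-- the list with multiplicities -/
def mul {k : ℕ} (N : Fin k → ℕ) (z : Fin k → ℤ × ℤ) : List (ℤ × ℤ) :=
  (List.finRange k).flatMap fun i => List.replicate (N i) (z i)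

theorem sum_mul {k : ℕ} (N : Fin k → ℕ) (z : Fin k → ℤ × ℤ) (f : ℤ × ℤ → ℤ) :
    ((mul N z).map f).sum = ∑ i, (N i : ℤ) * f (z i) := by
  unfold mul
  rw [List.flatMap_def, List.map_flatten, List.sum_flatten, List.map_map, List.map_map,
    Fin.sum_univ_def]
  congr 1
  apply List.map_congr_left
  intro i _
  simp

theorem length_mul {k : ℕ} (N : Fin k → ℕ) (z : Fin k → ℤ × ℤ) :
    (mul N z).length = ∑ i, N i := by
  unfold mul
  rw [List.length_flatMap, Fin.sum_univ_def]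
  congr 1
  apply List.map_congr_left
  intro i _
  simp

theorem prod_mul {k : ℕ} (N : Fin k → ℕ) (z : Fin k → ℤ × ℤ) (f : ℤ × ℤ → ℕ) :
    ((mul N z).map f).prod = ∏ i, f (z i) ^ N i := by
  unfold mul
  rw [List.flatMap_def, List.map_flatten, List.prod_flatten, List.map_map, List.map_map,
    Fin.prod_univ_def]
  congr 1
  apply List.map_congr_left
  intro i _
  simp

theorem mem_mul {k : ℕ} {N : Fin k → ℕ} {z : Fin k → ℤ × ℤ} {w : ℤ × ℤ} (h : w ∈ mul N z) :
    ∃ i, w = z i := by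
  unfold mul at h
  rw [List.mem_flatMap] at h
  obtain ⟨i, -, h2⟩ := h
  exact ⟨i, (List.mem_replicate.1 h2).2⟩

theorem DD_mul {k : ℕ} (N : Fin k → ℕ) (z : Fin k → ℤ × ℤ) :
    DD (mul N z) = ∑ i, ∑ j, (N i : ℤ) * ((N j : ℤ) * max ((z i).1 * (z j).2) ((z j).1 * (z i).2)) := by
  unfold DD
  rw [sum_mul]
  apply Finset.sum_congr rfl
  intro i _
  rw [sum_mul, Finset.mul_sum]

/-- **Loops with a large area, in terms of bridges.** -/
theorem la_pieces {m n k : ℕ} (N : Fin k → ℕ) (z : Fin k → ℤ × ℤ) (hz : ∀ i, 1 ≤ (z i).1 ∧ 1 ≤ (z i).2 ∧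
    (z i).1 + (z i).2 ≤ m) (hn : m * (∑ i, N i) + 2 * (m + 1) ≤ n / 2) :
    (∏ i, pb m (z i).1 (z i).2 ^ N i) ^ 4 ≤ (n / 2 + 1) ^ 8 * (LA (2 * n)
      (2 * (∑ i, ∑ j, (N i : ℤ) * ((N j : ℤ) * max ((z i).1 * (z j).2) ((z j).1 * (z i).2))) -
        6 * ((∑ i, N i : ℕ) : ℤ) * (m : ℤ) ^ 2)).ncard := by
  have hpos : ∀ w ∈ mul N z, 1 ≤ w.1 ∧ 1 ≤ w.2 := by
    intro w hw
    obtain ⟨i, rfl⟩ := mem_mul hw
    exact ⟨(hz i).1, (hz i).2.1⟩
  obtain ⟨L, hperm, hsort⟩ := exists_sorted (mul N z) hpos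
  have hlen : L.length = ∑ i, N i := by rw [hperm.length_eq, length_mul]
  have hL : ∀ w ∈ L, 0 ≤ w.1 ∧ 0 ≤ w.2 := by
    intro w hw
    have := hpos w (hperm.mem_iff.1 hw)
    omega
  have h1 := la_low (m := m) (n := n) L hL (by rw [hlen]; exact hn)
  have h2 := EE_sorted L hsort
  rw [DD_perm hperm, DD_mul] at h2
  have h3 : (L.map fun z => z.1 * z.2).sum ≤ ((∑ i, N i : ℕ) : ℤ) * (m : ℤ) ^ 2 := by
    rw [(hperm.map _).sum_eq, sum_mul]
    push_cast
    rw [Finset.sum_mul]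
    apply Finset.sum_le_sum
    intro i _
    obtain ⟨a1, a2, a3⟩ := hz i
    have a4 : (z i).1 * (z i).2 ≤ (m : ℤ) ^ 2 := by nlinarith
    exact mul_le_mul_of_nonneg_left a4 (Nat.cast_nonneg _)
  have h4 : (∏ i, pb m (z i).1 (z i).2 ^ N i) ≤ chn m L := by
    refine le_trans (le_of_eq ?_) (chn_low m L hL)
    rw [(hperm.map _).prod_eq, prod_mul]
  refine (Nat.pow_le_pow_left h4 4).trans (h1.trans (Nat.mul_le_mul_left _ ?_))
  by_cases hn2 : n = 0
  · subst hn2
    omega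
  apply Set.ncard_le_ncard _ (LA_fin (by omega) _)
  rintro f ⟨hf, hf2⟩
  refine ⟨hf, le_trans ?_ hf2⟩
  rw [hlen]
  have h5 : (0 : ℤ) ≤ ((∑ i, N i : ℕ) : ℤ) * (m : ℤ) ^ 2 := by positivity
  linarith

end Pool.Agent.U262.AR
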